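import Mathlib
import Pool.Agent.Helper6.MR.Iface

set_option autoImplicit false

/-! Project MR (MP_e0aac0_nt), block D (Matomaki-Radziwill in logarithmic averages): definitions
and first lemmas.

All Dirichlet polynomials are written on the 1-line: `cp n t = n^(-1-it)`,
`DP N a t = ∑_{n ≤ N} a n * n^(-1-it)`, with quadratic norm `NN N a = ∑ |a n|^2 / n^2`.
`wt η t = exp(-(η t)^2/2)` is the Gaussian weight. -/

namespace MRD

open Finset MRP MeasureTheory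

/-- `n^(-1-it)` -/
noncomputable def cp (n : ℕ) (t : ℝ) : ℂ := (n : ℂ) ^ (-(1 + (t : ℂ) * Complex.I))

/-- Dirichlet polynomial on the 1-line. -/
noncomputable def DP (N : ℕ) (a : ℕ → ℂ) (t : ℝ) : ℂ := ∑ n ∈ Finset.Icc 1 N, a n * cp n t

/-- The quadratic norm. -/
noncomputable def NN (N : ℕ) (a : ℕ → ℂ) : ℝ := ∑ n ∈ Finset.Icc 1 N, ‖a n‖ ^ 2 / (n : ℝ) ^ 2

/-- The Gaussian weight. -/
noncomputable def wt (η t : ℝ) : ℝ := Real.exp (-(η * t) ^ 2 / 2)

/-- Smooth bump, equal to `1` on `[0, 2]` and to `0` outside `(-1, 3)`. -/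
noncomputable def bphi : ContDiffBump (1 : ℝ) :=
  { rIn := 1, rOut := 2, rIn_pos := one_pos, rIn_lt_rOut := one_lt_two }

/-- Smooth bump, equal to `1` on `[0, 2]` and to `0` outside `(-1, 3)`. -/
noncomputable def phi (x : ℝ) : ℝ := bphi x

/-- Smooth bump, equal to `1` on `[-1, 3]` and to `0` outside `(-2, 4)`. -/
noncomputable def bpsi : ContDiffBump (1 : ℝ) :=
  { rIn := 2, rOut := 3, rIn_pos := two_pos, rIn_lt_rOut := by norm_num }

/-- Smooth bump, equal to `1` on `[-1, 3]` and to `0` outside `(-2, 4)`. -/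
noncomputable def psi (x : ℝ) : ℝ := bpsi x

/-- Localised coefficients: `a n * φ(log n - v)`. -/
noncomputable def cut (φ : ℝ → ℝ) (v : ℝ) (a : ℕ → ℂ) (n : ℕ) : ℂ :=
  a n * ((φ (Real.log n - v) : ℝ) : ℂ)

/-- The localised Dirichlet polynomial. -/
noncomputable def FF (N : ℕ) (φ : ℝ → ℝ) (a : ℕ → ℂ) (v t : ℝ) : ℂ := DP N (cut φ v a) t

/-- Its weighted mean square. -/
noncomputable def II (N : ℕ) (φ : ℝ → ℝ) (a : ℕ → ℂ) (η v : ℝ) : ℝ :=
  ∫ t, ‖FF N φ a v t‖ ^ 2 * wt η t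

/-- The function `b(Ω(n)) χ(n)`. -/
noncomputable def fb (b : ℕ → ℝ) {q : ℕ} (χ : DirichletCharacter ℂ q) (n : ℕ) : ℂ :=
  ((b (Om n) : ℝ) : ℂ) * χ ((n : ℕ) : ZMod q)

/-- A prime polynomial on the 1-line. -/
noncomputable def QP (x : ℕ → ℂ) (s : Finset ℕ) (t : ℝ) : ℂ := ∑ p ∈ s, x p * cp p t

/-- The sum of `1/p`. -/
noncomputable def WS (s : Finset ℕ) : ℝ := ∑ p ∈ s, (1 : ℝ) / p

/-- The sum of `1/p^2`. -/
noncomputable def S2 (s : Finset ℕ) : ℝ := ∑ p ∈ s, (1 : ℝ) / (p : ℝ) ^ 2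

/-- The primes `p` with `k / m < log p ≤ (k + 1) / m`. -/
noncomputable def slice (m k : ℕ) : Finset ℕ :=
  (Finset.Icc 1 ⌊Real.exp (((k : ℝ) + 1) / m)⌋₊).filter
    (fun p => p.Prime ∧ (k : ℝ) / m < Real.log p ∧ Real.log p ≤ ((k : ℝ) + 1) / m)

/-- The primes `p` with `m < log p ≤ m ^ 2`. -/
noncomputable def LP (m : ℕ) : Finset ℕ :=
  (Finset.Icc 1 ⌊Real.exp ((m : ℝ) ^ 2)⌋₊).filter
    (fun p => p.Prime ∧ (m : ℝ) < Real.log p ∧ Real.log p ≤ (m : ℝ) ^ 2)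

/-- The exponent of the level `m`. -/
noncomputable def al (α : ℝ) (m : ℕ) : ℝ := 2 * α - 16 / Real.sqrt m

/-- The set of `t` for which all the prime polynomials of level `m` are small. -/
def Sm (α : ℝ) (x : ℕ → ℂ) (m : ℕ) : Set ℝ :=
  {t | ∀ k ∈ Finset.Ico (m ^ 2) (m ^ 3), ‖QP x (slice m k) t‖ ≤ Real.exp (-(al α m * ((k : ℝ) / m)))}

/-- The next level. -/
def nxt (m : ℕ) : ℕ := 2 ^ Nat.sqrt m

/-- The number of prime factors in `s`, with multiplicity. -/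
noncomputable def OmS (s : Finset ℕ) (n : ℕ) : ℕ := ∑ p ∈ s, n.factorization p

/-- The number of different primes of `s` dividing `n`. -/
def om (s : Finset ℕ) (n : ℕ) : ℕ := (s.filter (fun p => p ∣ n)).card

/-- Quadratic norm with weight `y ^ Ω_s(n)`. -/
noncomputable def NY (N : ℕ) (s : Finset ℕ) (y : ℝ) (a : ℕ → ℂ) : ℝ :=
  ∑ n ∈ Finset.Icc 1 N, ‖a n‖ ^ 2 * y ^ OmS s n / (n : ℝ) ^ 2

/-- Coefficients of the product of a Dirichlet polynomial with a prime polynomial. -/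
def mulP (x : ℕ → ℂ) (s : Finset ℕ) (a : ℕ → ℂ) (n : ℕ) : ℂ :=
  ∑ p ∈ s.filter (fun p => p ∣ n), x p * a (n / p)

/-- The sum over a block of the mean squares of the short sums (not normalised). -/
noncomputable def SS (f : ℕ → ℂ) (H : ℕ) (v : ℝ) : ℝ :=
  ∑ n ∈ (Finset.Icc 1 ⌊Real.exp (v + 1)⌋₊).filter (fun n : ℕ => v < Real.log n),
    (1 / (n : ℝ)) * ‖∑ j ∈ Finset.Icc 1 H, f (n + j)‖ ^ 2

/-- The exponential sum of the majorant. -/
noncomputable def ZZ (N : ℕ) (w : ℕ → ℝ) (u : ℝ) : ℂ :=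
  ∑ n ∈ Finset.Icc 1 N, ((w n : ℝ) : ℂ) * (n : ℂ) ^ (-(u : ℂ) * Complex.I)

/-- Input from block E (helper6): smooth sums of `n^(-iu)`. -/
def SMOOTH (ψ : ℝ → ℝ) : Prop :=
  ∃ C c : ℝ, 0 < C ∧ 0 < c ∧ c < 1 ∧ ∀ v : ℝ, 0 ≤ v → ∀ u : ℝ, |u| ≤ Real.exp (3 * v / 2) →
    ∀ N : ℕ, Real.exp (v + 4) ≤ N →
      ‖ZZ N (fun n => ψ (Real.log n - v)) u‖ ≤
        C * (Real.exp v / (1 + u ^ 2) + Real.exp ((1 - c) * v))

/-- The Gaussian kernel. -/
noncomputable def gk (η x : ℝ) : ℝ := Real.exp (-(x / η) ^ 2) / (η * Real.sqrt Real.pi)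

/-- The Gaussian local averages, in the logarithmic scale. -/
noncomputable def GG (η : ℝ) (N : ℕ) (a : ℕ → ℂ) (u : ℝ) : ℂ :=
  ∑ n ∈ Finset.Icc 1 N, a n / (n : ℂ) * ((gk η (Real.log n - u) : ℝ) : ℂ)

/-- The values of a character at the integers. -/
noncomputable def xc {q : ℕ} (χ : DirichletCharacter ℂ q) (n : ℕ) : ℂ := χ ((n : ℕ) : ZMod q)

/-- The error coefficients of the decomposition of level `m`. -/
noncomputable def er (m : ℕ) (b : ℕ → ℝ) {q : ℕ} (χ : DirichletCharacter ℂ q) (v : ℝ) (n : ℕ) :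
    ℂ :=
  cut phi v (fb b χ) n - (1 / ((WS (LP m) : ℝ) : ℂ)) * ∑ k ∈ Finset.Ico (m ^ 2) (m ^ 3),
    mulP (xc χ) (slice m k) (cut phi (v - (k : ℝ) / m) (fb (up 1 b) χ)) n

/-- The error coefficients of the decomposition by the primes of `P` (without slices). -/
noncomputable def er1 (P : Finset ℕ) (b : ℕ → ℝ) {q : ℕ} (χ : DirichletCharacter ℂ q) (v : ℝ)
    (n : ℕ) : ℂ :=
  cut phi v (fb b χ) n * (1 - ((om P n : ℕ) : ℂ) / ((WS P : ℝ) : ℂ))

/-- The main term of the decomposition by the primes of `P`. -/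
noncomputable def Mn (N : ℕ) (P : Finset ℕ) (φ : ℝ → ℝ) (g : ℕ → ℂ) {q : ℕ}
    (χ : DirichletCharacter ℂ q) (v t : ℝ) : ℂ :=
  (1 / ((WS P : ℝ) : ℂ)) * ∑ p ∈ P, xc χ p * cp p t * FF N φ g (v - Real.log p) t

/-- The iterated levels. -/
def lev (m1 : ℕ) (j : ℕ) : ℕ := nxt^[j] m1

/-! ### First lemmas -/

lemma cp_eq {n : ℕ} (hn : 1 ≤ n) (t : ℝ) :
    cp n t = ((1 / (n : ℝ) : ℝ) : ℂ) * Complex.exp (-(t * Real.log n : ℝ) * Complex.I) := by
  have hn0 : (n : ℂ) ≠ 0 := by exact_mod_cast (by omega : n ≠ 0)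
  have hnR : (0 : ℝ) < n := by exact_mod_cast hn
  unfold cp
  rw [Complex.cpow_def_of_ne_zero hn0, ← Complex.ofReal_natCast, ← Complex.ofReal_log hnR.le]
  rw [show ((Real.log (n : ℝ) : ℝ) : ℂ) * -(1 + (t : ℂ) * Complex.I) =
    ((-Real.log n : ℝ) : ℂ) + (-((t * Real.log n : ℝ) : ℂ) * Complex.I) by push_cast; ring,
    Complex.exp_add, ← Complex.ofReal_exp, Real.exp_neg, Real.exp_log hnR, one_div]

lemma norm_cp {n : ℕ} (hn : 1 ≤ n) (t : ℝ) : ‖cp n t‖ = 1 / (n : ℝ) := by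
  rw [cp_eq hn, norm_mul, ← Complex.ofReal_neg, Complex.norm_exp_ofReal_mul_I, mul_one,
    Complex.norm_real, Real.norm_of_nonneg (by positivity)]

lemma cp_mul (m n : ℕ) (t : ℝ) :
    cp (m * n) t = cp m t * cp n t := by
  unfold cp
  push_cast
  rw [Complex.natCast_mul_natCast_cpow]

lemma cp_one (t : ℝ) : cp 1 t = 1 := by
  simp [cp]

lemma continuous_cp {n : ℕ} (hn : 1 ≤ n) : Continuous (cp n) := by
  have : cp n = fun t => ((1 / (n : ℝ) : ℝ) : ℂ) *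
      Complex.exp (-(t * Real.log n : ℝ) * Complex.I) := by
    funext t
    exact cp_eq hn t
  rw [this]
  fun_prop

lemma continuous_DP (N : ℕ) (a : ℕ → ℂ) : Continuous (DP N a) := by
  unfold DP
  refine continuous_finsetSum _ fun n hn => ?_
  exact continuous_const.mul (continuous_cp (Finset.mem_Icc.mp hn).1)

lemma continuous_wt (η : ℝ) : Continuous (wt η) := by
  unfold wt
  fun_prop

lemma wt_pos (η t : ℝ) : 0 < wt η t := Real.exp_pos _

lemma wt_le_one (η t : ℝ) : wt η t ≤ 1 := by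
  unfold wt
  rw [Real.exp_le_one_iff]
  have := sq_nonneg (η * t)
  linarith

lemma continuous_phi : Continuous phi := bphi.continuous

lemma contDiff_phi (n : ℕ∞) : ContDiff ℝ n phi := bphi.contDiff

lemma contDiff_psi (n : ℕ∞) : ContDiff ℝ n psi := bpsi.contDiff

lemma phi_nonneg (x : ℝ) : 0 ≤ phi x := bphi.nonneg

lemma phi_le_one (x : ℝ) : phi x ≤ 1 := bphi.le_one

lemma psi_nonneg (x : ℝ) : 0 ≤ psi x := bpsi.nonneg

lemma psi_le_one (x : ℝ) : psi x ≤ 1 := bpsi.le_one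

lemma phi_eq_one {x : ℝ} (h0 : 0 ≤ x) (h2 : x ≤ 2) : phi x = 1 := by
  refine bphi.one_of_mem_closedBall ?_
  rw [Metric.mem_closedBall, Real.dist_eq, abs_le]
  show -(1 : ℝ) ≤ x - 1 ∧ x - 1 ≤ 1
  constructor <;> linarith

lemma psi_eq_one {x : ℝ} (h0 : -1 ≤ x) (h2 : x ≤ 3) : psi x = 1 := by
  refine bpsi.one_of_mem_closedBall ?_
  rw [Metric.mem_closedBall, Real.dist_eq, abs_le]
  show -(2 : ℝ) ≤ x - 1 ∧ x - 1 ≤ 2
  constructor <;> linarith

lemma phi_eq_zero {x : ℝ} (h : x ≤ -1 ∨ 3 ≤ x) : phi x = 0 := by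
  refine bphi.zero_of_le_dist ?_
  show (2 : ℝ) ≤ dist x 1
  rw [Real.dist_eq, le_abs]
  rcases h with h | h
  · right; linarith
  · left; linarith

lemma psi_eq_zero {x : ℝ} (h : x ≤ -2 ∨ 4 ≤ x) : psi x = 0 := by
  refine bpsi.zero_of_le_dist ?_
  show (3 : ℝ) ≤ dist x 1
  rw [Real.dist_eq, le_abs]
  rcases h with h | h
  · right; linarith
  · left; linarith

/-- `phi` is Lipschitz and its derivative is bounded and supported in `[-1, 3]`. -/
lemma phi_deriv : ∃ C : ℝ, 1 ≤ C ∧ (∀ x, |deriv phi x| ≤ C) ∧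
    (∀ x y, |phi x - phi y| ≤ C * |x - y|) ∧ (∀ x, x ≤ -1 ∨ 3 ≤ x → deriv phi x = 0) := by
  have hd : Differentiable ℝ phi := (contDiff_phi 1).differentiable (by simp)
  have hc : Continuous (deriv phi) := (contDiff_phi 1).continuous_deriv (by simp)
  have hsupp : ∀ x, x < -1 ∨ 3 < x → deriv phi x = 0 := by
    intro x hx
    have h1 : phi =ᶠ[nhds x] fun _ => 0 := by
      rcases hx with hx | hx
      · filter_upwards [Iio_mem_nhds hx] with y hy
        exact phi_eq_zero (Or.inl (le_of_lt hy))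
      · filter_upwards [Ioi_mem_nhds hx] with y hy
        exact phi_eq_zero (Or.inr (le_of_lt hy))
    rw [h1.deriv_eq]
    simp
  have hsupp' : ∀ x, x ≤ -1 ∨ 3 ≤ x → deriv phi x = 0 := by
    intro x hx
    have hcl : closure {y : ℝ | y < -1 ∨ 3 < y} ⊆ {y | deriv phi y = 0} := by
      refine closure_minimal (fun y hy => hsupp y hy) ?_
      exact isClosed_eq hc continuous_const
    apply hcl
    have e : {y : ℝ | y < -1 ∨ 3 < y} = Set.Iio (-1) ∪ Set.Ioi 3 := by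
      ext y; simp
    rw [e, closure_union, closure_Iio, closure_Ioi]
    exact hx
  obtain ⟨C0, hC0⟩ := (isCompact_Icc (a := (-1 : ℝ)) (b := 3)).exists_bound_of_continuousOn
    hc.continuousOn
  have hb : ∀ x, |deriv phi x| ≤ max C0 1 := by
    intro x
    by_cases hx : x ∈ Set.Icc (-1 : ℝ) 3
    · exact (hC0 x hx).trans (le_max_left _ _)
    · rw [hsupp' x]
      · rw [abs_zero]; exact le_trans zero_le_one (le_max_right _ _)
      · rw [Set.mem_Icc, not_and_or, not_le, not_le] at hx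
        rcases hx with hx | hx
        · exact Or.inl hx.le
        · exact Or.inr hx.le
  refine ⟨max C0 1, le_max_right _ _, hb, ?_, hsupp'⟩
  intro x y
  have := Convex.norm_image_sub_le_of_norm_deriv_le (f := phi) (s := Set.univ) (C := max C0 1)
    (fun z _ => hd z) (fun z _ => hb z) convex_univ (Set.mem_univ y) (Set.mem_univ x)
  simpa [Real.norm_eq_abs] using this

lemma norm_fb {b : ℕ → ℝ} {q : ℕ} (χ : DirichletCharacter ℂ q) {B : ℝ} (hb : ∀ m, |b m| ≤ B)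
    (n : ℕ) : ‖fb b χ n‖ ≤ B := by
  unfold fb
  rw [norm_mul, Complex.norm_real, Real.norm_eq_abs]
  have h1 := DirichletCharacter.norm_le_one χ ((n : ℕ) : ZMod q)
  have h2 := hb (Om n)
  have h3 : 0 ≤ |b (Om n)| := abs_nonneg _
  nlinarith [norm_nonneg (χ ((n : ℕ) : ZMod q))]

/-- `f(pn) = χ(p) g(n)`, where `g` is `f` with `b` shifted by one. -/
lemma fb_mul {b : ℕ → ℝ} {q : ℕ} (χ : DirichletCharacter ℂ q) {p n : ℕ} (hp : p.Prime)
    (hn : 1 ≤ n) : fb b χ (p * n) = χ ((p : ℕ) : ZMod q) * fb (up 1 b) χ n := by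
  unfold fb up
  have h : Om (p * n) = Om n + 1 := by
    show ArithmeticFunction.cardFactors (p * n) = _
    rw [ArithmeticFunction.cardFactors_mul hp.ne_zero (by omega),
      ArithmeticFunction.cardFactors_apply_prime hp, add_comm]
  rw [h]
  push_cast
  rw [map_mul]
  ring

end MRD
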