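import Mathlib
import Pool.Agent.Helper72.MRD.Defs
import Pool.Agent.Helper6.MR.Iface2

set_option autoImplicit false

/-! Project MR, block D, single scale: the interface with block U (helper6). -/

namespace MRD

open Finset MRP MeasureTheory

/-- Block U (helper6): the contribution of a set of `t` of small measure, at a single scale. -/
def UMAIN : Prop :=
  ∀ (q : ℕ) (_ : 1 ≤ q) (χ : DirichletCharacter ℂ q) (ε : ℝ), 0 < ε →
    ∃ T0 c V0 : ℝ, 0 < T0 ∧ 0 < c ∧ 1 ≤ V0 ∧ ∀ v : ℝ, V0 ≤ v → ∀ b : ℕ → ℝ, (∀ k, |b k| ≤ 2) →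
    ∀ N : ℕ, Real.exp (v + 4) ≤ N → ∀ U : Set ℝ, MeasurableSet U →
    U ⊆ Set.Icc (-Real.exp (6 / 5 * v)) (Real.exp (6 / 5 * v)) →
    volume.real U ≤ Real.exp (c * v) → (χ ≠ 1 ∨ ∀ t ∈ U, T0 ≤ |t|) →
    ∫ t in U, ‖FF N phi (fb b χ) v t‖ ^ 2 ≤ ε

end MRD
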