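import Mathlib
import Pool.Agent.Helper72.MRD.Defs

set_option autoImplicit false

/-!
MRD-A01. Fourier transform of the Gaussian weight. Mathlib: `fourierIntegral_gaussian` or
`integral_cexp_quadratic` / `integral_gaussian`. Also the integrability of `DP` squares and the
double sum formula.

* `gauss_fourier`: `∫ exp(-(ηt)²/2) exp(-itx) dt = (√(2π)/η) exp(-x²/(2η²))`.
* `integral_DP_sq`: expand `‖DP N a t‖² = ∑_{m,n} a m * conj (a n) * cp m t * conj (cp n t)`, with
  (`cp_eq`) `cp m t * conj (cp n t) = 1/(m n) exp(-i t (log m - log n))`; integrate termwise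
  (finite sums, each term integrable because `|.| ≤ wt`) and take the real part.
-/

namespace MRD

open Finset MRP MeasureTheory

theorem integrable_wt (η : ℝ) (hη : 0 < η) : Integrable (fun t : ℝ => wt η t) := by
  have h : (fun t : ℝ => wt η t) = fun t : ℝ => Real.exp (-(η ^ 2 / 2) * t ^ 2) := by
    funext t
    unfold wt
    congr 1
    ring
  rw [h]
  exact integrable_exp_neg_mul_sq (by positivity)

theorem gauss_fourier (η : ℝ) (hη : 0 < η) (x : ℝ) :
    ∫ t : ℝ, ((wt η t : ℝ) : ℂ) * Complex.exp (-(t * x : ℝ) * Complex.I) =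
      ((Real.sqrt (2 * Real.pi) / η * Real.exp (-(x ^ 2) / (2 * η ^ 2)) : ℝ) : ℂ) := by
  have hb : 0 < ((η ^ 2 / 2 : ℝ) : ℂ).re := by
    rw [Complex.ofReal_re]; positivity
  have h := fourierIntegral_gaussian hb ((-x : ℝ) : ℂ)
  have e1 : (fun t : ℝ => ((wt η t : ℝ) : ℂ) * Complex.exp (-(t * x : ℝ) * Complex.I)) =
      fun t : ℝ => Complex.exp (Complex.I * ((-x : ℝ) : ℂ) * t) *
        Complex.exp (-((η ^ 2 / 2 : ℝ) : ℂ) * (t : ℂ) ^ 2) := by
    funext t
    unfold wt
    rw [mul_comm, Complex.ofReal_exp]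
    congr 1
    · congr 1
      push_cast
      ring
    · congr 1
      push_cast
      ring
  rw [e1, h]
  have e2 : ((Real.pi : ℂ) / ((η ^ 2 / 2 : ℝ) : ℂ)) ^ (1 / 2 : ℂ) =
      ((Real.sqrt (2 * Real.pi) / η : ℝ) : ℂ) := by
    rw [← Complex.ofReal_div]
    rw [show (1 / 2 : ℂ) = (((1 / 2 : ℝ)) : ℂ) by push_cast; rfl]
    rw [← Complex.ofReal_cpow (by positivity)]
    congr 1
    rw [← Real.sqrt_eq_rpow]
    rw [show Real.pi / (η ^ 2 / 2) = (2 * Real.pi) / η ^ 2 by field_simp]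
    rw [Real.sqrt_div (by positivity), Real.sqrt_sq hη.le]
  rw [e2]
  rw [Complex.ofReal_mul, Complex.ofReal_exp]
  congr 2
  push_cast
  have hη' : (η : ℂ) ≠ 0 := by exact_mod_cast hη.ne'
  field_simp
  ring

theorem integrable_term (η : ℝ) (hη : 0 < η) (x : ℝ) :
    Integrable (fun t : ℝ => ((wt η t : ℝ) : ℂ) * Complex.exp (-(t * x : ℝ) * Complex.I)) := by
  refine (integrable_wt η hη).mono' ?_ (Filter.Eventually.of_forall fun t => ?_)
  · refine Continuous.aestronglyMeasurable ?_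
    refine (Complex.continuous_ofReal.comp (continuous_wt η)).mul ?_
    fun_prop
  · rw [norm_mul, ← Complex.ofReal_neg, Complex.norm_exp_ofReal_mul_I, mul_one,
      Complex.norm_real, Real.norm_of_nonneg (wt_pos η t).le]

theorem integrable_DP_sq (η : ℝ) (hη : 0 < η) (N : ℕ) (a : ℕ → ℂ) :
    Integrable (fun t : ℝ => ‖DP N a t‖ ^ 2 * wt η t) := by
  set K : ℝ := ∑ n ∈ Finset.Icc 1 N, ‖a n‖ / (n : ℝ) with hK
  have hK0 : 0 ≤ K := Finset.sum_nonneg fun n _ => by positivity
  refine ((integrable_wt η hη).const_mul (K ^ 2)).mono' ?_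
    (Filter.Eventually.of_forall fun t => ?_)
  · refine Continuous.aestronglyMeasurable ?_
    exact ((continuous_DP N a).norm.pow 2).mul (continuous_wt η)
  · have h1 : ‖DP N a t‖ ≤ K := by
      unfold DP
      refine (norm_sum_le _ _).trans ?_
      rw [hK]
      refine Finset.sum_le_sum fun n hn => ?_
      rw [norm_mul, norm_cp (Finset.mem_Icc.mp hn).1]
      rw [mul_one_div]
    have h2 : ‖DP N a t‖ ^ 2 ≤ K ^ 2 := pow_le_pow_left₀ (norm_nonneg _) h1 2
    rw [Real.norm_of_nonneg (mul_nonneg (by positivity) (wt_pos η t).le)]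
    exact mul_le_mul_of_nonneg_right h2 (wt_pos η t).le

theorem integral_DP_sq (η : ℝ) (hη : 0 < η) (N : ℕ) (a : ℕ → ℂ) :
    ∫ t : ℝ, ‖DP N a t‖ ^ 2 * wt η t = ∑ m ∈ Finset.Icc 1 N, ∑ n ∈ Finset.Icc 1 N,
      (a m * (starRingEnd ℂ) (a n)).re / ((m : ℝ) * n) *
        (Real.sqrt (2 * Real.pi) / η *
          Real.exp (-((Real.log m - Real.log n) ^ 2) / (2 * η ^ 2))) := by
  have hpt : ∀ t : ℝ, ((‖DP N a t‖ ^ 2 * wt η t : ℝ) : ℂ) =
      ∑ m ∈ Finset.Icc 1 N, ∑ n ∈ Finset.Icc 1 N,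
        (a m * (starRingEnd ℂ) (a n)) * (((1 / ((m : ℝ) * n)) : ℝ) : ℂ) *
          (((wt η t : ℝ) : ℂ) *
            Complex.exp (-(t * (Real.log m - Real.log n) : ℝ) * Complex.I)) := by
    intro t
    rw [Complex.ofReal_mul, Complex.ofReal_pow, ← Complex.mul_conj']
    unfold DP
    rw [map_sum, Finset.sum_mul_sum, Finset.sum_mul]
    refine Finset.sum_congr rfl fun m hm => ?_
    rw [Finset.sum_mul]
    refine Finset.sum_congr rfl fun n hn => ?_
    rw [map_mul, cp_eq (Finset.mem_Icc.mp hm).1, cp_eq (Finset.mem_Icc.mp hn).1, map_mul,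
      Complex.conj_ofReal, ← Complex.exp_conj, map_mul, map_neg, Complex.conj_ofReal,
      Complex.conj_I]
    have e : Complex.exp (-((t * (Real.log m - Real.log n) : ℝ) : ℂ) * Complex.I) =
        Complex.exp (-((t * Real.log m : ℝ) : ℂ) * Complex.I) *
          Complex.exp (-((t * Real.log n : ℝ) : ℂ) * -Complex.I) := by
      rw [← Complex.exp_add]
      congr 1
      push_cast
      ring
    rw [e]
    push_cast
    ring
  have hint : ∀ m n : ℕ, Integrable (fun t : ℝ =>
      (a m * (starRingEnd ℂ) (a n)) * (((1 / ((m : ℝ) * n)) : ℝ) : ℂ) *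
          (((wt η t : ℝ) : ℂ) *
            Complex.exp (-(t * (Real.log m - Real.log n) : ℝ) * Complex.I))) := by
    intro m n
    exact (integrable_term η hη _).const_mul _
  have hC : ((∫ t : ℝ, ‖DP N a t‖ ^ 2 * wt η t : ℝ) : ℂ) =
      ∑ m ∈ Finset.Icc 1 N, ∑ n ∈ Finset.Icc 1 N,
        (a m * (starRingEnd ℂ) (a n)) * (((1 / ((m : ℝ) * n)) : ℝ) : ℂ) *
          ((Real.sqrt (2 * Real.pi) / η *
            Real.exp (-((Real.log m - Real.log n) ^ 2) / (2 * η ^ 2)) : ℝ) : ℂ) := by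
    rw [← integral_complex_ofReal]
    rw [integral_congr_ae (Filter.Eventually.of_forall hpt)]
    rw [integral_finset_sum _ (fun m _ => integrable_finset_sum _ (fun n _ => hint m n))]
    refine Finset.sum_congr rfl fun m _ => ?_
    rw [integral_finset_sum _ (fun n _ => hint m n)]
    refine Finset.sum_congr rfl fun n _ => ?_
    rw [integral_const_mul, gauss_fourier η hη]
  have hre := congrArg Complex.re hC
  rw [Complex.ofReal_re] at hre
  rw [hre, Complex.re_sum]
  refine Finset.sum_congr rfl fun m _ => ?_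
  rw [Complex.re_sum]
  refine Finset.sum_congr rfl fun n _ => ?_
  rw [Complex.re_mul_ofReal, Complex.re_mul_ofReal]
  ring

end MRD
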