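import Mathlib
import Pool.Agent.Helper72.MRD.Defs
import Pool.Agent.Helper72.MRD.A01

set_option autoImplicit false

/-!
MRD-A03. Parseval identity with the Gaussian kernel.

Expand both sides. Left: `∫ gk η (x - u) gk η (y - u) du = (1/(η √(2π))) exp(-(x-y)²/(2η²))`
(product of two Gaussians: `((x-u)² + (y-u)²)/η² = 2(u - (x+y)/2)²/η² + (x-y)²/(2η²)`, and
`∫ exp(-2(u-c)²/η²) du = η √(π/2)`), with `x = log m`, `y = log n`.
Right: `integral_DP_sq` gives `(1/(2π)) (√(2π)/η) exp(-(x-y)²/(2η²))`, the same constant.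
-/

namespace MRD

open Finset MRP MeasureTheory

private lemma gk_mul (η : ℝ) (hη : 0 < η) (x y u : ℝ) :
    gk η (x - u) * gk η (y - u) = (1 / (η ^ 2 * Real.pi) *
      Real.exp (-((x - y) ^ 2) / (2 * η ^ 2))) *
        Real.exp (-(2 / η ^ 2) * (u - (x + y) / 2) ^ 2) := by
  unfold gk
  have hs : Real.sqrt Real.pi * Real.sqrt Real.pi = Real.pi := Real.mul_self_sqrt Real.pi_pos.le
  have e1 : Real.exp (-((x - u) / η) ^ 2) * Real.exp (-((y - u) / η) ^ 2) =
      Real.exp (-((x - y) ^ 2) / (2 * η ^ 2)) * Real.exp (-(2 / η ^ 2) * (u - (x + y) / 2) ^ 2) := by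
    rw [← Real.exp_add, ← Real.exp_add]
    congr 1
    field_simp
    ring
  have e2 : Real.exp (-((x - u) / η) ^ 2) / (η * Real.sqrt Real.pi) *
      (Real.exp (-((y - u) / η) ^ 2) / (η * Real.sqrt Real.pi)) =
      (Real.exp (-((x - u) / η) ^ 2) * Real.exp (-((y - u) / η) ^ 2)) /
        (η ^ 2 * (Real.sqrt Real.pi * Real.sqrt Real.pi)) := by
    rw [div_mul_div_comm]
    congr 1
    ring
  rw [e2, e1, hs]
  ring

private lemma integrable_gk_mul (η : ℝ) (hη : 0 < η) (x y : ℝ) :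
    Integrable (fun u : ℝ => gk η (x - u) * gk η (y - u)) := by
  have h1 : (fun u : ℝ => gk η (x - u) * gk η (y - u)) = fun u => (1 / (η ^ 2 * Real.pi) *
      Real.exp (-((x - y) ^ 2) / (2 * η ^ 2))) *
        Real.exp (-(2 / η ^ 2) * (u - (x + y) / 2) ^ 2) := by
    funext u
    exact gk_mul η hη x y u
  rw [h1]
  refine Integrable.const_mul ?_ _
  exact (integrable_exp_neg_mul_sq (by positivity : (0 : ℝ) < 2 / η ^ 2)).comp_sub_right
    ((x + y) / 2)

private lemma integral_gk_mul (η : ℝ) (hη : 0 < η) (x y : ℝ) :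
    ∫ u : ℝ, gk η (x - u) * gk η (y - u) =
      (1 / (2 * Real.pi)) * (Real.sqrt (2 * Real.pi) / η *
        Real.exp (-((x - y) ^ 2) / (2 * η ^ 2))) := by
  simp_rw [gk_mul η hη x y]
  rw [integral_const_mul,
    integral_sub_right_eq_self (fun u : ℝ => Real.exp (-(2 / η ^ 2) * u ^ 2)) ((x + y) / 2),
    integral_gaussian]
  have e1 : Real.pi / (2 / η ^ 2) = (2 * Real.pi) * (η / 2) ^ 2 := by
    field_simp
  rw [e1, Real.sqrt_mul (by positivity), Real.sqrt_sq (by positivity)]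
  field_simp

private lemma GG_sq (η : ℝ) (N : ℕ) (a : ℕ → ℂ) (u : ℝ) :
    ‖GG η N a u‖ ^ 2 = ∑ m ∈ Finset.Icc 1 N, ∑ n ∈ Finset.Icc 1 N,
      (a m * (starRingEnd ℂ) (a n)).re / ((m : ℝ) * n) *
        (gk η (Real.log m - u) * gk η (Real.log n - u)) := by
  have h1 : ((‖GG η N a u‖ ^ 2 : ℝ) : ℂ) = GG η N a u * (starRingEnd ℂ) (GG η N a u) := by
    rw [Complex.mul_conj, Complex.normSq_eq_norm_sq]
  have h2 : ‖GG η N a u‖ ^ 2 = (GG η N a u * (starRingEnd ℂ) (GG η N a u)).re := by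
    rw [← h1, Complex.ofReal_re]
  rw [h2]
  unfold GG
  rw [map_sum, Finset.sum_mul_sum, Complex.re_sum]
  refine Finset.sum_congr rfl fun m _ => ?_
  rw [Complex.re_sum]
  refine Finset.sum_congr rfl fun n _ => ?_
  have h3 : a m / (m : ℂ) * ((gk η (Real.log m - u) : ℝ) : ℂ) *
      (starRingEnd ℂ) (a n / (n : ℂ) * ((gk η (Real.log n - u) : ℝ) : ℂ)) =
      (((1 / ((m : ℝ) * n)) * (gk η (Real.log m - u) * gk η (Real.log n - u)) : ℝ) : ℂ) *
        (a m * (starRingEnd ℂ) (a n)) := by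
    rw [map_mul, map_div₀, Complex.conj_ofReal, map_natCast]
    push_cast
    ring
  rw [h3, Complex.re_ofReal_mul]
  ring

theorem integrable_GG_sq (η : ℝ) (hη : 0 < η) (N : ℕ) (a : ℕ → ℂ) :
    Integrable (fun u : ℝ => ‖GG η N a u‖ ^ 2) := by
  simp_rw [GG_sq]
  refine integrable_finsetSum _ fun m _ => integrable_finsetSum _ fun n _ => ?_
  exact (integrable_gk_mul η hη _ _).const_mul _

theorem parseval (η : ℝ) (hη : 0 < η) (N : ℕ) (a : ℕ → ℂ) :
    ∫ u : ℝ, ‖GG η N a u‖ ^ 2 = (1 / (2 * Real.pi)) * ∫ t : ℝ, ‖DP N a t‖ ^ 2 * wt η t := by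
  rw [integral_DP_sq η hη N a]
  simp_rw [GG_sq]
  rw [integral_finsetSum _ (fun m _ => integrable_finsetSum _ fun n _ =>
    (integrable_gk_mul η hη _ _).const_mul _), Finset.mul_sum]
  refine Finset.sum_congr rfl fun m _ => ?_
  rw [integral_finsetSum _ (fun n _ => (integrable_gk_mul η hη _ _).const_mul _), Finset.mul_sum]
  refine Finset.sum_congr rfl fun n _ => ?_
  rw [integral_const_mul, integral_gk_mul η hη]
  ring

end MRD
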