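import Mathlib
import Pool.Agent.Helper72.MRD.Defs

set_option autoImplicit false

/-!
MRD-A04. Error of the replacement of a sharp short interval by Gaussian averages.

Notation: `K m = ∫ u in (log n)..(log (n+H)), gk η (log m - u)`, a number in `[0, 1]` (total mass
of `gk η` is 1: `integral_gaussian`).
Tail bound (*): for `x ≥ 0`, `∫_x^∞ gk η ≤ (1/2) exp(-(x/η)²)` because `(x+z)² ≥ x² + z²`.
Let `v < log n ≤ v + 1`. The term of `m` vanishes unless `-1 < log m - v < 3` or `n < m ≤ n + H`
(and then `0 < log m - v ≤ 1 + log(3/2) < 2`, so `phi = 1`). In all nonzero terms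
`e^{-2} n ≤ m ≤ e^3 n`, so `1/m ≤ e² / n`.
* `m ≤ n`: `|term| ≤ K m ≤ exp(-((log n - log m)/η)²) ≤ exp(-((n-m)/(nη))²)`.
* `m > n + H`: `K m ≤ exp(-((log m - log(n+H))/η)²) ≤ exp(-((m-n-H)/(e³ n η))²)`.
* `n < m ≤ n + H`: `1 - K m ≤ exp(-((log m - log n)/η)²) + exp(-((log(n+H) - log m)/η)²)`, with
  `log m - log n ≥ (m-n)/(2n)`, `log(n+H) - log m ≥ (n+H-m)/(2n)`.
In every case the sum over `m` is at most `(e²/n) * 4 * ∑_{d ≥ 0} exp(-(d/(25 n η))²)
≤ (C/n)(1 + n η)` (compare with an integral, or use `exp(-y²) ≤ 1/(1+y²)` and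
`∑_d 1/(1+(d/A)²) ≤ 1 + 2A`-type bounds).
-/

namespace MRD

open Finset MRP MeasureTheory

private theorem a04_integrable (η : ℝ) (hη : 0 < η) : Integrable (gk η) := by
  have h1 : Integrable fun x : ℝ => Real.exp (-(1 / η ^ 2) * x ^ 2) :=
    integrable_exp_neg_mul_sq (by positivity)
  have h2 : gk η = fun x => Real.exp (-(1 / η ^ 2) * x ^ 2) / (η * Real.sqrt Real.pi) := by
    funext x
    unfold gk
    congr 2
    field_simp
  rw [h2]
  exact h1.div_const _

private theorem a04_total (η : ℝ) (hη : 0 < η) : ∫ x, gk η x = 1 := by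
  have h2 : gk η = fun x => Real.exp (-(1 / η ^ 2) * x ^ 2) / (η * Real.sqrt Real.pi) := by
    funext x
    unfold gk
    congr 2
    field_simp
  rw [h2, integral_div, integral_gaussian]
  have h3 : Real.pi / (1 / η ^ 2) = η ^ 2 * Real.pi := by
    field_simp
  rw [h3, Real.sqrt_mul (by positivity), Real.sqrt_sq hη.le]
  exact div_self (by positivity)

private theorem a04_nonneg (η : ℝ) (hη : 0 < η) (x : ℝ) : 0 ≤ gk η x := by
  unfold gk
  positivity

private theorem a04_even (η x : ℝ) : gk η (-x) = gk η x := by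
  unfold gk
  congr 2
  ring

private theorem a04_tail (η : ℝ) (hη : 0 < η) (x : ℝ) (hx : 0 ≤ x) :
    ∫ y in Set.Ioi x, gk η y ≤ Real.exp (-(x / η) ^ 2) := by
  have h1 : ∀ y ∈ Set.Ioi x, gk η y ≤ Real.exp (-(x / η) ^ 2) * gk η (y - x) := by
    intro y hy
    have hy' : x < y := hy
    unfold gk
    rw [← mul_div_assoc, ← Real.exp_add]
    refine div_le_div_of_nonneg_right ?_ (by positivity)
    rw [Real.exp_le_exp]
    have h2 : (y / η) ^ 2 = (x / η) ^ 2 + ((y - x) / η) ^ 2 + 2 * (x / η) * ((y - x) / η) := by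
      ring
    have h3 : 0 ≤ 2 * (x / η) * ((y - x) / η) := by
      have h4 : 0 ≤ y - x := by linarith
      positivity
    linarith
  have hi := a04_integrable η hη
  have hi2 : Integrable fun y => gk η (y - x) := hi.comp_sub_right x
  calc ∫ y in Set.Ioi x, gk η y ≤ ∫ y in Set.Ioi x, Real.exp (-(x / η) ^ 2) * gk η (y - x) :=
        setIntegral_mono_on hi.integrableOn (hi2.const_mul _).integrableOn measurableSet_Ioi h1
    _ ≤ ∫ y, Real.exp (-(x / η) ^ 2) * gk η (y - x) :=
        setIntegral_le_integral (hi2.const_mul _)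
          (Filter.Eventually.of_forall fun y => mul_nonneg (Real.exp_pos _).le
            (a04_nonneg η hη _))
    _ = Real.exp (-(x / η) ^ 2) := by
        rw [integral_const_mul, integral_sub_right_eq_self (gk η) x, a04_total η hη, mul_one]

private theorem a04_int (η : ℝ) (hη : 0 < η) (a b : ℝ) (hab : a ≤ b) (ha : 0 ≤ a) :
    ∫ y in a..b, gk η y ≤ Real.exp (-(a / η) ^ 2) := by
  rw [intervalIntegral.integral_of_le hab]
  refine le_trans ?_ (a04_tail η hη a ha)
  exact setIntegral_mono_set (a04_integrable η hη).integrableOn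
    (Filter.Eventually.of_forall fun y => a04_nonneg η hη y)
    (Filter.Eventually.of_forall Set.Ioc_subset_Ioi_self)

private theorem a04_left (η : ℝ) (hη : 0 < η) (a b x : ℝ) (hab : a ≤ b) (hx : x ≤ a) :
    ∫ u in a..b, gk η (x - u) ≤ Real.exp (-((a - x) / η) ^ 2) := by
  have h1 : ∀ u, gk η (x - u) = gk η (u - x) := by
    intro u
    rw [← a04_even, neg_sub]
  simp only [h1]
  rw [intervalIntegral.integral_comp_sub_right]
  exact a04_int η hη _ _ (by linarith) (by linarith)

private theorem a04_right (η : ℝ) (hη : 0 < η) (a b x : ℝ) (hab : a ≤ b) (hx : b ≤ x) :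
    ∫ u in a..b, gk η (x - u) ≤ Real.exp (-((x - b) / η) ^ 2) := by
  rw [intervalIntegral.integral_comp_sub_left]
  exact a04_int η hη _ _ (by linarith) (by linarith)

private theorem a04_mid (η : ℝ) (hη : 0 < η) (a b x : ℝ) (hab : a ≤ x) (hx : x ≤ b) :
    |1 - ∫ u in a..b, gk η (x - u)| ≤
      Real.exp (-((x - a) / η) ^ 2) + Real.exp (-((x - b) / η) ^ 2) := by
  have hi := a04_integrable η hη
  rw [intervalIntegral.integral_comp_sub_left (gk η)]
  have h1 := intervalIntegral.integral_Iic_sub_Iic (f := gk η) (μ := volume)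
    (a := x - b) (b := x - a) hi.integrableOn hi.integrableOn
  have h2 := intervalIntegral.integral_Iic_add_Ioi (f := gk η) (μ := volume) (b := x - a)
    hi.integrableOn hi.integrableOn
  rw [a04_total η hη] at h2
  have h3 : ∫ y in Set.Iic (x - b), gk η y = ∫ y in Set.Ioi (b - x), gk η y := by
    have h4 := integral_comp_neg_Iic (x - b) (gk η)
    simp only [a04_even] at h4
    rw [h4, neg_sub]
  have h5 := a04_tail η hη (x - a) (by linarith)
  have h6 := a04_tail η hη (b - x) (by linarith)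
  have h7 : 0 ≤ ∫ y in Set.Ioi (x - a), gk η y :=
    setIntegral_nonneg measurableSet_Ioi fun y _ => a04_nonneg η hη y
  have h8 : 0 ≤ ∫ y in Set.Ioi (b - x), gk η y :=
    setIntegral_nonneg measurableSet_Ioi fun y _ => a04_nonneg η hη y
  have h9 : ((b - x) / η) ^ 2 = ((x - b) / η) ^ 2 := by ring
  rw [h9] at h6
  rw [← h1, abs_of_nonneg (by linarith)]
  linarith

private theorem a04_sum (A : ℝ) (hA : 0 < A) (D : ℕ) :
    ∑ d ∈ Finset.range (D + 1), A ^ 2 / (A ^ 2 + (d : ℝ) ^ 2) ≤
      1 + 2 * A - 2 * A ^ 2 / (A + D) := by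
  induction D with
  | zero =>
    have h1 : 2 * A ^ 2 / (A + ((0 : ℕ) : ℝ)) = 2 * A := by
      push_cast
      field_simp
      ring
    rw [h1, Finset.sum_range_one]
    have h2 : A ^ 2 / (A ^ 2 + ((0 : ℕ) : ℝ) ^ 2) = 1 := by
      push_cast
      rw [zero_pow two_ne_zero, add_zero]
      exact div_self (by positivity)
    rw [h2]
    linarith
  | succ D ih =>
    rw [Finset.sum_range_succ]
    have hD : (0 : ℝ) ≤ D := Nat.cast_nonneg D
    have h1 : A ^ 2 / (A ^ 2 + ((D + 1 : ℕ) : ℝ) ^ 2) ≤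
        2 * A ^ 2 / (A + D) - 2 * A ^ 2 / (A + ((D + 1 : ℕ) : ℝ)) := by
      push_cast
      have h2 : 2 * A ^ 2 / (A + D) - 2 * A ^ 2 / (A + (D + 1)) =
          2 * A ^ 2 / ((A + D) * (A + (D + 1))) := by
        have : A + (D : ℝ) ≠ 0 := by positivity
        have : A + ((D : ℝ) + 1) ≠ 0 := by positivity
        field_simp
        ring
      rw [h2, div_le_div_iff₀ (by positivity) (by positivity)]
      have h3 : (A + D) * (A + (D + 1)) ≤ 2 * (A ^ 2 + ((D : ℝ) + 1) ^ 2) := by
        nlinarith [sq_nonneg (A - (D + 1))]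
      nlinarith [sq_nonneg A]
    linarith

private theorem a04_sum' (A : ℝ) (hA : 0 < A) (D : ℕ) :
    ∑ d ∈ Finset.range (D + 1), A ^ 2 / (A ^ 2 + (d : ℝ) ^ 2) ≤ 1 + 2 * A := by
  have h1 := a04_sum A hA D
  have h2 : 0 ≤ 2 * A ^ 2 / (A + D) := by positivity
  linarith

private theorem a04_two (A : ℝ) (hA : 0 < A) (c N : ℕ) :
    ∑ m ∈ Finset.Icc 1 N, Real.exp (-(((m : ℝ) - c) / A) ^ 2) ≤ 2 + 4 * A := by
  have h1 : ∀ m ∈ Finset.Icc 1 N, Real.exp (-(((m : ℝ) - c) / A) ^ 2) ≤
      A ^ 2 / (A ^ 2 + ((m : ℝ) - c) ^ 2) := by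
    intro m _
    have h2 := Real.add_one_le_exp ((((m : ℝ) - c) / A) ^ 2)
    have h3 : A ^ 2 / (A ^ 2 + ((m : ℝ) - c) ^ 2) = ((((m : ℝ) - c) / A) ^ 2 + 1)⁻¹ := by
      have : (((m : ℝ) - c) / A) ^ 2 + 1 = (A ^ 2 + ((m : ℝ) - c) ^ 2) / A ^ 2 := by
        field_simp
        ring
      rw [this, inv_div]
    rw [h3, Real.exp_neg]
    exact inv_anti₀ (by positivity) h2
  refine le_trans (Finset.sum_le_sum h1) ?_
  rw [← Finset.sum_filter_add_sum_filter_not (Finset.Icc 1 N) (fun m => m ≤ c)]
  have h4 : ∑ m ∈ (Finset.Icc 1 N).filter (fun m => m ≤ c),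
      A ^ 2 / (A ^ 2 + ((m : ℝ) - c) ^ 2) ≤ 1 + 2 * A := by
    have h5 : ∑ m ∈ (Finset.Icc 1 N).filter (fun m => m ≤ c),
        A ^ 2 / (A ^ 2 + ((m : ℝ) - c) ^ 2) =
        ∑ d ∈ ((Finset.Icc 1 N).filter (fun m => m ≤ c)).image (fun m => c - m),
          A ^ 2 / (A ^ 2 + (d : ℝ) ^ 2) := by
      rw [Finset.sum_image]
      · refine Finset.sum_congr rfl fun m hm => ?_
        have hmc := (Finset.mem_filter.1 hm).2
        rw [Nat.cast_sub hmc]
        congr 2
        ring
      · intro x hx y hy hxy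
        have h6 := (Finset.mem_filter.1 (Finset.mem_coe.1 hx)).2
        have h7 := (Finset.mem_filter.1 (Finset.mem_coe.1 hy)).2
        simp only at hxy
        omega
    rw [h5]
    refine le_trans (Finset.sum_le_sum_of_subset_of_nonneg (t := Finset.range (c + 1)) ?_ ?_)
      (a04_sum' A hA c)
    · intro d hd
      obtain ⟨m, _, rfl⟩ := Finset.mem_image.1 hd
      exact Finset.mem_range.2 (by omega)
    · intro d _ _
      positivity
  have h8 : ∑ m ∈ (Finset.Icc 1 N).filter (fun m => ¬ m ≤ c),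
      A ^ 2 / (A ^ 2 + ((m : ℝ) - c) ^ 2) ≤ 1 + 2 * A := by
    have h5 : ∑ m ∈ (Finset.Icc 1 N).filter (fun m => ¬ m ≤ c),
        A ^ 2 / (A ^ 2 + ((m : ℝ) - c) ^ 2) =
        ∑ d ∈ ((Finset.Icc 1 N).filter (fun m => ¬ m ≤ c)).image (fun m => m - c),
          A ^ 2 / (A ^ 2 + (d : ℝ) ^ 2) := by
      rw [Finset.sum_image]
      · refine Finset.sum_congr rfl fun m hm => ?_
        have hmc := (Finset.mem_filter.1 hm).2
        rw [Nat.cast_sub (by omega)]
      · intro x hx y hy hxy
        have h6 := (Finset.mem_filter.1 (Finset.mem_coe.1 hx)).2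
        have h7 := (Finset.mem_filter.1 (Finset.mem_coe.1 hy)).2
        simp only at hxy
        omega
    rw [h5]
    refine le_trans (Finset.sum_le_sum_of_subset_of_nonneg (t := Finset.range (N + 1)) ?_ ?_)
      (a04_sum' A hA N)
    · intro d hd
      obtain ⟨m, hm, rfl⟩ := Finset.mem_image.1 hd
      have := (Finset.mem_Icc.1 (Finset.mem_filter.1 hm).1).2
      exact Finset.mem_range.2 (by omega)
    · intro d _ _
      positivity
  linarith

private theorem a04_log (a b : ℝ) (ha : 0 < a) (hab : a ≤ b) :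
    (b - a) / b ≤ Real.log b - Real.log a := by
  have hb : 0 < b := lt_of_lt_of_le ha hab
  have h1 := Real.one_sub_inv_le_log_of_pos (x := b / a) (by positivity)
  rw [Real.log_div hb.ne' ha.ne'] at h1
  have h2 : 1 - (b / a)⁻¹ = (b - a) / b := by
    field_simp
  rw [h2] at h1
  exact h1

private theorem a04_exp (x y η : ℝ) (hη : 0 < η) (hx : 0 ≤ x) (hxy : x ≤ y) :
    Real.exp (-(y / η) ^ 2) ≤ Real.exp (-(x / η) ^ 2) := by
  rw [Real.exp_le_exp, neg_le_neg_iff]
  exact pow_le_pow_left₀ (by positivity) (div_le_div_of_nonneg_right hxy hη.le) 2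

private theorem a04_term (n H : ℕ) (hn : 1 ≤ n) (hH : 1 ≤ H) (hHn : 2 * H ≤ n) (η : ℝ)
    (hη : 0 < η) (v : ℝ) (hv : v < Real.log n) (hv' : Real.log n ≤ v + 1) (m : ℕ) (hm : 1 ≤ m) :
    (1 / (m : ℝ)) *
      |(if n < m ∧ m ≤ n + H then (1 : ℝ) else 0) - phi (Real.log m - v) *
        ∫ u in (Real.log n)..(Real.log ((n : ℝ) + H)), gk η (Real.log m - u)| ≤
      (8 / (n : ℝ)) * (Real.exp (-(((m : ℝ) - n) / (25 * n * η)) ^ 2) +
        Real.exp (-(((m : ℝ) - (n + H : ℕ)) / (25 * n * η)) ^ 2)) := by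
  have hnR : (1 : ℝ) ≤ n := by exact_mod_cast hn
  have hn0 : (0 : ℝ) < n := by linarith
  have hmR : (1 : ℝ) ≤ m := by exact_mod_cast hm
  have hm0 : (0 : ℝ) < m := by linarith
  have hHR : (1 : ℝ) ≤ H := by exact_mod_cast hH
  have hHn' : 2 * (H : ℝ) ≤ n := by exact_mod_cast hHn
  have hlog : Real.log n ≤ Real.log ((n : ℝ) + H) := Real.log_le_log hn0 (by linarith)
  set K : ℝ := ∫ u in (Real.log n)..(Real.log ((n : ℝ) + H)), gk η (Real.log m - u) with hK
  have hK0 : 0 ≤ K := intervalIntegral.integral_nonneg hlog fun u _ => a04_nonneg η hη _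
  have hE1 : 0 < Real.exp (-(((m : ℝ) - n) / (25 * n * η)) ^ 2) := Real.exp_pos _
  have hE2 : 0 < Real.exp (-(((m : ℝ) - (n + H : ℕ)) / (25 * n * η)) ^ 2) := Real.exp_pos _
  have h8 : 0 ≤ (8 / (n : ℝ)) * (Real.exp (-(((m : ℝ) - n) / (25 * n * η)) ^ 2) +
        Real.exp (-(((m : ℝ) - (n + H : ℕ)) / (25 * n * η)) ^ 2)) := by positivity
  have hp0 := phi_nonneg (Real.log m - v)
  have hp1 := phi_le_one (Real.log m - v)
  rcases le_or_gt m n with hmn | hmn
  · -- m ≤ n
    have hmnR : (m : ℝ) ≤ n := by exact_mod_cast hmn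
    rw [if_neg (by omega), zero_sub, abs_neg, abs_of_nonneg (mul_nonneg hp0 hK0)]
    by_cases hphi : phi (Real.log m - v) = 0
    · rw [hphi, zero_mul, mul_zero]
      exact h8
    · have h9 : -1 < Real.log m - v := by
        by_contra hc
        exact hphi (phi_eq_zero (Or.inl (not_lt.1 hc)))
      have h10 : 1 / (m : ℝ) ≤ 8 / n := by
        rw [div_le_div_iff₀ hm0 hn0, one_mul]
        have h11 : Real.log n < Real.log m + 2 := by linarith
        have h12 : (n : ℝ) ≤ m * Real.exp 2 := by
          have h13 : Real.log n ≤ Real.log (m * Real.exp 2) := by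
            rw [Real.log_mul hm0.ne' (Real.exp_pos _).ne', Real.log_exp]
            linarith
          exact (Real.log_le_log_iff hn0 (by positivity)).1 h13
        have h14 : Real.exp 2 ≤ 8 := by
          have h15 := Real.exp_one_lt_d9
          have h16 : Real.exp 2 = Real.exp 1 * Real.exp 1 := by
            rw [← Real.exp_add]
            norm_num
          rw [h16]
          nlinarith [Real.exp_pos 1]
        nlinarith
      have h17 : K ≤ Real.exp (-(((m : ℝ) - n) / (25 * n * η)) ^ 2) := by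
        have h18 := a04_left η hη _ _ (Real.log m) hlog (Real.log_le_log hm0 hmnR)
        have h19 := a04_log m n hm0 hmnR
        have h20 : ((n : ℝ) - m) / (25 * n) ≤ Real.log n - Real.log m := by
          refine le_trans ?_ h19
          refine div_le_div_of_nonneg_left (by linarith) hn0 (by linarith)
        have h21 := a04_exp (((n : ℝ) - m) / (25 * n)) _ η hη
          (div_nonneg (by linarith) (by positivity)) h20
        have h22 : (((n : ℝ) - m) / (25 * n) / η) ^ 2 = (((m : ℝ) - n) / (25 * n * η)) ^ 2 := by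
          rw [div_div]
          ring
        rw [h22] at h21
        exact le_trans h18 h21
      calc 1 / (m : ℝ) * (phi (Real.log m - v) * K) ≤ 8 / n * (1 * K) := by
            refine mul_le_mul h10 (mul_le_mul_of_nonneg_right hp1 hK0) (mul_nonneg hp0 hK0)
              (by positivity)
        _ ≤ (8 / (n : ℝ)) * (Real.exp (-(((m : ℝ) - n) / (25 * n * η)) ^ 2) +
              Real.exp (-(((m : ℝ) - (n + H : ℕ)) / (25 * n * η)) ^ 2)) := by
            refine mul_le_mul_of_nonneg_left ?_ (by positivity)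
            linarith
  · have hmnR : (n : ℝ) < m := by exact_mod_cast hmn
    have h10 : 1 / (m : ℝ) ≤ 8 / n := by
      rw [div_le_div_iff₀ hm0 hn0]
      linarith
    rcases le_or_gt m (n + H) with hmH | hmH
    · -- n < m ≤ n + H
      have hmHR : (m : ℝ) ≤ n + H := by exact_mod_cast hmH
      rw [if_pos ⟨hmn, hmH⟩]
      have hl1 : Real.log n ≤ Real.log m := Real.log_le_log hn0 hmnR.le
      have hl2 : Real.log m ≤ Real.log ((n : ℝ) + H) := Real.log_le_log hm0 hmHR
      have hl3 : Real.log ((n : ℝ) + H) ≤ Real.log n + 1 := by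
        have h11 : Real.log ((n : ℝ) + H) ≤ Real.log (n * Real.exp 1) := by
          refine Real.log_le_log (by linarith) ?_
          have := Real.exp_one_gt_d9
          nlinarith
        rw [Real.log_mul hn0.ne' (Real.exp_pos _).ne', Real.log_exp] at h11
        exact h11
      rw [phi_eq_one (by linarith) (by linarith), one_mul]
      have h12 := a04_mid η hη _ _ (Real.log m) hl1 hl2
      have h13 := a04_log n m hn0 hmnR.le
      have h14 := a04_log m ((n : ℝ) + H) hm0 hmHR
      have h15 : ((m : ℝ) - n) / (25 * n) ≤ Real.log m - Real.log n := by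
        refine le_trans ?_ h13
        exact div_le_div_of_nonneg_left (by linarith) hm0 (by linarith)
      have h16 : ((n : ℝ) + H - m) / (25 * n) ≤ Real.log ((n : ℝ) + H) - Real.log m := by
        refine le_trans ?_ h14
        exact div_le_div_of_nonneg_left (by linarith) (by linarith) (by linarith)
      have h17 := a04_exp (((m : ℝ) - n) / (25 * n)) _ η hη
          (div_nonneg (by linarith) (by positivity)) h15
      have h18 := a04_exp (((n : ℝ) + H - m) / (25 * n)) _ η hη
          (div_nonneg (by linarith) (by positivity)) h16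
      have h19 : (((m : ℝ) - n) / (25 * n) / η) ^ 2 = (((m : ℝ) - n) / (25 * n * η)) ^ 2 := by
        rw [div_div]
      have h20 : (((n : ℝ) + H - m) / (25 * n) / η) ^ 2 =
          (((m : ℝ) - (n + H : ℕ)) / (25 * n * η)) ^ 2 := by
        rw [div_div]
        push_cast
        ring
      have h21 : ((Real.log ((n : ℝ) + H) - Real.log m) / η) ^ 2 =
          ((Real.log m - Real.log ((n : ℝ) + H)) / η) ^ 2 := by ring
      rw [h19] at h17
      rw [h20, h21] at h18
      refine mul_le_mul h10 ?_ (abs_nonneg _) (by positivity)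
      linarith
    · -- m > n + H
      have hmHR : (n : ℝ) + H < m := by exact_mod_cast hmH
      rw [if_neg (by omega), zero_sub, abs_neg, abs_of_nonneg (mul_nonneg hp0 hK0)]
      by_cases hphi : phi (Real.log m - v) = 0
      · rw [hphi, zero_mul, mul_zero]
        exact h8
      · have h9 : Real.log m - v < 3 := by
          by_contra hc
          exact hphi (phi_eq_zero (Or.inr (not_lt.1 hc)))
        have h11 : (m : ℝ) ≤ 25 * n := by
          have h12 : (m : ℝ) ≤ n * Real.exp 3 := by
            have h13 : Real.log m ≤ Real.log (n * Real.exp 3) := by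
              rw [Real.log_mul hn0.ne' (Real.exp_pos _).ne', Real.log_exp]
              linarith
            exact (Real.log_le_log_iff hm0 (by positivity)).1 h13
          have h14 : Real.exp 3 ≤ 25 := by
            have h15 := Real.exp_one_lt_d9
            have h16 : Real.exp 3 = Real.exp 1 * Real.exp 1 * Real.exp 1 := by
              rw [← Real.exp_add, ← Real.exp_add]
              norm_num
            rw [h16]
            have h17 : Real.exp 1 * Real.exp 1 ≤ 8 := by nlinarith [Real.exp_pos 1]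
            nlinarith [Real.exp_pos 1]
          nlinarith
        have h17 : K ≤ Real.exp (-(((m : ℝ) - (n + H : ℕ)) / (25 * n * η)) ^ 2) := by
          have h18 := a04_right η hη _ _ (Real.log m) hlog
            (Real.log_le_log (by linarith) hmHR.le)
          have h19 := a04_log ((n : ℝ) + H) m (by linarith) hmHR.le
          have h20 : ((m : ℝ) - (n + H)) / (25 * n) ≤ Real.log m - Real.log ((n : ℝ) + H) := by
            refine le_trans ?_ h19
            exact div_le_div_of_nonneg_left (by linarith) hm0 h11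
          have h21 := a04_exp (((m : ℝ) - (n + H)) / (25 * n)) _ η hη
            (div_nonneg (by linarith) (by positivity)) h20
          have h22 : (((m : ℝ) - (n + H)) / (25 * n) / η) ^ 2 =
              (((m : ℝ) - (n + H : ℕ)) / (25 * n * η)) ^ 2 := by
            rw [div_div]
            push_cast
            ring
          rw [h22] at h21
          exact le_trans h18 h21
        calc 1 / (m : ℝ) * (phi (Real.log m - v) * K) ≤ 8 / n * (1 * K) := by
              refine mul_le_mul h10 (mul_le_mul_of_nonneg_right hp1 hK0) (mul_nonneg hp0 hK0)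
                (by positivity)
          _ ≤ (8 / (n : ℝ)) * (Real.exp (-(((m : ℝ) - n) / (25 * n * η)) ^ 2) +
                Real.exp (-(((m : ℝ) - (n + H : ℕ)) / (25 * n * η)) ^ 2)) := by
              refine mul_le_mul_of_nonneg_left ?_ (by positivity)
              linarith

theorem cover_err : ∃ C : ℝ, 0 < C ∧ ∀ n H : ℕ, 1 ≤ n → 1 ≤ H → 2 * H ≤ n → ∀ η : ℝ, 0 < η →
    η ≤ 1 → ∀ v : ℝ, v < Real.log n → Real.log n ≤ v + 1 → ∀ N : ℕ,
    ∑ m ∈ Finset.Icc 1 N, (1 / (m : ℝ)) *
      |(if n < m ∧ m ≤ n + H then (1 : ℝ) else 0) - phi (Real.log m - v) *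
        ∫ u in (Real.log n)..(Real.log ((n : ℝ) + H)), gk η (Real.log m - u)| ≤
      C * (η + 1 / (n : ℝ)) := by
  refine ⟨1600, by norm_num, ?_⟩
  intro n H hn hH hHn η hη _ v hv hv' N
  have hn0 : (0 : ℝ) < n := by exact_mod_cast hn
  refine le_trans (Finset.sum_le_sum fun m hm =>
    a04_term n H hn hH hHn η hη v hv hv' m (Finset.mem_Icc.1 hm).1) ?_
  rw [← Finset.mul_sum, Finset.sum_add_distrib]
  have hA : 0 < 25 * (n : ℝ) * η := by positivity
  have h1 := a04_two (25 * n * η) hA n N
  have h2 := a04_two (25 * n * η) hA (n + H) N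
  calc 8 / (n : ℝ) * (∑ m ∈ Finset.Icc 1 N, Real.exp (-(((m : ℝ) - n) / (25 * n * η)) ^ 2) +
        ∑ m ∈ Finset.Icc 1 N, Real.exp (-(((m : ℝ) - (n + H : ℕ)) / (25 * n * η)) ^ 2))
      ≤ 8 / (n : ℝ) * ((2 + 4 * (25 * n * η)) + (2 + 4 * (25 * n * η))) :=
        mul_le_mul_of_nonneg_left (add_le_add h1 h2) (by positivity)
    _ = 1600 * η + 32 / n := by
        field_simp
        ring
    _ ≤ 1600 * (η + 1 / (n : ℝ)) := by
        have h3 : (0 : ℝ) < 1 / n := by positivity
        have h4 : 32 / (n : ℝ) = 32 * (1 / n) := by ring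
        rw [h4]
        linarith

end MRD
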