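import Mathlib
import Pool.Agent.Helper72.MRD.Defs
import Pool.Agent.Helper72.MRD.A04

set_option autoImplicit false

/-!
MRD-A05. Short sums are bounded by Gaussian averages.

Put `x0 = log n`, `x1 = log(n+H)`. Since `|1/n - 1/m| ≤ H/n²` for `n < m ≤ n+H`,
`‖∑_j f(n+j) - n ∑_{n<m≤n+H} f(m)/m‖ ≤ 2 H²/n ≤ 1`.
`n ∑_{n<m≤n+H} f(m)/m - n ∫_{x0}^{x1} GG η N (cut phi v f) u du =
 n ∑_m (f(m)/m) (1_{n<m≤n+H} - phi(log m - v) K m)`, of norm `≤ 2 n C (η + 1/n)` by `cover_err`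
(`N ≥ n + H`, interchange of a finite sum and an interval integral).
Cauchy-Schwarz: `‖n ∫_{x0}^{x1} GG‖² ≤ n² (x1 - x0) ∫_{x0}^{x1} ‖GG‖² ≤ n H ∫_{x0}^{x1} ‖GG‖²`
since `log(1 + H/n) ≤ H/n`. Finally `‖a + b + c‖² ≤ 3(‖a‖²+‖b‖²+‖c‖²)`.
-/

namespace MRD

open Finset MRP MeasureTheory

private lemma cs_int (g : ℝ → ℂ) (hg : Continuous g) {a b : ℝ} (hab : a ≤ b) :
    ‖∫ u in a..b, g u‖ ^ 2 ≤ (b - a) * ∫ u in a..b, ‖g u‖ ^ 2 := by
  have h1 : ‖∫ u in a..b, g u‖ ≤ ∫ u in a..b, ‖g u‖ :=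
    intervalIntegral.norm_integral_le_integral_norm hab
  have h0 : 0 ≤ ‖∫ u in a..b, g u‖ := norm_nonneg _
  rcases hab.eq_or_lt with h | h
  · subst h
    simp
  · have hL : 0 < b - a := by linarith
    set I1 : ℝ := ∫ u in a..b, ‖g u‖ with hI1
    set I2 : ℝ := ∫ u in a..b, ‖g u‖ ^ 2 with hI2
    have hi1 : IntervalIntegrable (fun u => ‖g u‖) volume a b := (hg.norm).intervalIntegrable _ _
    have hi2 : IntervalIntegrable (fun u => ‖g u‖ ^ 2) volume a b :=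
      (hg.norm.pow 2).intervalIntegrable _ _
    have h2 : 0 ≤ ∫ u in a..b, (‖g u‖ - I1 / (b - a)) ^ 2 :=
      intervalIntegral.integral_nonneg hab (fun u _ => sq_nonneg _)
    have h3 : ∫ u in a..b, (‖g u‖ - I1 / (b - a)) ^ 2 = I2 - I1 ^ 2 / (b - a) := by
      have e : ∀ u, (‖g u‖ - I1 / (b - a)) ^ 2 =
          ‖g u‖ ^ 2 - (2 * (I1 / (b - a))) * ‖g u‖ + (I1 / (b - a)) ^ 2 := fun u => by ring
      simp_rw [e]
      rw [intervalIntegral.integral_add (hi2.sub (hi1.const_mul _)) intervalIntegrable_const,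
        intervalIntegral.integral_sub hi2 (hi1.const_mul _), intervalIntegral.integral_const_mul,
        intervalIntegral.integral_const, smul_eq_mul]
      field_simp
      ring
    rw [h3] at h2
    have h4 : I1 ^ 2 ≤ (b - a) * I2 := by
      have := mul_le_mul_of_nonneg_left (sub_nonneg.mp h2) hL.le
      have e2 : (b - a) * (I1 ^ 2 / (b - a)) = I1 ^ 2 := by field_simp
      rw [e2] at this
      exact this
    calc ‖∫ u in a..b, g u‖ ^ 2 ≤ I1 ^ 2 := pow_le_pow_left₀ h0 h1 2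
      _ ≤ (b - a) * I2 := h4

private lemma continuous_gk (η x : ℝ) : Continuous (fun u => gk η (x - u)) := by
  unfold gk
  fun_prop

private lemma continuous_GG (η : ℝ) (N : ℕ) (a : ℕ → ℂ) : Continuous (GG η N a) := by
  unfold GG
  refine continuous_finsetSum _ fun n _ => ?_
  exact continuous_const.mul (Complex.continuous_ofReal.comp (continuous_gk η (Real.log n)))

private lemma int_GG (η : ℝ) (N : ℕ) (a : ℕ → ℂ) (x y : ℝ) :
    ∫ u in x..y, GG η N a u =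
      ∑ m ∈ Finset.Icc 1 N, a m / (m : ℂ) * ((∫ u in x..y, gk η (Real.log m - u) : ℝ) : ℂ) := by
  unfold GG
  rw [intervalIntegral.integral_finsetSum]
  · apply Finset.sum_congr rfl
    intro m _
    rw [intervalIntegral.integral_const_mul, intervalIntegral.integral_ofReal]
  · intro m _
    apply Continuous.intervalIntegrable
    exact continuous_const.mul (Complex.continuous_ofReal.comp (continuous_gk η (Real.log m)))

private lemma three_sq (a b c : ℂ) : ‖a + b + c‖ ^ 2 ≤ 3 * (‖a‖ ^ 2 + ‖b‖ ^ 2 + ‖c‖ ^ 2) := by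
  have h1 : ‖a + b + c‖ ≤ ‖a‖ + ‖b‖ + ‖c‖ := norm_add₃_le
  have h2 : ‖a + b + c‖ ^ 2 ≤ (‖a‖ + ‖b‖ + ‖c‖) ^ 2 := pow_le_pow_left₀ (norm_nonneg _) h1 2
  nlinarith [sq_nonneg (‖a‖ - ‖b‖), sq_nonneg (‖a‖ - ‖c‖), sq_nonneg (‖b‖ - ‖c‖)]

theorem short_sum_le : ∃ C : ℝ, 0 < C ∧ ∀ f : ℕ → ℂ, (∀ n, ‖f n‖ ≤ 2) → ∀ n H : ℕ, 1 ≤ H →
    2 * H ^ 2 ≤ n → ∀ η : ℝ, 0 < η → η ≤ 1 → ∀ v : ℝ, v < Real.log n → Real.log n ≤ v + 1 →
    ∀ N : ℕ, n + H ≤ N →
    ‖∑ j ∈ Finset.Icc 1 H, f (n + j)‖ ^ 2 ≤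
      C * ((n : ℝ) * H * (∫ u in (Real.log n)..(Real.log ((n : ℝ) + H)),
        ‖GG η N (cut phi v f) u‖ ^ 2) + ((n : ℝ) * η + 1) ^ 2) := by
  obtain ⟨C0, hC0, hcov⟩ := cover_err
  refine ⟨3 * (1 + 4 * C0 ^ 2), by positivity, ?_⟩
  intro f hf n H hH hn η hη hη1 v hv1 hv2 N hN
  have hHn : 2 * H ≤ n := by nlinarith
  have hn1 : 1 ≤ n := by omega
  have hnR : (0 : ℝ) < n := by exact_mod_cast hn1
  have hHR : (0 : ℝ) < H := by exact_mod_cast hH
  have hcov' := hcov n H hn1 hH hHn η hη hη1 v hv1 hv2 N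
  set x0 := Real.log n with hx0
  set x1 := Real.log ((n : ℝ) + H) with hx1
  have hx01 : x0 ≤ x1 := Real.log_le_log hnR (by linarith)
  set S : ℂ := ∑ j ∈ Finset.Icc 1 H, f (n + j) with hS
  set K : ℕ → ℝ := fun m => ∫ u in x0..x1, gk η (Real.log m - u) with hK
  set T : ℂ := (n : ℂ) * ∑ m ∈ Finset.Icc 1 N, (if n < m ∧ m ≤ n + H then f m / (m : ℂ) else 0) with hT
  set G : ℂ := (n : ℂ) * ∫ u in x0..x1, GG η N (cut phi v f) u with hG
  -- S as a sum over Icc 1 N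
  have hS1 : S = ∑ m ∈ Finset.Icc 1 N, (if n < m ∧ m ≤ n + H then f m else 0) := by
    rw [hS, ← Finset.sum_filter]
    apply Finset.sum_nbij' (fun j => n + j) (fun m => m - n)
    · intro j hj
      simp only [Finset.mem_filter, Finset.mem_Icc] at hj ⊢
      omega
    · intro m hm
      simp only [Finset.mem_filter, Finset.mem_Icc] at hm ⊢
      omega
    · intro j hj
      simp
    · intro m hm
      simp only [Finset.mem_filter, Finset.mem_Icc] at hm
      omega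
    · intro j hj
      rfl
  have hcard : ((Finset.Icc 1 N).filter (fun m => n < m ∧ m ≤ n + H)).card = H := by
    have : (Finset.Icc 1 N).filter (fun m => n < m ∧ m ≤ n + H) = Finset.Ioc n (n + H) := by
      ext m
      simp only [Finset.mem_filter, Finset.mem_Icc, Finset.mem_Ioc]
      omega
    rw [this, Nat.card_Ioc]
    omega
  -- first error
  have hE1 : ‖S - T‖ ≤ 1 := by
    have e1 : S - T = ∑ m ∈ (Finset.Icc 1 N).filter (fun m => n < m ∧ m ≤ n + H),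
        (f m - (n : ℂ) * (f m / (m : ℂ))) := by
      rw [hS1, hT, Finset.mul_sum, ← Finset.sum_sub_distrib, Finset.sum_filter]
      apply Finset.sum_congr rfl
      intro m _
      split_ifs <;> simp
    rw [e1]
    have hle : ∀ m ∈ (Finset.Icc 1 N).filter (fun m => n < m ∧ m ≤ n + H),
        ‖f m - (n : ℂ) * (f m / (m : ℂ))‖ ≤ 2 * (H / n) := by
      intro m hm
      simp only [Finset.mem_filter, Finset.mem_Icc] at hm
      have hmR : (0 : ℝ) < m := by exact_mod_cast hm.1.1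
      have hmC : (m : ℂ) ≠ 0 := by
        have : m ≠ 0 := by omega
        exact_mod_cast this
      have h1 : (n : ℝ) ≤ m := by exact_mod_cast hm.2.1.le
      have h2 : (m : ℝ) ≤ n + H := by exact_mod_cast hm.2.2
      have e2 : f m - (n : ℂ) * (f m / (m : ℂ)) = f m * ((((m : ℝ) - n) / m : ℝ) : ℂ) := by
        push_cast
        field_simp
      rw [e2, norm_mul, Complex.norm_real, Real.norm_of_nonneg (div_nonneg (by linarith) hmR.le)]
      apply mul_le_mul (hf m) _ (div_nonneg (by linarith) hmR.le) (by norm_num)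
      rw [div_le_div_iff₀ hmR hnR]
      nlinarith
    calc ‖∑ m ∈ (Finset.Icc 1 N).filter (fun m => n < m ∧ m ≤ n + H),
          (f m - (n : ℂ) * (f m / (m : ℂ)))‖
        ≤ ∑ m ∈ (Finset.Icc 1 N).filter (fun m => n < m ∧ m ≤ n + H), (2 * ((H : ℝ) / n)) :=
          norm_sum_le_of_le _ hle
      _ = 2 * H ^ 2 / n := by
          rw [Finset.sum_const, hcard, nsmul_eq_mul]
          ring
      _ ≤ 1 := by
          rw [div_le_one hnR]
          exact_mod_cast hn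
  -- second error
  have hE2 : ‖T - G‖ ≤ 2 * C0 * (n * η + 1) := by
    have e1 : T - G = (n : ℂ) * ∑ m ∈ Finset.Icc 1 N, f m * (((1 / (m : ℝ)) *
        ((if n < m ∧ m ≤ n + H then (1 : ℝ) else 0) - phi (Real.log m - v) * K m) : ℝ) : ℂ) := by
      rw [hT, hG, ← mul_sub, int_GG, ← Finset.sum_sub_distrib]
      congr 1
      apply Finset.sum_congr rfl
      intro m _
      unfold cut
      simp only [hK]
      split_ifs
      · push_cast
        ring
      · push_cast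
        ring
    rw [e1, norm_mul, Complex.norm_natCast]
    have h1 : ‖∑ m ∈ Finset.Icc 1 N, f m * (((1 / (m : ℝ)) *
        ((if n < m ∧ m ≤ n + H then (1 : ℝ) else 0) - phi (Real.log m - v) * K m) : ℝ) : ℂ)‖ ≤
        2 * (C0 * (η + 1 / (n : ℝ))) := by
      calc ‖∑ m ∈ Finset.Icc 1 N, f m * (((1 / (m : ℝ)) *
          ((if n < m ∧ m ≤ n + H then (1 : ℝ) else 0) - phi (Real.log m - v) * K m) : ℝ) : ℂ)‖
          ≤ ∑ m ∈ Finset.Icc 1 N, 2 * ((1 / (m : ℝ)) *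
            |(if n < m ∧ m ≤ n + H then (1 : ℝ) else 0) - phi (Real.log m - v) * K m|) := by
            apply norm_sum_le_of_le
            intro m _
            rw [norm_mul, Complex.norm_real, Real.norm_eq_abs, abs_mul,
              abs_of_nonneg (by positivity : (0 : ℝ) ≤ 1 / (m : ℝ))]
            exact mul_le_mul_of_nonneg_right (hf m) (by positivity)
        _ = 2 * ∑ m ∈ Finset.Icc 1 N, (1 / (m : ℝ)) *
            |(if n < m ∧ m ≤ n + H then (1 : ℝ) else 0) - phi (Real.log m - v) * K m| := by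
            rw [Finset.mul_sum]
        _ ≤ 2 * (C0 * (η + 1 / (n : ℝ))) := by
            apply mul_le_mul_of_nonneg_left hcov' (by norm_num)
    calc (n : ℝ) * ‖∑ m ∈ Finset.Icc 1 N, f m * (((1 / (m : ℝ)) *
        ((if n < m ∧ m ≤ n + H then (1 : ℝ) else 0) - phi (Real.log m - v) * K m) : ℝ) : ℂ)‖
        ≤ n * (2 * (C0 * (η + 1 / (n : ℝ)))) := mul_le_mul_of_nonneg_left h1 hnR.le
      _ = 2 * C0 * (n * η + 1) := by
          field_simp
  -- main term
  have hE3 : ‖G‖ ^ 2 ≤ (n : ℝ) * H * (∫ u in x0..x1, ‖GG η N (cut phi v f) u‖ ^ 2) := by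
    rw [hG, norm_mul, Complex.norm_natCast, mul_pow]
    have h1 := cs_int (GG η N (cut phi v f)) (continuous_GG _ _ _) hx01
    have h2 : x1 - x0 ≤ H / n := by
      have e1 : x1 - x0 = Real.log (1 + H / n) := by
        rw [hx1, hx0, ← Real.log_div (by positivity) (by positivity)]
        congr 1
        field_simp
      rw [e1]
      have := Real.log_le_sub_one_of_pos (x := 1 + (H : ℝ) / n) (by positivity)
      linarith
    have h3 : 0 ≤ ∫ u in x0..x1, ‖GG η N (cut phi v f) u‖ ^ 2 :=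
      intervalIntegral.integral_nonneg hx01 (fun u _ => by positivity)
    calc (n : ℝ) ^ 2 * ‖∫ u in x0..x1, GG η N (cut phi v f) u‖ ^ 2
        ≤ (n : ℝ) ^ 2 * ((x1 - x0) * ∫ u in x0..x1, ‖GG η N (cut phi v f) u‖ ^ 2) :=
          mul_le_mul_of_nonneg_left h1 (by positivity)
      _ ≤ (n : ℝ) ^ 2 * ((H / n) * ∫ u in x0..x1, ‖GG η N (cut phi v f) u‖ ^ 2) := by
          apply mul_le_mul_of_nonneg_left _ (by positivity)
          exact mul_le_mul_of_nonneg_right h2 h3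
      _ = (n : ℝ) * H * (∫ u in x0..x1, ‖GG η N (cut phi v f) u‖ ^ 2) := by
          field_simp
  have h3 : 0 ≤ (n : ℝ) * H * ∫ u in x0..x1, ‖GG η N (cut phi v f) u‖ ^ 2 := by
    apply mul_nonneg (by positivity)
    exact intervalIntegral.integral_nonneg hx01 (fun u _ => by positivity)
  set W : ℝ := (n : ℝ) * H * ∫ u in x0..x1, ‖GG η N (cut phi v f) u‖ ^ 2 with hW
  have hsum : S = (S - T) + (T - G) + G := by ring
  have hfin := three_sq (S - T) (T - G) G
  rw [← hsum] at hfin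
  have hy : 1 ≤ (n : ℝ) * η + 1 := by
    have : 0 < (n : ℝ) * η := by positivity
    linarith
  have q1 : ‖S - T‖ ^ 2 ≤ 1 := by
    have := norm_nonneg (S - T)
    nlinarith
  have q2 : ‖T - G‖ ^ 2 ≤ (2 * C0 * (n * η + 1)) ^ 2 := pow_le_pow_left₀ (norm_nonneg _) hE2 2
  have q3 : 1 ≤ ((n : ℝ) * η + 1) ^ 2 := by nlinarith
  calc ‖S‖ ^ 2 ≤ 3 * (‖S - T‖ ^ 2 + ‖T - G‖ ^ 2 + ‖G‖ ^ 2) := hfin
    _ ≤ 3 * (((n : ℝ) * η + 1) ^ 2 + (2 * C0 * (n * η + 1)) ^ 2 + W) := by linarith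
    _ = 3 * (1 + 4 * C0 ^ 2) * ((n : ℝ) * η + 1) ^ 2 + 3 * W := by ring
    _ ≤ 3 * (1 + 4 * C0 ^ 2) * ((n : ℝ) * η + 1) ^ 2 + 3 * (1 + 4 * C0 ^ 2) * W := by
        have : 3 * W ≤ 3 * (1 + 4 * C0 ^ 2) * W := by
          have h5 : 0 ≤ C0 ^ 2 * W := by positivity
          nlinarith
        linarith
    _ = 3 * (1 + 4 * C0 ^ 2) * (W + ((n : ℝ) * η + 1) ^ 2) := by ring

end MRD
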