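import Mathlib
import Pool.Agent.Helper72.MRD.Defs
import Pool.Agent.Helper72.MRD.A03
import Pool.Agent.Helper72.MRD.A05

set_option autoImplicit false

/-!
MRD-A06. The block sum `SS` is bounded by the mean square `II` of the Dirichlet polynomial.

Take `η = h e^{-v} ≤ 1`. For `n` in the block, `e^v < n ≤ e^{v+1}`; `2H² ≤ n`, `n + H ≤ N`.
By `short_sum_le`, with `G u = ‖GG η N (cut phi v f) u‖²`,
`SS ≤ C ∑_n (1/n) (n H ∫_{log n}^{log(n+H)} G + (n η + 1)²)`.
First part: `H ∑_n ∫_{log n}^{log(n+H)} G = H ∫ G(u) #{n : log n ≤ u ≤ log(n+H)} du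
≤ H (H+1) ∫ G ≤ 2 H² (1/(2π)) II` (`parseval`; write the interval integral as the integral of an
indicator, for each `u` the set of `n` with `n ≤ e^u ≤ n + H` has at most `H + 1` elements).
Second part: `n η + 1 ≤ e h + 1 ≤ 4h`, and `∑_{v < log n ≤ v+1} 1/n ≤ 3` (at most `e^{v+1}` numbers,
each `1/n < e^{-v}`).
-/

namespace MRD

open Finset MRP MeasureTheory

/-- At most `H` integers `n` of a finite set satisfy `n < x ≤ n + H`. -/
private lemma a06_count (S : Finset ℕ) (H : ℕ) (x : ℝ) :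
    ((S.filter (fun n : ℕ => (n : ℝ) < x ∧ x ≤ (n : ℝ) + H)).card : ℝ) ≤ H := by
  have h1 : S.filter (fun n : ℕ => (n : ℝ) < x ∧ x ≤ (n : ℝ) + H) ⊆
      Finset.Ico (⌈x⌉₊ - H) ⌈x⌉₊ := by
    intro n hn
    obtain ⟨_, h1, h2⟩ := Finset.mem_filter.mp hn
    rw [Finset.mem_Ico]
    have h3 : n < ⌈x⌉₊ := Nat.lt_ceil.mpr h1
    have h4 : ⌈x⌉₊ ≤ n + H := Nat.ceil_le.mpr (by push_cast; exact h2)
    omega
  have h2 := Finset.card_le_card h1
  rw [Nat.card_Ico] at h2
  have h3 : ⌈x⌉₊ - (⌈x⌉₊ - H) ≤ H := by omega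
  exact_mod_cast h2.trans h3

private lemma a06_int (S : Finset ℕ) (hS : ∀ n ∈ S, 1 ≤ n) (H : ℕ) (G : ℝ → ℝ)
    (hG : Integrable G) (hG0 : ∀ u, 0 ≤ G u) :
    ∑ n ∈ S, (∫ u in (Real.log n)..(Real.log ((n : ℝ) + H)), G u) ≤ H * ∫ u, G u := by
  have h1 : ∀ n ∈ S, (∫ u in (Real.log n)..(Real.log ((n : ℝ) + H)), G u) =
      ∫ u, (Set.Ioc (Real.log n) (Real.log ((n : ℝ) + H))).indicator G u := by
    intro n hn
    have hn1 : (1 : ℝ) ≤ n := by exact_mod_cast hS n hn
    rw [intervalIntegral.integral_of_le (Real.log_le_log (by linarith) (by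
      have : (0 : ℝ) ≤ H := Nat.cast_nonneg _
      linarith)), integral_indicator measurableSet_Ioc]
  rw [Finset.sum_congr rfl h1, ← integral_finsetSum _ (fun n _ => hG.indicator measurableSet_Ioc),
    ← integral_const_mul]
  refine integral_mono (integrable_finsetSum _ (fun n _ => hG.indicator measurableSet_Ioc))
    (hG.const_mul _) ?_
  intro u
  have e1 : ∑ n ∈ S, (Set.Ioc (Real.log n) (Real.log ((n : ℝ) + H))).indicator G u =
      ((S.filter (fun n : ℕ => u ∈ Set.Ioc (Real.log n) (Real.log ((n : ℝ) + H)))).card : ℝ) *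
        G u := by
    rw [← nsmul_eq_mul, ← Finset.sum_const, Finset.sum_filter]
    refine Finset.sum_congr rfl fun n _ => ?_
    rw [Set.indicator_apply]
  show (∑ n ∈ S, (Set.Ioc (Real.log n) (Real.log ((n : ℝ) + H))).indicator G u) ≤ H * G u
  rw [e1]
  refine mul_le_mul_of_nonneg_right ?_ (hG0 u)
  refine le_trans ?_ (a06_count S H (Real.exp u))
  have : S.filter (fun n : ℕ => u ∈ Set.Ioc (Real.log n) (Real.log ((n : ℝ) + H))) ⊆
      S.filter (fun n : ℕ => (n : ℝ) < Real.exp u ∧ Real.exp u ≤ (n : ℝ) + H) := by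
    intro n hn
    obtain ⟨hnS, h1, h2⟩ := Finset.mem_filter.mp hn
    have hn1 : (1 : ℝ) ≤ n := by exact_mod_cast hS n hnS
    have hH : (0 : ℝ) ≤ H := Nat.cast_nonneg _
    refine Finset.mem_filter.mpr ⟨hnS, (Real.log_lt_iff_lt_exp (by linarith)).mp h1, ?_⟩
    exact (Real.le_log_iff_exp_le (by linarith)).mp h2
  exact_mod_cast Finset.card_le_card this

theorem SS_le : ∃ C : ℝ, 0 < C ∧ ∀ f : ℕ → ℂ, (∀ n, ‖f n‖ ≤ 2) → ∀ H : ℕ, 1 ≤ H →
    ∀ h : ℝ, 1 ≤ h → ∀ v : ℝ, 4 * (H : ℝ) ^ 2 ≤ Real.exp v → h ≤ Real.exp v →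
    ∀ N : ℕ, Real.exp (v + 4) ≤ N →
    SS f H v ≤ C * ((H : ℝ) ^ 2 * II N phi f (h * Real.exp (-v)) v + h ^ 2) := by
  obtain ⟨C, hC, hs⟩ := short_sum_le
  refine ⟨C * 48, by positivity, ?_⟩
  intro f hf H hH h hh v hv hhv N hN
  set η : ℝ := h * Real.exp (-v) with hη
  have hη0 : 0 < η := by positivity
  have hη1 : η ≤ 1 := by
    rw [hη, Real.exp_neg, ← div_eq_mul_inv, div_le_one (Real.exp_pos v)]
    exact hhv
  set S := (Finset.Icc 1 ⌊Real.exp (v + 1)⌋₊).filter (fun n : ℕ => v < Real.log n) with hSdef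
  have hHr : (1 : ℝ) ≤ H := by exact_mod_cast hH
  have hS : ∀ n ∈ S, 1 ≤ n ∧ Real.exp v < n ∧ (n : ℝ) ≤ Real.exp (v + 1) ∧ v < Real.log n ∧
      Real.log n ≤ v + 1 := by
    intro n hn
    rw [hSdef, Finset.mem_filter, Finset.mem_Icc] at hn
    obtain ⟨⟨h1, h2⟩, h3⟩ := hn
    have h1r : (1 : ℝ) ≤ n := by exact_mod_cast h1
    have h4 : (n : ℝ) ≤ Real.exp (v + 1) := by
      have := Nat.floor_le (Real.exp_pos (v + 1)).le
      have h5 : (n : ℝ) ≤ (⌊Real.exp (v + 1)⌋₊ : ℝ) := by exact_mod_cast h2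
      linarith
    refine ⟨h1, (Real.lt_log_iff_exp_lt (by linarith)).mp h3, h4, h3, ?_⟩
    rw [Real.log_le_iff_le_exp (by linarith)]
    exact h4
  set G : ℝ → ℝ := fun u => ‖GG η N (cut phi v f) u‖ ^ 2 with hGdef
  have hGi : Integrable G := integrable_GG_sq η hη0 N _
  have hG0 : ∀ u, 0 ≤ G u := fun u => by positivity
  have hterm : ∀ n ∈ S, (1 / (n : ℝ)) * ‖∑ j ∈ Finset.Icc 1 H, f (n + j)‖ ^ 2 ≤
      C * ((H : ℝ) * (∫ u in (Real.log n)..(Real.log ((n : ℝ) + H)), G u) +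
        16 * h ^ 2 * Real.exp (-v)) := by
    intro n hn
    obtain ⟨h1, h2, h3, h4, h5⟩ := hS n hn
    have hn0 : (0 : ℝ) < n := by
      have : (1 : ℝ) ≤ n := by exact_mod_cast h1
      linarith
    have a1 : 2 * H ^ 2 ≤ n := by
      have : (2 : ℝ) * (H : ℝ) ^ 2 ≤ n := by nlinarith [sq_nonneg (H : ℝ)]
      exact_mod_cast this
    have a2 : n + H ≤ N := by
      have e4 : Real.exp (v + 4) = Real.exp (v + 1) * Real.exp 3 := by
        rw [← Real.exp_add]; ring_nf
      have e1 : Real.exp (v + 1) = Real.exp v * Real.exp 1 := Real.exp_add v 1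
      have t3 : (2 : ℝ) ≤ Real.exp 3 := by
        have := Real.add_one_le_exp (3 : ℝ)
        linarith
      have t1 : (1 : ℝ) ≤ Real.exp 1 := Real.one_le_exp (by norm_num)
      have hv0 := Real.exp_pos v
      have q : ((n : ℝ) + H) ≤ N := by
        have w1 : (H : ℝ) ≤ Real.exp v := by nlinarith
        have w2 : Real.exp v ≤ Real.exp (v + 1) := by rw [e1]; nlinarith
        have w3 : Real.exp (v + 1) * 2 ≤ Real.exp (v + 4) := by
          rw [e4]
          exact mul_le_mul_of_nonneg_left t3 (Real.exp_pos _).le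
        linarith
      exact_mod_cast q
    have a3 := hs f hf n H hH a1 η hη0 hη1 v h4 h5 N a2
    have a4 : (n : ℝ) * η + 1 ≤ 4 * h := by
      have w1 : (n : ℝ) * η ≤ Real.exp 1 * h := by
        calc (n : ℝ) * η ≤ Real.exp (v + 1) * η := mul_le_mul_of_nonneg_right h3 hη0.le
          _ = Real.exp 1 * h := by
            rw [hη, Real.exp_add, Real.exp_neg]
            field_simp
      have w2 : Real.exp 1 < 2.7182818286 := Real.exp_one_lt_d9
      nlinarith
    have a5 : ((n : ℝ) * η + 1) ^ 2 ≤ 16 * h ^ 2 := by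
      have : 0 ≤ (n : ℝ) * η + 1 := by positivity
      nlinarith
    have a6 : 1 / (n : ℝ) ≤ Real.exp (-v) := by
      rw [Real.exp_neg, one_div]
      exact inv_anti₀ (Real.exp_pos v) h2.le
    calc (1 / (n : ℝ)) * ‖∑ j ∈ Finset.Icc 1 H, f (n + j)‖ ^ 2
        ≤ (1 / (n : ℝ)) * (C * ((n : ℝ) * H * (∫ u in (Real.log n)..(Real.log ((n : ℝ) + H)),
          G u) + ((n : ℝ) * η + 1) ^ 2)) := mul_le_mul_of_nonneg_left a3 (by positivity)
      _ = C * ((H : ℝ) * (∫ u in (Real.log n)..(Real.log ((n : ℝ) + H)), G u) +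
          (1 / (n : ℝ)) * ((n : ℝ) * η + 1) ^ 2) := by
            field_simp
      _ ≤ _ := by
            refine mul_le_mul_of_nonneg_left ?_ hC.le
            have : (1 / (n : ℝ)) * ((n : ℝ) * η + 1) ^ 2 ≤ Real.exp (-v) * (16 * h ^ 2) :=
              mul_le_mul a6 a5 (by positivity) (Real.exp_pos _).le
            linarith
  have hcard : (S.card : ℝ) * Real.exp (-v) ≤ 3 := by
    have c1 : (S.card : ℝ) ≤ Real.exp (v + 1) := by
      have : S.card ≤ ⌊Real.exp (v + 1)⌋₊ := by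
        refine (Finset.card_filter_le _ _).trans ?_
        simp
      have h2 : (S.card : ℝ) ≤ (⌊Real.exp (v + 1)⌋₊ : ℝ) := by exact_mod_cast this
      exact h2.trans (Nat.floor_le (Real.exp_pos _).le)
    calc (S.card : ℝ) * Real.exp (-v) ≤ Real.exp (v + 1) * Real.exp (-v) :=
          mul_le_mul_of_nonneg_right c1 (Real.exp_pos _).le
      _ = Real.exp 1 := by rw [← Real.exp_add]; ring_nf
      _ ≤ 3 := by have := Real.exp_one_lt_d9; linarith
  have hI : ∫ u, G u = (1 / (2 * Real.pi)) * II N phi f η v := by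
    rw [hGdef, parseval η hη0 N]
    rfl
  have hII0 : 0 ≤ II N phi f η v := by
    refine integral_nonneg fun t => ?_
    exact mul_nonneg (by positivity) (wt_pos η t).le
  have hI2 : ∫ u, G u ≤ II N phi f η v := by
    rw [hI]
    have hp : 1 / (2 * Real.pi) ≤ 1 := by
      rw [div_le_one (by positivity)]
      linarith [Real.pi_gt_three]
    nlinarith
  have hsum := a06_int S (fun n hn => (hS n hn).1) H G hGi hG0
  calc SS f H v = ∑ n ∈ S, (1 / (n : ℝ)) * ‖∑ j ∈ Finset.Icc 1 H, f (n + j)‖ ^ 2 := rfl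
    _ ≤ ∑ n ∈ S, C * ((H : ℝ) * (∫ u in (Real.log n)..(Real.log ((n : ℝ) + H)), G u) +
        16 * h ^ 2 * Real.exp (-v)) := Finset.sum_le_sum hterm
    _ = C * ((H : ℝ) * ∑ n ∈ S, (∫ u in (Real.log n)..(Real.log ((n : ℝ) + H)), G u) +
        16 * h ^ 2 * ((S.card : ℝ) * Real.exp (-v))) := by
          rw [← Finset.mul_sum, Finset.sum_add_distrib, ← Finset.mul_sum, Finset.sum_const,
            nsmul_eq_mul]
          ring
    _ ≤ C * ((H : ℝ) * (H * II N phi f η v) + 16 * h ^ 2 * 3) := by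
          refine mul_le_mul_of_nonneg_left ?_ hC.le
          have b1 : (H : ℝ) * ∑ n ∈ S, (∫ u in (Real.log n)..(Real.log ((n : ℝ) + H)), G u) ≤
              (H : ℝ) * (H * II N phi f η v) := by
            refine mul_le_mul_of_nonneg_left (hsum.trans ?_) (by positivity)
            exact mul_le_mul_of_nonneg_left hI2 (by positivity)
          have b2 : 16 * h ^ 2 * ((S.card : ℝ) * Real.exp (-v)) ≤ 16 * h ^ 2 * 3 :=
            mul_le_mul_of_nonneg_left hcard (by positivity)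
          linarith
    _ ≤ C * 48 * ((H : ℝ) ^ 2 * II N phi f η v + h ^ 2) := by
          have : 0 ≤ C * ((H : ℝ) ^ 2 * II N phi f η v) := by positivity
          nlinarith

end MRD
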