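import Mathlib
import Pool.Agent.Helper72.MRD.Defs

set_option autoImplicit false

/-!
MRD-B03. Product of a prime polynomial and a Dirichlet polynomial, and the partition into slices.

* `QP_mul_DP`: expand; `cp_mul`; send the pair `(p, m)` to `n = p m`. Pairs with `a m ≠ 0` have
  `p m ≤ N`; conversely `p ∣ n ≤ N` gives `m = n / p ∈ [1, N]`.
* `sum_slices`: a prime `p` with `m < log p ≤ m²` lies in exactly one slice `k ∈ [m², m³)`:
  `k = ⌈m log p⌉ - 1`. (The bounds `p ≤ ⌊exp ..⌋₊` in the definitions of `slice`, `LP` are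
  consequences of the conditions on `log p`.)
* `mem_slice`, `mem_LP`: membership without the superfluous bound.
-/

namespace MRD

open Finset MRP MeasureTheory

theorem mem_slice {m k p : ℕ} : p ∈ slice m k ↔
    p.Prime ∧ (k : ℝ) / m < Real.log p ∧ Real.log p ≤ ((k : ℝ) + 1) / m := by
  unfold slice
  rw [Finset.mem_filter, Finset.mem_Icc]
  constructor
  · rintro ⟨_, h⟩
    exact h
  · rintro ⟨hp, h1, h2⟩
    refine ⟨⟨hp.one_lt.le, ?_⟩, hp, h1, h2⟩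
    apply Nat.le_floor
    have hp0 : (0 : ℝ) < p := by exact_mod_cast hp.pos
    rw [← Real.exp_log hp0]
    exact Real.exp_le_exp.mpr h2

theorem mem_LP {m p : ℕ} : p ∈ LP m ↔
    p.Prime ∧ (m : ℝ) < Real.log p ∧ Real.log p ≤ (m : ℝ) ^ 2 := by
  unfold LP
  rw [Finset.mem_filter, Finset.mem_Icc]
  constructor
  · rintro ⟨_, h⟩
    exact h
  · rintro ⟨hp, h1, h2⟩
    refine ⟨⟨hp.one_lt.le, ?_⟩, hp, h1, h2⟩
    apply Nat.le_floor
    have hp0 : (0 : ℝ) < p := by exact_mod_cast hp.pos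
    rw [← Real.exp_log hp0]
    exact Real.exp_le_exp.mpr h2

lemma exists_slice {m : ℕ} (hm : 1 ≤ m) {p : ℕ} (hp : p ∈ LP m) :
    ∃ k ∈ Finset.Ico (m ^ 2) (m ^ 3), p ∈ slice m k := by
  rw [mem_LP] at hp
  obtain ⟨hpp, h1, h2⟩ := hp
  have hm0 : (0 : ℝ) < m := by exact_mod_cast hm
  have hx : ((m ^ 2 : ℕ) : ℝ) < m * Real.log p := by push_cast; nlinarith
  have hx2 : (m : ℝ) * Real.log p ≤ ((m ^ 3 : ℕ) : ℝ) := by push_cast; nlinarith
  have hc1 : m ^ 2 < ⌈(m : ℝ) * Real.log p⌉₊ := Nat.lt_ceil.mpr hx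
  have hc2 : ⌈(m : ℝ) * Real.log p⌉₊ ≤ m ^ 3 := Nat.ceil_le.mpr hx2
  refine ⟨⌈(m : ℝ) * Real.log p⌉₊ - 1, Finset.mem_Ico.mpr ⟨by omega, by omega⟩, ?_⟩
  have hc3 : ((⌈(m : ℝ) * Real.log p⌉₊ - 1 : ℕ) : ℝ) + 1 = ⌈(m : ℝ) * Real.log p⌉₊ := by
    have : ⌈(m : ℝ) * Real.log p⌉₊ - 1 + 1 = ⌈(m : ℝ) * Real.log p⌉₊ := by omega
    exact_mod_cast this
  rw [mem_slice]
  refine ⟨hpp, ?_, ?_⟩
  · rw [div_lt_iff₀ hm0]
    have : ((⌈(m : ℝ) * Real.log p⌉₊ - 1 : ℕ) : ℝ) < m * Real.log p := by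
      rw [← Nat.lt_ceil]
      omega
    linarith
  · rw [le_div_iff₀ hm0, hc3]
    have := Nat.le_ceil ((m : ℝ) * Real.log p)
    linarith

lemma slice_subset {m k : ℕ} (hm : 1 ≤ m) (hk : k ∈ Finset.Ico (m ^ 2) (m ^ 3)) {p : ℕ}
    (hp : p ∈ slice m k) : p ∈ LP m := by
  rw [mem_slice] at hp
  rw [Finset.mem_Ico] at hk
  have hm0 : (0 : ℝ) < m := by exact_mod_cast hm
  have h1 : ((m : ℝ)) ^ 2 ≤ k := by exact_mod_cast hk.1
  have h2 : (k : ℝ) + 1 ≤ (m : ℝ) ^ 3 := by exact_mod_cast hk.2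
  rw [mem_LP]
  refine ⟨hp.1, lt_of_le_of_lt ?_ hp.2.1, hp.2.2.trans ?_⟩
  · rw [le_div_iff₀ hm0]; nlinarith
  · rw [div_le_iff₀ hm0]; nlinarith

lemma slice_unique {m k k' : ℕ} (hm : 1 ≤ m) {p : ℕ} (h : p ∈ slice m k) (h' : p ∈ slice m k') :
    k ≤ k' := by
  rw [mem_slice] at h h'
  have hm0 : (0 : ℝ) < m := by exact_mod_cast hm
  have h3 : (k : ℝ) / m < ((k' : ℝ) + 1) / m := lt_of_lt_of_le h.2.1 h'.2.2
  have h4 : (k : ℝ) < k' + 1 := (div_lt_div_iff_of_pos_right hm0).mp h3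
  have h5 : k < k' + 1 := by exact_mod_cast h4
  omega

theorem sum_slices (m : ℕ) (hm : 1 ≤ m) (F : ℕ → ℂ) :
    ∑ k ∈ Finset.Ico (m ^ 2) (m ^ 3), ∑ p ∈ slice m k, F p = ∑ p ∈ LP m, F p := by
  have hU : LP m = (Finset.Ico (m ^ 2) (m ^ 3)).biUnion (slice m) := by
    ext p
    rw [Finset.mem_biUnion]
    constructor
    · intro hp
      obtain ⟨k, hk, h⟩ := exists_slice hm hp
      exact ⟨k, hk, h⟩
    · rintro ⟨k, hk, h⟩
      exact slice_subset hm hk h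
  rw [hU, Finset.sum_biUnion]
  intro k _ k' _ hkk
  show Disjoint (slice m k) (slice m k')
  rw [Finset.disjoint_left]
  intro p h h'
  exact hkk (le_antisymm (slice_unique hm h h') (slice_unique hm h' h))

theorem QP_mul_DP (x : ℕ → ℂ) (s : Finset ℕ) (hs : ∀ p ∈ s, 1 ≤ p) (N : ℕ) (a : ℕ → ℂ)
    (hN : ∀ p ∈ s, ∀ n, 1 ≤ n → a n ≠ 0 → p * n ≤ N) (t : ℝ) :
    QP x s t * DP N a t = DP N (mulP x s a) t := by
  have h1 : DP N (mulP x s a) t = ∑ p ∈ s, ∑ n ∈ (Finset.Icc 1 N).filter (fun n => p ∣ n),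
      x p * a (n / p) * cp n t := by
    unfold DP mulP
    have : ∀ n ∈ Finset.Icc 1 N, (∑ p ∈ s.filter (fun p => p ∣ n), x p * a (n / p)) * cp n t =
        ∑ p ∈ s, if p ∣ n then x p * a (n / p) * cp n t else 0 := by
      intro n _
      rw [Finset.sum_mul, Finset.sum_filter]
    rw [Finset.sum_congr rfl this, Finset.sum_comm]
    refine Finset.sum_congr rfl fun p _ => ?_
    rw [Finset.sum_filter]
  rw [h1]
  unfold QP
  rw [Finset.sum_mul]
  refine Finset.sum_congr rfl fun p hp => ?_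
  have hp1 := hs p hp
  unfold DP
  rw [Finset.mul_sum]
  have h2 : ∑ n ∈ Finset.Icc 1 N, x p * cp p t * (a n * cp n t) =
      ∑ n ∈ (Finset.Icc 1 N).filter (fun n => a n ≠ 0), x p * cp p t * (a n * cp n t) := by
    rw [Finset.sum_filter]
    refine Finset.sum_congr rfl fun n _ => ?_
    by_cases h : a n = 0 <;> simp [h]
  have h3 : ∑ n ∈ (Finset.Icc 1 N).filter (fun n => p ∣ n), x p * a (n / p) * cp n t =
      ∑ n ∈ ((Finset.Icc 1 N).filter (fun n => p ∣ n)).filter (fun n => a (n / p) ≠ 0),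
        x p * a (n / p) * cp n t := by
    rw [Finset.sum_filter (p := fun n => a (n / p) ≠ 0)]
    refine Finset.sum_congr rfl fun n _ => ?_
    by_cases h : a (n / p) = 0 <;> simp [h]
  rw [h2, h3]
  refine Finset.sum_nbij' (fun n => p * n) (fun n => n / p) ?_ ?_ ?_ ?_ ?_
  · intro n hn
    rw [Finset.mem_filter, Finset.mem_Icc] at hn
    have e : p * n / p = n := Nat.mul_div_cancel_left n hp1
    simp only [Finset.mem_filter, Finset.mem_Icc]
    refine ⟨⟨⟨?_, hN p hp n hn.1.1 hn.2⟩, Dvd.intro _ rfl⟩, ?_⟩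
    · exact Nat.mul_pos hp1 hn.1.1
    · rw [e]; exact hn.2
  · intro n hn
    simp only [Finset.mem_filter, Finset.mem_Icc] at hn ⊢
    obtain ⟨⟨⟨hn1, hn2⟩, hd⟩, ha⟩ := hn
    refine ⟨⟨Nat.div_pos (Nat.le_of_dvd hn1 hd) hp1, (Nat.div_le_self n p).trans hn2⟩, ha⟩
  · intro n _
    exact Nat.mul_div_cancel_left n hp1
  · intro n hn
    simp only [Finset.mem_filter, Finset.mem_Icc] at hn
    exact Nat.mul_div_cancel' hn.1.2
  · intro n _
    show x p * cp p t * (a n * cp n t) = x p * a (p * n / p) * cp (p * n) t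
    rw [Nat.mul_div_cancel_left n hp1, cp_mul]
    ring

end MRD
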