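import Mathlib
import Pool.Agent.Helper72.MRD.Defs
import Pool.Agent.Helper72.MRD.A01

set_option autoImplicit false

/-!
MRD-A02. Mean value theorem for Dirichlet polynomials with the Gaussian weight.

Let `B ≥ 0` bound the support. Drop from `Icc 1 N` the `n` with `a n = 0`; the others satisfy
`1 ≤ n ≤ B`. By `integral_DP_sq` and `|Re(a m conj(a n))| ≤ (1/2)(‖a m‖² /m² * (m n)...)`: precisely
`|a m| |a n| /(m n) ≤ (|a m|²/m² + |a n|²/n²)/2`, and symmetry,
`∫ ≤ ∑_m (‖a m‖²/m²) ∑_{n ≤ B} (√(2π)/η) exp(-(log m - log n)²/(2η²))`.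
For `m, n ≤ B`: `|log m - log n| ≥ |m - n| / B` (`log(m/n) ≥ 1 - n/m = (m-n)/m` for `m > n`), hence
the inner sum is at most `(√(2π)/η) (1 + 2 ∑_{d ≥ 1} exp(-(d/(Bη))²/2))` and
`∑_{d≥1} exp(-(d/(Bη))²/2) ≤ ∫_0^∞ exp(-(x/(Bη))²/2) dx = Bη √(π/2)` (antitone function), or by the
cruder `exp(-y²/2) ≤ 2/(2+y²)`-type bounds. Total `(√(2π)/η)(1 + √(2π) B η) = √(2π)/η + 2πB
≤ 10 (1/η + B)`.
-/

namespace MRD

open Finset MRP MeasureTheory

private lemma gsum (c : ℝ) (hc : 0 < c) (M : ℕ) :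
    ∑ i ∈ Finset.range M, Real.exp (-c * ((i : ℝ) + 1) ^ 2) ≤ Real.sqrt (Real.pi / c) / 2 := by
  have hanti : AntitoneOn (fun x : ℝ => Real.exp (-c * x ^ 2)) (Set.Icc (0 : ℝ) (0 + M)) := by
    intro x hx y hy hxy
    simp only
    apply Real.exp_le_exp.2
    have h1 : x ^ 2 ≤ y ^ 2 := pow_le_pow_left₀ hx.1 hxy 2
    nlinarith
  have h1 := hanti.sum_le_integral
  have hint : IntegrableOn (fun x : ℝ => Real.exp (-c * x ^ 2)) (Set.Ioi 0) :=
    (integrable_exp_neg_mul_sq hc).integrableOn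
  have h2 : ∫ x in (0 : ℝ)..0 + M, Real.exp (-c * x ^ 2) ≤ Real.sqrt (Real.pi / c) / 2 := by
    rw [← integral_gaussian_Ioi, intervalIntegral.integral_of_le (by positivity)]
    refine setIntegral_mono_set hint ?_ ?_
    · exact Filter.Eventually.of_forall fun x => (Real.exp_pos _).le
    · exact HasSubset.Subset.eventuallyLE Set.Ioc_subset_Ioi_self
  refine le_trans (le_of_eq ?_) (h1.trans h2)
  refine Finset.sum_congr rfl fun i _ => ?_
  simp only [zero_add]
  push_cast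
  rfl

private lemma gsum2 (c : ℝ) (hc : 0 < c) (m N : ℕ) :
    ∑ n ∈ Finset.Icc 1 N, Real.exp (-c * ((m : ℝ) - n) ^ 2) ≤ 1 + Real.sqrt (Real.pi / c) := by
  have h1 : ∑ n ∈ Finset.Icc 1 N, Real.exp (-c * ((m : ℝ) - n) ^ 2) ≤
      ∑ n ∈ Finset.range (m + 1 + N), Real.exp (-c * ((m : ℝ) - n) ^ 2) := by
    refine Finset.sum_le_sum_of_subset_of_nonneg (fun n hn => ?_) fun _ _ _ => (Real.exp_pos _).le
    rw [Finset.mem_Icc] at hn
    rw [Finset.mem_range]
    omega
  have h2 : ∑ n ∈ Finset.range m, Real.exp (-c * ((m : ℝ) - n) ^ 2) ≤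
      Real.sqrt (Real.pi / c) / 2 := by
    rw [← Finset.sum_range_reflect]
    refine le_trans (le_of_eq ?_) (gsum c hc m)
    refine Finset.sum_congr rfl fun i hi => ?_
    rw [Finset.mem_range] at hi
    have h3 : ((m - 1 - i : ℕ) : ℝ) = (m : ℝ) - 1 - i := by
      rw [Nat.cast_sub (by omega), Nat.cast_sub (by omega)]
      simp
    rw [h3]
    congr 2
    ring
  have h4 : ∑ i ∈ Finset.range N, Real.exp (-c * ((m : ℝ) - ((m + 1 + i : ℕ) : ℝ)) ^ 2) ≤
      Real.sqrt (Real.pi / c) / 2 := by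
    refine le_trans (le_of_eq ?_) (gsum c hc N)
    refine Finset.sum_congr rfl fun i _ => ?_
    congr 2
    push_cast
    ring
  refine h1.trans ?_
  rw [Finset.sum_range_add, Finset.sum_range_succ]
  have h5 : Real.exp (-c * ((m : ℝ) - m) ^ 2) = 1 := by simp
  rw [h5]
  linarith

private lemma log_sq (B : ℝ) (m n : ℕ) (hm : 1 ≤ m) (hn : 1 ≤ n) (hmB : (m : ℝ) ≤ B)
    (hnB : (n : ℝ) ≤ B) :
    (((m : ℝ) - n) / B) ^ 2 ≤ (Real.log m - Real.log n) ^ 2 := by
  have key : ∀ p q : ℕ, 1 ≤ p → 1 ≤ q → (p : ℝ) ≤ B → q ≤ p →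
      (((p : ℝ) - q) / B) ^ 2 ≤ (Real.log p - Real.log q) ^ 2 := by
    intro p q hp hq hpB hqp
    have hp0 : (0 : ℝ) < p := by exact_mod_cast hp
    have hq0 : (0 : ℝ) < q := by exact_mod_cast hq
    have hqp' : (q : ℝ) ≤ p := by exact_mod_cast hqp
    have h1 : ((p : ℝ) - q) / B ≤ Real.log p - Real.log q := by
      rw [← Real.log_div hp0.ne' hq0.ne']
      have h2 := Real.one_sub_inv_le_log_of_pos (div_pos hp0 hq0)
      refine le_trans ?_ h2
      rw [inv_div]
      calc ((p : ℝ) - q) / B ≤ ((p : ℝ) - q) / p :=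
            div_le_div_of_nonneg_left (by linarith) hp0 hpB
        _ = 1 - q / p := by field_simp
    have h0 : 0 ≤ ((p : ℝ) - q) / B := div_nonneg (by linarith) (by linarith)
    exact pow_le_pow_left₀ h0 h1 2
  rcases le_total n m with h | h
  · exact key m n hm hn hmB h
  · have h1 := key n m hn hm hnB h
    have e1 : (((m : ℝ) - n) / B) ^ 2 = (((n : ℝ) - m) / B) ^ 2 := by ring
    have e2 : (Real.log m - Real.log n) ^ 2 = (Real.log n - Real.log m) ^ 2 := by ring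
    rw [e1, e2]
    exact h1

theorem mvt (η B : ℝ) (hη : 0 < η) (hB : 0 ≤ B) (N : ℕ) (a : ℕ → ℂ)
    (ha : ∀ n ∈ Finset.Icc 1 N, a n ≠ 0 → (n : ℝ) ≤ B) :
    ∫ t : ℝ, ‖DP N a t‖ ^ 2 * wt η t ≤ 10 * (1 / η + B) * NN N a := by
  rw [integral_DP_sq η hη N a]
  rcases hB.eq_or_lt with hB0 | hB0
  · have hz : ∀ n ∈ Finset.Icc 1 N, a n = 0 := by
      intro n hn
      by_contra hne
      have h1 := ha n hn hne
      have h2 : (1 : ℝ) ≤ n := by exact_mod_cast (Finset.mem_Icc.1 hn).1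
      linarith
    have h1 : ∑ m ∈ Finset.Icc 1 N, ∑ n ∈ Finset.Icc 1 N,
      (a m * (starRingEnd ℂ) (a n)).re / ((m : ℝ) * n) *
        (Real.sqrt (2 * Real.pi) / η *
          Real.exp (-((Real.log m - Real.log n) ^ 2) / (2 * η ^ 2))) = 0 := by
      refine Finset.sum_eq_zero fun m hm => Finset.sum_eq_zero fun n _ => ?_
      rw [hz m hm]
      simp
    rw [h1]
    unfold NN
    positivity
  · set c : ℝ := 1 / (2 * B ^ 2 * η ^ 2) with hc
    have hc0 : 0 < c := by positivity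
    set w : ℝ := Real.sqrt (2 * Real.pi) / η with hw
    have hw0 : 0 ≤ w := by positivity
    have hterm : ∀ m ∈ Finset.Icc 1 N, ∀ n ∈ Finset.Icc 1 N,
        (a m * (starRingEnd ℂ) (a n)).re / ((m : ℝ) * n) *
          (w * Real.exp (-((Real.log m - Real.log n) ^ 2) / (2 * η ^ 2))) ≤
        (‖a m‖ ^ 2 / (m : ℝ) ^ 2 / 2) * (w * Real.exp (-c * ((m : ℝ) - n) ^ 2)) +
        (‖a n‖ ^ 2 / (n : ℝ) ^ 2 / 2) * (w * Real.exp (-c * ((n : ℝ) - m) ^ 2)) := by
      intro m hm n hn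
      have hsym : ((n : ℝ) - m) ^ 2 = ((m : ℝ) - n) ^ 2 := by ring
      rw [hsym, ← add_mul]
      by_cases h1 : a m = 0
      · rw [h1, zero_mul, Complex.zero_re, zero_div, zero_mul]
        positivity
      by_cases h2 : a n = 0
      · rw [h2, map_zero, mul_zero, Complex.zero_re, zero_div, zero_mul]
        positivity
      have hm1 := (Finset.mem_Icc.1 hm).1
      have hn1 := (Finset.mem_Icc.1 hn).1
      have hm0 : (0 : ℝ) < m := by exact_mod_cast hm1
      have hn0 : (0 : ℝ) < n := by exact_mod_cast hn1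
      have h3 := log_sq B m n hm1 hn1 (ha m hm h1) (ha n hn h2)
      have h4 : Real.exp (-((Real.log m - Real.log n) ^ 2) / (2 * η ^ 2)) ≤
          Real.exp (-c * ((m : ℝ) - n) ^ 2) := by
        apply Real.exp_le_exp.2
        have e1 : -c * ((m : ℝ) - n) ^ 2 = -((((m : ℝ) - n) / B) ^ 2) / (2 * η ^ 2) := by
          rw [hc]
          field_simp
        rw [e1]
        exact div_le_div_of_nonneg_right (by linarith) (by positivity)
      have h5 : (a m * (starRingEnd ℂ) (a n)).re ≤ ‖a m‖ * ‖a n‖ := by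
        refine (Complex.re_le_norm _).trans (le_of_eq ?_)
        rw [norm_mul, RCLike.norm_conj]
      have h6 : (a m * (starRingEnd ℂ) (a n)).re / ((m : ℝ) * n) ≤
          ‖a m‖ ^ 2 / (m : ℝ) ^ 2 / 2 + ‖a n‖ ^ 2 / (n : ℝ) ^ 2 / 2 := by
        calc (a m * (starRingEnd ℂ) (a n)).re / ((m : ℝ) * n)
            ≤ ‖a m‖ * ‖a n‖ / ((m : ℝ) * n) := by gcongr
          _ = (‖a m‖ / m) * (‖a n‖ / n) := by rw [div_mul_div_comm]
          _ ≤ (‖a m‖ / m) ^ 2 / 2 + (‖a n‖ / n) ^ 2 / 2 := by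
              nlinarith [sq_nonneg (‖a m‖ / m - ‖a n‖ / n)]
          _ = _ := by rw [div_pow, div_pow]
      exact mul_le_mul h6 (mul_le_mul_of_nonneg_left h4 hw0) (by positivity) (by positivity)
    have hinner : ∀ m : ℕ, ∑ n ∈ Finset.Icc 1 N, w * Real.exp (-c * ((m : ℝ) - n) ^ 2) ≤
        10 * (1 / η + B) := by
      intro m
      rw [← Finset.mul_sum]
      have h1 := gsum2 c hc0 m N
      have h2 : Real.sqrt (Real.pi / c) = Real.sqrt (2 * Real.pi) * (B * η) := by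
        have e1 : Real.pi / c = (2 * Real.pi) * (B * η) ^ 2 := by
          rw [hc]
          field_simp
        rw [e1, Real.sqrt_mul (by positivity), Real.sqrt_sq (by positivity)]
      have hs : Real.sqrt (2 * Real.pi) * Real.sqrt (2 * Real.pi) = 2 * Real.pi :=
        Real.mul_self_sqrt (by positivity)
      have hs1 : Real.sqrt (2 * Real.pi) ≤ 10 := by
        rw [Real.sqrt_le_left (by norm_num)]
        nlinarith [Real.pi_lt_four]
      calc w * ∑ n ∈ Finset.Icc 1 N, Real.exp (-c * ((m : ℝ) - n) ^ 2)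
          ≤ w * (1 + Real.sqrt (2 * Real.pi) * (B * η)) := by
            rw [← h2]
            exact mul_le_mul_of_nonneg_left h1 hw0
        _ = Real.sqrt (2 * Real.pi) * (1 / η) +
            Real.sqrt (2 * Real.pi) * Real.sqrt (2 * Real.pi) * B := by
            rw [hw]
            field_simp
        _ ≤ 10 * (1 / η) + 10 * B := by
            rw [hs]
            have h7 : Real.sqrt (2 * Real.pi) * (1 / η) ≤ 10 * (1 / η) :=
              mul_le_mul_of_nonneg_right hs1 (by positivity)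
            have h8 : 2 * Real.pi * B ≤ 10 * B :=
              mul_le_mul_of_nonneg_right (by nlinarith [Real.pi_lt_four]) hB
            linarith
        _ = _ := by ring
    calc ∑ m ∈ Finset.Icc 1 N, ∑ n ∈ Finset.Icc 1 N,
          (a m * (starRingEnd ℂ) (a n)).re / ((m : ℝ) * n) *
            (w * Real.exp (-((Real.log m - Real.log n) ^ 2) / (2 * η ^ 2)))
        ≤ ∑ m ∈ Finset.Icc 1 N, ∑ n ∈ Finset.Icc 1 N,
          ((‖a m‖ ^ 2 / (m : ℝ) ^ 2 / 2) * (w * Real.exp (-c * ((m : ℝ) - n) ^ 2)) +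
          (‖a n‖ ^ 2 / (n : ℝ) ^ 2 / 2) * (w * Real.exp (-c * ((n : ℝ) - m) ^ 2))) :=
          Finset.sum_le_sum fun m hm => Finset.sum_le_sum fun n hn => hterm m hm n hn
      _ = ∑ m ∈ Finset.Icc 1 N, (‖a m‖ ^ 2 / (m : ℝ) ^ 2 / 2) *
            ∑ n ∈ Finset.Icc 1 N, (w * Real.exp (-c * ((m : ℝ) - n) ^ 2)) +
          ∑ n ∈ Finset.Icc 1 N, (‖a n‖ ^ 2 / (n : ℝ) ^ 2 / 2) *
            ∑ m ∈ Finset.Icc 1 N, (w * Real.exp (-c * ((n : ℝ) - m) ^ 2)) := by
          simp_rw [Finset.sum_add_distrib, Finset.mul_sum]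
          congr 1
          exact Finset.sum_comm
      _ ≤ ∑ m ∈ Finset.Icc 1 N, (‖a m‖ ^ 2 / (m : ℝ) ^ 2 / 2) * (10 * (1 / η + B)) +
          ∑ n ∈ Finset.Icc 1 N, (‖a n‖ ^ 2 / (n : ℝ) ^ 2 / 2) * (10 * (1 / η + B)) := by
          refine add_le_add ?_ ?_
          · exact Finset.sum_le_sum fun m _ =>
              mul_le_mul_of_nonneg_left (hinner m) (by positivity)
          · exact Finset.sum_le_sum fun m _ =>
              mul_le_mul_of_nonneg_left (hinner m) (by positivity)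
      _ = 10 * (1 / η + B) * NN N a := by
          unfold NN
          rw [← Finset.sum_add_distrib, Finset.mul_sum]
          refine Finset.sum_congr rfl fun m _ => ?_
          ring

end MRD
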