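import Mathlib
import Pool.Agent.Helper72.MRD.Defs

set_option autoImplicit false

/-!
MRD-C01. One multiplication by a prime polynomial, in the weighted quadratic norm.

`mulP x s a n = ∑_{p ∈ s, p ∣ n} x p a(n/p)`. Cauchy-Schwarz:
`‖mulP n‖² ≤ (om s n) ∑_{p ∈ s, p ∣ n} ‖a(n/p)‖²`, and `om s n ≤ OmS s n` (each prime divisor
counts at least once, `n ≥ 1`). For `n = p m` (`1 ≤ m ≤ N`): `OmS s n = OmS s m + 1`
(`Nat.factorization_mul`, `p ∈ s` prime). So with `Y = y (1 + 1/L)` and Bernoulli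
`(1 + 1/L)^{r+1} ≥ 1 + (r+1)/L ≥ (r+1)/L`, i.e. `(r+1) y^{r+1} ≤ L Y^{r+1}` (`r = OmS s m`):
`NY N s y (mulP x s a) ≤ ∑_{p ∈ s} (1/p²) ∑_{m ≤ N} ‖a m‖² (r+1) y^{r+1} / m²
 ≤ S2 s * L * Y * NY N s Y a`.
-/

namespace MRD

open Finset MRP MeasureTheory

private lemma om_le_OmS (s : Finset ℕ) (hs : ∀ p ∈ s, p.Prime) {n : ℕ} (hn : 1 ≤ n) :
    om s n ≤ OmS s n := by
  unfold om OmS
  rw [Finset.card_filter]
  refine Finset.sum_le_sum fun p hp => ?_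
  split_ifs with h
  · exact (hs p hp).factorization_pos_of_dvd (by omega) h
  · exact Nat.zero_le _

private lemma OmS_mul (s : Finset ℕ) {p m : ℕ} (hp : p.Prime) (hps : p ∈ s) (hm : 1 ≤ m) :
    OmS s (p * m) = OmS s m + 1 := by
  unfold OmS
  have h1 : ∀ r ∈ s, (p * m).factorization r = m.factorization r + (if r = p then 1 else 0) := by
    intro r _
    rw [Nat.factorization_mul hp.ne_zero (by omega), hp.factorization]
    simp only [Finsupp.coe_add, Pi.add_apply, Finsupp.single_apply]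
    rw [add_comm]
    congr 1
    by_cases h : p = r
    · simp [h]
    · simp [h, Ne.symm h]
  rw [Finset.sum_congr rfl h1, Finset.sum_add_distrib, Finset.sum_ite_eq' s p, if_pos hps]

theorem NY_step (N : ℕ) (s : Finset ℕ) (hs : ∀ p ∈ s, p.Prime) (x : ℕ → ℂ)
    (hx : ∀ p, ‖x p‖ ≤ 1) (L : ℕ) (hL : 1 ≤ L) (y : ℝ) (hy : 1 ≤ y) (a : ℕ → ℂ) :
    NY N s y (mulP x s a) ≤
      (L : ℝ) * (y * (1 + 1 / (L : ℝ))) * S2 s * NY N s (y * (1 + 1 / (L : ℝ))) a := by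
  have hLR : (1 : ℝ) ≤ L := by exact_mod_cast hL
  set Y : ℝ := y * (1 + 1 / (L : ℝ)) with hY
  have hy0 : 0 < y := by linarith
  have hY0 : 0 < Y := by positivity
  -- the pointwise bound
  have h1 : ∀ n ∈ Finset.Icc 1 N, ‖mulP x s a n‖ ^ 2 * y ^ OmS s n / (n : ℝ) ^ 2 ≤
      ∑ p ∈ s.filter (fun p => p ∣ n), (OmS s n : ℝ) * ‖a (n / p)‖ ^ 2 * y ^ OmS s n / (n : ℝ) ^ 2 := by
    intro n hn
    have hn1 := (Finset.mem_Icc.1 hn).1
    have h2 : ‖mulP x s a n‖ ≤ ∑ p ∈ s.filter (fun p => p ∣ n), ‖a (n / p)‖ := by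
      unfold mulP
      refine (norm_sum_le _ _).trans (Finset.sum_le_sum fun p _ => ?_)
      rw [norm_mul]
      exact mul_le_of_le_one_left (norm_nonneg _) (hx p)
    have h3 : ‖mulP x s a n‖ ^ 2 ≤ (OmS s n : ℝ) * ∑ p ∈ s.filter (fun p => p ∣ n), ‖a (n / p)‖ ^ 2 := by
      refine (pow_le_pow_left₀ (norm_nonneg _) h2 2).trans ?_
      refine sq_sum_le_card_mul_sum_sq.trans ?_
      refine mul_le_mul_of_nonneg_right ?_ (Finset.sum_nonneg fun _ _ => by positivity)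
      exact_mod_cast om_le_OmS s hs hn1
    have h4 : ∑ p ∈ s.filter (fun p => p ∣ n), (OmS s n : ℝ) * ‖a (n / p)‖ ^ 2 * y ^ OmS s n / (n : ℝ) ^ 2
        = ((OmS s n : ℝ) * ∑ p ∈ s.filter (fun p => p ∣ n), ‖a (n / p)‖ ^ 2) * y ^ OmS s n / (n : ℝ) ^ 2 := by
      rw [Finset.mul_sum, Finset.sum_mul, Finset.sum_div]
    rw [h4]
    gcongr
  unfold NY
  refine (Finset.sum_le_sum h1).trans ?_
  have h5 : ∑ n ∈ Finset.Icc 1 N, ∑ p ∈ s.filter (fun p => p ∣ n),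
      (OmS s n : ℝ) * ‖a (n / p)‖ ^ 2 * y ^ OmS s n / (n : ℝ) ^ 2 =
      ∑ p ∈ s, ∑ n ∈ (Finset.Icc 1 N).filter (fun n => p ∣ n),
      (OmS s n : ℝ) * ‖a (n / p)‖ ^ 2 * y ^ OmS s n / (n : ℝ) ^ 2 := by
    simp_rw [Finset.sum_filter]
    exact Finset.sum_comm
  rw [h5]
  have h6 : ∀ p ∈ s, ∑ n ∈ (Finset.Icc 1 N).filter (fun n => p ∣ n),
      (OmS s n : ℝ) * ‖a (n / p)‖ ^ 2 * y ^ OmS s n / (n : ℝ) ^ 2 ≤
      1 / (p : ℝ) ^ 2 * ((L : ℝ) * Y * ∑ m ∈ Finset.Icc 1 N, ‖a m‖ ^ 2 * Y ^ OmS s m / (m : ℝ) ^ 2) := by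
    intro p hp
    have hpp := hs p hp
    have hp0 : 0 < p := hpp.pos
    set h : ℕ → ℝ := fun m => (OmS s (p * m) : ℝ) * ‖a m‖ ^ 2 * y ^ OmS s (p * m) /
      ((p * m : ℕ) : ℝ) ^ 2 with hh
    have hh0 : ∀ m, 0 ≤ h m := fun m => by positivity
    have h7 : ∑ n ∈ (Finset.Icc 1 N).filter (fun n => p ∣ n),
        (OmS s n : ℝ) * ‖a (n / p)‖ ^ 2 * y ^ OmS s n / (n : ℝ) ^ 2 =
        ∑ n ∈ (Finset.Icc 1 N).filter (fun n => p ∣ n), h (n / p) := by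
      refine Finset.sum_congr rfl fun n hn => ?_
      have h8 : p * (n / p) = n := Nat.mul_div_cancel' (Finset.mem_filter.1 hn).2
      rw [hh]
      show _ = (OmS s (p * (n / p)) : ℝ) * ‖a (n / p)‖ ^ 2 * y ^ OmS s (p * (n / p)) /
        ((p * (n / p) : ℕ) : ℝ) ^ 2
      rw [h8]
    have h9 : ∑ n ∈ (Finset.Icc 1 N).filter (fun n => p ∣ n), h (n / p) =
        ∑ m ∈ ((Finset.Icc 1 N).filter (fun n => p ∣ n)).image (fun n => n / p), h m := by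
      rw [Finset.sum_image]
      intro n hn n' hn' hnn'
      have h8 : p * (n / p) = n := Nat.mul_div_cancel' (Finset.mem_filter.1 hn).2
      have h8' : p * (n' / p) = n' := Nat.mul_div_cancel' (Finset.mem_filter.1 hn').2
      have hnn : n / p = n' / p := hnn'
      rw [← h8, ← h8', hnn]
    have h10 : ((Finset.Icc 1 N).filter (fun n => p ∣ n)).image (fun n => n / p) ⊆ Finset.Icc 1 N := by
      intro m hm
      obtain ⟨n, hn, rfl⟩ := Finset.mem_image.1 hm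
      obtain ⟨hn1, hn2⟩ := Finset.mem_filter.1 hn
      obtain ⟨h11, h12⟩ := Finset.mem_Icc.1 hn1
      rw [Finset.mem_Icc]
      refine ⟨Nat.div_pos (Nat.le_of_dvd (by omega) hn2) hp0, (Nat.div_le_self _ _).trans h12⟩
    rw [h7, h9]
    refine (Finset.sum_le_sum_of_subset_of_nonneg h10 fun m _ _ => hh0 m).trans ?_
    rw [Finset.mul_sum, Finset.mul_sum]
    refine Finset.sum_le_sum fun m hm => ?_
    have hm1 := (Finset.mem_Icc.1 hm).1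
    have hOm := OmS_mul s hpp hp hm1
    set r : ℕ := OmS s m with hr
    have h13 : ((r + 1 : ℕ) : ℝ) * y ^ (r + 1) ≤ (L : ℝ) * Y ^ (r + 1) := by
      have h14 := one_add_mul_le_pow (a := 1 / (L : ℝ)) (by
        have : 0 ≤ 1 / (L : ℝ) := by positivity
        linarith) (r + 1)
      have h15 : ((r + 1 : ℕ) : ℝ) * (1 / (L : ℝ)) ≤ (1 + 1 / (L : ℝ)) ^ (r + 1) := by linarith
      have h16 : ((r + 1 : ℕ) : ℝ) ≤ (L : ℝ) * (1 + 1 / (L : ℝ)) ^ (r + 1) := by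
        have h17 := mul_le_mul_of_nonneg_left h15 (by positivity : (0 : ℝ) ≤ L)
        have h18 : (L : ℝ) * (((r + 1 : ℕ) : ℝ) * (1 / (L : ℝ))) = ((r + 1 : ℕ) : ℝ) := by
          field_simp
        linarith
      rw [hY, mul_pow]
      have h19 := mul_le_mul_of_nonneg_right h16 (by positivity : (0 : ℝ) ≤ y ^ (r + 1))
      linarith
    show (OmS s (p * m) : ℝ) * ‖a m‖ ^ 2 * y ^ OmS s (p * m) / ((p * m : ℕ) : ℝ) ^ 2 ≤ _
    rw [hOm]
    have hpR : (0 : ℝ) < p := by exact_mod_cast hp0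
    have hmR : (0 : ℝ) < m := by exact_mod_cast hm1
    have h20 : ((r + 1 : ℕ) : ℝ) * ‖a m‖ ^ 2 * y ^ (r + 1) / ((p * m : ℕ) : ℝ) ^ 2 =
        (1 / (p : ℝ) ^ 2 * (‖a m‖ ^ 2 / (m : ℝ) ^ 2)) * (((r + 1 : ℕ) : ℝ) * y ^ (r + 1)) := by
      push_cast
      field_simp
    have h21 : 1 / (p : ℝ) ^ 2 * ((L : ℝ) * Y * (‖a m‖ ^ 2 * Y ^ r / (m : ℝ) ^ 2)) =
        (1 / (p : ℝ) ^ 2 * (‖a m‖ ^ 2 / (m : ℝ) ^ 2)) * ((L : ℝ) * Y ^ (r + 1)) := by
      field_simp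
      ring
    rw [h20, h21]
    exact mul_le_mul_of_nonneg_left h13 (by positivity)
  refine (Finset.sum_le_sum h6).trans (le_of_eq ?_)
  rw [← Finset.sum_mul]
  unfold S2
  ring

end MRD
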