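import Mathlib
import Pool.Agent.Helper72.MRD.Defs
import Pool.Agent.Helper72.MRD.C01

set_option autoImplicit false

/-!
MRD-C02. Powers of a prime polynomial.

* `NY_iter`: apply `NY_step` with `L = ℓ` to the iterates: the weight goes from `y = 1` to
  `(1 + 1/ℓ)^ℓ ≤ e ≤ 3` in `ℓ` steps; each step costs a factor `ℓ * 3 * S2 s` at most (the factor
  `y (1 + 1/L) ≤ 3`). Prove by induction on `i ≤ ℓ`:
  `NY N s y ((mulP x s)^[i] a) ≤ (3 ℓ S2)^i NY N s (y (1 + 1/ℓ)^i) a` for `1 ≤ y`,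
  `y (1+1/ℓ)^i ≤ 3`, and use that `NY` is monotone in `y ≥ 0`. (`Function.iterate_succ_apply'`.)
* `NN_eq`: `NY N s 1 a = NN N a`.
-/

namespace MRD

open Finset MRP MeasureTheory

theorem NY_one (N : ℕ) (s : Finset ℕ) (a : ℕ → ℂ) : NY N s 1 a = NN N a := by
  unfold NY NN
  refine Finset.sum_congr rfl fun n _ => ?_
  rw [one_pow, mul_one]

private lemma c02_S2_nonneg (s : Finset ℕ) : 0 ≤ S2 s := by
  unfold S2
  exact Finset.sum_nonneg fun p _ => by positivity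

private lemma c02_NY_nonneg (N : ℕ) (s : Finset ℕ) {y : ℝ} (hy : 0 ≤ y) (a : ℕ → ℂ) :
    0 ≤ NY N s y a := by
  unfold NY
  exact Finset.sum_nonneg fun n _ => by positivity

private lemma c02_NY_mono (N : ℕ) (s : Finset ℕ) {y z : ℝ} (hy : 0 ≤ y) (hyz : y ≤ z)
    (a : ℕ → ℂ) : NY N s y a ≤ NY N s z a := by
  unfold NY
  refine Finset.sum_le_sum fun n _ => ?_
  have h1 : y ^ OmS s n ≤ z ^ OmS s n := pow_le_pow_left₀ hy hyz _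
  exact div_le_div_of_nonneg_right (mul_le_mul_of_nonneg_left h1 (by positivity)) (by positivity)

private lemma c02_iter (N : ℕ) (s : Finset ℕ) (hs : ∀ p ∈ s, p.Prime) (x : ℕ → ℂ)
    (hx : ∀ p, ‖x p‖ ≤ 1) (ℓ : ℕ) (hℓ : 1 ≤ ℓ) : ∀ (i : ℕ) (a : ℕ → ℂ) (y : ℝ), 1 ≤ y →
      y * (1 + 1 / (ℓ : ℝ)) ^ i ≤ 3 →
      NY N s y ((mulP x s)^[i] a) ≤ (3 * (ℓ : ℝ) * S2 s) ^ i *
        NY N s (y * (1 + 1 / (ℓ : ℝ)) ^ i) a := by
  intro i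
  have hL : (1 : ℝ) ≤ ℓ := by exact_mod_cast hℓ
  have hq : (1 : ℝ) ≤ 1 + 1 / (ℓ : ℝ) := by
    have : (0 : ℝ) ≤ 1 / (ℓ : ℝ) := by positivity
    linarith
  have hS := c02_S2_nonneg s
  induction i with
  | zero =>
    intro a y hy h3
    simp
  | succ i ih =>
    intro a y hy h3
    rw [Function.iterate_succ_apply]
    have hqi : (1 : ℝ) ≤ (1 + 1 / (ℓ : ℝ)) ^ i := one_le_pow₀ hq
    have hy1 : 1 ≤ y * (1 + 1 / (ℓ : ℝ)) ^ i := by nlinarith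
    have h4 : y * (1 + 1 / (ℓ : ℝ)) ^ (i + 1) = y * (1 + 1 / (ℓ : ℝ)) ^ i * (1 + 1 / (ℓ : ℝ)) := by
      rw [pow_succ, mul_assoc]
    have h5 : y * (1 + 1 / (ℓ : ℝ)) ^ i ≤ 3 := by
      rw [h4] at h3
      nlinarith
    have e1 := ih (mulP x s a) y hy h5
    have e2 := NY_step N s hs x hx ℓ hℓ _ hy1 a
    rw [← h4] at e2
    have hNY : 0 ≤ NY N s (y * (1 + 1 / (ℓ : ℝ)) ^ (i + 1)) a :=
      c02_NY_nonneg N s (by positivity) a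
    have e3 : (ℓ : ℝ) * (y * (1 + 1 / (ℓ : ℝ)) ^ (i + 1)) * S2 s *
        NY N s (y * (1 + 1 / (ℓ : ℝ)) ^ (i + 1)) a ≤
        3 * (ℓ : ℝ) * S2 s * NY N s (y * (1 + 1 / (ℓ : ℝ)) ^ (i + 1)) a := by
      refine mul_le_mul_of_nonneg_right ?_ hNY
      refine mul_le_mul_of_nonneg_right ?_ hS
      nlinarith
    calc NY N s y ((mulP x s)^[i] (mulP x s a))
        ≤ (3 * (ℓ : ℝ) * S2 s) ^ i * NY N s (y * (1 + 1 / (ℓ : ℝ)) ^ i) (mulP x s a) := e1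
      _ ≤ (3 * (ℓ : ℝ) * S2 s) ^ i * (3 * (ℓ : ℝ) * S2 s *
          NY N s (y * (1 + 1 / (ℓ : ℝ)) ^ (i + 1)) a) :=
        mul_le_mul_of_nonneg_left (e2.trans e3) (by positivity)
      _ = (3 * (ℓ : ℝ) * S2 s) ^ (i + 1) * NY N s (y * (1 + 1 / (ℓ : ℝ)) ^ (i + 1)) a := by
        rw [pow_succ (3 * (ℓ : ℝ) * S2 s) i]
        ring

theorem NY_iter (N : ℕ) (s : Finset ℕ) (hs : ∀ p ∈ s, p.Prime) (x : ℕ → ℂ)
    (hx : ∀ p, ‖x p‖ ≤ 1) (ℓ : ℕ) (hℓ : 1 ≤ ℓ) (a : ℕ → ℂ) :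
    NN N ((mulP x s)^[ℓ] a) ≤ (3 * (ℓ : ℝ) * S2 s) ^ ℓ * NY N s 3 a := by
  have hL : (0 : ℝ) < ℓ := by exact_mod_cast (by omega : 0 < ℓ)
  have h3 : (1 + 1 / (ℓ : ℝ)) ^ ℓ ≤ 3 := by
    have h1 : 1 + 1 / (ℓ : ℝ) ≤ Real.exp (1 / (ℓ : ℝ)) := by
      have := Real.add_one_le_exp (1 / (ℓ : ℝ))
      linarith
    have h2 : (1 + 1 / (ℓ : ℝ)) ^ ℓ ≤ Real.exp (1 / (ℓ : ℝ)) ^ ℓ :=
      pow_le_pow_left₀ (by positivity) h1 _
    rw [← Real.exp_nat_mul, mul_one_div_cancel hL.ne'] at h2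
    have h4 := Real.exp_one_lt_d9
    linarith
  have e1 := c02_iter N s hs x hx ℓ hℓ ℓ a 1 le_rfl (by rw [one_mul]; exact h3)
  rw [one_mul, NY_one] at e1
  refine e1.trans ?_
  have hS := c02_S2_nonneg s
  exact mul_le_mul_of_nonneg_left (c02_NY_mono N s (by positivity) h3 a) (by positivity)

end MRD
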