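import Mathlib
import Pool.Agent.Helper72.MRD.Defs
import Pool.Agent.Helper72.MRD.B03

set_option autoImplicit false

/-!
MRD-C03. The product `QP^ℓ * DP` as a Dirichlet polynomial, with its support.

Induction on `ℓ` (`Function.iterate_succ_apply'`). Support: if `mulP x s c n ≠ 0` then there is
`p ∈ s`, `p ∣ n`, `c (n/p) ≠ 0`, so `n = p (n/p) ≤ E * (B E^ℓ)`, and `n / p ≥ 1`.
Product: `QP_mul_DP` with `hN`: for `c n ≠ 0`, `p n ≤ E * (B E^ℓ) = B E^(ℓ+1) ≤ N`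
(`E ≥ 1`, so `B E^ℓ ≤ N` as well; here `B ≥ 0` may be assumed: if `B < 0` no `n ≥ 1` has
`a n ≠ 0` and everything is `0`).
-/

namespace MRD

open Finset MRP MeasureTheory

theorem support_iter (x : ℕ → ℂ) (s : Finset ℕ) (E B : ℝ) (hE : 1 ≤ E)
    (hs : ∀ p ∈ s, 1 ≤ p ∧ (p : ℝ) ≤ E) (a : ℕ → ℂ) (ha : ∀ n, 1 ≤ n → a n ≠ 0 → (n : ℝ) ≤ B)
    (ℓ : ℕ) : ∀ n, 1 ≤ n → ((mulP x s)^[ℓ] a) n ≠ 0 → (n : ℝ) ≤ B * E ^ ℓ := by
  induction ℓ with
  | zero =>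
    intro n hn h
    simpa using ha n hn h
  | succ ℓ ih =>
    intro n hn h
    rw [Function.iterate_succ_apply'] at h
    unfold mulP at h
    obtain ⟨p, hp, hne⟩ := Finset.exists_ne_zero_of_sum_ne_zero h
    rw [Finset.mem_filter] at hp
    obtain ⟨hps, hpn⟩ := hp
    obtain ⟨hp1, hpE⟩ := hs p hps
    have hc : ((mulP x s)^[ℓ] a) (n / p) ≠ 0 := by
      intro h0
      apply hne
      have : (fun n => ∑ p ∈ s.filter (fun p => p ∣ n), x p * a (n / p)) = mulP x s a := rfl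
      have h0' : ((fun a n => ∑ p ∈ s.filter (fun p => p ∣ n), x p * a (n / p))^[ℓ] a) (n / p) = 0 :=
        h0
      rw [h0', mul_zero]
    have hn1 : 1 ≤ n / p := Nat.div_pos (Nat.le_of_dvd (by omega) hpn) (by omega)
    have h1 := ih (n / p) hn1 hc
    have h2 : (n : ℝ) = (p : ℝ) * ((n / p : ℕ) : ℝ) := by
      rw [← Nat.cast_mul, Nat.mul_div_cancel' hpn]
    have h3 : (0 : ℝ) ≤ ((n / p : ℕ) : ℝ) := Nat.cast_nonneg _
    have h4 : 0 ≤ B * E ^ ℓ := h3.trans h1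
    calc (n : ℝ) = (p : ℝ) * ((n / p : ℕ) : ℝ) := h2
      _ ≤ E * (B * E ^ ℓ) := by
          apply mul_le_mul hpE h1 h3 (by linarith)
      _ = B * E ^ (ℓ + 1) := by ring

theorem QP_pow_mul (x : ℕ → ℂ) (s : Finset ℕ) (E B : ℝ) (hE : 1 ≤ E)
    (hs : ∀ p ∈ s, 1 ≤ p ∧ (p : ℝ) ≤ E) (a : ℕ → ℂ) (ha : ∀ n, 1 ≤ n → a n ≠ 0 → (n : ℝ) ≤ B)
    (ℓ N : ℕ) (hN : B * E ^ ℓ ≤ N) (t : ℝ) :
    QP x s t ^ ℓ * DP N a t = DP N ((mulP x s)^[ℓ] a) t := by
  induction ℓ with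
  | zero => simp
  | succ ℓ ih =>
    have hN0 : (0 : ℝ) ≤ N := Nat.cast_nonneg _
    have hEp : 0 < E ^ ℓ := by positivity
    have hN' : B * E ^ ℓ ≤ N := by
      rcases le_or_gt 0 B with hB | hB
      · refine le_trans ?_ hN
        rw [pow_succ, ← mul_assoc]
        exact le_mul_of_one_le_right (by positivity) hE
      · exact le_trans (by nlinarith) hN0
    rw [pow_succ', mul_assoc, ih hN', Function.iterate_succ_apply']
    refine QP_mul_DP x s (fun p hp => (hs p hp).1) N _ ?_ t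
    intro p hp n hn hne
    have h1 := support_iter x s E B hE hs a ha ℓ n hn hne
    have h0 : (0 : ℝ) ≤ n := Nat.cast_nonneg _
    have h2 : ((p * n : ℕ) : ℝ) ≤ N := by
      push_cast
      calc (p : ℝ) * n ≤ E * (B * E ^ ℓ) := by
            apply mul_le_mul (hs p hp).2 h1 h0 (by linarith)
        _ = B * E ^ (ℓ + 1) := by ring
        _ ≤ N := hN
    exact_mod_cast h2

end MRD
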