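import Mathlib
import Pool.Agent.Helper72.MRD.Defs
import Pool.Agent.Helper72.MRD.B03

set_option autoImplicit false

/-!
MRD-C05. Facts on slices: `m ≥ 2`, `k ≥ m²`, so `k/m ≥ m ≥ 2` and every `p` in the slice satisfies
`log p > 2`, `p ≥ 5` (`e² > 7`).

* `WS ≤ 1`: `∑_{p ∈ slice} 1/p ≤ ∑_{n integer, e^{κ} < n ≤ e^{κ + 1/m}} 1/n ≤ 1/m + e^{-κ} ≤ 1/2 + e^{-2}`
  with `κ = k/m` (each `1/n ≤ log n - log(n-1)` for `n ≥ 2`; the first term is `≤ e^{-κ}`; the rest
  telescopes inside `[e^κ, e^{κ+1/m}]`).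
* `S2 ≤ exp(-κ) WS`, because `1/p < e^{-κ}`.
-/

namespace MRD

open Finset MRP MeasureTheory

private lemma c05_sum_log (a : ℕ) (ha : 1 ≤ a) (b : ℕ) (hb : a ≤ b) :
    ∑ n ∈ Finset.Ioc a b, (1 : ℝ) / n ≤ Real.log b - Real.log a := by
  induction b, hb using Nat.le_induction with
  | base => simp
  | succ b hb ih =>
    rw [Finset.sum_Ioc_succ_top (by omega)]
    have hb0 : (0 : ℝ) < b := by exact_mod_cast (by omega : 0 < b)
    have hb1 : (0 : ℝ) < (b : ℝ) + 1 := by linarith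
    have h1 := Real.one_sub_inv_le_log_of_pos (x := ((b : ℝ) + 1) / b) (by positivity)
    rw [Real.log_div hb1.ne' hb0.ne'] at h1
    have h2 : 1 - (((b : ℝ) + 1) / b)⁻¹ = 1 / ((b + 1 : ℕ) : ℝ) := by
      push_cast
      field_simp
      ring
    rw [h2] at h1
    push_cast at h1 ⊢
    linarith

theorem slice_facts (m k : ℕ) (hm : 2 ≤ m) (hk : m ^ 2 ≤ k) :
    (∀ p ∈ slice m k, p.Prime ∧ 5 ≤ p ∧ (p : ℝ) ≤ Real.exp (((k : ℝ) + 1) / m)) ∧
    WS (slice m k) ≤ 1 ∧ S2 (slice m k) ≤ Real.exp (-((k : ℝ) / m)) := by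
  have hm0 : (0 : ℝ) < m := by exact_mod_cast (by omega : 0 < m)
  have hm2 : (2 : ℝ) ≤ m := by exact_mod_cast hm
  have hkR : (m : ℝ) ^ 2 ≤ k := by exact_mod_cast hk
  have hκ : (2 : ℝ) ≤ (k : ℝ) / m := by
    rw [le_div_iff₀ hm0]
    nlinarith
  have he2 : (7 : ℝ) ≤ Real.exp 2 := by
    have h1 := Real.exp_one_gt_d9
    have h2 : Real.exp 2 = Real.exp 1 * Real.exp 1 := by
      rw [← Real.exp_add]; norm_num
    rw [h2]
    nlinarith
  have hE7 : (7 : ℝ) ≤ Real.exp ((k : ℝ) / m) := he2.trans (Real.exp_le_exp.mpr hκ)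
  have hkey : ∀ p ∈ slice m k, p.Prime ∧ Real.exp ((k : ℝ) / m) < p ∧
      (p : ℝ) ≤ Real.exp (((k : ℝ) + 1) / m) := by
    intro p hp
    unfold slice at hp
    rw [Finset.mem_filter] at hp
    obtain ⟨_, hpp, h1, h2⟩ := hp
    have hp0 : (0 : ℝ) < p := by exact_mod_cast hpp.pos
    refine ⟨hpp, ?_, ?_⟩
    · rw [← Real.lt_log_iff_exp_lt hp0]; exact h1
    · rw [← Real.log_le_iff_le_exp hp0]; exact h2
  have hW : WS (slice m k) ≤ 1 := by
    unfold WS
    set a : ℕ := ⌊Real.exp ((k : ℝ) / m)⌋₊ with ha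
    set b : ℕ := ⌊Real.exp (((k : ℝ) + 1) / m)⌋₊ with hb
    have hmono : Real.exp ((k : ℝ) / m) ≤ Real.exp (((k : ℝ) + 1) / m) := by
      apply Real.exp_le_exp.mpr
      gcongr
      linarith
    have hab : a ≤ b := Nat.floor_le_floor hmono
    have ha7 : 7 ≤ a := Nat.le_floor (by exact_mod_cast hE7)
    have hsub : slice m k ⊆ Finset.Ioc a b := by
      intro p hp
      obtain ⟨hpp, h1, h2⟩ := hkey p hp
      rw [Finset.mem_Ioc]
      refine ⟨?_, Nat.le_floor h2⟩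
      exact (Nat.floor_lt (Real.exp_pos _).le).mpr h1
    have h1 : ∑ p ∈ slice m k, (1 : ℝ) / p ≤ ∑ p ∈ Finset.Ioc a b, (1 : ℝ) / p :=
      Finset.sum_le_sum_of_subset_of_nonneg hsub (fun i _ _ => by positivity)
    have h2 := c05_sum_log a (by omega) b hab
    have h3 : Real.log b ≤ ((k : ℝ) + 1) / m := by
      have hb0 : (0 : ℝ) < b := by exact_mod_cast (by omega : 0 < b)
      rw [Real.log_le_iff_le_exp hb0]
      exact Nat.floor_le (Real.exp_pos _).le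
    have h4 : (k : ℝ) / m - 1 / 6 ≤ Real.log a := by
      have ha0 : (0 : ℝ) < a := by exact_mod_cast (by omega : 0 < a)
      rw [Real.le_log_iff_exp_le ha0, Real.exp_sub]
      have h5 : Real.exp ((k : ℝ) / m) < a + 1 := Nat.lt_floor_add_one _
      have h6 : (7 : ℝ) / 6 ≤ Real.exp (1 / 6) := by
        have := Real.add_one_le_exp (1 / 6 : ℝ)
        linarith
      rw [div_le_iff₀ (Real.exp_pos _)]
      have ha7' : (7 : ℝ) ≤ a := by exact_mod_cast ha7
      nlinarith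
    have h7 : ((k : ℝ) + 1) / m = (k : ℝ) / m + 1 / m := by ring
    have h8 : 1 / (m : ℝ) ≤ 1 / 2 := one_div_le_one_div_of_le (by norm_num) hm2
    linarith
  refine ⟨?_, hW, ?_⟩
  · intro p hp
    obtain ⟨hpp, h1, h2⟩ := hkey p hp
    refine ⟨hpp, ?_, h2⟩
    have : (7 : ℝ) < p := lt_of_le_of_lt hE7 h1
    have : 7 < p := by exact_mod_cast this
    omega
  · have h1 : S2 (slice m k) ≤ Real.exp (-((k : ℝ) / m)) * WS (slice m k) := by
      unfold S2 WS
      rw [Finset.mul_sum]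
      apply Finset.sum_le_sum
      intro p hp
      obtain ⟨hpp, h1, h2⟩ := hkey p hp
      have hp0 : (0 : ℝ) < p := by exact_mod_cast hpp.pos
      have h3 : (1 : ℝ) / p ≤ Real.exp (-((k : ℝ) / m)) := by
        rw [Real.exp_neg, ← one_div]
        exact one_div_le_one_div_of_le (Real.exp_pos _) h1.le
      calc (1 : ℝ) / (p : ℝ) ^ 2 = 1 / p * (1 / p) := by rw [sq]; field_simp
        _ ≤ Real.exp (-((k : ℝ) / m)) * (1 / p) := by gcongr
    refine h1.trans ?_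
    have := Real.exp_pos (-((k : ℝ) / m))
    nlinarith

end MRD
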