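import Mathlib
import Pool.Agent.Helper72.MRD.Defs
import Pool.Agent.Helper72.MRD.A02
import Pool.Agent.Helper72.MRD.C02
import Pool.Agent.Helper72.MRD.C03
import Pool.Agent.Helper72.MRD.C05

set_option autoImplicit false

/-!
MRD-C07. Moments of a prime polynomial.

As C06 with `a = δ_1` (`a n = 1` if `n = 1`, else `0`), `DP N a t = cp 1 t = 1` (`cp_one`), `B = 1`,
`NY N s 3 a = 1` (`OmS s 1 = 0`), support of the iterate `≤ E^ℓ = e^{κ'ℓ + ℓ/m}`, `κ' = k/m`,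
`NN ≤ (3ℓ)^ℓ e^{-κ'ℓ}`; `mvt`.
-/

namespace MRD

open Finset MRP MeasureTheory

theorem moment_one : ∃ C : ℝ, 0 < C ∧ ∀ m : ℕ, 2 ≤ m → ∀ k : ℕ, m ^ 2 ≤ k → ∀ ℓ : ℕ, 1 ≤ ℓ →
    ∀ η : ℝ, 0 < η → ∀ x : ℕ → ℂ, (∀ p, ‖x p‖ ≤ 1) →
    ∫ t : ℝ, ‖QP x (slice m k) t ^ ℓ‖ ^ 2 * wt η t ≤
      C * (1 / η + Real.exp ((k : ℝ) / m * ℓ + ℓ)) * (3 * (ℓ : ℝ)) ^ ℓ *
        Real.exp (-((k : ℝ) / m * ℓ)) := by
  refine ⟨10, by norm_num, ?_⟩
  intro m hm k hk ℓ hℓ η hη x hx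
  obtain ⟨hsl, -, hS2⟩ := slice_facts m k hm hk
  have hmR : (2 : ℝ) ≤ m := by exact_mod_cast hm
  set E : ℝ := Real.exp (((k : ℝ) + 1) / m) with hE
  have hE1 : 1 ≤ E := by
    rw [hE]
    exact Real.one_le_exp (by positivity)
  have hEl : 1 ≤ E ^ ℓ := one_le_pow₀ hE1
  set a : ℕ → ℂ := fun n => if n = 1 then 1 else 0 with ha
  have haB : ∀ n, 1 ≤ n → a n ≠ 0 → (n : ℝ) ≤ 1 := by
    intro n _ h
    by_cases h1 : n = 1
    · rw [h1]; simp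
    · exact absurd (by simp [ha, h1]) h
  have hs' : ∀ p ∈ slice m k, 1 ≤ p ∧ (p : ℝ) ≤ E := fun p hp =>
    ⟨(hsl p hp).1.one_lt.le, (hsl p hp).2.2⟩
  set N : ℕ := ⌈E ^ ℓ⌉₊ with hN
  have hNl : 1 * E ^ ℓ ≤ (N : ℝ) := by
    rw [one_mul]; exact Nat.le_ceil _
  have hN1 : 1 ≤ N := by
    have : (1 : ℝ) ≤ N := by linarith
    exact_mod_cast this
  have hDP : ∀ t, DP N a t = 1 := by
    intro t
    unfold DP
    rw [Finset.sum_eq_single_of_mem 1 (Finset.mem_Icc.mpr ⟨le_refl _, hN1⟩)]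
    · simp [ha, cp_one]
    · intro n _ hn
      simp [ha, hn]
  have hprod : ∀ t, QP x (slice m k) t ^ ℓ = DP N ((mulP x (slice m k))^[ℓ] a) t := by
    intro t
    rw [← QP_pow_mul x (slice m k) E 1 hE1 hs' a haB ℓ N hNl t, hDP, mul_one]
  have h1 : ∫ t : ℝ, ‖QP x (slice m k) t ^ ℓ‖ ^ 2 * wt η t ≤
      10 * (1 / η + E ^ ℓ) * NN N ((mulP x (slice m k))^[ℓ] a) := by
    have := mvt η (E ^ ℓ) hη (by positivity) N ((mulP x (slice m k))^[ℓ] a) (by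
      intro n hn hne
      have := support_iter x (slice m k) E 1 hE1 hs' a haB ℓ n (Finset.mem_Icc.mp hn).1 hne
      rwa [one_mul] at this)
    refine le_of_eq_of_le ?_ this
    refine integral_congr_ae (Filter.Eventually.of_forall fun t => ?_)
    show ‖QP x (slice m k) t ^ ℓ‖ ^ 2 * wt η t = _
    rw [hprod t]
  have h2 : NY N (slice m k) 3 a = 1 := by
    unfold NY
    rw [Finset.sum_eq_single_of_mem 1 (Finset.mem_Icc.mpr ⟨le_refl _, hN1⟩)]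
    · simp [ha, OmS]
    · intro n _ hn
      simp [ha, hn]
  have h3 : NN N ((mulP x (slice m k))^[ℓ] a) ≤
      (3 * (ℓ : ℝ)) ^ ℓ * Real.exp (-((k : ℝ) / m * ℓ)) := by
    refine (NY_iter N (slice m k) (fun p hp => (hsl p hp).1) x hx ℓ hℓ a).trans ?_
    rw [h2, mul_one, mul_pow]
    refine mul_le_mul_of_nonneg_left ?_ (by positivity)
    have hS0 : 0 ≤ S2 (slice m k) := by
      unfold S2
      exact Finset.sum_nonneg fun p _ => by positivity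
    refine (pow_le_pow_left₀ hS0 hS2 ℓ).trans (le_of_eq ?_)
    rw [← Real.exp_nat_mul]
    congr 1
    ring
  have h4 : E ^ ℓ ≤ Real.exp ((k : ℝ) / m * ℓ + ℓ) := by
    rw [hE, ← Real.exp_nat_mul, Real.exp_le_exp]
    have hl0 : (0 : ℝ) ≤ ℓ := Nat.cast_nonneg _
    have h5 : (1 : ℝ) / m ≤ 1 := by
      rw [div_le_one (by linarith)]
      linarith
    have h6 : (ℓ : ℝ) * (((k : ℝ) + 1) / m) = (k : ℝ) / m * ℓ + ℓ * (1 / m) := by ring
    rw [h6]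
    nlinarith
  have hNN0 : 0 ≤ NN N ((mulP x (slice m k))^[ℓ] a) := by
    unfold NN
    exact Finset.sum_nonneg fun p _ => by positivity
  calc _ ≤ 10 * (1 / η + E ^ ℓ) * NN N ((mulP x (slice m k))^[ℓ] a) := h1
    _ ≤ 10 * (1 / η + Real.exp ((k : ℝ) / m * ℓ + ℓ)) *
        ((3 * (ℓ : ℝ)) ^ ℓ * Real.exp (-((k : ℝ) / m * ℓ))) := by
          refine mul_le_mul ?_ h3 hNN0 (by positivity)
          have : 1 / η + E ^ ℓ ≤ 1 / η + Real.exp ((k : ℝ) / m * ℓ + ℓ) := by linarith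
          linarith
    _ = _ := by ring

end MRD
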