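import Mathlib
import Pool.Agent.Helper72.MRD.Defs
import Pool.Agent.Helper72.MRD.A02

set_option autoImplicit false

/-!
MRD-B01. Elementary facts on the localised polynomials.

* `NN_le`: if `a n ≠ 0` only for `log n ≥ v - 2`, then `NN N a ≤ A² ∑_{n ≥ max(1, e^{v-2})} 1/n²
  ≤ 2 e² A² e^{-v} * const` (telescoping `1/n² ≤ 1/(n-1) - 1/n` or `≤ 2/(n(n+1))`, `v ≥ 0`).
* `FF_congr`: the polynomial does not depend on `N ≥ e^{v+4}` when `φ` vanishes on `[4, ∞)`.
* `FF_mean`: `mvt` with `B = e^{v+4}` and `NN_le`.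
-/

namespace MRD

open Finset MRP MeasureTheory

private lemma b01_sum {m : ℕ} (hm : 1 ≤ m) (N : ℕ) :
    ∑ n ∈ Finset.Icc m N, 1 / (n : ℝ) ^ 2 ≤ 2 / (m : ℝ) := by
  have hm0 : (0 : ℝ) < m := by exact_mod_cast hm
  by_cases h : N < m
  · rw [Finset.Icc_eq_empty (by omega), Finset.sum_empty]
    positivity
  · push Not at h
    have key : ∑ n ∈ Finset.Icc m N, 1 / (n : ℝ) ^ 2 ≤ 2 / (m : ℝ) - 2 / ((N : ℝ) + 1) := by
      induction N, h using Nat.le_induction with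
      | base =>
        rw [Finset.Icc_self, Finset.sum_singleton]
        have h1 : (1 : ℝ) ≤ m := by exact_mod_cast hm
        rw [div_sub_div _ _ hm0.ne' (by positivity), div_le_div_iff₀ (by positivity) (by positivity)]
        nlinarith
      | succ N hN ih =>
        rw [Finset.sum_Icc_succ_top (by omega)]
        have hN0 : (0 : ℝ) < (N : ℝ) + 1 := by positivity
        have h2 : 1 / (((N + 1 : ℕ) : ℝ)) ^ 2 ≤ 2 / ((N : ℝ) + 1) - 2 / (((N + 1 : ℕ) : ℝ) + 1) := by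
          push_cast
          rw [div_sub_div _ _ hN0.ne' (by positivity), div_le_div_iff₀ (by positivity)
            (by positivity)]
          have h3 : (0 : ℝ) ≤ N := Nat.cast_nonneg N
          nlinarith
        linarith
    have : 0 ≤ 2 / ((N : ℝ) + 1) := by positivity
    linarith

theorem NN_le : ∃ C : ℝ, 0 < C ∧ ∀ v : ℝ, 0 ≤ v → ∀ (N : ℕ) (a : ℕ → ℂ) (A : ℝ), 0 ≤ A →
    (∀ n ∈ Finset.Icc 1 N, ‖a n‖ ≤ A) →
    (∀ n ∈ Finset.Icc 1 N, a n ≠ 0 → v - 2 ≤ Real.log n) →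
    NN N a ≤ C * A ^ 2 * Real.exp (-v) := by
  refine ⟨2 * Real.exp 2, by positivity, ?_⟩
  intro v _ N a A hA ha hsupp
  set m : ℕ := max 1 ⌈Real.exp (v - 2)⌉₊ with hm
  have hm1 : 1 ≤ m := le_max_left _ _
  have hm0 : (0 : ℝ) < m := by exact_mod_cast hm1
  have hmE : Real.exp (v - 2) ≤ m := by
    refine (Nat.le_ceil _).trans ?_
    exact_mod_cast le_max_right 1 ⌈Real.exp (v - 2)⌉₊
  have hEpos : 0 < Real.exp (v - 2) := Real.exp_pos _
  have h1 : NN N a ≤ ∑ n ∈ Finset.Icc m N, A ^ 2 * (1 / (n : ℝ) ^ 2) := by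
    unfold NN
    have hsub : Finset.Icc m N ⊆ Finset.Icc 1 N := Finset.Icc_subset_Icc_left hm1
    have hz : ∀ n ∈ Finset.Icc 1 N, n ∉ Finset.Icc m N → ‖a n‖ ^ 2 / (n : ℝ) ^ 2 = 0 := by
      intro n hn hn'
      have hn1 := Finset.mem_Icc.1 hn
      have hnm : n < m := by
        by_contra hcon
        exact hn' (Finset.mem_Icc.2 ⟨by omega, hn1.2⟩)
      have han : a n = 0 := by
        by_contra hne
        have h3 := hsupp n hn hne
        have hn0 : (0 : ℝ) < n := by exact_mod_cast hn1.1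
        have h4 : Real.exp (v - 2) ≤ n := (Real.le_log_iff_exp_le hn0).1 h3
        have h5 : ⌈Real.exp (v - 2)⌉₊ ≤ n := Nat.ceil_le.2 h4
        have h6 : m ≤ n := max_le hn1.1 h5
        omega
      rw [han, norm_zero]
      simp
    rw [← Finset.sum_subset hsub hz]
    apply Finset.sum_le_sum
    intro n hn
    rw [mul_one_div]
    exact div_le_div_of_nonneg_right
      (pow_le_pow_left₀ (norm_nonneg _) (ha n (hsub hn)) 2) (by positivity)
  refine h1.trans ?_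
  rw [← Finset.mul_sum]
  have h2 := b01_sum hm1 N
  have h3 : 2 / (m : ℝ) ≤ 2 / Real.exp (v - 2) :=
    div_le_div_of_nonneg_left (by norm_num) hEpos hmE
  have h4 : 2 / Real.exp (v - 2) = 2 * Real.exp 2 * Real.exp (-v) := by
    rw [div_eq_mul_inv, ← Real.exp_neg, mul_assoc, ← Real.exp_add]
    congr 2
    ring
  calc A ^ 2 * ∑ n ∈ Finset.Icc m N, 1 / (n : ℝ) ^ 2 ≤ A ^ 2 * (2 * Real.exp 2 * Real.exp (-v)) :=
        mul_le_mul_of_nonneg_left (by rw [← h4]; exact h2.trans h3) (sq_nonneg A)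
    _ = 2 * Real.exp 2 * A ^ 2 * Real.exp (-v) := by ring

theorem FF_congr (φ : ℝ → ℝ) (hφ : ∀ x, 4 ≤ x → φ x = 0) (a : ℕ → ℂ) (v t : ℝ) (N N' : ℕ)
    (hN : Real.exp (v + 4) ≤ N) (hN' : Real.exp (v + 4) ≤ N') :
    FF N φ a v t = FF N' φ a v t := by
  have main : ∀ N N' : ℕ, Real.exp (v + 4) ≤ N → N ≤ N' → FF N φ a v t = FF N' φ a v t := by
    intro N N' hN hNN
    unfold FF DP
    refine Finset.sum_subset (Finset.Icc_subset_Icc_right hNN) ?_
    intro n hn hn'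
    rw [Finset.mem_Icc] at hn hn'
    have h1 : N < n := by omega
    have h2 : (N : ℝ) < n := by exact_mod_cast h1
    have hn0 : (0 : ℝ) < n := by exact_mod_cast hn.1
    have h3 : v + 4 ≤ Real.log n := (Real.le_log_iff_exp_le hn0).2 (by linarith)
    unfold cut
    rw [hφ _ (by linarith)]
    simp
  rcases le_total N N' with h | h
  · exact main N N' hN h
  · exact (main N' N hN' h).symm

theorem FF_mean : ∃ C : ℝ, 0 < C ∧ ∀ (φ : ℝ → ℝ) (A : ℝ), 0 ≤ A → (∀ x, |φ x| ≤ A) →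
    (∀ x, x ≤ -2 ∨ 4 ≤ x → φ x = 0) → ∀ g : ℕ → ℂ, (∀ n, ‖g n‖ ≤ 2) → ∀ v : ℝ, 0 ≤ v →
    ∀ η : ℝ, 0 < η → ∀ N : ℕ, Real.exp (v + 4) ≤ N →
    ∫ t : ℝ, ‖FF N φ g v t‖ ^ 2 * wt η t ≤ C * A ^ 2 * (1 / η * Real.exp (-v) + 1) := by
  obtain ⟨C0, hC0, hNN⟩ := NN_le
  refine ⟨40 * C0 * Real.exp 4, by positivity, ?_⟩
  intro φ A hA hφA hφ g hg v hv η hη N hN
  have hcut : ∀ n, cut φ v g n ≠ 0 → -2 < Real.log n - v ∧ Real.log n - v < 4 := by
    intro n hn
    by_contra hcon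
    apply hn
    unfold cut
    rw [hφ (Real.log n - v)]
    · simp
    · by_contra h
      push Not at h
      exact hcon h
  have h1 := mvt η (Real.exp (v + 4)) hη (Real.exp_pos _).le N (cut φ v g) (by
    intro n hn hne
    have hn1 := (Finset.mem_Icc.1 hn).1
    have hn0 : (0 : ℝ) < n := by exact_mod_cast hn1
    have h2 := (hcut n hne).2
    exact (Real.log_le_iff_le_exp hn0).1 (by linarith))
  have h2 := hNN v hv N (cut φ v g) (2 * A) (by linarith) (by
    intro n _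
    unfold cut
    rw [norm_mul, Complex.norm_real, Real.norm_eq_abs]
    exact mul_le_mul (hg n) (hφA _) (abs_nonneg _) (by norm_num)) (by
    intro n _ hne
    have h3 := (hcut n hne).1
    linarith)
  have h3 : 0 ≤ 10 * (1 / η + Real.exp (v + 4)) := by positivity
  have h4 : ∫ t : ℝ, ‖FF N φ g v t‖ ^ 2 * wt η t ≤
      10 * (1 / η + Real.exp (v + 4)) * (C0 * (2 * A) ^ 2 * Real.exp (-v)) :=
    h1.trans (mul_le_mul_of_nonneg_left h2 h3)
  refine h4.trans ?_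
  have e1 : Real.exp (v + 4) * Real.exp (-v) = Real.exp 4 := by
    rw [← Real.exp_add]
    congr 1
    ring
  have e2 : 10 * (1 / η + Real.exp (v + 4)) * (C0 * (2 * A) ^ 2 * Real.exp (-v)) =
      40 * C0 * A ^ 2 * (1 / η * Real.exp (-v) + Real.exp (v + 4) * Real.exp (-v)) := by ring
  rw [e2, e1]
  have e3 : (1 : ℝ) ≤ Real.exp 4 := Real.one_le_exp (by norm_num)
  have h5 : 0 ≤ 1 / η * Real.exp (-v) := by positivity
  have h6 : 0 ≤ 40 * C0 * A ^ 2 := by positivity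
  calc 40 * C0 * A ^ 2 * (1 / η * Real.exp (-v) + Real.exp 4) ≤
        40 * C0 * A ^ 2 * (Real.exp 4 * (1 / η * Real.exp (-v) + 1)) := by
        apply mul_le_mul_of_nonneg_left _ h6
        nlinarith
    _ = 40 * C0 * Real.exp 4 * A ^ 2 * (1 / η * Real.exp (-v) + 1) := by ring

end MRD
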