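import Mathlib
import Pool.Agent.Helper72.MRD.Defs
import Pool.Agent.Helper72.MRD.B03

set_option autoImplicit false

/-!
MRD-B04. Decomposition of level `m` (Turan-Kubilius form, with slices).

By `QP_mul_DP` with `s = slice m k`, `a = cut phi (v - k/m) g`, `g = fb (up 1 b) χ`: if `a n ≠ 0`
then `log n - (v - k/m) < 3` (`phi_eq_zero`) and `log p ≤ (k+1)/m`, so
`p n ≤ e^{v + 3 + 1/m} ≤ e^{v+4} ≤ N`. Hence
`QP (xc χ) (slice m k) t * FF N phi g (v - k/m) t = DP N (mulP (xc χ) (slice m k) a) t`;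
sum over `k`, multiply by `1/W` and add `DP N (er ..)`: `DP N` is linear in the coefficients and
the coefficients add up to `cut phi v (fb b χ)` by the definition of `er`.
-/

namespace MRD

open Finset MRP MeasureTheory

lemma DP_add (N : ℕ) (a c : ℕ → ℂ) (t : ℝ) :
    DP N (fun n => a n + c n) t = DP N a t + DP N c t := by
  unfold DP
  rw [← Finset.sum_add_distrib]
  exact Finset.sum_congr rfl fun n _ => by ring

lemma DP_mul (N : ℕ) (z : ℂ) (a : ℕ → ℂ) (t : ℝ) :
    DP N (fun n => z * a n) t = z * DP N a t := by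
  unfold DP
  rw [Finset.mul_sum]
  exact Finset.sum_congr rfl fun n _ => by ring

lemma DP_sum (N : ℕ) {ι : Type} (K : Finset ι) (a : ι → ℕ → ℂ) (t : ℝ) :
    DP N (fun n => ∑ k ∈ K, a k n) t = ∑ k ∈ K, DP N (a k) t := by
  unfold DP
  rw [Finset.sum_comm]
  exact Finset.sum_congr rfl fun n _ => by rw [Finset.sum_mul]

theorem decomp (m : ℕ) (hm : 1 ≤ m) (v : ℝ) (N : ℕ) (hN : Real.exp (v + 4) ≤ N) (b : ℕ → ℝ)
    {q : ℕ} (χ : DirichletCharacter ℂ q) (t : ℝ) :
    FF N phi (fb b χ) v t =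
      (1 / ((WS (LP m) : ℝ) : ℂ)) * ∑ k ∈ Finset.Ico (m ^ 2) (m ^ 3),
        QP (xc χ) (slice m k) t * FF N phi (fb (up 1 b) χ) (v - (k : ℝ) / m) t +
      DP N (er m b χ v) t := by
  have hm0 : (0 : ℝ) < m := by exact_mod_cast hm
  have hm1 : (1 : ℝ) ≤ m := by exact_mod_cast hm
  have key : ∀ k ∈ Finset.Ico (m ^ 2) (m ^ 3),
      QP (xc χ) (slice m k) t * FF N phi (fb (up 1 b) χ) (v - (k : ℝ) / m) t =
        DP N (mulP (xc χ) (slice m k) (cut phi (v - (k : ℝ) / m) (fb (up 1 b) χ))) t := by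
    intro k _
    unfold FF
    apply QP_mul_DP
    · intro p hp
      rw [mem_slice] at hp
      exact hp.1.one_lt.le
    · intro p hp n hn hne
      rw [mem_slice] at hp
      have hφ : phi (Real.log n - (v - (k : ℝ) / m)) ≠ 0 := by
        intro h
        apply hne
        unfold cut
        rw [h]
        simp
      have h3 : Real.log n - (v - (k : ℝ) / m) < 3 := by
        by_contra h
        exact hφ (phi_eq_zero (Or.inr (not_lt.mp h)))
      have hp0 : (0 : ℝ) < p := by exact_mod_cast hp.1.pos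
      have hn0 : (0 : ℝ) < n := by exact_mod_cast hn
      have h1m : (1 : ℝ) / m ≤ 1 := by
        rw [div_le_one hm0]; exact hm1
      have hk : ((k : ℝ) + 1) / m = (k : ℝ) / m + 1 / m := by ring
      have h4 : Real.log ((p : ℝ) * n) ≤ v + 4 := by
        rw [Real.log_mul hp0.ne' hn0.ne']
        have := hp.2.2
        rw [hk] at this
        linarith
      have h5 : (p : ℝ) * n ≤ N := by
        rw [← Real.exp_log (mul_pos hp0 hn0)]
        exact (Real.exp_le_exp.mpr h4).trans hN
      exact_mod_cast h5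
  rw [Finset.sum_congr rfl key, ← DP_sum, ← DP_mul, ← DP_add]
  unfold FF
  congr 1
  funext n
  unfold er
  ring

end MRD
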