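import Mathlib
import Pool.Agent.Helper72.MRD.Defs
import Pool.Agent.Helper13.Om.TK

set_option autoImplicit false

/-!
MRD-B02. Turan-Kubilius in a block. `Helper13.Om.turan_kubilius` (black box) with
`N' = ⌊e^{v+5}⌋`: `Q.card ≤ e^v ≤ N'` because `Q` consists of integers in `[1, e^v]`. It gives
`∑_{n ≤ N'} (om Q n - WS Q)² ≤ 3 (WS Q) N'` (their `om` is the same). Divide by
`n² ≥ e^{2(v-2)}`. (`WS Q` is `∑ 1/p`.) If `v = 0` the set `Q` is empty.
-/

namespace MRD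

open Finset MRP MeasureTheory

theorem tk_block : ∃ C : ℝ, 0 < C ∧ ∀ v : ℝ, 0 ≤ v → ∀ Q : Finset ℕ, (∀ p ∈ Q, p.Prime) →
    (∀ p ∈ Q, Real.log p ≤ v) → ∀ N : ℕ,
    ∑ n ∈ (Finset.Icc 1 N).filter (fun n : ℕ => v - 2 ≤ Real.log n ∧ Real.log n ≤ v + 5),
      ((om Q n : ℝ) - WS Q) ^ 2 / (n : ℝ) ^ 2 ≤ C * WS Q * Real.exp (-v) := by
  refine ⟨3 * Real.exp 9, by positivity, fun v _ Q hQ hQv N => ?_⟩
  set N' : ℕ := ⌊Real.exp (v + 5)⌋₊ with hN'
  have hWS : 0 ≤ WS Q := Finset.sum_nonneg fun p _ => by positivity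
  -- the cardinality of `Q`
  have hsub : Q ⊆ Finset.Icc 1 N' := by
    intro p hp
    have hp1 : 1 ≤ p := (hQ p hp).one_lt.le
    have hp0 : (0 : ℝ) < p := by exact_mod_cast hp1
    rw [Finset.mem_Icc]
    refine ⟨hp1, Nat.le_floor ?_⟩
    calc (p : ℝ) = Real.exp (Real.log p) := (Real.exp_log hp0).symm
      _ ≤ Real.exp (v + 5) := Real.exp_le_exp.2 (by linarith [hQv p hp])
  have hcard : Q.card ≤ N' := by
    have h := Finset.card_le_card hsub
    rwa [Nat.card_Icc, Nat.add_sub_cancel] at h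
  have htk := Helper13.Om.turan_kubilius Q hQ N' hcard
  have hN'le : (N' : ℝ) ≤ Real.exp (v + 5) := Nat.floor_le (Real.exp_pos _).le
  -- compare the two sums
  have h1 : ∑ n ∈ (Finset.Icc 1 N).filter
      (fun n : ℕ => v - 2 ≤ Real.log n ∧ Real.log n ≤ v + 5),
      ((om Q n : ℝ) - WS Q) ^ 2 / (n : ℝ) ^ 2 ≤
      ∑ n ∈ (Finset.Icc 1 N).filter
      (fun n : ℕ => v - 2 ≤ Real.log n ∧ Real.log n ≤ v + 5),
        Real.exp (-(2 * (v - 2))) * ((om Q n : ℝ) - WS Q) ^ 2 := by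
    refine Finset.sum_le_sum fun n hn => ?_
    rw [Finset.mem_filter, Finset.mem_Icc] at hn
    have hn0 : (0 : ℝ) < n := by exact_mod_cast hn.1.1
    have h2 : Real.exp (v - 2) ≤ n := by
      calc Real.exp (v - 2) ≤ Real.exp (Real.log n) := Real.exp_le_exp.2 hn.2.1
        _ = n := Real.exp_log hn0
    have h3 : Real.exp (2 * (v - 2)) ≤ (n : ℝ) ^ 2 := by
      have h4 : Real.exp (2 * (v - 2)) = Real.exp (v - 2) ^ 2 := by
        rw [← Real.exp_nat_mul]
        norm_num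
      rw [h4]
      exact pow_le_pow_left₀ (Real.exp_pos _).le h2 2
    rw [div_eq_mul_inv, mul_comm]
    refine mul_le_mul_of_nonneg_right ?_ (sq_nonneg _)
    rw [Real.exp_neg]
    exact inv_anti₀ (Real.exp_pos _) h3
  refine h1.trans ?_
  rw [← Finset.mul_sum]
  have h5 : ∑ n ∈ (Finset.Icc 1 N).filter
      (fun n : ℕ => v - 2 ≤ Real.log n ∧ Real.log n ≤ v + 5), ((om Q n : ℝ) - WS Q) ^ 2 ≤
      ∑ n ∈ Finset.Icc 1 N', ((Helper13.Om.om Q n : ℝ) - ∑ p ∈ Q, (1 : ℝ) / p) ^ 2 := by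
    refine Finset.sum_le_sum_of_subset_of_nonneg ?_ fun n _ _ => sq_nonneg _
    intro n hn
    rw [Finset.mem_filter, Finset.mem_Icc] at hn
    have hn0 : (0 : ℝ) < n := by exact_mod_cast hn.1.1
    rw [Finset.mem_Icc]
    refine ⟨hn.1.1, Nat.le_floor ?_⟩
    calc (n : ℝ) = Real.exp (Real.log n) := (Real.exp_log hn0).symm
      _ ≤ Real.exp (v + 5) := Real.exp_le_exp.2 hn.2.2
  calc Real.exp (-(2 * (v - 2))) * ∑ n ∈ (Finset.Icc 1 N).filter
          (fun n : ℕ => v - 2 ≤ Real.log n ∧ Real.log n ≤ v + 5), ((om Q n : ℝ) - WS Q) ^ 2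
      ≤ Real.exp (-(2 * (v - 2))) * (3 * WS Q * Real.exp (v + 5)) := by
        refine mul_le_mul_of_nonneg_left (h5.trans (htk.trans ?_)) (Real.exp_pos _).le
        exact mul_le_mul_of_nonneg_left hN'le (by positivity)
    _ = 3 * Real.exp 9 * WS Q * Real.exp (-v) := by
        have h6 : Real.exp (-(2 * (v - 2))) * Real.exp (v + 5) = Real.exp 9 * Real.exp (-v) := by
          rw [← Real.exp_add, ← Real.exp_add]
          congr 1
          ring
        calc Real.exp (-(2 * (v - 2))) * (3 * WS Q * Real.exp (v + 5))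
            = 3 * WS Q * (Real.exp (-(2 * (v - 2))) * Real.exp (v + 5)) := by ring
          _ = 3 * Real.exp 9 * WS Q * Real.exp (-v) := by rw [h6]; ring

end MRD
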