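import Mathlib
import Pool.Agent.Helper72.MRD.Defs
import Pool.Agent.Helper72.MRD.B01
import Pool.Agent.Helper72.MRD.B02
import Pool.Agent.Helper72.MRD.B03

set_option autoImplicit false

/-!
MRD-B05. The error coefficients of level `m` are small.

Let `W = WS (LP m) ≥ 1`, `f = fb b χ`. For `n ≥ 1`, `p` prime, `p ∣ n`:
`xc χ p * fb (up 1 b) χ (n/p) = f n` (`fb_mul`). So
`er m b χ v n = f n * (phi(log n - v) - (1/W) ∑_k ∑_{p ∈ slice m k, p ∣ n} phi(log n - v - (log p - k/m)))`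
and `0 < log p - k/m ≤ 1/m`. By `sum_slices` (for the sum of `1_{p ∣ n}`)
`∑_k ∑_{p ∈ slice, p ∣ n} 1 = om (LP m) n`. With the Lipschitz constant `C1` of `phi_deriv`
`‖er n‖ ≤ 2 (|1 - om/W| + (om/W) C1/m)`, and `er n = 0` unless `-1 < log n - v < 3 + 1/m`.
`(om/W)² ≤ 2 (1 - om/W)² + 2`. So `‖er n‖² ≤ C (1 - om/W)² + C / m²` on the block, and
`tk_block` (divided by `W²`) and `NN_le`-type mass bound (`∑ 1/n² ≤ C e^{-v}`) give the claim;
`log p ≤ m² ≤ v` for `p ∈ LP m`.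
Then `mvt` with `B = e^{v+4}` gives the second statement.
-/

namespace MRD

open Finset MRP MeasureTheory

theorem er_eq {m : ℕ} (b : ℕ → ℝ) {q : ℕ} (χ : DirichletCharacter ℂ q) (v : ℝ) {n : ℕ}
    (hn : 1 ≤ n) :
    er m b χ v n = fb b χ n * (((phi (Real.log n - v) - (1 / WS (LP m)) *
      ∑ k ∈ Finset.Ico (m ^ 2) (m ^ 3), ∑ p ∈ (slice m k).filter (fun p => p ∣ n),
        phi (Real.log n - v - (Real.log p - (k : ℝ) / m)) : ℝ)) : ℂ) := by
  have hterm : ∀ k : ℕ, mulP (xc χ) (slice m k) (cut phi (v - (k : ℝ) / m) (fb (up 1 b) χ)) n =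
      fb b χ n * ((∑ p ∈ (slice m k).filter (fun p => p ∣ n),
        phi (Real.log n - v - (Real.log p - (k : ℝ) / m)) : ℝ) : ℂ) := by
    intro k
    unfold mulP
    rw [Complex.ofReal_sum, mul_sum]
    refine sum_congr rfl fun p hp => ?_
    rw [mem_filter, mem_slice] at hp
    obtain ⟨⟨hpp, _, _⟩, d, rfl⟩ := hp
    have hd : 1 ≤ d := by
      rcases Nat.eq_zero_or_pos d with h | h
      · subst h
        simp at hn
      · exact h
    have hp0 : (0 : ℝ) < p := by exact_mod_cast hpp.pos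
    have hd0 : (0 : ℝ) < d := by exact_mod_cast hd
    rw [Nat.mul_div_cancel_left d hpp.pos, fb_mul χ hpp hd]
    unfold cut xc
    have e : Real.log (d : ℝ) - (v - (k : ℝ) / m) =
        Real.log ((p * d : ℕ) : ℝ) - v - (Real.log p - (k : ℝ) / m) := by
      push_cast
      rw [Real.log_mul hp0.ne' hd0.ne']
      ring
    rw [e]
    ring
  unfold er
  rw [sum_congr rfl fun k _ => hterm k, ← mul_sum]
  unfold cut
  push_cast
  ring

theorem er_zero {m : ℕ} (hm : 1 ≤ m) (b : ℕ → ℝ) {q : ℕ} (χ : DirichletCharacter ℂ q) (v : ℝ)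
    {n : ℕ} (hn : 1 ≤ n) (h : Real.log n - v ≤ -1 ∨ 4 ≤ Real.log n - v) :
    er m b χ v n = 0 := by
  have hm0 : (0 : ℝ) < m := by exact_mod_cast hm
  rw [er_eq b χ v hn]
  have h1 : phi (Real.log n - v) = 0 := phi_eq_zero (by
    rcases h with h | h
    · exact Or.inl h
    · exact Or.inr (by linarith))
  have h2 : ∑ k ∈ Finset.Ico (m ^ 2) (m ^ 3), ∑ p ∈ (slice m k).filter (fun p => p ∣ n),
      phi (Real.log n - v - (Real.log p - (k : ℝ) / m)) = 0 := by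
    refine sum_eq_zero fun k _ => sum_eq_zero fun p hp => ?_
    rw [mem_filter, mem_slice] at hp
    obtain ⟨⟨_, hp1, hp2⟩, _⟩ := hp
    have h3 : ((k : ℝ) + 1) / m = (k : ℝ) / m + 1 / m := by ring
    have h4 : (1 : ℝ) / m ≤ 1 := by
      rw [div_le_one hm0]
      exact_mod_cast hm
    apply phi_eq_zero
    rcases h with h | h
    · left; linarith
    · right; linarith
  rw [h1, h2]
  simp

theorem er_bound {C1 : ℝ} (hC1 : 0 ≤ C1) (hL : ∀ x y, |phi x - phi y| ≤ C1 * |x - y|) {m : ℕ}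
    (hm : 1 ≤ m) (hW : 1 ≤ WS (LP m)) (b : ℕ → ℝ) (hb : ∀ k, |b k| ≤ 2) {q : ℕ}
    (χ : DirichletCharacter ℂ q) (v : ℝ) {n : ℕ} (hn : 1 ≤ n) :
    ‖er m b χ v n‖ ^ 2 ≤ (8 + 16 * C1 ^ 2) * (((om (LP m) n : ℝ) - WS (LP m)) ^ 2 / WS (LP m) ^ 2) +
      16 * C1 ^ 2 * (1 / (m : ℝ) ^ 2) := by
  have hm0 : (0 : ℝ) < m := by exact_mod_cast hm
  have hm1 : (1 : ℝ) ≤ m := by exact_mod_cast hm
  set W : ℝ := WS (LP m) with hWdef
  have hW0 : 0 < W := by linarith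
  rw [er_eq b χ v hn, norm_mul, Complex.norm_real, Real.norm_eq_abs, ← hWdef]
  set x : ℝ := Real.log n - v with hx
  have hom : ∑ k ∈ Finset.Ico (m ^ 2) (m ^ 3), (((slice m k).filter (fun p => p ∣ n)).card : ℝ) =
      (om (LP m) n : ℝ) := by
    have h1 := sum_slices m hm (fun p => if p ∣ n then (1 : ℂ) else 0)
    simp only [Finset.sum_boole] at h1
    unfold om
    exact_mod_cast h1
  set o : ℝ := (om (LP m) n : ℝ) with ho
  have ho0 : 0 ≤ o := by positivity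
  have hsum : |∑ k ∈ Finset.Ico (m ^ 2) (m ^ 3), ∑ p ∈ (slice m k).filter (fun p => p ∣ n),
        phi (x - (Real.log p - (k : ℝ) / m)) - o * phi x| ≤ o * (C1 / m) := by
    rw [← hom, sum_mul, sum_mul, ← sum_sub_distrib]
    refine (abs_sum_le_sum_abs _ _).trans (sum_le_sum fun k _ => ?_)
    rw [← nsmul_eq_mul, ← sum_const, ← sum_sub_distrib, ← nsmul_eq_mul, ← sum_const]
    refine (abs_sum_le_sum_abs _ _).trans (sum_le_sum fun p hp => ?_)
    rw [mem_filter, mem_slice] at hp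
    obtain ⟨⟨_, hp1, hp2⟩, _⟩ := hp
    have h3 : ((k : ℝ) + 1) / m = (k : ℝ) / m + 1 / m := by ring
    refine (hL _ _).trans ?_
    have h4 : |x - (Real.log p - (k : ℝ) / m) - x| ≤ 1 / m := by
      rw [abs_le]
      constructor <;> linarith
    calc C1 * |x - (Real.log p - (k : ℝ) / m) - x| ≤ C1 * (1 / m) :=
          mul_le_mul_of_nonneg_left h4 hC1
      _ = C1 / m := by ring
  set T : ℝ := ∑ k ∈ Finset.Ico (m ^ 2) (m ^ 3), ∑ p ∈ (slice m k).filter (fun p => p ∣ n),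
        phi (x - (Real.log p - (k : ℝ) / m)) with hT
  have hphi0 := phi_nonneg x
  have hphi1 := phi_le_one x
  set r : ℝ := o / W with hr
  have hr0 : 0 ≤ r := by positivity
  have hmain : |phi x - 1 / W * T| ≤ |1 - r| + r * (C1 / m) := by
    have e : phi x - 1 / W * T = phi x * (1 - r) - 1 / W * (T - o * phi x) := by
      rw [hr]
      field_simp
      ring
    rw [e]
    refine (abs_sub _ _).trans ?_
    have h1 : |phi x * (1 - r)| ≤ |1 - r| := by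
      rw [abs_mul, abs_of_nonneg hphi0]
      nlinarith [abs_nonneg (1 - r)]
    have h2 : |1 / W * (T - o * phi x)| ≤ r * (C1 / m) := by
      rw [abs_mul, abs_of_nonneg (by positivity : (0 : ℝ) ≤ 1 / W)]
      calc 1 / W * |T - o * phi x| ≤ 1 / W * (o * (C1 / m)) :=
            mul_le_mul_of_nonneg_left hsum (by positivity)
        _ = r * (C1 / m) := by rw [hr]; ring
    linarith
  have hf : ‖fb b χ n‖ ≤ 2 := norm_fb χ hb n
  have hpos : 0 ≤ |1 - r| + r * (C1 / m) := by positivity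
  have h1 : ‖fb b χ n‖ * |phi x - 1 / W * T| ≤ 2 * (|1 - r| + r * (C1 / m)) :=
    mul_le_mul hf hmain (abs_nonneg _) (by norm_num)
  have h2 : (‖fb b χ n‖ * |phi x - 1 / W * T|) ^ 2 ≤ (2 * (|1 - r| + r * (C1 / m))) ^ 2 :=
    pow_le_pow_left₀ (by positivity) h1 2
  refine h2.trans ?_
  have e1 : (o - W) ^ 2 / W ^ 2 = (1 - r) ^ 2 := by
    rw [hr]
    field_simp
    ring
  rw [e1]
  have h3 : (C1 / m) ^ 2 ≤ C1 ^ 2 := by
    rw [div_pow]
    apply div_le_self (by positivity)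
    nlinarith
  have h4 : (C1 / m) ^ 2 = C1 ^ 2 * (1 / (m : ℝ) ^ 2) := by ring
  have h5 : (2 * (|1 - r| + r * (C1 / m))) ^ 2 ≤ 8 * (1 - r) ^ 2 + 8 * (r ^ 2 * (C1 / m) ^ 2) := by
    have h6 : |1 - r| ^ 2 = (1 - r) ^ 2 := sq_abs _
    nlinarith [sq_nonneg (|1 - r| - r * (C1 / m))]
  have h6 : r ^ 2 ≤ 2 * (1 - r) ^ 2 + 2 := by nlinarith [sq_nonneg (r - 2)]
  have h7 : r ^ 2 * (C1 / m) ^ 2 ≤ (2 * (1 - r) ^ 2 + 2) * (C1 / m) ^ 2 :=
    mul_le_mul_of_nonneg_right h6 (by positivity)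
  have h8 : (2 * (1 - r) ^ 2) * (C1 / m) ^ 2 ≤ (2 * (1 - r) ^ 2) * C1 ^ 2 :=
    mul_le_mul_of_nonneg_left h3 (by positivity)
  rw [← mul_assoc] at *
  nlinarith

theorem NN_er : ∃ C : ℝ, 0 < C ∧ ∀ m : ℕ, 2 ≤ m → 1 ≤ WS (LP m) → ∀ v : ℝ, (m : ℝ) ^ 2 ≤ v →
    ∀ b : ℕ → ℝ, (∀ k, |b k| ≤ 2) → ∀ (q : ℕ) (χ : DirichletCharacter ℂ q), ∀ N : ℕ,
    NN N (er m b χ v) ≤ C * Real.exp (-v) * (1 / WS (LP m) + 1 / (m : ℝ) ^ 2) := by
  obtain ⟨C1, hC1, _, hL, _⟩ := phi_deriv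
  obtain ⟨C2, hC2, htk⟩ := tk_block
  obtain ⟨C3, hC3, hNN⟩ := NN_le
  refine ⟨(8 + 16 * C1 ^ 2) * C2 + 16 * C1 ^ 2 * C3, by positivity, ?_⟩
  intro m hm hW v hv b hb q χ N
  classical
  have hm0 : (0 : ℝ) < m := by exact_mod_cast (by omega : 0 < m)
  have hW0 : 0 < WS (LP m) := by linarith
  have hv0 : 0 ≤ v := le_trans (by positivity) hv
  set Bk := (Finset.Icc 1 N).filter (fun n : ℕ => v - 2 ≤ Real.log n ∧ Real.log n ≤ v + 5)
    with hBk
  have h1 : NN N (er m b χ v) = ∑ n ∈ Bk, ‖er m b χ v n‖ ^ 2 / (n : ℝ) ^ 2 := by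
    unfold NN
    rw [hBk, sum_filter_of_ne]
    intro n hn hne
    rw [mem_Icc] at hn
    by_contra hcon
    apply hne
    rw [er_zero (by omega) b χ v hn.1]
    · simp
    · by_contra h2
      push Not at h2
      exact hcon ⟨by linarith [h2.1], by linarith [h2.2]⟩
  have h2 : ∑ n ∈ Bk, ‖er m b χ v n‖ ^ 2 / (n : ℝ) ^ 2 ≤
      ∑ n ∈ Bk, ((8 + 16 * C1 ^ 2) / WS (LP m) ^ 2 *
        (((om (LP m) n : ℝ) - WS (LP m)) ^ 2 / (n : ℝ) ^ 2) +
        16 * C1 ^ 2 * (1 / (m : ℝ) ^ 2) * (1 / (n : ℝ) ^ 2)) := by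
    refine sum_le_sum fun n hn => ?_
    rw [hBk, mem_filter, mem_Icc] at hn
    have h3 := er_bound (by linarith) hL (by omega : 1 ≤ m) hW b hb χ v hn.1.1
    have hn0 : (0 : ℝ) < (n : ℝ) := by exact_mod_cast hn.1.1
    calc ‖er m b χ v n‖ ^ 2 / (n : ℝ) ^ 2
        ≤ ((8 + 16 * C1 ^ 2) * (((om (LP m) n : ℝ) - WS (LP m)) ^ 2 / WS (LP m) ^ 2) +
      16 * C1 ^ 2 * (1 / (m : ℝ) ^ 2)) / (n : ℝ) ^ 2 :=
          div_le_div_of_nonneg_right h3 (by positivity)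
      _ = _ := by
          field_simp
  rw [h1]
  refine h2.trans ?_
  rw [sum_add_distrib, ← mul_sum, ← mul_sum]
  have h3 := htk v hv0 (LP m) (fun p hp => (mem_LP.1 hp).1)
    (fun p hp => (mem_LP.1 hp).2.2.trans hv) N
  rw [← hBk] at h3
  have h4 : ∑ n ∈ Bk, 1 / (n : ℝ) ^ 2 ≤ C3 * Real.exp (-v) := by
    have h5 := hNN v hv0 N (fun n => if v - 2 ≤ Real.log n then 1 else 0) 1 (by norm_num)
      (by
        intro n _
        split_ifs <;> simp)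
      (by
        intro n _ hne
        by_contra h6
        exact hne (if_neg h6))
    rw [one_pow, mul_one] at h5
    refine le_trans ?_ h5
    unfold NN
    calc ∑ n ∈ Bk, 1 / (n : ℝ) ^ 2
        = ∑ n ∈ Bk, ‖(if v - 2 ≤ Real.log n then (1 : ℂ) else 0)‖ ^ 2 / (n : ℝ) ^ 2 := by
          refine sum_congr rfl fun n hn => ?_
          rw [hBk, mem_filter] at hn
          rw [if_pos hn.2.1]
          simp
      _ ≤ _ := by
          refine sum_le_sum_of_subset_of_nonneg (filter_subset _ _) fun n _ _ => by positivity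
  have hexp : 0 < Real.exp (-v) := Real.exp_pos _
  have h5 : (8 + 16 * C1 ^ 2) / WS (LP m) ^ 2 *
      ∑ n ∈ Bk, ((om (LP m) n : ℝ) - WS (LP m)) ^ 2 / (n : ℝ) ^ 2 ≤
      (8 + 16 * C1 ^ 2) * C2 * Real.exp (-v) * (1 / WS (LP m)) := by
    calc _ ≤ (8 + 16 * C1 ^ 2) / WS (LP m) ^ 2 * (C2 * WS (LP m) * Real.exp (-v)) :=
          mul_le_mul_of_nonneg_left h3 (by positivity)
      _ = _ := by
          field_simp
  have h6 : 16 * C1 ^ 2 * (1 / (m : ℝ) ^ 2) * ∑ n ∈ Bk, 1 / (n : ℝ) ^ 2 ≤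
      16 * C1 ^ 2 * C3 * Real.exp (-v) * (1 / (m : ℝ) ^ 2) := by
    calc _ ≤ 16 * C1 ^ 2 * (1 / (m : ℝ) ^ 2) * (C3 * Real.exp (-v)) :=
          mul_le_mul_of_nonneg_left h4 (by positivity)
      _ = _ := by ring
  have h7 : 0 ≤ (8 + 16 * C1 ^ 2) * C2 * Real.exp (-v) * (1 / (m : ℝ) ^ 2) := by positivity
  have h8 : 0 ≤ 16 * C1 ^ 2 * C3 * Real.exp (-v) * (1 / WS (LP m)) := by positivity
  nlinarith

theorem mean_er : ∃ C : ℝ, 0 < C ∧ ∀ m : ℕ, 2 ≤ m → 1 ≤ WS (LP m) → ∀ v : ℝ,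
    (m : ℝ) ^ 2 ≤ v → ∀ b : ℕ → ℝ, (∀ k, |b k| ≤ 2) → ∀ (q : ℕ) (χ : DirichletCharacter ℂ q),
    ∀ N : ℕ, ∀ η : ℝ, 0 < η → 1 / η ≤ Real.exp v →
    ∫ t : ℝ, ‖DP N (er m b χ v) t‖ ^ 2 * wt η t ≤
      C * (1 / WS (LP m) + 1 / (m : ℝ) ^ 2) := by
  obtain ⟨C, hC, h⟩ := NN_er
  refine ⟨10 * (1 + Real.exp 4) * C, by positivity, ?_⟩
  intro m hm hW v hv b hb q χ N η hη hηv
  have h1 := mvt η (Real.exp (v + 4)) hη (Real.exp_pos _).le N (er m b χ v) (by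
    intro n hn hne
    rw [mem_Icc] at hn
    have hn0 : (0 : ℝ) < (n : ℝ) := by exact_mod_cast hn.1
    by_contra hcon
    push Not at hcon
    apply hne
    apply er_zero (by omega) b χ v hn.1
    right
    have h2 := Real.log_le_log (Real.exp_pos _) hcon.le
    rw [Real.log_exp] at h2
    linarith)
  refine h1.trans ?_
  have h2 := h m hm hW v hv b hb q χ N
  have hW0 : 0 < WS (LP m) := by linarith
  have hm0 : (0 : ℝ) < m := by exact_mod_cast (by omega : 0 < m)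
  have h3 : 10 * (1 / η + Real.exp (v + 4)) ≤ 10 * (1 + Real.exp 4) * Real.exp v := by
    rw [Real.exp_add]
    nlinarith
  have h4 : 0 ≤ 10 * (1 / η + Real.exp (v + 4)) := by positivity
  calc 10 * (1 / η + Real.exp (v + 4)) * NN N (er m b χ v)
      ≤ 10 * (1 / η + Real.exp (v + 4)) *
        (C * Real.exp (-v) * (1 / WS (LP m) + 1 / (m : ℝ) ^ 2)) :=
        mul_le_mul_of_nonneg_left h2 h4
    _ ≤ 10 * (1 + Real.exp 4) * Real.exp v *
        (C * Real.exp (-v) * (1 / WS (LP m) + 1 / (m : ℝ) ^ 2)) :=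
        mul_le_mul_of_nonneg_right h3 (by positivity)
    _ = 10 * (1 + Real.exp 4) * C * (1 / WS (LP m) + 1 / (m : ℝ) ^ 2) *
        (Real.exp v * Real.exp (-v)) := by ring
    _ = _ := by
        rw [← Real.exp_add, add_neg_cancel, Real.exp_zero, mul_one]

end MRD
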