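import Mathlib
import Pool.Agent.Helper72.MRD.Defs
import Pool.Agent.Helper16.UB.Mert
import Pool.Agent.Helper72.MRD.B03

set_option autoImplicit false

/-!
MRD-D01. Mertens. `Helper16.UB.Mert` has `exists_W_le` and `W_ge`:
`log log n - 1 ≤ ∑_{p ≤ n} 1/p ≤ log log n + C` for `n ≥ 2`.
* `WS_range`: subtract. (`log ⌊x⌋₊` versus `log x`: for `x ≥ 2`, `log log ⌊y⌋₊ ≥ log log y - 2` as
  `⌊y⌋₊ ≥ y/2`, `⌊y⌋₊ ≥ 2`, and `log log ⌊x⌋₊ ≤ log log x`.)
* `WS_LP`: with `x = e^m`, `y = e^{m²}` the primes of `(⌊x⌋₊, ⌊y⌋₊]` are `LP m`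
  (`p > ⌊x⌋₊ ↔ p > x` for integers `p`; `log p > m ↔ p > e^m`), `log(log y/log x) = log m`, so
  `WS (LP m) ≥ log m - C ≥ (log m)/2 ≥ 1` for large `m`.
-/

namespace MRD

open Finset MRP MeasureTheory

private lemma loglog_floor {y : ℝ} (hy : 2 ≤ y) :
    2 ≤ ⌊y⌋₊ ∧ Real.log (Real.log y) ≤ Real.log (Real.log ⌊y⌋₊) + 1 := by
  have hM : 2 ≤ ⌊y⌋₊ := Nat.le_floor (by exact_mod_cast hy)
  refine ⟨hM, ?_⟩
  have hMR : (2 : ℝ) ≤ (⌊y⌋₊ : ℝ) := by exact_mod_cast hM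
  have hlt : y < (⌊y⌋₊ : ℝ) + 1 := Nat.lt_floor_add_one y
  have hsq : y ≤ (⌊y⌋₊ : ℝ) ^ 2 := by nlinarith
  have hlM : 0 < Real.log (⌊y⌋₊ : ℝ) := Real.log_pos (by linarith)
  have hly : 0 < Real.log y := Real.log_pos (by linarith)
  have h1 : Real.log y ≤ 2 * Real.log (⌊y⌋₊ : ℝ) := by
    have := Real.log_le_log (by linarith) hsq
    rwa [Real.log_pow] at this
  have h2 : Real.log (Real.log y) ≤ Real.log 2 + Real.log (Real.log (⌊y⌋₊ : ℝ)) := by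
    rw [← Real.log_mul two_ne_zero hlM.ne']
    exact Real.log_le_log hly h1
  have h3 : Real.log 2 ≤ 1 := by
    have := Real.log_two_lt_d9
    linarith
  linarith

private lemma loglog_floor_le {x : ℝ} (hx : 2 ≤ x) :
    Real.log (Real.log ⌊x⌋₊) ≤ Real.log (Real.log x) := by
  have hM : 2 ≤ ⌊x⌋₊ := Nat.le_floor (by exact_mod_cast hx)
  have hMR : (2 : ℝ) ≤ (⌊x⌋₊ : ℝ) := by exact_mod_cast hM
  have hle : (⌊x⌋₊ : ℝ) ≤ x := Nat.floor_le (by linarith)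
  have hlM : 0 < Real.log (⌊x⌋₊ : ℝ) := Real.log_pos (by linarith)
  exact Real.log_le_log hlM (Real.log_le_log (by linarith) hle)

private lemma WS_diff {N M : ℕ} (h : N ≤ M) :
    WS ((Finset.Ioc N M).filter Nat.Prime) =
      Pool.Agent.Helper16.UB.W M - Pool.Agent.Helper16.UB.W N := by
  have hu : Pool.Agent.Helper16.UB.PL M =
      Pool.Agent.Helper16.UB.PL N ∪ (Finset.Ioc N M).filter Nat.Prime := by
    ext p
    rw [mem_union, Pool.Agent.Helper16.UB.mem_PL, Pool.Agent.Helper16.UB.mem_PL, mem_filter,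
      mem_Ioc]
    constructor
    · rintro ⟨h1, h2⟩
      by_cases h3 : p ≤ N
      · exact Or.inl ⟨h3, h2⟩
      · exact Or.inr ⟨⟨not_le.mp h3, h1⟩, h2⟩
    · rintro (⟨h1, h2⟩ | ⟨⟨_, h1⟩, h2⟩)
      · exact ⟨h1.trans h, h2⟩
      · exact ⟨h1, h2⟩
  have hd : Disjoint (Pool.Agent.Helper16.UB.PL N) ((Finset.Ioc N M).filter Nat.Prime) := by
    rw [Finset.disjoint_left]
    intro p hp hp'
    rw [Pool.Agent.Helper16.UB.mem_PL] at hp
    rw [mem_filter, mem_Ioc] at hp'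
    omega
  unfold Pool.Agent.Helper16.UB.W WS
  rw [hu, sum_union hd]
  ring

theorem WS_range : ∃ C : ℝ, 0 < C ∧ ∀ x y : ℝ, 2 ≤ x → x ≤ y →
    Real.log (Real.log y / Real.log x) - C ≤
      WS ((Finset.Ioc ⌊x⌋₊ ⌊y⌋₊).filter Nat.Prime) := by
  obtain ⟨C0, hC0⟩ := Pool.Agent.Helper16.UB.exists_W_le
  refine ⟨|C0| + 3, by positivity, fun x y hx hxy => ?_⟩
  have hy : 2 ≤ y := hx.trans hxy
  rw [WS_diff (Nat.floor_le_floor hxy)]
  obtain ⟨hM, h1⟩ := loglog_floor hy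
  obtain ⟨hN, -⟩ := loglog_floor hx
  have h2 := loglog_floor_le hx
  have h3 := Pool.Agent.Helper16.UB.W_ge ⌊y⌋₊ hM
  have h4 := hC0 ⌊x⌋₊ hN
  have h5 : Real.log (Real.log y / Real.log x) =
      Real.log (Real.log y) - Real.log (Real.log x) :=
    Real.log_div (Real.log_pos (by linarith)).ne' (Real.log_pos (by linarith)).ne'
  have h6 := le_abs_self C0
  rw [h5]
  linarith

theorem WS_LP : ∃ m0 : ℕ, 2 ≤ m0 ∧ ∀ m : ℕ, m0 ≤ m →
    1 ≤ WS (LP m) ∧ 1 / WS (LP m) ≤ 2 / Real.log m := by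
  obtain ⟨C, hC, h⟩ := WS_range
  refine ⟨max 2 ⌈Real.exp (2 * C + 2)⌉₊, le_max_left _ _, fun m hm => ?_⟩
  have hm2 : 2 ≤ m := (le_max_left _ _).trans hm
  have hmR : (2 : ℝ) ≤ m := by exact_mod_cast hm2
  have hmE : Real.exp (2 * C + 2) ≤ m :=
    (Nat.le_ceil _).trans (by exact_mod_cast (le_max_right _ _).trans hm)
  have hlog : 2 * C + 2 ≤ Real.log m := by
    rw [← Real.log_exp (2 * C + 2)]
    exact Real.log_le_log (Real.exp_pos _) hmE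
  have hx : (2 : ℝ) ≤ Real.exp m := by
    have := Real.add_one_le_exp (m : ℝ)
    linarith
  have hxy : Real.exp (m : ℝ) ≤ Real.exp ((m : ℝ) ^ 2) := Real.exp_le_exp.mpr (by nlinarith)
  have hLP : LP m = (Finset.Ioc ⌊Real.exp (m : ℝ)⌋₊ ⌊Real.exp ((m : ℝ) ^ 2)⌋₊).filter Nat.Prime := by
    unfold LP
    ext p
    rw [mem_filter, mem_filter, mem_Icc, mem_Ioc]
    constructor
    · rintro ⟨⟨h1, h2⟩, h3, h4, h5⟩
      refine ⟨⟨?_, h2⟩, h3⟩
      have hp0 : (0 : ℝ) < p := by exact_mod_cast h3.pos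
      rw [Nat.floor_lt (Real.exp_pos _).le]
      rwa [Real.lt_log_iff_exp_lt hp0] at h4
    · rintro ⟨⟨h1, h2⟩, h3⟩
      have hp0 : (0 : ℝ) < p := by exact_mod_cast h3.pos
      refine ⟨⟨h3.one_lt.le, h2⟩, h3, ?_, ?_⟩
      · rw [Real.lt_log_iff_exp_lt hp0]
        exact (Nat.floor_lt (Real.exp_pos _).le).mp h1
      · rw [Real.log_le_iff_le_exp hp0]
        exact (Nat.le_floor_iff (Real.exp_pos _).le).mp h2
  have h1 := h _ _ hx hxy
  rw [← hLP, Real.log_exp, Real.log_exp] at h1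
  have h2 : (m : ℝ) ^ 2 / m = m := by
    field_simp
  rw [h2] at h1
  have h3 : Real.log m / 2 ≤ WS (LP m) := by linarith
  have h4 : 1 ≤ Real.log m / 2 := by linarith
  refine ⟨h4.trans h3, ?_⟩
  have h5 : 0 < Real.log m := by linarith
  calc 1 / WS (LP m) ≤ 1 / (Real.log m / 2) := one_div_le_one_div_of_le (by linarith) h3
    _ = 2 / Real.log m := by field_simp

end MRD
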