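import Mathlib
import Pool.Agent.Helper72.MRD.Defs
import Pool.Agent.Helper72.MRD.B01
import Pool.Agent.Helper72.MRD.B04
import Pool.Agent.Helper72.MRD.B05
import Pool.Agent.Helper72.MRD.D01

set_option autoImplicit false

/-!
MRD-D02. The first level.

Let `W = WS (LP m) ≥ 1`, `η = h e^{-v}` (`1/η = e^v / h ≤ e^v`), `f = fb b χ`, `g = fb (up 1 b) χ`
(`|up 1 b| ≤ 2`). By `decomp` and `‖a + b‖² ≤ 2‖a‖² + 2‖b‖²`, and Cauchy-Schwarz over the at most
`m³` slices, for `t ∈ Sm α (xc χ) m`: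
`‖FF f v t‖² ≤ 2 m³ ∑_k e^{-2 al k/m} ‖FF g (v - k/m) t‖² + 2 ‖DP er t‖²`.
`al α m ≥ α` for `m ≥ (16/α)²`, `k/m ≥ m`. `FF_mean` (with `φ = phi`, `A = 1`, at `v - k/m ≥ m² ≥ 0`):
`∫ ‖FF g (v-k/m)‖² wt ≤ C (e^{v}/h · e^{-(v - k/m)} + 1) = C (e^{k/m}/h + 1) ≤ 2C` because
`k/m ≤ m²` and `e^{m²} ≤ h`. `mean_er` for the error. So
`∫_{Sm} ≤ 4 C m⁶ e^{-2αm} + 2 C (1/W + 1/m²) ≤ C'/log m` for `m ≥ m0(α)` (`WS_LP`).
(Set integrals of nonnegative functions are bounded by the full integrals; `Sm` is closed, hence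
measurable: finite intersection of closed conditions, `QP` is continuous.)
-/

namespace MRD

open Finset MRP MeasureTheory

/-! ### bounded continuous functions -/

/-- bounded continuous functions -/
def Nice4 (F : ℝ → ℝ) : Prop := Continuous F ∧ ∃ K : ℝ, ∀ t, |F t| ≤ K

theorem Nice4.const (c : ℝ) : Nice4 (fun _ => c) := ⟨continuous_const, |c|, fun _ => le_rfl⟩

theorem Nice4.add {F G : ℝ → ℝ} (hF : Nice4 F) (hG : Nice4 G) : Nice4 (fun t => F t + G t) := by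
  obtain ⟨hF1, K, hK⟩ := hF
  obtain ⟨hG1, L, hL⟩ := hG
  exact ⟨hF1.add hG1, K + L, fun t => (abs_add_le _ _).trans (add_le_add (hK t) (hL t))⟩

theorem Nice4.mul {F G : ℝ → ℝ} (hF : Nice4 F) (hG : Nice4 G) : Nice4 (fun t => F t * G t) := by
  obtain ⟨hF1, K, hK⟩ := hF
  obtain ⟨hG1, L, hL⟩ := hG
  refine ⟨hF1.mul hG1, K * L, fun t => ?_⟩
  rw [abs_mul]
  exact mul_le_mul (hK t) (hL t) (abs_nonneg _) ((abs_nonneg _).trans (hK t))

theorem Nice4.pow {F : ℝ → ℝ} (hF : Nice4 F) (n : ℕ) : Nice4 (fun t => F t ^ n) := by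
  induction n with
  | zero => simpa using Nice4.const 1
  | succ n ih =>
    have h := ih.mul hF
    simpa [pow_succ] using h

theorem Nice4.sum {ι : Type*} (s : Finset ι) {F : ι → ℝ → ℝ} (hF : ∀ i ∈ s, Nice4 (F i)) :
    Nice4 (fun t => ∑ i ∈ s, F i t) := by
  classical
  induction s using Finset.induction_on with
  | empty => simpa using Nice4.const 0
  | insert a s has ih =>
    have h := (hF a (mem_insert_self a s)).add (ih fun i hi => hF i (mem_insert_of_mem hi))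
    simpa [sum_insert has] using h

theorem nice4_DP (N : ℕ) (a : ℕ → ℂ) : Nice4 (fun t => ‖DP N a t‖) := by
  refine ⟨(continuous_DP N a).norm, ∑ n ∈ Finset.Icc 1 N, ‖a n‖, fun t => ?_⟩
  rw [abs_of_nonneg (norm_nonneg _)]
  refine (norm_sum_le _ _).trans (sum_le_sum fun n hn => ?_)
  rw [mem_Icc] at hn
  rw [norm_mul, norm_cp hn.1]
  have h1 : (1 : ℝ) / n ≤ 1 := by
    have h2 : (1 : ℝ) ≤ n := by exact_mod_cast hn.1
    rw [div_le_one (by linarith)]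
    exact h2
  nlinarith [norm_nonneg (a n)]

theorem nice4_QP (x : ℕ → ℂ) (m k : ℕ) : Nice4 (fun t => ‖QP x (slice m k) t‖) := by
  constructor
  · refine Continuous.norm ?_
    unfold QP
    refine continuous_finsetSum _ fun n hn => ?_
    exact continuous_const.mul (continuous_cp (mem_slice.1 hn).1.one_lt.le)
  · refine ⟨∑ n ∈ slice m k, ‖x n‖, fun t => ?_⟩
    rw [abs_of_nonneg (norm_nonneg _)]
    refine (norm_sum_le _ _).trans (sum_le_sum fun n hn => ?_)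
    have hn1 : 1 ≤ n := (mem_slice.1 hn).1.one_lt.le
    rw [norm_mul, norm_cp hn1]
    have h1 : (1 : ℝ) / n ≤ 1 := by
      have h2 : (1 : ℝ) ≤ n := by exact_mod_cast hn1
      rw [div_le_one (by linarith)]
      exact h2
    nlinarith [norm_nonneg (x n)]

theorem integrable_wt4 {η : ℝ} (hη : 0 < η) : Integrable (wt η) := by
  have h := integrable_exp_neg_mul_sq (b := η ^ 2 / 2) (by positivity)
  refine h.congr (Filter.Eventually.of_forall fun t => ?_)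
  unfold wt
  congr 1
  ring_nf

theorem Nice4.integrable {F : ℝ → ℝ} (hF : Nice4 F) {η : ℝ} (hη : 0 < η) :
    Integrable (fun t => F t * wt η t) := by
  obtain ⟨hF1, K, hK⟩ := hF
  refine ((integrable_wt4 hη).const_mul K).mono' ?_ (Filter.Eventually.of_forall fun t => ?_)
  · exact (hF1.mul (continuous_wt η)).aestronglyMeasurable
  · rw [Real.norm_eq_abs, abs_mul, abs_of_pos (wt_pos η t)]
    exact mul_le_mul_of_nonneg_right (hK t) (wt_pos η t).le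

theorem nice4_le {S : Set ℝ} (hS : MeasurableSet S) {η : ℝ} (hη : 0 < η) {F G : ℝ → ℝ}
    (hF : Nice4 F) (hG : Nice4 G) (hG0 : ∀ t, 0 ≤ G t) (h : ∀ t ∈ S, F t ≤ G t) :
    ∫ t in S, F t * wt η t ≤ ∫ t, G t * wt η t := by
  refine (setIntegral_mono_on (hF.integrable hη).integrableOn (hG.integrable hη).integrableOn hS
    fun t ht => mul_le_mul_of_nonneg_right (h t ht) (wt_pos η t).le).trans ?_
  exact setIntegral_le_integral (hG.integrable hη)
    (Filter.Eventually.of_forall fun t => mul_nonneg (hG0 t) (wt_pos η t).le)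

theorem nice4_integral_add {η : ℝ} (hη : 0 < η) {F G : ℝ → ℝ} (hF : Nice4 F) (hG : Nice4 G) :
    ∫ t, (F t + G t) * wt η t = (∫ t, F t * wt η t) + ∫ t, G t * wt η t := by
  rw [← integral_add (hF.integrable hη) (hG.integrable hη)]
  congr 1
  funext t
  ring

theorem nice4_integral_mul (η c : ℝ) (F : ℝ → ℝ) :
    ∫ t, (c * F t) * wt η t = c * ∫ t, F t * wt η t := by
  rw [← integral_const_mul]
  congr 1
  funext t
  ring

theorem nice4_integral_sum {η : ℝ} (hη : 0 < η) {ι : Type*} (s : Finset ι) {F : ι → ℝ → ℝ}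
    (hF : ∀ i ∈ s, Nice4 (F i)) :
    ∫ t, (∑ i ∈ s, F i t) * wt η t = ∑ i ∈ s, ∫ t, F i t * wt η t := by
  rw [← integral_finset_sum s fun i hi => (hF i hi).integrable hη]
  congr 1
  funext t
  rw [sum_mul]

/-! ### the pointwise decomposition -/

theorem decomp_sq4 {m : ℕ} (hm : 1 ≤ m) (hW : 1 ≤ WS (LP m)) (v : ℝ) {N : ℕ}
    (hN : Real.exp (v + 4) ≤ N) (b : ℕ → ℝ) {q : ℕ} (χ : DirichletCharacter ℂ q) (t : ℝ) :
    ‖FF N phi (fb b χ) v t‖ ^ 2 ≤
      2 * (m : ℝ) ^ 3 * (∑ k ∈ Finset.Ico (m ^ 2) (m ^ 3), ‖QP (xc χ) (slice m k) t‖ ^ 2 *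
        ‖FF N phi (fb (up 1 b) χ) (v - (k : ℝ) / m) t‖ ^ 2) +
      2 * ‖DP N (er m b χ v) t‖ ^ 2 := by
  rw [decomp m hm v N hN b χ t]
  set W : ℝ := WS (LP m) with hWdef
  set E : ℂ := DP N (er m b χ v) t with hE
  have hW0 : 0 < W := by linarith
  have h1 : ‖(1 / ((W : ℝ) : ℂ)) * ∑ k ∈ Finset.Ico (m ^ 2) (m ^ 3),
        QP (xc χ) (slice m k) t * FF N phi (fb (up 1 b) χ) (v - (k : ℝ) / m) t‖ ≤
      ∑ k ∈ Finset.Ico (m ^ 2) (m ^ 3), ‖QP (xc χ) (slice m k) t‖ *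
        ‖FF N phi (fb (up 1 b) χ) (v - (k : ℝ) / m) t‖ := by
    rw [norm_mul, norm_div, norm_one, Complex.norm_real, Real.norm_of_nonneg hW0.le]
    have h2 : 1 / W ≤ 1 := by
      rw [div_le_one hW0]
      exact hW
    have h3 : ‖∑ k ∈ Finset.Ico (m ^ 2) (m ^ 3),
        QP (xc χ) (slice m k) t * FF N phi (fb (up 1 b) χ) (v - (k : ℝ) / m) t‖ ≤
        ∑ k ∈ Finset.Ico (m ^ 2) (m ^ 3), ‖QP (xc χ) (slice m k) t‖ *
          ‖FF N phi (fb (up 1 b) χ) (v - (k : ℝ) / m) t‖ := by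
      refine (norm_sum_le _ _).trans (le_of_eq ?_)
      exact sum_congr rfl fun k _ => norm_mul _ _
    calc _ ≤ 1 * ‖∑ k ∈ Finset.Ico (m ^ 2) (m ^ 3),
        QP (xc χ) (slice m k) t * FF N phi (fb (up 1 b) χ) (v - (k : ℝ) / m) t‖ :=
          mul_le_mul_of_nonneg_right h2 (norm_nonneg _)
      _ ≤ _ := by rw [one_mul]; exact h3
  have h4 : (∑ k ∈ Finset.Ico (m ^ 2) (m ^ 3), ‖QP (xc χ) (slice m k) t‖ *
        ‖FF N phi (fb (up 1 b) χ) (v - (k : ℝ) / m) t‖) ^ 2 ≤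
      (m : ℝ) ^ 3 * ∑ k ∈ Finset.Ico (m ^ 2) (m ^ 3), ‖QP (xc χ) (slice m k) t‖ ^ 2 *
        ‖FF N phi (fb (up 1 b) χ) (v - (k : ℝ) / m) t‖ ^ 2 := by
    refine (sq_sum_le_card_mul_sum_sq).trans ?_
    have h5 : (((Finset.Ico (m ^ 2) (m ^ 3)).card : ℕ) : ℝ) ≤ (m : ℝ) ^ 3 := by
      rw [Nat.card_Ico]
      have : m ^ 3 - m ^ 2 ≤ m ^ 3 := Nat.sub_le _ _
      exact_mod_cast this
    simp only [mul_pow]
    exact mul_le_mul_of_nonneg_right h5 (sum_nonneg fun k _ => by positivity)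
  have h6 := norm_add_le ((1 / ((W : ℝ) : ℂ)) * ∑ k ∈ Finset.Ico (m ^ 2) (m ^ 3),
        QP (xc χ) (slice m k) t * FF N phi (fb (up 1 b) χ) (v - (k : ℝ) / m) t) E
  have h7 := h6.trans (add_le_add_left h1 _)
  have h8 := pow_le_pow_left₀ (norm_nonneg _) h7 2
  refine h8.trans ?_
  set A : ℝ := ∑ k ∈ Finset.Ico (m ^ 2) (m ^ 3), ‖QP (xc χ) (slice m k) t‖ *
        ‖FF N phi (fb (up 1 b) χ) (v - (k : ℝ) / m) t‖ with hA
  nlinarith [sq_nonneg (A - ‖E‖)]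

theorem isClosed_Sm (α : ℝ) (x : ℕ → ℂ) (m : ℕ) : IsClosed (Sm α x m) := by
  have h : Sm α x m = ⋂ k ∈ Finset.Ico (m ^ 2) (m ^ 3),
      {t | ‖QP x (slice m k) t‖ ≤ Real.exp (-(al α m * ((k : ℝ) / m)))} := by
    ext t
    simp [Sm]
  rw [h]
  exact isClosed_biInter fun k _ => isClosed_le (nice4_QP x m k).1 continuous_const

theorem log_tail4 (a : ℝ) (ha : 0 < a) : ∃ m0 : ℕ, 2 ≤ m0 ∧ ∀ m : ℕ, m0 ≤ m →
    (m : ℝ) ^ 6 * Real.exp (-(2 * a * m)) ≤ 1 / Real.log m := by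
  have h1 := Real.tendsto_pow_mul_exp_neg_atTop_nhds_zero 7
  have h2 : Filter.Tendsto (fun m : ℕ => 2 * a * (m : ℝ)) Filter.atTop Filter.atTop :=
    tendsto_natCast_atTop_atTop.const_mul_atTop (by positivity)
  have h3 := h1.comp h2
  have h4 := h3.eventually (gt_mem_nhds (show (0 : ℝ) < (2 * a) ^ 7 by positivity))
  obtain ⟨m0, hm0⟩ := Filter.eventually_atTop.1 h4
  refine ⟨max m0 2, le_max_right _ _, fun m hm => ?_⟩
  have h5 := hm0 m (le_trans (le_max_left _ _) hm)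
  have hm2 : 2 ≤ m := le_trans (le_max_right _ _) hm
  have hm2' : (2 : ℝ) ≤ m := by exact_mod_cast hm2
  have hlog : 0 < Real.log m := Real.log_pos (by linarith)
  have hlog2 : Real.log m ≤ m := (Real.log_le_sub_one_of_pos (by linarith)).trans (by linarith)
  simp only [Function.comp] at h5
  rw [mul_pow] at h5
  have h6 : (m : ℝ) ^ 7 * Real.exp (-(2 * a * m)) ≤ 1 := by
    have h7 : (0 : ℝ) < (2 * a) ^ 7 := by positivity
    have h8 : (2 * a) ^ 7 * ((m : ℝ) ^ 7 * Real.exp (-(2 * a * m))) < (2 * a) ^ 7 * 1 := by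
      rw [mul_one, ← mul_assoc]
      exact h5
    exact (lt_of_mul_lt_mul_left h8 h7.le).le
  rw [le_div_iff₀ hlog]
  calc (m : ℝ) ^ 6 * Real.exp (-(2 * a * m)) * Real.log m
      ≤ (m : ℝ) ^ 6 * Real.exp (-(2 * a * m)) * m :=
        mul_le_mul_of_nonneg_left hlog2 (by positivity)
    _ = (m : ℝ) ^ 7 * Real.exp (-(2 * a * m)) := by ring
    _ ≤ 1 := h6

theorem err_level4 {m : ℕ} (hm : 2 ≤ m) (h : 1 / WS (LP m) ≤ 2 / Real.log m) :
    1 / WS (LP m) + 1 / (m : ℝ) ^ 2 ≤ 3 / Real.log m := by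
  have hm2' : (2 : ℝ) ≤ m := by exact_mod_cast hm
  have hlog : 0 < Real.log m := Real.log_pos (by linarith)
  have hlog2 : Real.log m ≤ m := (Real.log_le_sub_one_of_pos (by linarith)).trans (by linarith)
  have h1 : 1 / (m : ℝ) ^ 2 ≤ 1 / Real.log m := by
    apply one_div_le_one_div_of_le hlog
    nlinarith
  have h2 : 3 / Real.log m = 2 / Real.log m + 1 / Real.log m := by ring
  linarith

theorem level_one (α : ℝ) (hα : 0 < α) (hα1 : α ≤ 1 / 2) : ∃ (C : ℝ) (m0 : ℕ), 0 < C ∧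
    ∀ m : ℕ, m0 ≤ m → ∀ h : ℝ, Real.exp ((m : ℝ) ^ 2) ≤ h → ∀ v : ℝ, 2 * (m : ℝ) ^ 2 ≤ v →
    h ≤ Real.exp v → ∀ b : ℕ → ℝ, (∀ k, |b k| ≤ 2) → ∀ (q : ℕ) (χ : DirichletCharacter ℂ q),
    ∀ N : ℕ, Real.exp (v + 4) ≤ N →
    ∫ t in Sm α (xc χ) m, ‖FF N phi (fb b χ) v t‖ ^ 2 * wt (h * Real.exp (-v)) t ≤
      C / Real.log m := by
  obtain ⟨C1, hC1, hFF⟩ := FF_mean
  obtain ⟨C2, hC2, her⟩ := mean_er
  obtain ⟨m1, hm1, hWS⟩ := WS_LP
  obtain ⟨m2, hm2, htail⟩ := log_tail4 α hα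
  refine ⟨4 * C1 + 6 * C2, max (max m1 m2) ⌈(16 / α) ^ 2⌉₊, by positivity, ?_⟩
  intro m hm h hh v hv hhv b hb q χ N hN
  have hmm1 : m1 ≤ m := le_trans (le_trans (le_max_left _ _) (le_max_left _ _)) hm
  have hmm2 : m2 ≤ m := le_trans (le_trans (le_max_right _ _) (le_max_left _ _)) hm
  have hmm3 : ⌈(16 / α) ^ 2⌉₊ ≤ m := le_trans (le_max_right _ _) hm
  have hm2' : 2 ≤ m := le_trans hm1 hmm1
  obtain ⟨hW, hW2⟩ := hWS m hmm1
  have hmR : (2 : ℝ) ≤ m := by exact_mod_cast hm2'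
  have hmR0 : (0 : ℝ) < m := by linarith
  have hh1 : 1 ≤ h := le_trans (Real.one_le_exp (by positivity)) hh
  have hh0 : 0 < h := by linarith
  have hη : 0 < h * Real.exp (-v) := by positivity
  have hη1 : 1 / (h * Real.exp (-v)) = Real.exp v / h := by
    rw [Real.exp_neg]
    field_simp
  have hη2 : 1 / (h * Real.exp (-v)) ≤ Real.exp v := by
    rw [hη1]
    exact div_le_self (Real.exp_pos _).le hh1
  have hal : α ≤ al α m := by
    unfold al
    have h1 : (16 / α) ^ 2 ≤ m := Nat.ceil_le.1 hmm3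
    have h2 : 16 / α ≤ Real.sqrt m := by
      rw [← Real.sqrt_sq (by positivity : (0 : ℝ) ≤ 16 / α)]
      exact Real.sqrt_le_sqrt h1
    have h3 : 0 < Real.sqrt m := Real.sqrt_pos.2 hmR0
    have h4 : 16 / Real.sqrt m ≤ α := by
      rw [div_le_iff₀ h3]
      rw [div_le_iff₀ hα] at h2
      linarith
    linarith
  have hk : ∀ k ∈ Finset.Ico (m ^ 2) (m ^ 3), (m : ℝ) ≤ (k : ℝ) / m ∧ (k : ℝ) / m ≤ (m : ℝ) ^ 2 := by
    intro k hk
    rw [mem_Ico] at hk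
    have h1 : ((m ^ 2 : ℕ) : ℝ) ≤ k := by exact_mod_cast hk.1
    have h2 : (k : ℝ) ≤ ((m ^ 3 : ℕ) : ℝ) := by exact_mod_cast hk.2.le
    push_cast at h1 h2
    constructor
    · rw [le_div_iff₀ hmR0]
      nlinarith
    · rw [div_le_iff₀ hmR0]
      nlinarith
  have hup : ∀ k, |up 1 b k| ≤ 2 := fun k => hb _
  -- the nice functions
  have hNG : ∀ k ∈ Finset.Ico (m ^ 2) (m ^ 3),
      Nice4 (fun t => ‖FF N phi (fb (up 1 b) χ) (v - (k : ℝ) / m) t‖ ^ 2) :=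
    fun k _ => (nice4_DP N _).pow 2
  have hNG2 : Nice4 (fun t => ∑ k ∈ Finset.Ico (m ^ 2) (m ^ 3),
      ‖FF N phi (fb (up 1 b) χ) (v - (k : ℝ) / m) t‖ ^ 2) := Nice4.sum _ hNG
  have hNE : Nice4 (fun t => ‖DP N (er m b χ v) t‖ ^ 2) := (nice4_DP N _).pow 2
  have hNF : Nice4 (fun t => ‖FF N phi (fb b χ) v t‖ ^ 2) := (nice4_DP N _).pow 2
  have hint := nice4_le (S := Sm α (xc χ) m) (isClosed_Sm α (xc χ) m).measurableSet hη hNF
    (G := fun t => (2 * (m : ℝ) ^ 3 * Real.exp (-(2 * α * m))) * (∑ k ∈ Finset.Ico (m ^ 2) (m ^ 3),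
      ‖FF N phi (fb (up 1 b) χ) (v - (k : ℝ) / m) t‖ ^ 2) + 2 * ‖DP N (er m b χ v) t‖ ^ 2)
    (((Nice4.const _).mul hNG2).add ((Nice4.const 2).mul hNE))
    (fun t => add_nonneg (mul_nonneg (by positivity) (sum_nonneg fun k _ => by positivity))
      (by positivity))
    (by
      intro t ht
      refine (decomp_sq4 (by omega) hW v hN b χ t).trans ?_
      have h1 : ∑ k ∈ Finset.Ico (m ^ 2) (m ^ 3), ‖QP (xc χ) (slice m k) t‖ ^ 2 *
          ‖FF N phi (fb (up 1 b) χ) (v - (k : ℝ) / m) t‖ ^ 2 ≤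
          Real.exp (-(2 * α * m)) * ∑ k ∈ Finset.Ico (m ^ 2) (m ^ 3),
          ‖FF N phi (fb (up 1 b) χ) (v - (k : ℝ) / m) t‖ ^ 2 := by
        rw [mul_sum]
        refine sum_le_sum fun k hk' => ?_
        apply mul_le_mul_of_nonneg_right _ (by positivity)
        have h2 := ht k hk'
        have h3 := pow_le_pow_left₀ (norm_nonneg _) h2 2
        refine h3.trans ?_
        rw [← Real.exp_nat_mul]
        apply Real.exp_le_exp.2
        have h4 := (hk k hk').1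
        push_cast
        have h5 : α * m ≤ al α m * ((k : ℝ) / m) :=
          mul_le_mul hal h4 hmR0.le (hα.le.trans hal)
        linarith
      have h2 : 0 ≤ 2 * (m : ℝ) ^ 3 := by positivity
      have h3 := mul_le_mul_of_nonneg_left h1 h2
      have h4 : 2 * (m : ℝ) ^ 3 * (Real.exp (-(2 * α * m)) * ∑ k ∈ Finset.Ico (m ^ 2) (m ^ 3),
          ‖FF N phi (fb (up 1 b) χ) (v - (k : ℝ) / m) t‖ ^ 2) =
          (2 * (m : ℝ) ^ 3 * Real.exp (-(2 * α * m))) * (∑ k ∈ Finset.Ico (m ^ 2) (m ^ 3),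
          ‖FF N phi (fb (up 1 b) χ) (v - (k : ℝ) / m) t‖ ^ 2) := by ring
      linarith)
  refine hint.trans ?_
  rw [nice4_integral_add hη ((Nice4.const _).mul hNG2) ((Nice4.const 2).mul hNE),
    nice4_integral_mul, nice4_integral_mul, nice4_integral_sum hη _ hNG]
  have hE := her m hm2' hW v (by nlinarith) b hb q χ N _ hη hη2
  have hE2 := mul_le_mul_of_nonneg_left (err_level4 hm2' hW2) hC2.le
  have hS : ∑ k ∈ Finset.Ico (m ^ 2) (m ^ 3), ∫ t,
      ‖FF N phi (fb (up 1 b) χ) (v - (k : ℝ) / m) t‖ ^ 2 * wt (h * Real.exp (-v)) t ≤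
      (m : ℝ) ^ 3 * (2 * C1) := by
    have h1 : ∀ k ∈ Finset.Ico (m ^ 2) (m ^ 3), ∫ t,
        ‖FF N phi (fb (up 1 b) χ) (v - (k : ℝ) / m) t‖ ^ 2 * wt (h * Real.exp (-v)) t ≤ 2 * C1 := by
      intro k hk'
      obtain ⟨hk1, hk2⟩ := hk k hk'
      have hv' : 0 ≤ v - (k : ℝ) / m := by nlinarith
      have h2 := hFF phi 1 (by norm_num)
        (fun x => by rw [abs_of_nonneg (phi_nonneg x)]; exact phi_le_one x)
        (fun x hx => phi_eq_zero (by
          rcases hx with hx | hx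
          · left; linarith
          · right; linarith))
        (fb (up 1 b) χ) (norm_fb χ hup) (v - (k : ℝ) / m) hv' _ hη N
        (le_trans (Real.exp_le_exp.2 (by
          have : 0 ≤ (k : ℝ) / m := by positivity
          linarith)) hN)
      refine h2.trans ?_
      have h3 : 1 / (h * Real.exp (-v)) * Real.exp (-(v - (k : ℝ) / m)) ≤ 1 := by
        rw [hη1]
        have h4 : Real.exp v / h * Real.exp (-(v - (k : ℝ) / m)) = Real.exp ((k : ℝ) / m) / h := by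
          rw [div_mul_eq_mul_div, ← Real.exp_add]
          congr 2
          ring
        rw [h4, div_le_one hh0]
        exact le_trans (Real.exp_le_exp.2 hk2) hh
      rw [one_pow, mul_one]
      nlinarith
    have h2 := sum_le_card_nsmul _ _ _ h1
    refine h2.trans ?_
    rw [nsmul_eq_mul]
    apply mul_le_mul_of_nonneg_right _ (by positivity)
    rw [Nat.card_Ico]
    have : m ^ 3 - m ^ 2 ≤ m ^ 3 := Nat.sub_le _ _
    exact_mod_cast this
  have hT := htail m hmm2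
  have h5 : (2 * (m : ℝ) ^ 3 * Real.exp (-(2 * α * m))) * ∑ k ∈ Finset.Ico (m ^ 2) (m ^ 3), ∫ t,
      ‖FF N phi (fb (up 1 b) χ) (v - (k : ℝ) / m) t‖ ^ 2 * wt (h * Real.exp (-v)) t ≤
      4 * C1 * (1 / Real.log m) := by
    calc _ ≤ (2 * (m : ℝ) ^ 3 * Real.exp (-(2 * α * m))) * ((m : ℝ) ^ 3 * (2 * C1)) :=
          mul_le_mul_of_nonneg_left hS (by positivity)
      _ = 4 * C1 * ((m : ℝ) ^ 6 * Real.exp (-(2 * α * m))) := by ring
      _ ≤ _ := mul_le_mul_of_nonneg_left hT (by positivity)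
  have h6 : (4 * C1 + 6 * C2) / Real.log m =
      4 * C1 * (1 / Real.log m) + 2 * (C2 * (3 / Real.log m)) := by ring
  rw [h6]
  linarith

end MRD
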