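import Mathlib
import Pool.Agent.Helper72.MRD.Defs
import Pool.Agent.Helper72.MRD.B03
import Pool.Agent.Helper72.MRD.C07
import Pool.Agent.Helper72.MRD.D02

set_option autoImplicit false

/-!
MRD-D06. The set of large values of the last level has small measure.

`T = e^{1.2V}`. For `k ∈ [m², m³)`, `κ = k/m ∈ [m, m²)`, let `A_k = {|t| ≤ T, ‖Q_k(t)‖ > e^{-al κ}}`,
`Q_k = QP x (slice m k)`; `al ≤ 2α`. With `ℓ = ⌈1.2V/κ⌉₊ ≥ 1`: on `A_k`,
`1 ≤ ‖Q_k^ℓ‖² e^{4ακℓ}`, and `1 ≤ e^{1/2} wt (1/T) t` for `|t| ≤ T`. So (`moment_one`, `η = 1/T`)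
`vol A_k ≤ e^{1/2} e^{4ακℓ} C (T + e^{κℓ+ℓ}) (3ℓ)^ℓ e^{-κℓ} ≤ C' e^{4α(1.2V + m²)} 2 e^ℓ (3ℓ)^ℓ`
because `1.2V ≤ κℓ ≤ 1.2V + κ`. `ℓ ≤ 1.2V/m + 1`, `m ≥ (log V)²/8`, so
`log(e^ℓ (3ℓ)^ℓ) ≤ (9.6V/(log V)² + 1)(2.1 + log V) ≤ αV` for large `V`, and `4αm² ≤ 4α√V ≤ αV`.
Sum over `k` (at most `m³ ≤ V`): `≤ 2C'V e^{6.8αV} ≤ e^{8αV}` for large `V`.
The complement of `Sm` in `[-T, T]` is the union of the `A_k`.
-/

namespace MRD

open Finset MRP MeasureTheory

/-- Chebyshev's inequality with the Gaussian weight -/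
private lemma d06_vol {F : ℝ → ℝ} (hF : Nice4 F) (hF0 : ∀ t, 0 ≤ F t) {T c : ℝ} (hT : 0 < T)
    (hc : 0 < c) {S : Set ℝ} (hS : MeasurableSet S) (hST : S ⊆ Set.Icc (-T) T)
    (h : ∀ t ∈ S, c ≤ F t) :
    volume.real S ≤ Real.exp (1 / 2) / c * ∫ t, F t * wt (1 / T) t := by
  have hη : 0 < 1 / T := by positivity
  have hfin : volume S < ⊤ := (measure_mono hST).trans_lt measure_Icc_lt_top
  have hint := hF.integrable hη
  have h1 : ∀ t ∈ S, (1 : ℝ) ≤ Real.exp (1 / 2) / c * (F t * wt (1 / T) t) := by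
    intro t ht
    have h2 := hST ht
    rw [Set.mem_Icc, ← abs_le] at h2
    have h3 : (1 / T * t) ^ 2 ≤ 1 := by
      rw [one_div, inv_mul_eq_div, div_pow, div_le_one (by positivity)]
      exact sq_le_sq' (by linarith [(abs_le.1 h2).1]) (abs_le.1 h2).2
    have h4 : Real.exp (-(1 / 2)) ≤ wt (1 / T) t := by
      unfold wt
      rw [Real.exp_le_exp]
      linarith
    have h5 : c * Real.exp (-(1 / 2)) ≤ F t * wt (1 / T) t :=
      mul_le_mul (h t ht) h4 (Real.exp_pos _).le (hF0 t)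
    calc (1 : ℝ) = Real.exp (1 / 2) / c * (c * Real.exp (-(1 / 2))) := by
          rw [Real.exp_neg]
          field_simp
      _ ≤ _ := mul_le_mul_of_nonneg_left h5 (by positivity)
  calc volume.real S = ∫ _ in S, (1 : ℝ) := by
        rw [setIntegral_const, smul_eq_mul, mul_one]
    _ ≤ ∫ t in S, Real.exp (1 / 2) / c * (F t * wt (1 / T) t) := by
        refine setIntegral_mono_on ?_ (hint.const_mul _).integrableOn hS h1
        exact integrableOn_const hfin.ne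
    _ ≤ ∫ t, Real.exp (1 / 2) / c * (F t * wt (1 / T) t) := by
        refine setIntegral_le_integral (hint.const_mul _) (Filter.Eventually.of_forall fun t => ?_)
        have := hF0 t
        have := (wt_pos (1 / T) t).le
        positivity
    _ = Real.exp (1 / 2) / c * ∫ t, F t * wt (1 / T) t := by
        rw [integral_const_mul]

/-- the final numerical estimate -/
private lemma d06_num (α C : ℝ) (hα : 0 < α) (hC : 0 < C) : ∃ V0 : ℝ, 1 ≤ V0 ∧ ∀ V : ℝ,
    V0 ≤ V → 16 ≤ V ∧ 2 ≤ Real.log V ∧ 40 / α ≤ Real.log V ∧ 4 * Real.log V ≤ α * V ∧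
      2 * Real.exp (1 / 2) * C * V ≤ Real.exp (6 / 5 * α * V) := by
  set V0 : ℝ := max (max 16 (Real.exp 2)) (max (Real.exp (40 / α))
    (max ((16 / α) ^ 2) (2 * Real.exp (1 / 2) * C / (18 / 25 * α ^ 2)))) with hV0
  refine ⟨V0, le_trans (by norm_num) ((le_max_left 16 _).trans (le_max_left _ _)), ?_⟩
  intro V hV
  have h1 : 16 ≤ V := ((le_max_left 16 _).trans (le_max_left _ _)).trans hV
  have h2 : Real.exp 2 ≤ V := ((le_max_right 16 _).trans (le_max_left _ _)).trans hV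
  have h3 : Real.exp (40 / α) ≤ V := ((le_max_left _ _).trans (le_max_right _ _)).trans hV
  have h4 : (16 / α) ^ 2 ≤ V :=
    ((le_max_left _ _).trans ((le_max_right _ _).trans (le_max_right _ _))).trans hV
  have h5 : 2 * Real.exp (1 / 2) * C / (18 / 25 * α ^ 2) ≤ V :=
    ((le_max_right _ _).trans ((le_max_right _ _).trans (le_max_right _ _))).trans hV
  have hV0' : 0 < V := by linarith
  have hs : Real.log V ≤ 2 * Real.sqrt V := by
    have e2 : Real.log V = 2 * Real.log (Real.sqrt V) := by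
      rw [Real.log_sqrt hV0'.le]
      ring
    have e3 := Real.log_le_sub_one_of_pos (Real.sqrt_pos.2 hV0')
    rw [e2]
    linarith
  refine ⟨h1, ?_, ?_, ?_, ?_⟩
  · rw [Real.le_log_iff_exp_le hV0']
    exact h2
  · rw [Real.le_log_iff_exp_le hV0']
    exact h3
  · have e1 : 16 / α ≤ Real.sqrt V := by
      rw [← Real.sqrt_sq (by positivity : (0 : ℝ) ≤ 16 / α)]
      exact Real.sqrt_le_sqrt h4
    rw [div_le_iff₀ hα] at e1
    have e2 : Real.sqrt V * Real.sqrt V = V := Real.mul_self_sqrt hV0'.le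
    have e3 : 0 ≤ Real.sqrt V := Real.sqrt_nonneg V
    have e4 : 16 * Real.sqrt V ≤ α * V := by nlinarith
    linarith
  · have e1 : (6 / 5 * α * V) ^ 2 / 2 ≤ Real.exp (6 / 5 * α * V) := by
      have := Real.quadratic_le_exp_of_nonneg (x := 6 / 5 * α * V) (by positivity)
      have h6 : 0 ≤ 6 / 5 * α * V := by positivity
      linarith
    rw [div_le_iff₀ (by positivity)] at h5
    have e2 : 2 * Real.exp (1 / 2) * C * V ≤ (V * (18 / 25 * α ^ 2)) * V :=
      mul_le_mul_of_nonneg_right h5 hV0'.le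
    have e3 : (V * (18 / 25 * α ^ 2)) * V = (6 / 5 * α * V) ^ 2 / 2 := by ring
    linarith

theorem large_measure (α : ℝ) (hα : 0 < α) (hα1 : α ≤ 1 / 2) : ∃ V0 : ℝ, 1 ≤ V0 ∧ ∀ V : ℝ,
    V0 ≤ V → ∀ m : ℕ, (Real.log V) ^ 2 / 8 ≤ m → (m : ℝ) ^ 2 ≤ Real.sqrt V → 2 ≤ m →
    ∀ x : ℕ → ℂ, (∀ p, ‖x p‖ ≤ 1) →
    volume.real (Set.Icc (-Real.exp (6 / 5 * V)) (Real.exp (6 / 5 * V)) \ Sm α x m) ≤
      Real.exp (8 * α * V) := by
  classical
  obtain ⟨C, hC, hmom⟩ := moment_one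
  obtain ⟨V0, hV01, hnum⟩ := d06_num α C hα hC
  refine ⟨V0, hV01, ?_⟩
  intro V hV m hm1 hm2 hm x hx
  obtain ⟨hV16, hL2, hLα, hLV, hfinal⟩ := hnum V hV
  have hV0 : 0 < V := by linarith
  have hmR : (2 : ℝ) ≤ m := by exact_mod_cast hm
  have hm0 : (0 : ℝ) < m := by linarith
  set T : ℝ := Real.exp (6 / 5 * V) with hT
  have hT0 : 0 < T := Real.exp_pos _
  set L : ℝ := Real.log V with hLdef
  have hL0 : 0 < L := by linarith
  -- the sets of large values
  set A : ℕ → Set ℝ := fun k => {t | t ∈ Set.Icc (-T) T ∧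
    Real.exp (-(al α m * ((k : ℝ) / m))) < ‖QP x (slice m k) t‖} with hA
  have hsub : Set.Icc (-T) T \ Sm α x m ⊆ ⋃ k ∈ Finset.Ico (m ^ 2) (m ^ 3), A k := by
    rintro t ⟨ht, hts⟩
    unfold Sm at hts
    rw [Set.mem_setOf_eq] at hts
    push Not at hts
    obtain ⟨k, hk, hlt⟩ := hts
    exact Set.mem_biUnion (Finset.mem_coe.2 hk) ⟨ht, hlt⟩
  have hmeas : ∀ k, MeasurableSet (A k) := by
    intro k
    have h1 : MeasurableSet {t : ℝ | Real.exp (-(al α m * ((k : ℝ) / m))) <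
        ‖QP x (slice m k) t‖} :=
      (isOpen_lt continuous_const (nice4_QP x m k).1).measurableSet
    exact measurableSet_Icc.inter h1
  -- the estimate for one set
  have hone : ∀ k ∈ Finset.Ico (m ^ 2) (m ^ 3), volume.real (A k) ≤
      2 * Real.exp (1 / 2) * C * Real.exp (34 / 5 * α * V) := by
    intro k hk
    rw [Finset.mem_Ico] at hk
    set κ : ℝ := (k : ℝ) / m with hκ
    have hk1 : (m : ℝ) ^ 2 ≤ k := by exact_mod_cast hk.1
    have hk2 : (k : ℝ) ≤ (m : ℝ) ^ 3 := by exact_mod_cast hk.2.le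
    have hκ1 : (m : ℝ) ≤ κ := by
      rw [hκ, le_div_iff₀ hm0]
      linarith [sq (m : ℝ)]
    have hκ2 : κ ≤ (m : ℝ) ^ 2 := by
      rw [hκ, div_le_iff₀ hm0]
      calc (k : ℝ) ≤ (m : ℝ) ^ 3 := hk2
        _ = (m : ℝ) ^ 2 * m := by ring
    have hκ0 : 0 < κ := by linarith
    set ℓ : ℕ := ⌈6 / 5 * V / κ⌉₊ with hℓ
    have hℓ1 : 1 ≤ ℓ := by
      rw [hℓ, Nat.one_le_iff_ne_zero, Ne, Nat.ceil_eq_zero, not_le]
      positivity
    have hℓge : 6 / 5 * V / κ ≤ ℓ := Nat.le_ceil _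
    have hℓlt : (ℓ : ℝ) < 6 / 5 * V / κ + 1 := Nat.ceil_lt_add_one (by positivity)
    have hℓR : (1 : ℝ) ≤ ℓ := by exact_mod_cast hℓ1
    have hκℓ1 : 6 / 5 * V ≤ κ * ℓ := by
      rw [div_le_iff₀ hκ0] at hℓge
      linarith
    have hκℓ2 : κ * ℓ ≤ 6 / 5 * V + κ := by
      have e1 : κ * ℓ ≤ κ * (6 / 5 * V / κ + 1) := mul_le_mul_of_nonneg_left hℓlt.le hκ0.le
      have e2 : κ * (6 / 5 * V / κ + 1) = 6 / 5 * V + κ := by
        field_simp
      linarith
    -- Chebyshev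
    have hnice : Nice4 (fun t => ‖QP x (slice m k) t ^ ℓ‖ ^ 2) := by
      have h1 := ((nice4_QP x m k).pow ℓ).pow 2
      simpa only [norm_pow] using h1
    have hal : al α m ≤ 2 * α := by
      unfold al
      have : 0 ≤ 16 / Real.sqrt m := by positivity
      linarith
    have hcheb := d06_vol (S := A k) hnice (fun t => by positivity) hT0
      (c := Real.exp (-(4 * α * (κ * ℓ)))) (Real.exp_pos _) (hmeas k) (fun t ht => ht.1)
      (fun t ht => by
        have h1 : Real.exp (-(2 * α * κ)) ≤ ‖QP x (slice m k) t‖ := by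
          refine le_trans ?_ ht.2.le
          rw [Real.exp_le_exp, neg_le_neg_iff]
          exact mul_le_mul_of_nonneg_right hal hκ0.le
        have h2 : Real.exp (-(4 * α * (κ * ℓ))) = (Real.exp (-(2 * α * κ)) ^ ℓ) ^ 2 := by
          rw [← pow_mul, ← Real.exp_nat_mul]
          congr 1
          push_cast
          ring
        rw [h2, norm_pow]
        exact pow_le_pow_left₀ (by positivity) (pow_le_pow_left₀ (Real.exp_pos _).le h1 _) _)
    have hmm := hmom m hm k hk.1 ℓ hℓ1 (1 / T) (by positivity) x hx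
    rw [one_div_one_div, ← hκ] at hmm
    -- `(T + e^(κℓ+ℓ)) e^(-κℓ) ≤ 2 e^ℓ`
    have hTe : (T + Real.exp (κ * ℓ + ℓ)) * Real.exp (-(κ * ℓ)) ≤ 2 * Real.exp ℓ := by
      rw [add_mul, hT, ← Real.exp_add, ← Real.exp_add]
      have e1 : κ * ℓ + ℓ + -(κ * ℓ) = (ℓ : ℝ) := by ring
      have e2 : Real.exp (6 / 5 * V + -(κ * ℓ)) ≤ Real.exp ℓ := by
        rw [Real.exp_le_exp]
        linarith
      rw [e1]
      linarith
    have h3ℓ : 0 < 3 * (ℓ : ℝ) := by positivity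
    have hexp : Real.exp ℓ * (3 * (ℓ : ℝ)) ^ ℓ ≤ Real.exp (α * V) := by
      have e1 : Real.exp ℓ * (3 * (ℓ : ℝ)) ^ ℓ = Real.exp (ℓ * (1 + Real.log (3 * ℓ))) := by
        rw [mul_add, mul_one, Real.exp_add, Real.exp_nat_mul, Real.exp_log h3ℓ]
      rw [e1, Real.exp_le_exp]
      have hℓV : (ℓ : ℝ) ≤ 6 / 5 * V / m + 1 := by
        have : 6 / 5 * V / κ ≤ 6 / 5 * V / m := div_le_div_of_nonneg_left (by positivity) hm0 hκ1
        linarith
      have hℓV2 : 3 * (ℓ : ℝ) ≤ 2 * V := by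
        have e3 : 6 / 5 * V / m ≤ 6 / 5 * V / 2 :=
          div_le_div_of_nonneg_left (by positivity) (by norm_num) hmR
        linarith
      have hlog : Real.log (3 * ℓ) ≤ 1 + L := by
        have e3 : Real.log (3 * ℓ) ≤ Real.log (2 * V) := Real.log_le_log h3ℓ hℓV2
        rw [Real.log_mul (by norm_num) hV0.ne'] at e3
        have e4 := Real.log_two_lt_d9
        linarith
      have hℓV3 : (ℓ : ℝ) ≤ 48 / 5 * V / L ^ 2 + 1 := by
        have e3 : 6 / 5 * V / m ≤ 6 / 5 * V / (L ^ 2 / 8) :=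
          div_le_div_of_nonneg_left (by positivity) (by positivity) hm1
        have e4 : 6 / 5 * V / (L ^ 2 / 8) = 48 / 5 * V / L ^ 2 := by
          field_simp
          ring
        linarith
      have e5 : (ℓ : ℝ) * (1 + Real.log (3 * ℓ)) ≤ (48 / 5 * V / L ^ 2 + 1) * (2 * L) := by
        refine mul_le_mul hℓV3 (by linarith) ?_ (by positivity)
        have : 0 ≤ Real.log (3 * ℓ) := Real.log_nonneg (by linarith)
        linarith
      have e6 : (48 / 5 * V / L ^ 2 + 1) * (2 * L) = 96 / 5 * V / L + 2 * L := by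
        field_simp
        ring
      have e7 : 96 / 5 * V / L ≤ α * V / 2 := by
        rw [div_le_iff₀ hα] at hLα
        rw [div_le_iff₀ hL0]
        nlinarith
      linarith
    have h4m : 4 * α * (κ * ℓ) ≤ 29 / 5 * α * V := by
      have e1 : 4 * Real.sqrt V ≤ V := by
        have e2 : Real.sqrt V * Real.sqrt V = V := Real.mul_self_sqrt hV0.le
        have e3 : 4 ≤ Real.sqrt V := by
          rw [show (4 : ℝ) = Real.sqrt 16 by
            rw [show (16 : ℝ) = 4 ^ 2 by norm_num, Real.sqrt_sq (by norm_num)]]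
          exact Real.sqrt_le_sqrt hV16
        nlinarith
      have e4 : κ * ℓ ≤ 6 / 5 * V + V / 4 := by linarith
      have e5 : 4 * α * (κ * ℓ) ≤ 4 * α * (6 / 5 * V + V / 4) :=
        mul_le_mul_of_nonneg_left e4 (by positivity)
      linarith
    calc volume.real (A k) ≤ Real.exp (1 / 2) / Real.exp (-(4 * α * (κ * ℓ))) *
          ∫ t, ‖QP x (slice m k) t ^ ℓ‖ ^ 2 * wt (1 / T) t := hcheb
      _ ≤ Real.exp (1 / 2) / Real.exp (-(4 * α * (κ * ℓ))) *
          (C * (T + Real.exp (κ * ℓ + ℓ)) * (3 * (ℓ : ℝ)) ^ ℓ * Real.exp (-(κ * ℓ))) :=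
        mul_le_mul_of_nonneg_left hmm (by positivity)
      _ = Real.exp (1 / 2) * Real.exp (4 * α * (κ * ℓ)) * C * (3 * (ℓ : ℝ)) ^ ℓ *
          ((T + Real.exp (κ * ℓ + ℓ)) * Real.exp (-(κ * ℓ))) := by
        rw [Real.exp_neg (4 * α * (κ * ℓ)), div_inv_eq_mul]
        ring
      _ ≤ Real.exp (1 / 2) * Real.exp (4 * α * (κ * ℓ)) * C * (3 * (ℓ : ℝ)) ^ ℓ *
          (2 * Real.exp ℓ) := mul_le_mul_of_nonneg_left hTe (by positivity)
      _ = 2 * Real.exp (1 / 2) * C * (Real.exp (4 * α * (κ * ℓ)) *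
          (Real.exp ℓ * (3 * (ℓ : ℝ)) ^ ℓ)) := by ring
      _ ≤ 2 * Real.exp (1 / 2) * C * (Real.exp (29 / 5 * α * V) * Real.exp (α * V)) := by
        refine mul_le_mul_of_nonneg_left ?_ (by positivity)
        refine mul_le_mul ?_ hexp (by positivity) (by positivity)
        rw [Real.exp_le_exp]
        exact h4m
      _ = 2 * Real.exp (1 / 2) * C * Real.exp (34 / 5 * α * V) := by
        rw [← Real.exp_add]
        congr 2
        ring
  -- the union
  have hfin : ∀ k, volume (A k) ≠ ⊤ := fun k =>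
    ((measure_mono (fun t ht => ht.1 : A k ⊆ Set.Icc (-T) T)).trans_lt measure_Icc_lt_top).ne
  have hUfin : volume (⋃ k ∈ Finset.Ico (m ^ 2) (m ^ 3), A k) ≠ ⊤ := by
    refine ((measure_mono (?_ : _ ⊆ Set.Icc (-T) T)).trans_lt measure_Icc_lt_top).ne
    exact Set.iUnion₂_subset fun k _ t ht => ht.1
  have hm4 : (m : ℝ) ^ 3 ≤ V := by
    have e1 : (m : ℝ) ^ 4 ≤ V := by
      have e2 := pow_le_pow_left₀ (by positivity) hm2 2
      rw [Real.sq_sqrt hV0.le, ← pow_mul] at e2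
      exact e2
    have e3 : (m : ℝ) ^ 3 ≤ (m : ℝ) ^ 4 := pow_le_pow_right₀ (by linarith) (by norm_num)
    linarith
  calc volume.real (Set.Icc (-T) T \ Sm α x m)
      ≤ volume.real (⋃ k ∈ Finset.Ico (m ^ 2) (m ^ 3), A k) := measureReal_mono hsub hUfin
    _ ≤ ∑ k ∈ Finset.Ico (m ^ 2) (m ^ 3), volume.real (A k) :=
        measureReal_biUnion_finset_le _ _
    _ ≤ ∑ _k ∈ Finset.Ico (m ^ 2) (m ^ 3), 2 * Real.exp (1 / 2) * C *
        Real.exp (34 / 5 * α * V) := Finset.sum_le_sum hone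
    _ ≤ V * (2 * Real.exp (1 / 2) * C * Real.exp (34 / 5 * α * V)) := by
        rw [Finset.sum_const, nsmul_eq_mul]
        refine mul_le_mul_of_nonneg_right ?_ (by positivity)
        rw [Nat.card_Ico]
        refine le_trans ?_ hm4
        exact_mod_cast Nat.sub_le _ _
    _ = (2 * Real.exp (1 / 2) * C * V) * Real.exp (34 / 5 * α * V) := by ring
    _ ≤ Real.exp (6 / 5 * α * V) * Real.exp (34 / 5 * α * V) :=
        mul_le_mul_of_nonneg_right hfinal (Real.exp_pos _).le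
    _ = Real.exp (8 * α * V) := by
        rw [← Real.exp_add]
        congr 1
        ring

end MRD
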