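import Mathlib
import Pool.Agent.Helper72.MRD.Defs

set_option autoImplicit false

/-!
MRD-D03. The numerical inequalities for the passage from level `m` to level `M = nxt m = 2^⌊√m⌋`.

All for `m ≥ m0(α)`. `√M ≥ 2 √m`, so `al α M - al α m = 16 (1/√m - 1/√M) ≥ 8/√m`;
`0 < al α m ≤ 1`. Let `κ = k/M ∈ [M, M²)`, `κ' = k'/m ∈ [m, m²)`, `ℓ = ⌈κ/κ'⌉₊ ≥ 1`,
`κ ≤ κ'ℓ ≤ κ + κ'`, `ℓ ≤ κ/m + 1 ≤ 2κ/m`, `ℓ ≤ κ ≤ M²`, `log M ≤ 0.7 √m`.
`-2 al(M) κ + 2 al(m) κ'ℓ ≤ -16 κ/√m + 2 m²`;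
`log((3ℓ)^ℓ e^ℓ) = ℓ (log 3 + 1 + log ℓ) ≤ (2κ/m)(2.1 + 1.4 √m) ≤ 3κ/√m`; `2m² ≤ 7 M/√m`.
Sum: `≤ -13 κ/√m + 7 M/√m ≤ -6 M/√m`.
Second inequality: `M = 2^⌊√m⌋` is larger than any power of `m` for large `m`.
-/

namespace MRD

open Finset MRP MeasureTheory

theorem two_pow_ge (n : ℕ) (hn : 30 ≤ n) : (n + 1) ^ 6 ≤ 2 ^ n := by
  induction n, hn using Nat.le_induction with
  | base => norm_num
  | succ n hn ih =>
    have h1 : (n + 1 + 1) * 10 ≤ 11 * (n + 1) := by omega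
    have h2 : ((n + 1 + 1) * 10) ^ 6 ≤ (11 * (n + 1)) ^ 6 := Nat.pow_le_pow_left h1 6
    rw [mul_pow, mul_pow] at h2
    have h3 : (2 : ℕ) ^ (n + 1) = 2 * 2 ^ n := by rw [pow_succ, mul_comm]
    rw [h3]
    have h4 : (11 : ℕ) ^ 6 = 1771561 := by norm_num
    have h5 : (10 : ℕ) ^ 6 = 1000000 := by norm_num
    rw [h4, h5] at h2
    omega

theorem nxt_ge (m : ℕ) (hm : 1000 ≤ m) : m ^ 3 ≤ nxt m := by
  unfold nxt
  have h1 : 30 ≤ Nat.sqrt m := by
    rw [Nat.le_sqrt]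
    omega
  have h2 := two_pow_ge _ h1
  have h3 : m ≤ (Nat.sqrt m + 1) ^ 2 := by
    have := Nat.lt_succ_sqrt m
    rw [Nat.succ_eq_add_one] at this
    nlinarith
  calc m ^ 3 ≤ ((Nat.sqrt m + 1) ^ 2) ^ 3 := Nat.pow_le_pow_left h3 3
    _ = (Nat.sqrt m + 1) ^ 6 := by rw [← pow_mul]
    _ ≤ _ := h2

theorem log_three_le : Real.log 3 ≤ 1.1 := by
  have h1 : Real.log 3 ≤ Real.log (Real.exp 1.1) := by
    apply Real.log_le_log (by norm_num)
    have h2 : Real.exp 1.1 = Real.exp 1 * Real.exp 0.1 := by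
      rw [← Real.exp_add]; norm_num
    have h3 := Real.exp_one_gt_d9
    have h4 : (1.1 : ℝ) + 0.005 ≤ Real.exp 0.1 := by
      have := Real.quadratic_le_exp_of_nonneg (x := 0.1) (by norm_num)
      linarith
    rw [h2]
    calc (3 : ℝ) ≤ 2.7182818283 * (1.1 + 0.005) := by norm_num
      _ ≤ Real.exp 1 * Real.exp 0.1 :=
        mul_le_mul h3.le h4 (by norm_num) (Real.exp_pos _).le
  rwa [Real.log_exp] at h1

theorem level_numeric (α : ℝ) (hα : 0 < α) (hα1 : α ≤ 1 / 2) : ∃ m0 : ℕ, 2 ≤ m0 ∧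
    ∀ m : ℕ, m0 ≤ m → m ≤ nxt m ∧ 2 * Real.log m ≤ Real.log (nxt m) ∧
    ((nxt m : ℕ) : ℝ) ^ 6 * (m : ℝ) ^ 3 * Real.exp (-(6 * ((nxt m : ℕ) : ℝ) / Real.sqrt m)) ≤
      1 / Real.log (nxt m) ∧
    ∀ k ∈ Finset.Ico ((nxt m) ^ 2) ((nxt m) ^ 3), ∀ k' ∈ Finset.Ico (m ^ 2) (m ^ 3),
      Real.exp (-(2 * (al α (nxt m) * ((k : ℝ) / ((nxt m : ℕ) : ℝ))))) *
        Real.exp (2 * (al α m * ((k' : ℝ) / m)) *
          (⌈((k : ℝ) / ((nxt m : ℕ) : ℝ)) / ((k' : ℝ) / m)⌉₊ : ℕ)) *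
        ((3 * ((⌈((k : ℝ) / ((nxt m : ℕ) : ℝ)) / ((k' : ℝ) / m)⌉₊ : ℕ) : ℝ)) ^
            (⌈((k : ℝ) / ((nxt m : ℕ) : ℝ)) / ((k' : ℝ) / m)⌉₊ : ℕ) *
          Real.exp ((⌈((k : ℝ) / ((nxt m : ℕ) : ℝ)) / ((k' : ℝ) / m)⌉₊ : ℕ) : ℝ)) ≤
      Real.exp (-(6 * ((nxt m : ℕ) : ℝ) / Real.sqrt m)) := by
  refine ⟨max 1000 ⌈(8 / α) ^ 2⌉₊, le_trans (by norm_num) (le_max_left _ _), ?_⟩
  intro m hm
  have hm1 : 1000 ≤ m := le_trans (le_max_left _ _) hm
  have hm2 : (8 / α) ^ 2 ≤ (m : ℝ) :=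
    (Nat.le_ceil _).trans (by exact_mod_cast le_trans (le_max_right _ _) hm)
  have hM3 := nxt_ge m hm1
  set M := nxt m with hMdef
  set s := Real.sqrt m with hs
  have hmR : (1000 : ℝ) ≤ m := by exact_mod_cast hm1
  have hs2 : s ^ 2 = m := Real.sq_sqrt (by positivity)
  have hs31 : 31 ≤ s := by
    rw [hs]
    apply Real.le_sqrt_of_sq_le
    linarith
  have hspos : 0 < s := by linarith
  have hM3R : (m : ℝ) ^ 3 ≤ (M : ℝ) := by exact_mod_cast hM3
  have hMs : s ^ 6 ≤ (M : ℝ) := by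
    have : s ^ 6 = (m : ℝ) ^ 3 := by rw [← hs2]; ring
    rw [this]; exact hM3R
  have hMm2 : (m : ℝ) ^ 2 ≤ (M : ℝ) := le_trans (by nlinarith) hM3R
  have hMm : 4 * (m : ℝ) ≤ (M : ℝ) := le_trans (by nlinarith) hMm2
  have hMpos : (0 : ℝ) < M := by linarith
  have hMn : m ≤ M := by
    have : (m : ℝ) ≤ M := by linarith
    exact_mod_cast this
  have hlogM : Real.log M ≤ 0.7 * s := by
    have h1 : (M : ℝ) = 2 ^ (Nat.sqrt m) := by
      rw [hMdef]; unfold nxt; push_cast; rfl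
    rw [h1, Real.log_pow]
    have h2 : ((Nat.sqrt m : ℕ) : ℝ) ≤ s := Real.nat_sqrt_le_real_sqrt
    have h3 := Real.log_two_lt_d9
    have h4 : 0 < Real.log 2 := Real.log_pos (by norm_num)
    have h5 : (0 : ℝ) ≤ ((Nat.sqrt m : ℕ) : ℝ) := Nat.cast_nonneg _
    nlinarith
  have hlogMpos : 0 < Real.log M := Real.log_pos (by linarith)
  have hsM : 2 * s ≤ Real.sqrt M := by
    apply Real.le_sqrt_of_sq_le
    nlinarith
  refine ⟨hMn, ?_, ?_, ?_⟩
  · have : Real.log ((m : ℝ) ^ 2) ≤ Real.log M := Real.log_le_log (by positivity) hMm2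
    rw [Real.log_pow] at this
    exact_mod_cast this
  · -- third inequality
    have h1 : (M : ℝ) ^ 6 * (m : ℝ) ^ 3 * Real.log M ≤ Real.exp (6 * (M : ℝ) / s) := by
      have h2 : (M : ℝ) ^ 6 * (m : ℝ) ^ 3 * Real.log M ≤ (M : ℝ) ^ 6 * (M : ℝ) ^ 3 * M := by
        have h3 : Real.log M ≤ M := (Real.log_le_sub_one_of_pos hMpos).trans (by linarith)
        have h4 : (m : ℝ) ≤ M := by exact_mod_cast hMn
        gcongr
      have h5 : (M : ℝ) ^ 6 * (M : ℝ) ^ 3 * M = Real.exp (10 * Real.log M) := by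
        have : (10 : ℝ) * Real.log M = Real.log ((M : ℝ) ^ 10) := by
          rw [Real.log_pow]; norm_num
        rw [this, Real.exp_log (by positivity)]
        ring
      rw [h5] at h2
      refine h2.trans (Real.exp_le_exp.2 ?_)
      rw [le_div_iff₀ hspos]
      nlinarith
    rw [Real.exp_neg, le_div_iff₀ hlogMpos, ← div_eq_mul_inv, div_mul_eq_mul_div,
      div_le_one (Real.exp_pos _)]
    exact h1
  · intro k hk k' hk'
    rw [Finset.mem_Ico] at hk hk'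
    set κ : ℝ := (k : ℝ) / (M : ℝ) with hκ
    set κ' : ℝ := (k' : ℝ) / (m : ℝ) with hκ'
    set ℓ : ℕ := ⌈κ / κ'⌉₊ with hℓ
    have hmpos : (0 : ℝ) < m := by linarith
    have hκM : (M : ℝ) ≤ κ := by
      rw [hκ, le_div_iff₀ hMpos]
      have : ((M ^ 2 : ℕ) : ℝ) ≤ (k : ℝ) := by exact_mod_cast hk.1
      push_cast at this
      rw [← sq]
      exact this
    have hκM2 : κ ≤ (M : ℝ) ^ 2 := by
      rw [hκ, div_le_iff₀ hMpos]
      have : (k : ℝ) ≤ ((M ^ 3 : ℕ) : ℝ) := by exact_mod_cast hk.2.le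
      push_cast at this
      rw [← pow_succ]
      exact this
    have hκ'm : (m : ℝ) ≤ κ' := by
      rw [hκ', le_div_iff₀ hmpos]
      have : ((m ^ 2 : ℕ) : ℝ) ≤ (k' : ℝ) := by exact_mod_cast hk'.1
      push_cast at this
      rw [← sq]
      exact this
    have hκ'm2 : κ' ≤ (m : ℝ) ^ 2 := by
      rw [hκ', div_le_iff₀ hmpos]
      have : (k' : ℝ) ≤ ((m ^ 3 : ℕ) : ℝ) := by exact_mod_cast hk'.2.le
      push_cast at this
      rw [← pow_succ]
      exact this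
    have hκpos : 0 < κ := by linarith
    have hκ'pos : 0 < κ' := by linarith
    have hq : 0 < κ / κ' := by positivity
    have hℓ1 : 1 ≤ ℓ := Nat.ceil_pos.2 hq
    have hℓR : (1 : ℝ) ≤ ℓ := by exact_mod_cast hℓ1
    have hℓlt : (ℓ : ℝ) < κ / κ' + 1 := Nat.ceil_lt_add_one hq.le
    have hℓκ : κ' * ℓ ≤ κ + κ' := by
      have := mul_le_mul_of_nonneg_left hℓlt.le hκ'pos.le
      have h2 : κ' * (κ / κ' + 1) = κ + κ' := by field_simp
      linarith
    have hℓm : (ℓ : ℝ) ≤ 2 * κ / m := by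
      have h1 : κ / κ' ≤ κ / m := by gcongr
      have h2 : 1 ≤ κ / m := by
        rw [one_le_div hmpos]; linarith
      have h3 : 2 * κ / m = κ / m + κ / m := by ring
      linarith
    have hℓM : (ℓ : ℝ) ≤ (M : ℝ) ^ 2 := by
      refine hℓm.trans (le_trans ?_ hκM2)
      rw [div_le_iff₀ hmpos]
      have h1 : κ * 2 ≤ κ * m := mul_le_mul_of_nonneg_left (by linarith) hκpos.le
      linarith
    have hlogℓ : Real.log ℓ ≤ 1.4 * s := by
      have h1 : Real.log ℓ ≤ Real.log ((M : ℝ) ^ 2) := Real.log_le_log (by linarith) hℓM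
      rw [Real.log_pow] at h1
      push_cast at h1
      linarith
    have hlog3 : Real.log 3 ≤ 1.1 := log_three_le
    set A := al α m with hA
    have hAval : A = 2 * α - 16 / s := by rw [hA]; rfl
    have hBval : al α M = 2 * α - 16 / Real.sqrt M := rfl
    have h8 : 8 / α ≤ s := by
      have h1 : Real.sqrt ((8 / α) ^ 2) ≤ s := Real.sqrt_le_sqrt hm2
      rwa [Real.sqrt_sq (by positivity)] at h1
    have hA0 : 0 ≤ A := by
      rw [hAval]
      have h1 : 16 / s ≤ 2 * α := by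
        rw [div_le_iff₀ hspos]
        rw [div_le_iff₀ hα] at h8
        linarith
      linarith
    have hA1 : A ≤ 1 := by
      rw [hAval]
      have : 0 ≤ 16 / s := by positivity
      linarith
    have hAM : A + 8 / s ≤ al α M := by
      rw [hAval, hBval]
      have h1 : 16 / Real.sqrt M ≤ 8 / s := by
        rw [div_le_div_iff₀ (by linarith) hspos]
        linarith
      have h2 : 16 / s = 8 / s + 8 / s := by ring
      linarith
    have hpow : (3 * (ℓ : ℝ)) ^ ℓ = Real.exp (ℓ * Real.log (3 * ℓ)) := by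
      rw [← Real.log_pow, Real.exp_log (by positivity)]
    rw [hpow, ← Real.exp_add, ← Real.exp_add, ← Real.exp_add]
    apply Real.exp_le_exp.2
    have hlog3ℓ : Real.log (3 * ℓ) = Real.log 3 + Real.log ℓ :=
      Real.log_mul (by norm_num) (by linarith)
    rw [hlog3ℓ]
    -- the pieces
    have e1 : -(2 * (al α M * κ)) ≤ -(2 * A * κ) - 16 * κ / s := by
      have h1 : (A + 8 / s) * κ ≤ al α M * κ := mul_le_mul_of_nonneg_right hAM hκpos.le
      have h2 : (A + 8 / s) * κ = A * κ + 8 * κ / s := by ring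
      have h3 : 16 * κ / s = 2 * (8 * κ / s) := by ring
      linarith
    have e2 : 2 * (A * κ') * ℓ ≤ 2 * A * κ + 2 * (m : ℝ) ^ 2 := by
      have h1 : A * (κ' * ℓ) ≤ A * (κ + κ') := mul_le_mul_of_nonneg_left hℓκ hA0
      have h2 : A * κ' ≤ 1 * (m : ℝ) ^ 2 := mul_le_mul hA1 hκ'm2 hκ'pos.le zero_le_one
      have h3 : 2 * (A * κ') * ℓ = 2 * (A * (κ' * ℓ)) := by ring
      have h4 : A * (κ + κ') = A * κ + A * κ' := by ring
      rw [h3]
      linarith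
    have e3 : (ℓ : ℝ) * (Real.log 3 + Real.log ℓ) + ℓ ≤ 3 * κ / s := by
      have h1 : (ℓ : ℝ) * (Real.log 3 + Real.log ℓ) + ℓ = ℓ * (Real.log 3 + Real.log ℓ + 1) := by
        ring
      have h2 : Real.log 3 + Real.log ℓ + 1 ≤ 2.1 + 1.4 * s := by linarith
      have h3 : 0 ≤ Real.log 3 + Real.log ℓ + 1 := by
        have := Real.log_nonneg hℓR
        have h5 : 0 ≤ Real.log 3 := Real.log_nonneg (by norm_num)
        linarith
      rw [h1]
      calc (ℓ : ℝ) * (Real.log 3 + Real.log ℓ + 1) ≤ (2 * κ / m) * (2.1 + 1.4 * s) := by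
            apply mul_le_mul hℓm h2 h3 (by positivity)
        _ ≤ 3 * κ / s := by
            rw [← hs2, div_mul_eq_mul_div, div_le_div_iff₀ (by positivity) hspos]
            have h6 : κ * (4.2 + 2.8 * s) ≤ κ * (3 * s) :=
              mul_le_mul_of_nonneg_left (by linarith) hκpos.le
            have h7 : κ * (4.2 + 2.8 * s) * s ≤ κ * (3 * s) * s :=
              mul_le_mul_of_nonneg_right h6 hspos.le
            have h8 : 2 * κ * (2.1 + 1.4 * s) * s = κ * (4.2 + 2.8 * s) * s := by ring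
            have h9 : 3 * κ * s ^ 2 = κ * (3 * s) * s := by ring
            rw [h8, h9]
            exact h7
    have e4 : 2 * (m : ℝ) ^ 2 ≤ 7 * M / s := by
      rw [le_div_iff₀ hspos, ← hs2]
      have h1 : s ^ 5 ≤ s ^ 6 := by
        apply pow_le_pow_right₀ (by linarith) (by norm_num)
      have h2 : 2 * (s ^ 2) ^ 2 * s = 2 * s ^ 5 := by ring
      rw [h2]
      linarith
    have e5 : 13 * (M : ℝ) / s ≤ 13 * κ / s := by gcongr
    have e6 : 16 * κ / s = 13 * κ / s + 3 * κ / s := by ring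
    have e7 : 13 * (M : ℝ) / s = 6 * M / s + 7 * M / s := by ring
    linarith

end MRD
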