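import Mathlib
import Pool.Agent.Helper72.MRD.Defs
import Pool.Agent.Helper72.MRD.D03

set_option autoImplicit false

/-!
MRD-D07. Choice of the last level.

`L_j = lev m1 j` is nondecreasing and unbounded (`log L_{j+1} ≥ 2 log L_j`, `L_j ≥ m1 ≥ 2`).
For `V ≥ m1⁴` let `j` be the largest index with `L_j⁴ ≤ V`. Then `L_j² ≤ √V`, and
`V < L_{j+1}⁴ = 2^{4⌊√L_j⌋}`, so `log V ≤ 4 (log 2) √L_j`, `L_j ≥ (log V)²/(16 (log 2)²) ≥ (log V)²/8`
because `16 (log 2)² < 7.69 < 8`. (`nxt m = 2 ^ Nat.sqrt m`, `Nat.sqrt m ≤ √m`.)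
-/

namespace MRD

open Finset MRP MeasureTheory

theorem exists_level : ∃ m0 : ℕ, 2 ≤ m0 ∧ ∀ m1 : ℕ, m0 ≤ m1 → ∃ V0 : ℝ, 1 ≤ V0 ∧ ∀ V : ℝ,
    V0 ≤ V → ∃ j : ℕ, (Real.log V) ^ 2 / 8 ≤ ((lev m1 j : ℕ) : ℝ) ∧
      ((lev m1 j : ℕ) : ℝ) ^ 2 ≤ Real.sqrt V ∧ m1 ≤ lev m1 j := by
  obtain ⟨m0, hm02, H⟩ := level_numeric (1 / 2) (by norm_num) (by norm_num)
  refine ⟨m0, hm02, fun m1 hm1 => ?_⟩
  have hm12 : 2 ≤ m1 := le_trans hm02 hm1
  have hstep : ∀ j, lev m1 (j + 1) = nxt (lev m1 j) := by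
    intro j
    unfold lev
    rw [Function.iterate_succ_apply']
  have hge : ∀ j, m1 ≤ lev m1 j := by
    intro j
    induction j with
    | zero => exact le_refl _
    | succ j ih =>
      rw [hstep]
      exact le_trans ih (H (lev m1 j) (le_trans hm1 ih)).1
  have hunb : ∀ j, j ≤ lev m1 j := by
    intro j
    induction j with
    | zero => exact Nat.zero_le _
    | succ j ih =>
      rw [hstep]
      have h1 := (H (lev m1 j) (le_trans hm1 (hge j))).2.1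
      have hL2 : 2 ≤ lev m1 j := le_trans hm12 (hge j)
      have hLR : (2 : ℝ) ≤ ((lev m1 j : ℕ) : ℝ) := by exact_mod_cast hL2
      have hL0 : (0 : ℝ) < ((lev m1 j : ℕ) : ℝ) := by linarith
      have hN0 : (0 : ℝ) < ((nxt (lev m1 j) : ℕ) : ℝ) := by
        have : 0 < nxt (lev m1 j) := by unfold nxt; positivity
        exact_mod_cast this
      have h2 : Real.log (((lev m1 j : ℕ) : ℝ) ^ 2) ≤ Real.log ((nxt (lev m1 j) : ℕ) : ℝ) := by
        rw [Real.log_pow]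
        push_cast
        exact h1
      have h3 : ((lev m1 j : ℕ) : ℝ) ^ 2 ≤ ((nxt (lev m1 j) : ℕ) : ℝ) :=
        (Real.log_le_log_iff (by positivity) hN0).1 h2
      have h4 : (lev m1 j) ^ 2 ≤ nxt (lev m1 j) := by exact_mod_cast h3
      nlinarith
  refine ⟨((m1 : ℕ) : ℝ) ^ 4, ?_, fun V hV => ?_⟩
  · have : (1 : ℝ) ≤ ((m1 : ℕ) : ℝ) := by
      have : 1 ≤ m1 := by omega
      exact_mod_cast this
    exact one_le_pow₀ this
  have hV1 : 1 ≤ V := by
    have : (1 : ℝ) ≤ ((m1 : ℕ) : ℝ) := by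
      have : 1 ≤ m1 := by omega
      exact_mod_cast this
    exact le_trans (one_le_pow₀ this) hV
  have hex : ∃ j, V < ((lev m1 j : ℕ) : ℝ) ^ 4 := by
    obtain ⟨n, hn⟩ := exists_nat_gt V
    refine ⟨n, lt_of_lt_of_le hn ?_⟩
    have h1 : (n : ℝ) ≤ ((lev m1 n : ℕ) : ℝ) := by exact_mod_cast hunb n
    have h2 : (1 : ℝ) ≤ ((lev m1 n : ℕ) : ℝ) := by
      have : 1 ≤ lev m1 n := le_trans (by omega) (hge n)
      exact_mod_cast this
    exact le_trans h1 (le_self_pow₀ h2 (by norm_num))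
  classical
  have hspec := Nat.find_spec hex
  have hmin := fun k => Nat.find_min hex (m := k)
  have hn0 : Nat.find hex ≠ 0 := by
    intro h
    rw [h] at hspec
    have h0 : lev m1 0 = m1 := rfl
    rw [h0] at hspec
    exact absurd hV (not_le.2 hspec)
  obtain ⟨j, hj⟩ := Nat.exists_eq_succ_of_ne_zero hn0
  have hjle : ((lev m1 j : ℕ) : ℝ) ^ 4 ≤ V := by
    have := hmin j (by omega)
    exact not_lt.1 this
  rw [hj, Nat.succ_eq_add_one, hstep] at hspec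
  refine ⟨j, ?_, ?_, hge j⟩
  · set L : ℝ := ((lev m1 j : ℕ) : ℝ) with hL
    have hL0 : 0 ≤ L := Nat.cast_nonneg _
    have h1 : Real.log V ≤ 4 * Real.log ((nxt (lev m1 j) : ℕ) : ℝ) := by
      have := Real.log_le_log (by linarith) hspec.le
      rw [Real.log_pow] at this
      push_cast at this
      exact this
    have h2 : Real.log ((nxt (lev m1 j) : ℕ) : ℝ) ≤ Real.sqrt L * Real.log 2 := by
      unfold nxt
      push_cast
      rw [Real.log_pow]
      exact mul_le_mul_of_nonneg_right Real.nat_sqrt_le_real_sqrt (Real.log_nonneg (by norm_num))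
    have h3 : Real.log V ≤ 4 * (Real.sqrt L * Real.log 2) := by linarith
    have h0 : 0 ≤ Real.log V := Real.log_nonneg hV1
    have h4 : (Real.log V) ^ 2 ≤ (4 * (Real.sqrt L * Real.log 2)) ^ 2 :=
      pow_le_pow_left₀ h0 h3 2
    have h5 : (4 * (Real.sqrt L * Real.log 2)) ^ 2 = 16 * L * (Real.log 2) ^ 2 := by
      rw [mul_pow, mul_pow, Real.sq_sqrt hL0]
      ring
    have h6 : (Real.log 2) ^ 2 ≤ 1 / 2 := by
      have := Real.log_two_lt_d9
      have h0 : 0 ≤ Real.log 2 := Real.log_nonneg (by norm_num)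
      nlinarith
    rw [h5] at h4
    have h7 : 16 * L * (Real.log 2) ^ 2 ≤ 16 * L * (1 / 2) :=
      mul_le_mul_of_nonneg_left h6 (by positivity)
    linarith
  · apply Real.le_sqrt_of_sq_le
    calc (((lev m1 j : ℕ) : ℝ) ^ 2) ^ 2 = ((lev m1 j : ℕ) : ℝ) ^ 4 := by ring
      _ ≤ V := hjle

end MRD
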