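import Mathlib
import Pool.Agent.Helper72.MRD.Defs

set_option autoImplicit false

/-!
MRD-C04. The mean of `3 ^ Ω_s(n)` is bounded.

Induction on the finite set `s` of primes `≥ 5`: claim
`∑_{n ≤ x} 3^{OmS s n} ≤ x ∏_{p ∈ s} (1 - 3/p)^{-1}` for all `x`. Adding the prime `p ∉ s`:
classify `n` by `a = v_p(n)`: `n = p^a n'`, `3^{OmS (insert p s) n} = 3^a 3^{OmS s n}` and
`OmS s n = OmS s n'`, `n' ≤ x / p^a`, so the sum is at most
`∑_a 3^a ∑_{n' ≤ x/p^a} 3^{OmS s n'} ≤ ∑_a 3^a (x/p^a) K_s = x K_s (1 - 3/p)^{-1}`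
(finite sum over `a ≤ x`, geometric series).
Finally `(1 - 3/p)^{-1} = 1 + 3/(p-3) ≤ exp(3/(p-3)) ≤ exp(7.5/p)` for `p ≥ 5`, so the product is
`≤ exp(7.5 WS s) ≤ exp(7.5)`.
Block version: dyadic-free: for `n` with `v - 2 ≤ log n ≤ v + 5`, `1/n² ≤ e^{4 - 2v}` and
`∑_{n ≤ e^{v+5}} 3^{OmS s n} ≤ C e^{v+5}`.
-/

namespace MRD

open Finset MRP MeasureTheory

theorem OmS_insert_not_dvd {s : Finset ℕ} {p n : ℕ} (hps : p ∉ s) (hpn : ¬ p ∣ n) :
    OmS (insert p s) n = OmS s n := by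
  unfold OmS
  rw [sum_insert hps, Nat.factorization_eq_zero_of_not_dvd hpn, zero_add]

theorem OmS_mul {s : Finset ℕ} {p d : ℕ} (hp : p.Prime) (hps : p ∈ s) (hd : 1 ≤ d) :
    OmS s (p * d) = OmS s d + 1 := by
  unfold OmS
  have h1 : ∀ q ∈ s, (p * d).factorization q = d.factorization q + (if q = p then 1 else 0) := by
    intro q _
    rw [Nat.factorization_mul hp.ne_zero (by omega), Finsupp.add_apply, hp.factorization,
      Finsupp.single_apply, add_comm]
    congr 1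
    by_cases h : p = q
    · simp [h]
    · have h' : ¬ q = p := fun h2 => h h2.symm
      simp [h, h']
  rw [sum_congr rfl h1, sum_add_distrib, sum_ite_eq' s p]
  simp [hps]

theorem sum_dvd_reindex {p : ℕ} (hp : 1 ≤ p) (x : ℕ) (F : ℕ → ℝ) :
    ∑ n ∈ (Finset.Icc 1 x).filter (fun n => p ∣ n), F n = ∑ d ∈ Finset.Icc 1 (x / p), F (p * d) := by
  symm
  apply Finset.sum_nbij (fun d => p * d)
  · intro d hd
    rw [mem_Icc] at hd
    rw [mem_filter, mem_Icc]
    refine ⟨⟨Nat.mul_pos hp hd.1, ?_⟩, dvd_mul_right p d⟩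
    exact (Nat.mul_le_mul_left p hd.2).trans (Nat.mul_div_le x p)
  · intro a _ b _ hab
    exact Nat.eq_of_mul_eq_mul_left hp hab
  · intro n hn
    rw [coe_filter, Set.mem_setOf_eq, mem_Icc] at hn
    obtain ⟨⟨h1, h2⟩, d, rfl⟩ := hn
    refine ⟨d, ?_, rfl⟩
    rw [coe_Icc, Set.mem_Icc]
    constructor
    · rcases Nat.eq_zero_or_pos d with h | h
      · subst h
        simp at h1
      · exact h
    · rw [Nat.le_div_iff_mul_le hp, mul_comm]
      exact h2
  · intro d _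
    rfl

theorem sum_three_aux (s : Finset ℕ) : (∀ p ∈ s, p.Prime ∧ 5 ≤ p) → ∀ x : ℕ,
    ∑ n ∈ Finset.Icc 1 x, (3 : ℝ) ^ OmS s n ≤ (x : ℝ) * ∏ p ∈ s, (1 - 3 / (p : ℝ))⁻¹ := by
  classical
  induction s using Finset.induction_on with
  | empty =>
    intro _ x
    simp [OmS]
  | insert p s hps ih =>
    intro hs
    have hs' : ∀ p ∈ s, p.Prime ∧ 5 ≤ p := fun q hq => hs q (mem_insert_of_mem hq)
    obtain ⟨hpp, hp5⟩ := hs p (mem_insert_self p s)
    have hp5' : (5 : ℝ) ≤ p := by exact_mod_cast hp5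
    have hp0 : (0 : ℝ) < p := by linarith
    have hy : 0 < 1 - 3 / (p : ℝ) := by
      have : 3 / (p : ℝ) < 1 := by
        rw [div_lt_one hp0]
        linarith
      linarith
    rw [prod_insert hps]
    set K : ℝ := ∏ p ∈ s, (1 - 3 / (p : ℝ))⁻¹ with hK
    have hK0 : 0 ≤ K := by
      rw [hK]
      refine prod_nonneg fun q hq => ?_
      have h5 : (5 : ℝ) ≤ q := by exact_mod_cast (hs' q hq).2
      have h6 : 3 / (q : ℝ) < 1 := by
        rw [div_lt_one (by linarith)]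
        linarith
      exact inv_nonneg.2 (by linarith)
    set K' : ℝ := (1 - 3 / (p : ℝ))⁻¹ * K with hK'
    have hK'0 : 0 ≤ K' := mul_nonneg (inv_nonneg.2 hy.le) hK0
    have hKK : K + 3 / (p : ℝ) * K' = K' := by
      have : K = (1 - 3 / (p : ℝ)) * K' := by
        rw [hK', ← mul_assoc, mul_inv_cancel₀ hy.ne', one_mul]
      nth_rewrite 1 [this]
      ring
    intro x
    induction x using Nat.strong_induction_on with
    | _ x ihx =>
      rcases Nat.eq_zero_or_pos x with hx | hx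
      · subst hx
        simp
      · have hlt : x / p < x := Nat.div_lt_self hx (by omega)
        have h1 := ihx (x / p) hlt
        rw [← sum_filter_add_sum_filter_not (Finset.Icc 1 x) (fun n => p ∣ n),
          sum_dvd_reindex (by omega) x (fun n => (3 : ℝ) ^ OmS (insert p s) n)]
        have h2 : ∑ d ∈ Finset.Icc 1 (x / p), (3 : ℝ) ^ OmS (insert p s) (p * d) =
            3 * ∑ d ∈ Finset.Icc 1 (x / p), (3 : ℝ) ^ OmS (insert p s) d := by
          rw [mul_sum]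
          refine sum_congr rfl fun d hd => ?_
          rw [mem_Icc] at hd
          rw [OmS_mul hpp (mem_insert_self p s) hd.1, pow_succ]
          ring
        have h3 : ∑ n ∈ (Finset.Icc 1 x).filter (fun n => ¬ p ∣ n),
            (3 : ℝ) ^ OmS (insert p s) n ≤ x * K := by
          refine le_trans ?_ (ih hs' x)
          calc ∑ n ∈ (Finset.Icc 1 x).filter (fun n => ¬ p ∣ n), (3 : ℝ) ^ OmS (insert p s) n
              = ∑ n ∈ (Finset.Icc 1 x).filter (fun n => ¬ p ∣ n), (3 : ℝ) ^ OmS s n := by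
                refine sum_congr rfl fun n hn => ?_
                rw [mem_filter] at hn
                rw [OmS_insert_not_dvd hps hn.2]
            _ ≤ _ := sum_le_sum_of_subset_of_nonneg (filter_subset _ _)
                fun n _ _ => by positivity
        rw [h2]
        have h4 : ((x / p : ℕ) : ℝ) ≤ (x : ℝ) / p := Nat.cast_div_le
        have h5 : ((x / p : ℕ) : ℝ) * K' ≤ (x : ℝ) / p * K' := mul_le_mul_of_nonneg_right h4 hK'0
        have h6 : (x : ℝ) * K' = x * K + 3 * ((x : ℝ) / p * K') := by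
          nth_rewrite 1 [← hKK]
          ring
        linarith

theorem prod_three_le (s : Finset ℕ) (hs : ∀ p ∈ s, p.Prime ∧ 5 ≤ p) (hW : WS s ≤ 1) :
    ∏ p ∈ s, (1 - 3 / (p : ℝ))⁻¹ ≤ Real.exp (15 / 2) := by
  calc ∏ p ∈ s, (1 - 3 / (p : ℝ))⁻¹ ≤ ∏ p ∈ s, Real.exp (15 / 2 * (1 / (p : ℝ))) := by
        refine prod_le_prod (fun p hp => ?_) fun p hp => ?_
        · have h5 : (5 : ℝ) ≤ p := by exact_mod_cast (hs p hp).2
          have h6 : 3 / (p : ℝ) < 1 := by
            rw [div_lt_one (by linarith)]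
            linarith
          exact inv_nonneg.2 (by linarith)
        · have h5 : (5 : ℝ) ≤ p := by exact_mod_cast (hs p hp).2
          have hp0 : (0 : ℝ) < p := by linarith
          have h7 : (p : ℝ) - 3 > 0 := by linarith
          have h8 : (1 - 3 / (p : ℝ))⁻¹ = 3 / ((p : ℝ) - 3) + 1 := by
            have h9 : 1 - 3 / (p : ℝ) = ((p : ℝ) - 3) / p := by field_simp
            rw [h9, inv_div]
            field_simp
            ring
          rw [h8]
          refine (Real.add_one_le_exp _).trans (Real.exp_le_exp.2 ?_)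
          rw [mul_one_div, div_le_div_iff₀ h7 hp0]
          linarith
    _ = Real.exp (15 / 2 * WS s) := by
        rw [← Real.exp_sum, WS, mul_sum]
    _ ≤ Real.exp (15 / 2) := by
        apply Real.exp_le_exp.2
        linarith

theorem sum_three_pow : ∃ C : ℝ, 0 < C ∧ ∀ s : Finset ℕ, (∀ p ∈ s, p.Prime ∧ 5 ≤ p) →
    WS s ≤ 1 → ∀ x : ℕ, ∑ n ∈ Finset.Icc 1 x, (3 : ℝ) ^ OmS s n ≤ C * x := by
  refine ⟨Real.exp (15 / 2), Real.exp_pos _, fun s hs hW x => ?_⟩
  refine (sum_three_aux s hs x).trans ?_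
  rw [mul_comm]
  exact mul_le_mul_of_nonneg_right (prod_three_le s hs hW) (Nat.cast_nonneg x)

theorem NY_three_block : ∃ C : ℝ, 0 < C ∧ ∀ s : Finset ℕ, (∀ p ∈ s, p.Prime ∧ 5 ≤ p) →
    WS s ≤ 1 → ∀ v : ℝ, 0 ≤ v → ∀ (N : ℕ) (a : ℕ → ℂ) (A : ℝ), 0 ≤ A →
    (∀ n ∈ Finset.Icc 1 N, ‖a n‖ ≤ A) →
    (∀ n ∈ Finset.Icc 1 N, a n ≠ 0 → v - 2 ≤ Real.log n ∧ Real.log n ≤ v + 5) →
    NY N s 3 a ≤ C * A ^ 2 * Real.exp (-v) := by
  obtain ⟨C, hC, h⟩ := sum_three_pow
  refine ⟨C * Real.exp 9, by positivity, ?_⟩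
  intro s hs hW v hv N a A hA ha hsupp
  classical
  have key : NY N s 3 a ≤ ∑ n ∈ Finset.Icc 1 ⌊Real.exp (v + 5)⌋₊,
      A ^ 2 * Real.exp (4 - 2 * v) * (3 : ℝ) ^ OmS s n := by
    unfold NY
    rw [← sum_filter_of_ne (p := fun n => a n ≠ 0)]
    · have hsub : (Finset.Icc 1 N).filter (fun n => a n ≠ 0) ⊆
          Finset.Icc 1 ⌊Real.exp (v + 5)⌋₊ := by
        intro n hn
        rw [mem_filter] at hn
        obtain ⟨hn1, hn2⟩ := hn
        obtain ⟨_, h2⟩ := hsupp n hn1 hn2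
        rw [mem_Icc] at hn1 ⊢
        refine ⟨hn1.1, Nat.le_floor ?_⟩
        have hn0 : (0 : ℝ) < n := by exact_mod_cast hn1.1
        rw [← Real.exp_log hn0]
        exact Real.exp_le_exp.2 h2
      refine le_trans ?_ (sum_le_sum_of_subset_of_nonneg hsub fun n _ _ => by positivity)
      refine sum_le_sum fun n hn => ?_
      rw [mem_filter] at hn
      obtain ⟨hn1, hn2⟩ := hn
      obtain ⟨h1, _⟩ := hsupp n hn1 hn2
      have h3 := ha n hn1
      rw [mem_Icc] at hn1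
      have hn0 : (0 : ℝ) < n := by exact_mod_cast hn1.1
      have h4 : Real.exp (v - 2) ≤ n := by
        rw [← Real.exp_log hn0]
        exact Real.exp_le_exp.2 h1
      have h5 : 1 / (n : ℝ) ^ 2 ≤ Real.exp (4 - 2 * v) := by
        have e : Real.exp (4 - 2 * v) = 1 / Real.exp (v - 2) ^ 2 := by
          rw [← Real.exp_nat_mul, one_div, ← Real.exp_neg]
          congr 1
          push_cast
          ring
        rw [e]
        apply one_div_le_one_div_of_le (by positivity)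
        exact pow_le_pow_left₀ (Real.exp_pos _).le h4 2
      have h6 : ‖a n‖ ^ 2 ≤ A ^ 2 := pow_le_pow_left₀ (norm_nonneg _) h3 2
      calc ‖a n‖ ^ 2 * (3 : ℝ) ^ OmS s n / (n : ℝ) ^ 2
          = ‖a n‖ ^ 2 * (1 / (n : ℝ) ^ 2) * (3 : ℝ) ^ OmS s n := by ring
        _ ≤ A ^ 2 * Real.exp (4 - 2 * v) * (3 : ℝ) ^ OmS s n := by
            apply mul_le_mul_of_nonneg_right _ (by positivity)
            exact mul_le_mul h6 h5 (by positivity) (by positivity)
    · intro n _ hne h0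
      apply hne
      rw [h0]
      simp
  refine key.trans ?_
  rw [← mul_sum]
  have h1 := h s hs hW ⌊Real.exp (v + 5)⌋₊
  have h2 : ((⌊Real.exp (v + 5)⌋₊ : ℕ) : ℝ) ≤ Real.exp (v + 5) :=
    Nat.floor_le (Real.exp_pos _).le
  have h3 : ∑ n ∈ Finset.Icc 1 ⌊Real.exp (v + 5)⌋₊, (3 : ℝ) ^ OmS s n ≤ C * Real.exp (v + 5) :=
    h1.trans (mul_le_mul_of_nonneg_left h2 hC.le)
  calc A ^ 2 * Real.exp (4 - 2 * v) * ∑ n ∈ Finset.Icc 1 ⌊Real.exp (v + 5)⌋₊, (3 : ℝ) ^ OmS s n
      ≤ A ^ 2 * Real.exp (4 - 2 * v) * (C * Real.exp (v + 5)) :=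
        mul_le_mul_of_nonneg_left h3 (by positivity)
    _ = C * A ^ 2 * (Real.exp (4 - 2 * v) * Real.exp (v + 5)) := by ring
    _ = C * A ^ 2 * (Real.exp 9 * Real.exp (-v)) := by
        rw [← Real.exp_add, ← Real.exp_add]
        congr 2
        ring
    _ = C * Real.exp 9 * A ^ 2 * Real.exp (-v) := by ring

end MRD
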