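import Mathlib
import Pool.Agent.Helper72.MRD.Defs
import Pool.Agent.Helper72.MRD.A02
import Pool.Agent.Helper72.MRD.B01
import Pool.Agent.Helper72.MRD.C02
import Pool.Agent.Helper72.MRD.C03
import Pool.Agent.Helper72.MRD.C04
import Pool.Agent.Helper72.MRD.C05

set_option autoImplicit false

/-!
MRD-C06. The moment bound for the intermediate levels.

Let `κ' = k/m`, `s = slice m k`, `E = e^{(k+1)/m}`, `a = cut phi (v - κ) g` (supported in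
`-1 < log n - (v-κ) < 3`, `‖a n‖ ≤ 2`), `B = e^{v-κ+3}`. By `FF_congr` we may enlarge `N` so that
`B E^ℓ ≤ N`. Then `QP^ℓ * FF = DP N ((mulP x s)^[ℓ] a)` (`QP_pow_mul`), of support
`n ≤ B E^ℓ = e^{v-κ+3+κ'ℓ+ℓ/m}`, and
`NN N (..) ≤ (3 ℓ S2)^ℓ NY N s 3 a ≤ (3ℓ)^ℓ e^{-κ'ℓ} C e^{-(v-κ)}` (`NY_iter`, `slice_facts`,
`NY_three_block` at `v - κ ≥ 0`). `mvt`:
`∫ ≤ 10 (1/η + B E^ℓ) NN ≤ 10 (e^v + e^{v-κ+3+κ'ℓ+ℓ/m}) (3ℓ)^ℓ e^{-κ'ℓ} C e^{κ-v}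
 = 10 C (3ℓ)^ℓ (e^{κ - κ'ℓ} + e^{3 + ℓ/m}) ≤ C' (3ℓ)^ℓ e^ℓ`, because `κ ≤ κ'ℓ`.
-/

namespace MRD

open Finset MRP MeasureTheory

theorem moment : ∃ C : ℝ, 0 < C ∧ ∀ m : ℕ, 2 ≤ m → ∀ k : ℕ, m ^ 2 ≤ k → ∀ ℓ : ℕ, 1 ≤ ℓ →
    ∀ κ v : ℝ, 0 ≤ κ → κ ≤ (k : ℝ) / m * ℓ → κ ≤ v → ∀ η : ℝ, 0 < η → 1 / η ≤ Real.exp v →
    ∀ x : ℕ → ℂ, (∀ p, ‖x p‖ ≤ 1) → ∀ g : ℕ → ℂ, (∀ n, ‖g n‖ ≤ 2) → ∀ N : ℕ,
    Real.exp (v + 4) ≤ N →
    ∫ t : ℝ, ‖FF N phi g (v - κ) t * QP x (slice m k) t ^ ℓ‖ ^ 2 * wt η t ≤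
      C * (3 * (ℓ : ℝ)) ^ ℓ * Real.exp ℓ := by
  obtain ⟨C4, hC4, h3b⟩ := NY_three_block
  refine ⟨40 * C4 * (1 + Real.exp 3), by positivity, ?_⟩
  intro m hm k hk ℓ hℓ κ v hκ hκℓ hκv η hη hηv x hx g hg N hN
  obtain ⟨hsl, hWS, hS2⟩ := slice_facts m k hm hk
  set s := slice m k with hs
  set E : ℝ := Real.exp (((k : ℝ) + 1) / m) with hE
  set B : ℝ := Real.exp (v - κ + 3) with hB
  have hmR : (2 : ℝ) ≤ m := by exact_mod_cast hm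
  have hE1 : 1 ≤ E := by
    rw [hE]; apply Real.one_le_exp; positivity
  have hB0 : 0 < B := Real.exp_pos _
  set a : ℕ → ℂ := cut phi (v - κ) g with ha
  obtain ⟨N', hN'⟩ := exists_nat_ge (max (Real.exp (v + 4)) (B * E ^ ℓ))
  have hN'1 : Real.exp (v + 4) ≤ N' := (le_max_left _ _).trans hN'
  have hN'2 : B * E ^ ℓ ≤ N' := (le_max_right _ _).trans hN'
  have hvκ : Real.exp (v - κ + 4) ≤ Real.exp (v + 4) := Real.exp_le_exp.2 (by linarith)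
  have hsupp : ∀ n : ℕ, a n ≠ 0 → v - κ - 1 < Real.log n ∧ Real.log n < v - κ + 3 := by
    intro n hn
    by_contra hcon
    apply hn
    have h1 : phi (Real.log n - (v - κ)) = 0 := by
      apply phi_eq_zero
      rw [not_and_or, not_lt, not_lt] at hcon
      rcases hcon with h | h
      · left; linarith
      · right; linarith
    show g n * ((phi (Real.log n - (v - κ)) : ℝ) : ℂ) = 0
    rw [h1]; simp
  have haB : ∀ n : ℕ, 1 ≤ n → a n ≠ 0 → (n : ℝ) ≤ B := by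
    intro n hn han
    have h1 := (hsupp n han).2
    have hnR : (0 : ℝ) < n := by exact_mod_cast hn
    rw [← Real.exp_log hnR, hB]
    exact Real.exp_le_exp.2 h1.le
  have ha2 : ∀ n : ℕ, ‖a n‖ ≤ 2 := by
    intro n
    show ‖g n * ((phi (Real.log n - (v - κ)) : ℝ) : ℂ)‖ ≤ 2
    rw [norm_mul, Complex.norm_real, Real.norm_of_nonneg (phi_nonneg _)]
    have h1 := phi_le_one (Real.log n - (v - κ))
    have h2 := phi_nonneg (Real.log n - (v - κ))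
    have h3 := hg n
    nlinarith [norm_nonneg (g n)]
  have hsE : ∀ p ∈ s, 1 ≤ p ∧ (p : ℝ) ≤ E := fun p hp =>
    ⟨by have := (hsl p hp).2.1; omega, (hsl p hp).2.2⟩
  have heq : ∀ t : ℝ, FF N phi g (v - κ) t * QP x s t ^ ℓ = DP N' ((mulP x s)^[ℓ] a) t := by
    intro t
    rw [FF_congr phi (fun x hx => phi_eq_zero (Or.inr (by linarith))) g (v - κ) t N N'
      (hvκ.trans hN) (hvκ.trans hN'1), mul_comm]
    exact QP_pow_mul x s E B hE1 hsE a haB ℓ N' hN'2 t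
  simp_rw [heq]
  have hmvt := mvt η (B * E ^ ℓ) hη (by positivity) N' ((mulP x s)^[ℓ] a) (fun n hn hn0 =>
    support_iter x s E B hE1 hsE a haB ℓ n (Finset.mem_Icc.1 hn).1 hn0)
  refine hmvt.trans ?_
  have hNY := NY_iter N' s (fun p hp => (hsl p hp).1) x hx ℓ hℓ a
  have hblock := h3b s (fun p hp => ⟨(hsl p hp).1, (hsl p hp).2.1⟩) hWS (v - κ) (by linarith) N' a 2
    (by norm_num) (fun n _ => ha2 n) (fun n _ hn0 => by
      obtain ⟨h1, h2⟩ := hsupp n hn0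
      constructor <;> linarith)
  have hS20 : 0 ≤ S2 s := Finset.sum_nonneg fun p _ => by positivity
  have hS2ℓ : (3 * (ℓ : ℝ) * S2 s) ^ ℓ ≤ (3 * (ℓ : ℝ)) ^ ℓ * Real.exp (-((k : ℝ) / m * ℓ)) := by
    rw [mul_pow (3 * (ℓ : ℝ)) (S2 s) ℓ]
    refine mul_le_mul_of_nonneg_left ?_ (by positivity)
    have h1 : Real.exp (-((k : ℝ) / m * ℓ)) = Real.exp (-((k : ℝ) / m)) ^ ℓ := by
      rw [← Real.exp_nat_mul]; congr 1; ring
    rw [h1]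
    exact pow_le_pow_left₀ hS20 hS2 ℓ
  have hNN : NN N' ((mulP x s)^[ℓ] a) ≤
      (3 * (ℓ : ℝ)) ^ ℓ * Real.exp (-((k : ℝ) / m * ℓ)) * (C4 * 2 ^ 2 * Real.exp (-(v - κ))) := by
    refine hNY.trans ?_
    have hNY0 : 0 ≤ NY N' s 3 a := Finset.sum_nonneg fun n _ => by positivity
    exact mul_le_mul hS2ℓ hblock hNY0 (by positivity)
  have hEℓ : B * E ^ ℓ = Real.exp (v - κ + 3 + ((k : ℝ) + 1) / m * ℓ) := by
    rw [hB, hE, ← Real.exp_nat_mul, ← Real.exp_add]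
    congr 1; ring
  have h10 : 10 * (1 / η + B * E ^ ℓ) ≤ 10 * (Real.exp v + Real.exp (v - κ + 3 + ((k : ℝ) + 1) / m * ℓ)) := by
    rw [hEℓ]; linarith
  have hNN0 : 0 ≤ NN N' ((mulP x s)^[ℓ] a) := Finset.sum_nonneg fun n _ => by positivity
  refine (mul_le_mul h10 hNN hNN0 (by positivity)).trans ?_
  have e1 : Real.exp v * (Real.exp (-((k : ℝ) / m * ℓ)) * Real.exp (-(v - κ))) ≤ 1 := by
    rw [← Real.exp_add, ← Real.exp_add, Real.exp_le_one_iff]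
    linarith
  have e2 : Real.exp (v - κ + 3 + ((k : ℝ) + 1) / m * ℓ) *
      (Real.exp (-((k : ℝ) / m * ℓ)) * Real.exp (-(v - κ))) ≤ Real.exp 3 * Real.exp ℓ := by
    rw [← Real.exp_add, ← Real.exp_add, ← Real.exp_add]
    apply Real.exp_le_exp.2
    have h1 : ((k : ℝ) + 1) / m * ℓ = (k : ℝ) / m * ℓ + ℓ / m := by ring
    have h2 : (ℓ : ℝ) / m ≤ ℓ := div_le_self (by positivity) (by linarith)
    rw [h1]
    linarith
  have e3 : 1 ≤ Real.exp ℓ := Real.one_le_exp (by positivity)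
  have e4 : 0 < Real.exp 3 := Real.exp_pos _
  have e5 : (Real.exp v + Real.exp (v - κ + 3 + ((k : ℝ) + 1) / m * ℓ)) *
      (Real.exp (-((k : ℝ) / m * ℓ)) * Real.exp (-(v - κ))) ≤ (1 + Real.exp 3) * Real.exp ℓ := by
    rw [add_mul]
    nlinarith
  have e6 : 10 * (Real.exp v + Real.exp (v - κ + 3 + ((k : ℝ) + 1) / m * ℓ)) *
      ((3 * (ℓ : ℝ)) ^ ℓ * Real.exp (-((k : ℝ) / m * ℓ)) * (C4 * 2 ^ 2 * Real.exp (-(v - κ)))) =
      (40 * C4 * (3 * (ℓ : ℝ)) ^ ℓ) * ((Real.exp v + Real.exp (v - κ + 3 + ((k : ℝ) + 1) / m * ℓ)) *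
      (Real.exp (-((k : ℝ) / m * ℓ)) * Real.exp (-(v - κ)))) := by ring
  rw [e6]
  refine (mul_le_mul_of_nonneg_left e5 (by positivity)).trans (le_of_eq ?_)
  ring

end MRD
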