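import Mathlib
import Pool.Agent.Helper72.MRD.Defs
import Pool.Agent.Helper72.MRD.B04
import Pool.Agent.Helper72.MRD.B05
import Pool.Agent.Helper72.MRD.C06
import Pool.Agent.Helper72.MRD.D01
import Pool.Agent.Helper72.MRD.D02
import Pool.Agent.Helper72.MRD.D03

set_option autoImplicit false

/-!
MRD-D04. From level `m` to level `M = nxt m` (the Matomaki-Radziwill step).

For `t ∈ Sm (M) \ Sm (m)`: by `decomp` at level `M`, Cauchy-Schwarz over the `≤ M³` slices, `W ≥ 1`,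
`‖FF f v t‖² ≤ 2 M³ ∑_k e^{-2 al(M) k/M} ‖FF g (v - k/M) t‖² + 2 ‖DP er t‖²`. Since `t ∉ Sm (m)`
there is `k'` with `‖QP x (slice m k') t‖ e^{al(m) k'/m} > 1`, so for every `k`, with
`ℓ = ℓ(k,k') = ⌈(k/M)/(k'/m)⌉₊`, `1 ≤ ∑_{k'} (‖QP x (slice m k') t‖ e^{al(m) k'/m})^{2ℓ(k,k')}`.
Multiply and integrate over the whole line: `moment` (with `κ = k/M ≤ (k'/m) ℓ`, `κ ≤ M² ≤ v`)
gives
`∫ ≤ 2 M³ ∑_{k,k'} e^{-2 al(M) k/M} e^{2 al(m)(k'/m) ℓ} C (3ℓ)^ℓ e^ℓ + 2 ∫ ‖DP er‖² wt`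
`≤ 2 C M³ · M³ m³ · e^{-6M/√m} + 2C(1/W + 1/M²) ≤ C'/log M` (`level_numeric`, `mean_er`, `WS_LP`).
Integrability: everything is a continuous bounded function times `wt` (`DP` is bounded).
-/

namespace MRD

open Finset MRP MeasureTheory

theorem level_pair (α : ℝ) (hα : 0 < α) (hα1 : α ≤ 1 / 2) : ∃ (C : ℝ) (m0 : ℕ), 0 < C ∧
    ∀ m : ℕ, m0 ≤ m → ∀ h : ℝ, 1 ≤ h → ∀ v : ℝ, 2 * ((nxt m : ℕ) : ℝ) ^ 2 ≤ v →
    h ≤ Real.exp v → ∀ b : ℕ → ℝ, (∀ k, |b k| ≤ 2) → ∀ (q : ℕ) (χ : DirichletCharacter ℂ q),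
    ∀ N : ℕ, Real.exp (v + 4) ≤ N →
    ∫ t in Sm α (xc χ) (nxt m) \ Sm α (xc χ) m,
      ‖FF N phi (fb b χ) v t‖ ^ 2 * wt (h * Real.exp (-v)) t ≤ C / Real.log (nxt m) := by
  obtain ⟨C1, hC1, hmom⟩ := moment
  obtain ⟨C2, hC2, her⟩ := mean_er
  obtain ⟨m1, hm1, hWS⟩ := WS_LP
  obtain ⟨m2, hm2, hnum⟩ := level_numeric α hα hα1
  refine ⟨2 * C1 + 6 * C2, max m1 m2, by positivity, ?_⟩
  intro m hm h hh1 v hv hhv b hb q χ N hN
  have hmm1 : m1 ≤ m := le_trans (le_max_left _ _) hm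
  have hmm2 : m2 ≤ m := le_trans (le_max_right _ _) hm
  have hm2' : 2 ≤ m := le_trans hm1 hmm1
  obtain ⟨hmM, hlogM, htail, hkk⟩ := hnum m hmm2
  set M : ℕ := nxt m with hMdef
  have hM2 : 2 ≤ M := le_trans hm2' hmM
  obtain ⟨hW, hW2⟩ := hWS M (le_trans hmm1 hmM)
  have hmR : (2 : ℝ) ≤ m := by exact_mod_cast hm2'
  have hmR0 : (0 : ℝ) < m := by linarith
  have hMR : (2 : ℝ) ≤ M := by exact_mod_cast hM2
  have hMR0 : (0 : ℝ) < M := by linarith
  have hh0 : 0 < h := by linarith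
  have hη : 0 < h * Real.exp (-v) := by positivity
  have hη1 : 1 / (h * Real.exp (-v)) = Real.exp v / h := by
    rw [Real.exp_neg]
    field_simp
  have hη2 : 1 / (h * Real.exp (-v)) ≤ Real.exp v := by
    rw [hη1]
    exact div_le_self (Real.exp_pos _).le hh1
  have hk : ∀ k ∈ Finset.Ico (M ^ 2) (M ^ 3), (M : ℝ) ≤ (k : ℝ) / M ∧ (k : ℝ) / M ≤ (M : ℝ) ^ 2 := by
    intro k hk
    rw [mem_Ico] at hk
    have h1 : ((M ^ 2 : ℕ) : ℝ) ≤ k := by exact_mod_cast hk.1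
    have h2 : (k : ℝ) ≤ ((M ^ 3 : ℕ) : ℝ) := by exact_mod_cast hk.2.le
    push_cast at h1 h2
    constructor
    · rw [le_div_iff₀ hMR0]
      nlinarith
    · rw [div_le_iff₀ hMR0]
      nlinarith
  have hk' : ∀ k' ∈ Finset.Ico (m ^ 2) (m ^ 3), (m : ℝ) ≤ (k' : ℝ) / m := by
    intro k hk
    rw [mem_Ico] at hk
    have h1 : ((m ^ 2 : ℕ) : ℝ) ≤ k := by exact_mod_cast hk.1
    push_cast at h1
    rw [le_div_iff₀ hmR0]
    nlinarith
  have hup : ∀ k, |up 1 b k| ≤ 2 := fun k => hb _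
  set ell : ℕ → ℕ → ℕ := fun k k' => ⌈((k : ℝ) / ((M : ℕ) : ℝ)) / ((k' : ℝ) / m)⌉₊ with hell
  -- the weights
  set c : ℕ → ℝ := fun k => Real.exp (-(2 * (al α M * ((k : ℝ) / ((M : ℕ) : ℝ))))) with hc
  set d : ℕ → ℕ → ℝ := fun k k' => Real.exp (2 * (al α m * ((k' : ℝ) / m)) * (ell k k' : ℕ))
    with hd
  set Φ : ℕ → ℕ → ℝ → ℝ := fun k k' t =>
    ‖FF N phi (fb (up 1 b) χ) (v - (k : ℝ) / M) t * QP (xc χ) (slice m k') t ^ ell k k'‖ ^ 2
    with hΦ
  have hNΦ : ∀ k k', Nice4 (Φ k k') := by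
    intro k k'
    have h1 : Nice4 (fun t => (‖FF N phi (fb (up 1 b) χ) (v - (k : ℝ) / M) t‖ *
        ‖QP (xc χ) (slice m k') t‖ ^ ell k k') ^ 2) :=
      ((nice4_DP N _).mul ((nice4_QP (xc χ) m k').pow _)).pow 2
    have h2 : Φ k k' = (fun t => (‖FF N phi (fb (up 1 b) χ) (v - (k : ℝ) / M) t‖ *
        ‖QP (xc χ) (slice m k') t‖ ^ ell k k') ^ 2) := by
      funext t
      simp only [hΦ, norm_mul, norm_pow]
    rw [h2]
    exact h1
  have hN1 : ∀ k ∈ Finset.Ico (M ^ 2) (M ^ 3), ∀ k' ∈ Finset.Ico (m ^ 2) (m ^ 3),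
      Nice4 (fun t => (c k * d k k') * Φ k k' t) := fun k _ k' _ => (Nice4.const _).mul (hNΦ k k')
  have hN2 : ∀ k ∈ Finset.Ico (M ^ 2) (M ^ 3), Nice4 (fun t => ∑ k' ∈ Finset.Ico (m ^ 2) (m ^ 3),
      (c k * d k k') * Φ k k' t) := fun k hk => Nice4.sum _ (hN1 k hk)
  have hN3 : Nice4 (fun t => ∑ k ∈ Finset.Ico (M ^ 2) (M ^ 3),
      ∑ k' ∈ Finset.Ico (m ^ 2) (m ^ 3), (c k * d k k') * Φ k k' t) := Nice4.sum _ hN2
  have hNE : Nice4 (fun t => ‖DP N (er M b χ v) t‖ ^ 2) := (nice4_DP N _).pow 2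
  have hNF : Nice4 (fun t => ‖FF N phi (fb b χ) v t‖ ^ 2) := (nice4_DP N _).pow 2
  have hΦ0 : ∀ k k' t, 0 ≤ Φ k k' t := fun k k' t => by simp only [hΦ]; positivity
  have hc0 : ∀ k, 0 < c k := fun k => Real.exp_pos _
  have hd0 : ∀ k k', 0 < d k k' := fun k k' => Real.exp_pos _
  have hmeas : MeasurableSet (Sm α (xc χ) M \ Sm α (xc χ) m) :=
    (isClosed_Sm α (xc χ) M).measurableSet.diff (isClosed_Sm α (xc χ) m).measurableSet
  have hint := nice4_le hmeas hη hNF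
    (G := fun t => (2 * (M : ℝ) ^ 3) * (∑ k ∈ Finset.Ico (M ^ 2) (M ^ 3),
      ∑ k' ∈ Finset.Ico (m ^ 2) (m ^ 3), (c k * d k k') * Φ k k' t) +
      2 * ‖DP N (er M b χ v) t‖ ^ 2)
    (((Nice4.const _).mul hN3).add ((Nice4.const 2).mul hNE))
    (fun t => add_nonneg (mul_nonneg (by positivity) (sum_nonneg fun k _ => sum_nonneg fun k' _ =>
      mul_nonneg (mul_pos (hc0 k) (hd0 k k')).le (hΦ0 k k' t))) (by positivity))
    (by
      rintro t ⟨htM, htm⟩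
      obtain ⟨k0, hk0, hk0'⟩ : ∃ k' ∈ Finset.Ico (m ^ 2) (m ^ 3),
          Real.exp (-(al α m * ((k' : ℝ) / m))) < ‖QP (xc χ) (slice m k') t‖ := by
        by_contra hcon
        push Not at hcon
        exact htm hcon
      refine (decomp_sq4 (by omega) hW v hN b χ t).trans ?_
      have h1 : ∑ k ∈ Finset.Ico (M ^ 2) (M ^ 3), ‖QP (xc χ) (slice M k) t‖ ^ 2 *
          ‖FF N phi (fb (up 1 b) χ) (v - (k : ℝ) / M) t‖ ^ 2 ≤
          ∑ k ∈ Finset.Ico (M ^ 2) (M ^ 3),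
            ∑ k' ∈ Finset.Ico (m ^ 2) (m ^ 3), (c k * d k k') * Φ k k' t := by
        refine sum_le_sum fun k hkm => ?_
        have h2 : ‖QP (xc χ) (slice M k) t‖ ^ 2 ≤ c k := by
          have h3 := pow_le_pow_left₀ (norm_nonneg _) (htM k hkm) 2
          refine h3.trans (le_of_eq ?_)
          rw [← Real.exp_nat_mul]
          simp only [hc]
          congr 1
          push_cast
          ring
        have h4 : ‖FF N phi (fb (up 1 b) χ) (v - (k : ℝ) / M) t‖ ^ 2 ≤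
            d k k0 * Φ k k0 t := by
          have h5 : 1 ≤ ‖QP (xc χ) (slice m k0) t‖ * Real.exp (al α m * ((k0 : ℝ) / m)) := by
            have h6 : Real.exp (-(al α m * ((k0 : ℝ) / m))) * Real.exp (al α m * ((k0 : ℝ) / m)) = 1 := by
              rw [← Real.exp_add]
              simp
            rw [← h6]
            exact mul_le_mul_of_nonneg_right hk0'.le (Real.exp_pos _).le
          have h6 : 1 ≤ (‖QP (xc χ) (slice m k0) t‖ *
              Real.exp (al α m * ((k0 : ℝ) / m))) ^ (2 * ell k k0) := one_le_pow₀ h5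
          have h7 : d k k0 = Real.exp (al α m * ((k0 : ℝ) / m)) ^ (2 * ell k k0) := by
            rw [← Real.exp_nat_mul]
            simp only [hd]
            congr 1
            push_cast
            ring
          have h8 : d k k0 * Φ k k0 t = ‖FF N phi (fb (up 1 b) χ) (v - (k : ℝ) / M) t‖ ^ 2 *
              (‖QP (xc χ) (slice m k0) t‖ *
              Real.exp (al α m * ((k0 : ℝ) / m))) ^ (2 * ell k k0) := by
            rw [h7]
            simp only [hΦ, norm_mul, norm_pow]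
            ring
          rw [h8]
          exact le_mul_of_one_le_right (by positivity) h6
        have h9 : (c k * d k k0) * Φ k k0 t ≤
            ∑ k' ∈ Finset.Ico (m ^ 2) (m ^ 3), (c k * d k k') * Φ k k' t :=
          single_le_sum (f := fun k' => (c k * d k k') * Φ k k' t)
            (fun k' _ => mul_nonneg (mul_pos (hc0 k) (hd0 k k')).le (hΦ0 k k' t)) hk0
        refine le_trans ?_ h9
        rw [mul_assoc]
        exact mul_le_mul h2 h4 (by positivity) (hc0 k).le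
      have h2 := mul_le_mul_of_nonneg_left h1 (by positivity : (0 : ℝ) ≤ 2 * (M : ℝ) ^ 3)
      linarith)
  refine hint.trans ?_
  rw [nice4_integral_add hη ((Nice4.const _).mul hN3) ((Nice4.const 2).mul hNE),
    nice4_integral_mul, nice4_integral_mul, nice4_integral_sum hη _ hN2]
  have hE := her M hM2 hW v (by nlinarith) b hb q χ N _ hη hη2
  have hE2 := mul_le_mul_of_nonneg_left (err_level4 hM2 hW2) hC2.le
  have hS : ∑ k ∈ Finset.Ico (M ^ 2) (M ^ 3), ∫ t, (∑ k' ∈ Finset.Ico (m ^ 2) (m ^ 3),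
      (c k * d k k') * Φ k k' t) * wt (h * Real.exp (-v)) t ≤
      (M : ℝ) ^ 3 * ((m : ℝ) ^ 3 * (C1 * Real.exp (-(6 * (M : ℝ) / Real.sqrt m)))) := by
    have h1 : ∀ k ∈ Finset.Ico (M ^ 2) (M ^ 3), ∫ t, (∑ k' ∈ Finset.Ico (m ^ 2) (m ^ 3),
      (c k * d k k') * Φ k k' t) * wt (h * Real.exp (-v)) t ≤
      (m : ℝ) ^ 3 * (C1 * Real.exp (-(6 * (M : ℝ) / Real.sqrt m))) := by
      intro k hkm
      obtain ⟨hk1, hk2⟩ := hk k hkm
      rw [nice4_integral_sum hη _ (hN1 k hkm)]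
      have h2 : ∀ k' ∈ Finset.Ico (m ^ 2) (m ^ 3), ∫ t, ((c k * d k k') * Φ k k' t) *
          wt (h * Real.exp (-v)) t ≤ C1 * Real.exp (-(6 * (M : ℝ) / Real.sqrt m)) := by
        intro k' hkm'
        rw [nice4_integral_mul]
        have hkk' := hk' k' hkm'
        have hk0 : 0 < (k' : ℝ) / m := by linarith
        have hkM0 : 0 < (k : ℝ) / M := by linarith
        have hell1 : 1 ≤ ell k k' := by
          simp only [hell]
          exact Nat.one_le_iff_ne_zero.2 (Nat.ceil_pos.2 (div_pos hkM0 hk0)).ne'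
        have hell2 : (k : ℝ) / M ≤ (k' : ℝ) / m * (ell k k' : ℕ) := by
          have h3 : ((k : ℝ) / M) / ((k' : ℝ) / m) ≤ (ell k k' : ℕ) := Nat.le_ceil _
          rw [div_le_iff₀ hk0] at h3
          linarith
        have h3 := hmom m hm2' k' (mem_Ico.1 hkm').1 (ell k k') hell1 ((k : ℝ) / M) v hkM0.le hell2
          (by nlinarith) _ hη hη2 (xc χ)
          (fun p => DirichletCharacter.norm_le_one χ _) (fb (up 1 b) χ) (norm_fb χ hup) N hN
        have h4 := hkk k hkm k' hkm'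
        calc c k * d k k' * ∫ t, Φ k k' t * wt (h * Real.exp (-v)) t
            ≤ c k * d k k' * (C1 * (3 * ((ell k k' : ℕ) : ℝ)) ^ (ell k k') *
              Real.exp (ell k k' : ℕ)) :=
              mul_le_mul_of_nonneg_left h3 (mul_pos (hc0 k) (hd0 k k')).le
          _ = C1 * (c k * d k k' * ((3 * ((ell k k' : ℕ) : ℝ)) ^ (ell k k') *
              Real.exp (ell k k' : ℕ))) := by ring
          _ ≤ C1 * Real.exp (-(6 * (M : ℝ) / Real.sqrt m)) :=
              mul_le_mul_of_nonneg_left h4 hC1.le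
      refine (sum_le_card_nsmul _ _ _ h2).trans ?_
      rw [nsmul_eq_mul]
      apply mul_le_mul_of_nonneg_right _ (by positivity)
      rw [Nat.card_Ico]
      have : m ^ 3 - m ^ 2 ≤ m ^ 3 := Nat.sub_le _ _
      exact_mod_cast this
    refine (sum_le_card_nsmul _ _ _ h1).trans ?_
    rw [nsmul_eq_mul]
    apply mul_le_mul_of_nonneg_right _ (by positivity)
    rw [Nat.card_Ico]
    have : M ^ 3 - M ^ 2 ≤ M ^ 3 := Nat.sub_le _ _
    exact_mod_cast this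
  have h5 : (2 * (M : ℝ) ^ 3) * ∑ k ∈ Finset.Ico (M ^ 2) (M ^ 3), ∫ t,
      (∑ k' ∈ Finset.Ico (m ^ 2) (m ^ 3),
      (c k * d k k') * Φ k k' t) * wt (h * Real.exp (-v)) t ≤ 2 * C1 * (1 / Real.log M) := by
    calc _ ≤ (2 * (M : ℝ) ^ 3) *
          ((M : ℝ) ^ 3 * ((m : ℝ) ^ 3 * (C1 * Real.exp (-(6 * (M : ℝ) / Real.sqrt m))))) :=
          mul_le_mul_of_nonneg_left hS (by positivity)
      _ = 2 * C1 * ((M : ℝ) ^ 6 * (m : ℝ) ^ 3 * Real.exp (-(6 * (M : ℝ) / Real.sqrt m))) := by ring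
      _ ≤ _ := mul_le_mul_of_nonneg_left htail (by positivity)
  have h6 : (2 * C1 + 6 * C2) / Real.log M =
      2 * C1 * (1 / Real.log M) + 2 * (C2 * (3 / Real.log M)) := by ring
  rw [h6]
  linarith

end MRD
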