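import Mathlib
import Pool.Agent.Helper72.MRD.Defs
import Pool.Agent.Helper72.MRD.D04

set_option autoImplicit false

/-!
MRD-D05. The chain of levels.

Let `L_j = lev m1 j` (`L_0 = m1`, `L_{j+1} = nxt L_j`: `Function.iterate_succ_apply'`). By
`level_numeric`, `L_j ≤ L_{j+1}` and `log L_{j+1} ≥ 2 log L_j`, so `log L_j ≥ 2^j log m1`.
Let `I_j = ∫_{Sm L_j}`. `Sm L_{j+1} ⊆ Sm L_j ∪ (Sm L_{j+1} \ Sm L_j)`, so
`I_{j+1} ≤ I_j + C/log L_{j+1} ≤ I_j + C/(2^{j+1} log m1)` (`level_pair`), `I_0 ≤ C'/log m1`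
(`level_one`). Prove by induction `I_j ≤ (C' + C (1 - 2^{-j}))/log m1`.
(`2 L_i² ≤ v` for `i ≤ j` by monotonicity; integrability as in D02/D04: bounded continuous
function times `wt`.)
-/

namespace MRD

open Finset MRP MeasureTheory

private lemma d05_DP_bound (N : ℕ) (a : ℕ → ℂ) (t : ℝ) :
    ‖DP N a t‖ ≤ ∑ n ∈ Finset.Icc 1 N, ‖a n‖ * (1 / (n : ℝ)) := by
  unfold DP
  refine (norm_sum_le _ _).trans (le_of_eq ?_)
  refine Finset.sum_congr rfl fun n hn => ?_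
  rw [norm_mul, norm_cp (Finset.mem_Icc.mp hn).1]

private lemma d05_int_wt (η : ℝ) (hη : 0 < η) : Integrable (wt η) := by
  have h := integrable_exp_neg_mul_sq (b := η ^ 2 / 2) (by positivity)
  refine h.congr (Filter.Eventually.of_forall fun t => ?_)
  simp only [wt]
  congr 1
  ring

private lemma d05_int (N : ℕ) (φ : ℝ → ℝ) (g : ℕ → ℂ) (v η : ℝ) (hη : 0 < η) :
    Integrable (fun t => ‖FF N φ g v t‖ ^ 2 * wt η t) := by
  set K := ∑ n ∈ Finset.Icc 1 N, ‖cut φ v g n‖ * (1 / (n : ℝ)) with hK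
  refine ((d05_int_wt η hη).const_mul (K ^ 2)).mono' ?_ ?_
  · refine Continuous.aestronglyMeasurable ?_
    have h1 : Continuous (fun t => FF N φ g v t) := continuous_DP N (cut φ v g)
    exact ((h1.norm).pow 2).mul (continuous_wt η)
  · refine Filter.Eventually.of_forall fun t => ?_
    have h1 : ‖FF N φ g v t‖ ≤ K := d05_DP_bound N (cut φ v g) t
    have h2 := wt_pos η t
    rw [Real.norm_eq_abs, abs_mul, abs_of_nonneg (sq_nonneg _), abs_of_pos h2]
    gcongr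

theorem chain (α : ℝ) (hα : 0 < α) (hα1 : α ≤ 1 / 2) : ∃ (C : ℝ) (m0 : ℕ), 0 < C ∧
    ∀ m1 : ℕ, m0 ≤ m1 → ∀ h : ℝ, Real.exp ((m1 : ℝ) ^ 2) ≤ h → ∀ (j : ℕ) (v : ℝ),
    2 * ((lev m1 j : ℕ) : ℝ) ^ 2 ≤ v → h ≤ Real.exp v → ∀ b : ℕ → ℝ, (∀ k, |b k| ≤ 2) →
    ∀ (q : ℕ) (χ : DirichletCharacter ℂ q), ∀ N : ℕ, Real.exp (v + 4) ≤ N →
    ∫ t in Sm α (xc χ) (lev m1 j),
      ‖FF N phi (fb b χ) v t‖ ^ 2 * wt (h * Real.exp (-v)) t ≤ C / Real.log m1 := by
  obtain ⟨C1, a1, hC1, H1⟩ := level_one α hα hα1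
  obtain ⟨C2, a2, hC2, H2⟩ := level_pair α hα hα1
  obtain ⟨a3, ha3, H3⟩ := level_numeric α hα hα1
  refine ⟨C1 + C2, max (max a1 a2) a3, by positivity, ?_⟩
  intro m1 hm1 h hh j
  have hm1a : a1 ≤ m1 := le_trans (le_trans (le_max_left _ _) (le_max_left _ _)) hm1
  have hm1b : a2 ≤ m1 := le_trans (le_trans (le_max_right _ _) (le_max_left _ _)) hm1
  have hm1c : a3 ≤ m1 := le_trans (le_max_right _ _) hm1
  have hm2 : 2 ≤ m1 := ha3.trans hm1c
  have hlog : 0 < Real.log m1 := Real.log_pos (by exact_mod_cast (by omega : 1 < m1))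
  have hlevs : ∀ j, lev m1 (j + 1) = nxt (lev m1 j) := fun j => by
    unfold lev; rw [Function.iterate_succ_apply']
  have hlev : ∀ j, m1 ≤ lev m1 j ∧ (2 : ℝ) ^ j * Real.log m1 ≤ Real.log (lev m1 j) := by
    intro j
    induction j with
    | zero => simp [lev]
    | succ j ih =>
      obtain ⟨ih1, ih2⟩ := ih
      obtain ⟨e1, e2, -, -⟩ := H3 (lev m1 j) (hm1c.trans ih1)
      rw [hlevs j]
      refine ⟨ih1.trans e1, ?_⟩
      rw [pow_succ]
      linarith
  have hmono : ∀ j, lev m1 j ≤ lev m1 (j + 1) := by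
    intro j
    rw [hlevs j]
    exact (H3 (lev m1 j) (hm1c.trans (hlev j).1)).1
  have hh1 : 1 ≤ h := le_trans (Real.one_le_exp (by positivity)) hh
  have main : ∀ (j : ℕ) (v : ℝ),
    2 * ((lev m1 j : ℕ) : ℝ) ^ 2 ≤ v → h ≤ Real.exp v → ∀ b : ℕ → ℝ, (∀ k, |b k| ≤ 2) →
    ∀ (q : ℕ) (χ : DirichletCharacter ℂ q), ∀ N : ℕ, Real.exp (v + 4) ≤ N →
    ∫ t in Sm α (xc χ) (lev m1 j),
      ‖FF N phi (fb b χ) v t‖ ^ 2 * wt (h * Real.exp (-v)) t ≤
        (C1 + C2 * (1 - 1 / 2 ^ j)) / Real.log m1 := by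
    intro j
    induction j with
    | zero =>
      intro v hv hhv b hb q χ N hN
      have hl0 : lev m1 0 = m1 := rfl
      rw [hl0] at hv ⊢
      have := H1 m1 hm1a h hh v hv hhv b hb q χ N hN
      simpa using this
    | succ j ih =>
      intro v hv hhv b hb q χ N hN
      have hle : ((lev m1 j : ℕ) : ℝ) ≤ ((lev m1 (j + 1) : ℕ) : ℝ) := by exact_mod_cast hmono j
      have hv' : 2 * ((lev m1 j : ℕ) : ℝ) ^ 2 ≤ v := by
        refine le_trans ?_ hv
        gcongr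
      have hI := ih v hv' hhv b hb q χ N hN
      have hη : 0 < h * Real.exp (-v) := by positivity
      have hint := d05_int N phi (fb b χ) v (h * Real.exp (-v)) hη
      have hnn : ∀ t, 0 ≤ ‖FF N phi (fb b χ) v t‖ ^ 2 * wt (h * Real.exp (-v)) t := fun t =>
        mul_nonneg (sq_nonneg _) (wt_pos _ _).le
      set A := Sm α (xc χ) (lev m1 (j + 1)) with hA
      set B := Sm α (xc χ) (lev m1 j) with hB
      have hBm : MeasurableSet B := (isClosed_Sm α (xc χ) (lev m1 j)).measurableSet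
      have hsplit := integral_inter_add_diff (μ := volume) (s := A) hBm hint.integrableOn
      have h1 : ∫ t in A ∩ B, ‖FF N phi (fb b χ) v t‖ ^ 2 * wt (h * Real.exp (-v)) t ≤
          ∫ t in B, ‖FF N phi (fb b χ) v t‖ ^ 2 * wt (h * Real.exp (-v)) t := by
        refine setIntegral_mono_set hint.integrableOn (Filter.Eventually.of_forall hnn) ?_
        exact (Set.inter_subset_right).eventuallyLE
      have hv2 : 2 * ((nxt (lev m1 j) : ℕ) : ℝ) ^ 2 ≤ v := by rw [← hlevs j]; exact hv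
      have h2 := H2 (lev m1 j) (hm1b.trans (hlev j).1) h hh1 v hv2 hhv b hb q χ N hN
      rw [← hlevs j] at h2
      have h3 : C2 / Real.log (lev m1 (j + 1)) ≤ C2 / (2 ^ (j + 1) * Real.log m1) := by
        have := (hlev (j + 1)).2
        gcongr
      have h4 : C2 / (2 ^ (j + 1) * Real.log m1) = (C2 * (1 / 2 ^ (j + 1))) / Real.log m1 := by
        field_simp
      have h5 : (C1 + C2 * (1 - 1 / 2 ^ j)) / Real.log m1 +
          (C2 * (1 / 2 ^ (j + 1))) / Real.log m1 =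
          (C1 + C2 * (1 - 1 / 2 ^ (j + 1))) / Real.log m1 := by
        rw [← add_div]
        congr 1
        have : (1 : ℝ) / 2 ^ j = 2 * (1 / 2 ^ (j + 1)) := by
          rw [pow_succ]; field_simp
        rw [this]; ring
      linarith
  intro v hv hhv b hb q χ N hN
  refine (main j v hv hhv b hb q χ N hN).trans ?_
  have hp : (0 : ℝ) < 1 / 2 ^ j := by positivity
  have : C1 + C2 * (1 - 1 / 2 ^ j) ≤ C1 + C2 := by nlinarith
  gcongr

end MRD
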