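import Mathlib
import Pool.Agent.Helper72.MRD.Defs
import Pool.Agent.Helper72.MRD.B01

set_option autoImplicit false

/-!
MRD-G01. Very large `t`.

`η = h e^{-v}`; for `|t| > e^{1.2V} ≥ e^v`, `η|t| ≥ h`, so
`wt η t = exp(-(ηt)²/4) exp(-(ηt)²/4) ≤ exp(-h²/4) wt (η/√2) t`; integrate: `FF_mean` with `η/√2`
(`φ = phi`, `A = 1`): `C (√2/η e^{-v} + 1) = C (√2/h + 1) ≤ 3C`.
-/

namespace MRD

open Finset MRP MeasureTheory

lemma g01_DP_bound (N : ℕ) (a : ℕ → ℂ) (t : ℝ) :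
    ‖DP N a t‖ ≤ ∑ n ∈ Finset.Icc 1 N, ‖a n‖ * (1 / (n : ℝ)) := by
  unfold DP
  refine (norm_sum_le _ _).trans (le_of_eq ?_)
  refine Finset.sum_congr rfl fun n hn => ?_
  rw [norm_mul, norm_cp (Finset.mem_Icc.mp hn).1]

lemma g01_int_wt (η : ℝ) (hη : 0 < η) : Integrable (wt η) := by
  have h := integrable_exp_neg_mul_sq (b := η ^ 2 / 2) (by positivity)
  refine h.congr (Filter.Eventually.of_forall fun t => ?_)
  simp only [wt]
  congr 1
  ring

lemma g01_int (N : ℕ) (φ : ℝ → ℝ) (g : ℕ → ℂ) (v η : ℝ) (hη : 0 < η) :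
    Integrable (fun t => ‖FF N φ g v t‖ ^ 2 * wt η t) := by
  set K := ∑ n ∈ Finset.Icc 1 N, ‖cut φ v g n‖ * (1 / (n : ℝ)) with hK
  refine ((g01_int_wt η hη).const_mul (K ^ 2)).mono' ?_ ?_
  · refine Continuous.aestronglyMeasurable ?_
    have h1 : Continuous (fun t => FF N φ g v t) := continuous_DP N (cut φ v g)
    exact ((h1.norm).pow 2).mul (continuous_wt η)
  · refine Filter.Eventually.of_forall fun t => ?_
    have h1 : ‖FF N φ g v t‖ ≤ K := g01_DP_bound N (cut φ v g) t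
    have h2 := wt_pos η t
    rw [Real.norm_eq_abs, abs_mul, abs_of_nonneg (sq_nonneg _), abs_of_pos h2]
    gcongr

theorem tail_t : ∃ C : ℝ, 0 < C ∧ ∀ h : ℝ, 1 ≤ h → ∀ v : ℝ, 0 ≤ v → ∀ T : ℝ,
    Real.exp v ≤ T → ∀ g : ℕ → ℂ, (∀ n, ‖g n‖ ≤ 2) → ∀ N : ℕ, Real.exp (v + 4) ≤ N →
    ∫ t in (Set.Icc (-T) T)ᶜ, ‖FF N phi g v t‖ ^ 2 * wt (h * Real.exp (-v)) t ≤
      C * Real.exp (-(h ^ 2 / 4)) := by
  obtain ⟨C, hC, H⟩ := FF_mean
  refine ⟨3 * C, by positivity, ?_⟩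
  intro h hh v hv T hT g hg N hN
  have hev := Real.exp_pos v
  have hev' := Real.exp_pos (-v)
  have hvv : Real.exp v * Real.exp (-v) = 1 := by rw [← Real.exp_add]; simp
  set η : ℝ := h * Real.exp (-v) with hη
  have hη0 : 0 < η := by positivity
  have h2 : (0 : ℝ) < Real.sqrt 2 := by positivity
  have h22 : Real.sqrt 2 ^ 2 = 2 := Real.sq_sqrt (by norm_num)
  set η' : ℝ := η / Real.sqrt 2 with hη'
  have hη'0 : 0 < η' := by positivity
  have hI' := g01_int N phi g v η' hη'0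
  have hI := g01_int N phi g v η hη0
  have hmean := H phi 1 zero_le_one (fun x => by
    rw [abs_le]; exact ⟨by linarith [phi_nonneg x], phi_le_one x⟩)
    (fun x hx => phi_eq_zero (by
      rcases hx with hx | hx
      · left; linarith
      · right; linarith)) g hg v hv η' hη'0 N hN
  have hpt : ∀ t ∈ (Set.Icc (-T) T)ᶜ, ‖FF N phi g v t‖ ^ 2 * wt η t ≤
      Real.exp (-(h ^ 2 / 4)) * (‖FF N phi g v t‖ ^ 2 * wt η' t) := by
    intro t ht
    have ht' : T < |t| := by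
      by_contra hcon
      rw [not_lt, abs_le] at hcon
      exact ht hcon
    have h3 : h ≤ η * |t| := by
      have : h = η * Real.exp v := by
        rw [hη, mul_assoc, mul_comm (Real.exp (-v)), hvv, mul_one]
      rw [this]
      gcongr
      linarith
    have h4 : wt η t ≤ Real.exp (-(h ^ 2 / 4)) * wt η' t := by
      unfold wt
      rw [← Real.exp_add]
      apply Real.exp_le_exp.mpr
      have e1 : (η' * t) ^ 2 = (η * |t|) ^ 2 / 2 := by
        rw [hη', mul_pow (η / Real.sqrt 2) t 2, div_pow, h22, mul_pow η |t| 2, sq_abs]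
        ring
      have e2 : (η * t) ^ 2 = (η * |t|) ^ 2 := by
        rw [mul_pow η t 2, mul_pow η |t| 2, sq_abs]
      rw [e1, e2]
      have : h ^ 2 ≤ (η * |t|) ^ 2 := by gcongr
      linarith
    calc ‖FF N phi g v t‖ ^ 2 * wt η t ≤
        ‖FF N phi g v t‖ ^ 2 * (Real.exp (-(h ^ 2 / 4)) * wt η' t) := by gcongr
      _ = _ := by ring
  calc ∫ t in (Set.Icc (-T) T)ᶜ, ‖FF N phi g v t‖ ^ 2 * wt η t
      ≤ ∫ t in (Set.Icc (-T) T)ᶜ, Real.exp (-(h ^ 2 / 4)) * (‖FF N phi g v t‖ ^ 2 * wt η' t) := by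
        refine setIntegral_mono_on hI.integrableOn (hI'.const_mul _).integrableOn
          measurableSet_Icc.compl hpt
    _ = Real.exp (-(h ^ 2 / 4)) * ∫ t in (Set.Icc (-T) T)ᶜ, (‖FF N phi g v t‖ ^ 2 * wt η' t) := by
        rw [integral_const_mul]
    _ ≤ Real.exp (-(h ^ 2 / 4)) * ∫ t : ℝ, (‖FF N phi g v t‖ ^ 2 * wt η' t) := by
        refine mul_le_mul_of_nonneg_left ?_ (Real.exp_pos _).le
        refine setIntegral_le_integral hI' (Filter.Eventually.of_forall fun t => ?_)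
        exact mul_nonneg (sq_nonneg _) (wt_pos _ _).le
    _ ≤ Real.exp (-(h ^ 2 / 4)) * (C * 1 ^ 2 * (1 / η' * Real.exp (-v) + 1)) := by
        exact mul_le_mul_of_nonneg_left hmean (Real.exp_pos _).le
    _ ≤ 3 * C * Real.exp (-(h ^ 2 / 4)) := by
        have e1 : 1 / η' * Real.exp (-v) = Real.sqrt 2 / h := by
          rw [hη', hη]
          field_simp
        have e2 : Real.sqrt 2 / h ≤ 2 := by
          rw [div_le_iff₀ (by linarith)]
          nlinarith [Real.sqrt_nonneg 2]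
        rw [e1]
        have := Real.exp_pos (-(h ^ 2 / 4))
        nlinarith [mul_pos hC this]

end MRD
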