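import Mathlib
import Pool.Agent.Helper72.MRD.Defs
import Pool.Agent.Helper72.MRD.D05
import Pool.Agent.Helper72.MRD.G01

set_option autoImplicit false

/-!
MRD-H01 (single scale). Upper bound for `II` at one `v`, for any level `m = lev m1 j` (black boxes:
`chain`, `tail_t`).

`f = fb b χ`. `ℝ = Sm ∪ (Icc (-T) T)ᶜ ∪ {|t| ≤ T1} ∪ U` where `Sm = Sm α (xc χ) (lev m1 j)`. On `Sm`:
`chain`. On `(Icc (-T) T)ᶜ`: `tail_t` (`g = f`). On `{|t| ≤ T1}`: `‖FF‖² wt ≤ K²`, measure `2 T1`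
(empty if `T1 < 0`). On `U`: `wt ≤ 1`. All integrands are continuous, bounded by a constant times
`wt`, or on a bounded set.
-/

namespace MRD

open Finset MRP MeasureTheory

theorem II_le (α : ℝ) (hα : 0 < α) (hα1 : α ≤ 1 / 2) : ∃ (C : ℝ) (m0 : ℕ), 0 < C ∧
    ∀ m1 : ℕ, m0 ≤ m1 → ∀ h : ℝ, Real.exp ((m1 : ℝ) ^ 2) ≤ h → ∀ (j : ℕ) (v : ℝ),
    2 * ((lev m1 j : ℕ) : ℝ) ^ 2 ≤ v → h ≤ Real.exp v → ∀ b : ℕ → ℝ, (∀ k, |b k| ≤ 2) →
    ∀ (q : ℕ) (χ : DirichletCharacter ℂ q), ∀ N : ℕ, Real.exp (v + 4) ≤ N →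
    ∀ T T1 K : ℝ, Real.exp v ≤ T → 0 ≤ K →
    (∀ t : ℝ, |t| ≤ T1 → ‖FF N phi (fb b χ) v t‖ ≤ K) → ∀ U : Set ℝ, MeasurableSet U →
    U ⊆ Set.Icc (-T) T →
    (∀ t : ℝ, |t| ≤ T → t ∉ Sm α (xc χ) (lev m1 j) → T1 < |t| → t ∈ U) →
    II N phi (fb b χ) (h * Real.exp (-v)) v ≤
      C * (1 / Real.log m1 + Real.exp (-(h ^ 2 / 4))) + 2 * max T1 0 * K ^ 2 +
        ∫ t in U, ‖FF N phi (fb b χ) v t‖ ^ 2 := by
  obtain ⟨C1, m0, hC1, hch⟩ := chain α hα hα1
  obtain ⟨C2, hC2, htl⟩ := tail_t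
  refine ⟨C1 + C2, m0, by positivity, ?_⟩
  intro m1 hm1 h hh j v hv hhv b hb q χ N hN T T1 K hT hK hT1 U hU hUT hcov
  have hch' := hch m1 hm1 h hh j v hv hhv b hb q χ N hN
  have hv0 : 0 ≤ v := le_trans (by positivity) hv
  have hh1 : 1 ≤ h := le_trans (Real.one_le_exp (by positivity)) hh
  have hbb : ∀ n, ‖fb b χ n‖ ≤ 2 := norm_fb χ hb
  have htl' := htl h hh1 v hv0 T hT (fb b χ) hbb N hN
  have hη : 0 < h * Real.exp (-v) := by positivity
  set F : ℝ → ℝ := fun t => ‖FF N phi (fb b χ) v t‖ ^ 2 * wt (h * Real.exp (-v)) t with hF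
  have hFi : Integrable F := integrable_DP_sq _ hη N (cut phi v (fb b χ))
  have hF0 : ∀ t, 0 ≤ F t := fun t => mul_nonneg (sq_nonneg _) (wt_pos _ _).le
  set S := Sm α (xc χ) (lev m1 j) with hS
  have hSm : MeasurableSet S := (isClosed_Sm α (xc χ) (lev m1 j)).measurableSet
  have hEm : MeasurableSet ((Set.Icc (-T) T)ᶜ) := measurableSet_Icc.compl
  have hIm : MeasurableSet (Set.Icc (-T1) T1) := measurableSet_Icc
  have hcont : Continuous (fun t => ‖FF N phi (fb b χ) v t‖ ^ 2) :=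
    (continuous_DP N (cut phi v (fb b χ))).norm.pow 2
  have hpt : ∀ t, F t ≤ S.indicator F t + ((Set.Icc (-T) T)ᶜ).indicator F t +
      (Set.Icc (-T1) T1).indicator F t + U.indicator F t := by
    intro t
    have n1 : 0 ≤ S.indicator F t := Set.indicator_nonneg (fun x _ => hF0 x) t
    have n2 : 0 ≤ ((Set.Icc (-T) T)ᶜ).indicator F t := Set.indicator_nonneg (fun x _ => hF0 x) t
    have n3 : 0 ≤ (Set.Icc (-T1) T1).indicator F t := Set.indicator_nonneg (fun x _ => hF0 x) t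
    have n4 : 0 ≤ U.indicator F t := Set.indicator_nonneg (fun x _ => hF0 x) t
    by_cases c1 : t ∈ S
    · rw [Set.indicator_of_mem c1] at n1 ⊢
      linarith
    by_cases c2 : t ∈ (Set.Icc (-T) T)ᶜ
    · rw [Set.indicator_of_mem c2] at n2 ⊢
      linarith
    by_cases c3 : t ∈ Set.Icc (-T1) T1
    · rw [Set.indicator_of_mem c3] at n3 ⊢
      linarith
    have c4 : t ∈ U := by
      rw [Set.notMem_compl_iff] at c2
      refine hcov t (abs_le.2 c2) c1 ?_
      by_contra hlt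
      exact c3 (abs_le.1 (not_lt.1 hlt))
    rw [Set.indicator_of_mem c4] at n4 ⊢
    linarith
  have hsum : ∫ t, F t ≤ (∫ t in S, F t) + (∫ t in (Set.Icc (-T) T)ᶜ, F t) +
      (∫ t in Set.Icc (-T1) T1, F t) + ∫ t in U, F t := by
    have i1 := hFi.indicator hSm
    have i2 := hFi.indicator hEm
    have i3 := hFi.indicator hIm
    have i4 := hFi.indicator hU
    rw [← integral_indicator hSm, ← integral_indicator hEm, ← integral_indicator hIm,
      ← integral_indicator hU, ← integral_add' i1 i2, ← integral_add' (i1.add i2) i3,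
      ← integral_add' ((i1.add i2).add i3) i4]
    exact integral_mono hFi (((i1.add i2).add i3).add i4) hpt
  have h3 : ∫ t in Set.Icc (-T1) T1, F t ≤ 2 * max T1 0 * K ^ 2 := by
    calc ∫ t in Set.Icc (-T1) T1, F t ≤ ∫ t in Set.Icc (-T1) T1, K ^ 2 := by
          refine setIntegral_mono_on hFi.integrableOn ?_ hIm fun t ht => ?_
          · exact (continuous_const).integrableOn_Icc
          · have e1 := hT1 t (abs_le.2 ht)
            have e2 : ‖FF N phi (fb b χ) v t‖ ^ 2 ≤ K ^ 2 := pow_le_pow_left₀ (norm_nonneg _) e1 2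
            calc F t ≤ K ^ 2 * 1 :=
                  mul_le_mul e2 (wt_le_one _ _) (wt_pos _ _).le (sq_nonneg K)
              _ = K ^ 2 := mul_one _
      _ = 2 * max T1 0 * K ^ 2 := by
          rw [setIntegral_const, Real.volume_real_Icc, smul_eq_mul]
          congr 1
          have e3 : T1 - -T1 = 2 * T1 := by ring
          rw [e3]
          rcases le_total T1 0 with h0 | h0
          · rw [max_eq_right h0, max_eq_right (by linarith)]
            ring
          · rw [max_eq_left h0, max_eq_left (by linarith)]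
  have h4 : ∫ t in U, F t ≤ ∫ t in U, ‖FF N phi (fb b χ) v t‖ ^ 2 := by
    refine setIntegral_mono_on hFi.integrableOn ?_ hU fun t _ => ?_
    · exact (hcont.continuousOn.integrableOn_compact isCompact_Icc).mono_set hUT
    · calc F t ≤ ‖FF N phi (fb b χ) v t‖ ^ 2 * 1 :=
          mul_le_mul_of_nonneg_left (wt_le_one _ _) (sq_nonneg _)
        _ = _ := mul_one _
  have hl : 0 ≤ 1 / Real.log m1 := by
    have := Real.log_natCast_nonneg m1
    positivity
  have he : 0 ≤ Real.exp (-(h ^ 2 / 4)) := (Real.exp_pos _).le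
  have hfin : C1 / Real.log m1 + C2 * Real.exp (-(h ^ 2 / 4)) ≤
      (C1 + C2) * (1 / Real.log m1 + Real.exp (-(h ^ 2 / 4))) := by
    have e1 : C1 / Real.log m1 = C1 * (1 / Real.log m1) := by ring
    rw [e1]
    nlinarith [mul_nonneg hC1.le he, mul_nonneg hC2.le hl]
  have hII : II N phi (fb b χ) (h * Real.exp (-v)) v = ∫ t, F t := rfl
  rw [hII]
  linarith

end MRD
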