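import Mathlib
import Pool.Agent.Helper72.MRD.Defs
import Pool.Agent.Helper72.MRD.UM
import Pool.Agent.Helper72.MRD.A06
import Pool.Agent.Helper72.MRD.D06
import Pool.Agent.Helper72.MRD.D07
import Pool.Agent.Helper72.MRD.H01

set_option autoImplicit false

/-!
MRD-H02 (single scale). The core estimate for one block `v < log n ≤ v + 1`.

Choice of the parameters, in this order. `C` from `SS_le`. `δ = ε/(8C)`. `UMAIN` with `δ` gives
`T0, c`. `α = min (c/8) (1/2)`. `C1, m0` from `II_le`. `m1` larger than all `m0` with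
`C1/log m1 ≤ δ` and, for `h = exp(m1²)`, `C1 exp(-h²/4) ≤ δ`. `ε' > 0` with `2 T0 ε'² ≤ δ`. `H0` with
`C h² ≤ (ε/4) H²` for `H ≥ H0`. Given `H`, take `v ≥ V0` large (all `V0`'s, `4H² ≤ e^v`, `h ≤ e^v`,
`2 √v ≤ v`). `exists_level` at `V = v`: `j` with `m = lev m1 j`, `(log v)²/8 ≤ m`, `m² ≤ √v`, so
`2 m² ≤ v`, `2 ≤ m1 ≤ m`. `T = e^{1.2v}`; if `χ ≠ 1`: `U = Icc (-T) T \ Sm α (xc χ) m`, `T1 = -1`,
`K = 0`; if `χ = 1` : `U = (Icc (-T) T \ Sm) ∩ {t | T0 ≤ |t|}`, `T1 = T0`, `K = ε'` (use the `N` of the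
hypothesis; for another `N` use `FF_congr`). `large_measure` (with `‖xc χ p‖ ≤ 1`) gives
`volume.real U ≤ e^{8αv} ≤ e^{cv}`; `UMAIN` gives `∫_U ≤ δ`. `II_le`: `II ≤ 4δ`; `SS_le`:
`SS ≤ C (4δ H² + h²) ≤ ε H²`.
-/

namespace MRD

open Finset MRP MeasureTheory

private theorem h02_meas (α : ℝ) (x : ℕ → ℂ) (m : ℕ) : MeasurableSet (Sm α x m) := by
  have h1 : Sm α x m = ⋂ k ∈ Finset.Ico (m ^ 2) (m ^ 3),
      {t | ‖QP x (slice m k) t‖ ≤ Real.exp (-(al α m * ((k : ℝ) / m)))} := by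
    ext t
    simp only [Sm, Set.mem_ofPred_eq, Set.mem_iInter]
  rw [h1]
  refine Finset.measurableSet_biInter _ fun k _ => ?_
  have h2 : Continuous (QP x (slice m k)) := by
    unfold QP
    refine continuous_finsetSum _ fun p hp => ?_
    refine continuous_const.mul (continuous_cp ?_)
    unfold slice at hp
    exact (Finset.mem_Icc.mp (Finset.mem_filter.mp hp).1).1
  exact (isClosed_le h2.norm continuous_const).measurableSet

theorem core1 (hU : UMAIN) (q : ℕ) (hq : 1 ≤ q) (χ : DirichletCharacter ℂ q) (ε : ℝ)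
    (hε : 0 < ε) : ∃ (T0 ε' : ℝ) (H0 : ℕ), 0 < T0 ∧ 0 < ε' ∧ ∀ H : ℕ, H0 ≤ H →
    ∃ V0 : ℝ, 1 ≤ V0 ∧ ∀ v : ℝ, V0 ≤ v → ∀ b : ℕ → ℝ, (∀ k, |b k| ≤ 2) →
    (χ ≠ 1 ∨ ∃ N : ℕ, Real.exp (v + 4) ≤ N ∧ ∀ t : ℝ, |t| ≤ T0 →
      ‖FF N phi (fb b χ) v t‖ ≤ ε') →
    SS (fb b χ) H v ≤ ε * (H : ℝ) ^ 2 := by
  obtain ⟨CS, hCS, hSS⟩ := SS_le
  have hδ : 0 < ε / (8 * CS) := by positivity
  set δ : ℝ := ε / (8 * CS) with hδd
  obtain ⟨T0, c, Vu, hT0, hc, hVu, hUm⟩ := hU q hq χ δ hδ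
  have hα : 0 < min (c / 8) (1 / 2) := lt_min (by positivity) (by norm_num)
  have hα1 : min (c / 8) (1 / 2) ≤ 1 / 2 := min_le_right _ _
  have hα2 : 8 * min (c / 8) (1 / 2) ≤ c := by
    have := min_le_left (c / 8) (1 / 2)
    linarith
  set α : ℝ := min (c / 8) (1 / 2) with hαd
  obtain ⟨C1, ma, hC1, hII⟩ := II_le α hα hα1
  obtain ⟨mb, hmb2, hmb⟩ := exists_level
  obtain ⟨Vl, hVl1, hVl⟩ := large_measure α hα hα1
  obtain ⟨m1, hm1a, hm1b, hm1c, hm1d⟩ : ∃ m1 : ℕ, ma ≤ m1 ∧ mb ≤ m1 ∧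
      Real.exp (C1 / δ) ≤ m1 ∧ 4 * C1 / δ ≤ m1 :=
    ⟨max (max ma mb) (max ⌈Real.exp (C1 / δ)⌉₊ ⌈4 * C1 / δ⌉₊),
      le_trans (le_max_left _ _) (le_max_left _ _), le_trans (le_max_right _ _) (le_max_left _ _),
      le_trans (Nat.le_ceil _) (by
        exact_mod_cast le_trans (le_max_left _ _) (le_max_right _ _)),
      le_trans (Nat.le_ceil _) (by
        exact_mod_cast le_trans (le_max_right _ _) (le_max_right _ _))⟩
  have hm12 : 2 ≤ m1 := le_trans hmb2 hm1b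
  have hm1R : (2 : ℝ) ≤ m1 := by exact_mod_cast hm12
  have hm10 : (0 : ℝ) < m1 := by linarith
  set h : ℝ := Real.exp ((m1 : ℝ) ^ 2) with hh
  have hh1 : (m1 : ℝ) ≤ h := by
    have h1 := Real.add_one_le_exp ((m1 : ℝ) ^ 2)
    nlinarith
  have hh0 : 1 ≤ h := by linarith
  have hb1 : C1 * (1 / Real.log m1) ≤ δ := by
    have h1 : C1 / δ ≤ Real.log m1 := (Real.le_log_iff_exp_le hm10).2 hm1c
    have h2 : 0 < C1 / δ := by positivity
    have h3 : 0 < Real.log m1 := lt_of_lt_of_le h2 h1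
    rw [mul_one_div, div_le_iff₀ h3]
    rw [div_le_iff₀ hδ] at h1
    linarith
  have hb2 : C1 * Real.exp (-(h ^ 2 / 4)) ≤ δ := by
    have h1 : 0 < h ^ 2 / 4 := by positivity
    have h2 : Real.exp (-(h ^ 2 / 4)) ≤ 4 / m1 := by
      rw [Real.exp_neg]
      have h3 := Real.add_one_le_exp (h ^ 2 / 4)
      have h4 : (m1 : ℝ) / 4 ≤ h ^ 2 / 4 := by nlinarith
      have h5 : (m1 : ℝ) / 4 ≤ Real.exp (h ^ 2 / 4) := by linarith
      have h6 := inv_anti₀ (by positivity) h5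
      rw [inv_div] at h6
      exact h6
    have h7 : C1 * (4 / m1) ≤ δ := by
      rw [mul_div_assoc', div_le_iff₀ hm10]
      rw [div_le_iff₀ hδ] at hm1d
      linarith
    exact le_trans (mul_le_mul_of_nonneg_left h2 hC1.le) h7
  obtain ⟨Ve, hVe1, hVe⟩ := hmb m1 hm1b
  have hε' : 0 < Real.sqrt (δ / (2 * T0)) := Real.sqrt_pos.2 (by positivity)
  refine ⟨T0, Real.sqrt (δ / (2 * T0)), max 1 ⌈2 * CS * h ^ 2 / ε⌉₊, hT0, hε', ?_⟩
  intro H hH
  have hH1 : 1 ≤ H := le_trans (le_max_left _ _) hH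
  have hHR : (1 : ℝ) ≤ H := by exact_mod_cast hH1
  have hHh : CS * h ^ 2 ≤ ε / 2 * (H : ℝ) ^ 2 := by
    have h1 : 2 * CS * h ^ 2 / ε ≤ H := le_trans (Nat.le_ceil _) (by
      exact_mod_cast le_trans (le_max_right _ _) hH)
    rw [div_le_iff₀ hε] at h1
    have h2 : (H : ℝ) ≤ (H : ℝ) ^ 2 := by nlinarith
    nlinarith
  refine ⟨max (max (max Vu Vl) (max Ve 4)) (max (Real.log (4 * (H : ℝ) ^ 2)) ((m1 : ℝ) ^ 2)),
    le_trans hVu (le_trans (le_max_left _ _) (le_trans (le_max_left _ _) (le_max_left _ _))), ?_⟩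
  intro v hv b hb hcase
  have hv1 : Vu ≤ v := le_trans (le_trans (le_max_left _ _) (le_trans (le_max_left _ _)
    (le_max_left _ _))) hv
  have hv2 : Vl ≤ v := le_trans (le_trans (le_max_right _ _) (le_trans (le_max_left _ _)
    (le_max_left _ _))) hv
  have hv3 : Ve ≤ v := le_trans (le_trans (le_max_left _ _) (le_trans (le_max_right _ _)
    (le_max_left _ _))) hv
  have hv4 : 4 ≤ v := le_trans (le_trans (le_max_right _ _) (le_trans (le_max_right _ _)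
    (le_max_left _ _))) hv
  have hv5 : Real.log (4 * (H : ℝ) ^ 2) ≤ v :=
    le_trans (le_trans (le_max_left _ _) (le_max_right _ _)) hv
  have hv6 : (m1 : ℝ) ^ 2 ≤ v := le_trans (le_trans (le_max_right _ _) (le_max_right _ _)) hv
  have hH2 : 4 * (H : ℝ) ^ 2 ≤ Real.exp v := (Real.log_le_iff_le_exp (by positivity)).1 hv5
  have hhv : h ≤ Real.exp v := Real.exp_le_exp.2 hv6
  obtain ⟨j, hj1, hj2, hj3⟩ := hVe v hv3
  have hj4 : 2 * ((lev m1 j : ℕ) : ℝ) ^ 2 ≤ v := by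
    have h1 : 2 ≤ Real.sqrt v := by
      rw [show (2 : ℝ) = Real.sqrt 4 by
        rw [show (4 : ℝ) = 2 ^ 2 by norm_num, Real.sqrt_sq (by norm_num)]]
      exact Real.sqrt_le_sqrt hv4
    have h2 : Real.sqrt v * Real.sqrt v = v := Real.mul_self_sqrt (by linarith)
    nlinarith
  have hT : Real.exp v ≤ Real.exp (6 / 5 * v) := Real.exp_le_exp.2 (by linarith)
  have hlm := hVl v hv2 (lev m1 j) hj1 hj2 (le_trans hm12 hj3) (xc χ)
    (fun p => DirichletCharacter.norm_le_one χ _)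
  have hmeas : MeasurableSet (Set.Icc (-Real.exp (6 / 5 * v)) (Real.exp (6 / 5 * v)) \
        Sm α (xc χ) (lev m1 j)) := measurableSet_Icc.diff (h02_meas α (xc χ) (lev m1 j))
  have hfin : volume (Set.Icc (-Real.exp (6 / 5 * v)) (Real.exp (6 / 5 * v)) \
        Sm α (xc χ) (lev m1 j)) ≠ ⊤ := by
    refine ne_top_of_le_ne_top ?_ (measure_mono Set.sdiff_subset)
    rw [Real.volume_Icc]
    exact ENNReal.ofReal_ne_top
  have hexp : Real.exp (8 * α * v) ≤ Real.exp (c * v) := by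
    refine Real.exp_le_exp.2 (mul_le_mul_of_nonneg_right hα2 (by linarith))
  -- the bound for the mean square
  obtain ⟨N, hN, hIIb⟩ : ∃ N : ℕ, Real.exp (v + 4) ≤ N ∧
      II N phi (fb b χ) (h * Real.exp (-v)) v ≤ 4 * δ := by
    rcases hcase with hχ | ⟨N, hN, hsm⟩
    · refine ⟨⌈Real.exp (v + 4)⌉₊, Nat.le_ceil _, ?_⟩
      have h1 := hII m1 hm1a h le_rfl j v hj4 hhv b hb q χ ⌈Real.exp (v + 4)⌉₊ (Nat.le_ceil _)
        (Real.exp (6 / 5 * v)) (-1) 0 hT le_rfl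
        (fun t ht => absurd (le_trans (abs_nonneg t) ht) (by norm_num))
        (Set.Icc (-Real.exp (6 / 5 * v)) (Real.exp (6 / 5 * v)) \ Sm α (xc χ) (lev m1 j))
        hmeas Set.sdiff_subset
        (fun t ht1 ht2 _ => ⟨abs_le.1 ht1, ht2⟩)
      have h2 := hUm v hv1 b hb ⌈Real.exp (v + 4)⌉₊ (Nat.le_ceil _)
        (Set.Icc (-Real.exp (6 / 5 * v)) (Real.exp (6 / 5 * v)) \ Sm α (xc χ) (lev m1 j))
        hmeas Set.sdiff_subset (le_trans hlm hexp) (Or.inl hχ)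
      have h3 : 2 * max (-1 : ℝ) 0 * (0 : ℝ) ^ 2 = 0 := by norm_num
      rw [h3, mul_add] at h1
      linarith
    · refine ⟨N, hN, ?_⟩
      have hm2 : MeasurableSet ((Set.Icc (-Real.exp (6 / 5 * v)) (Real.exp (6 / 5 * v)) \
        Sm α (xc χ) (lev m1 j)) ∩ {t : ℝ | T0 < |t|}) :=
        hmeas.inter (isOpen_lt continuous_const continuous_abs).measurableSet
      have h1 := hII m1 hm1a h le_rfl j v hj4 hhv b hb q χ N hN
        (Real.exp (6 / 5 * v)) T0 (Real.sqrt (δ / (2 * T0))) hT hε'.le hsm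
        ((Set.Icc (-Real.exp (6 / 5 * v)) (Real.exp (6 / 5 * v)) \ Sm α (xc χ) (lev m1 j)) ∩
          {t : ℝ | T0 < |t|})
        hm2 (Set.inter_subset_left.trans Set.sdiff_subset)
        (fun t ht1 ht2 ht3 => ⟨⟨abs_le.1 ht1, ht2⟩, ht3⟩)
      have h2 := hUm v hv1 b hb N hN
        ((Set.Icc (-Real.exp (6 / 5 * v)) (Real.exp (6 / 5 * v)) \ Sm α (xc χ) (lev m1 j)) ∩
          {t : ℝ | T0 < |t|})
        hm2 (Set.inter_subset_left.trans Set.sdiff_subset)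
        (le_trans (measureReal_mono Set.inter_subset_left hfin) (le_trans hlm hexp))
        (Or.inr fun t ht => le_of_lt ht.2)
      have h3 : 2 * max T0 0 * Real.sqrt (δ / (2 * T0)) ^ 2 = δ := by
        rw [max_eq_left hT0.le, Real.sq_sqrt (by positivity)]
        field_simp
      rw [h3, mul_add] at h1
      linarith
  have hfb : ∀ n, ‖fb b χ n‖ ≤ 2 := fun n => norm_fb χ hb n
  have h1 := hSS (fb b χ) hfb H hH1 h hh0 v hH2 hhv N hN
  refine le_trans h1 ?_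
  have h2 : (H : ℝ) ^ 2 * II N phi (fb b χ) (h * Real.exp (-v)) v ≤ (H : ℝ) ^ 2 * (4 * δ) :=
    mul_le_mul_of_nonneg_left hIIb (by positivity)
  have h3 : CS * ((H : ℝ) ^ 2 * (4 * δ)) = ε / 2 * (H : ℝ) ^ 2 := by
    rw [hδd]
    field_simp
    ring
  calc CS * ((H : ℝ) ^ 2 * II N phi (fb b χ) (h * Real.exp (-v)) v + h ^ 2)
      ≤ CS * ((H : ℝ) ^ 2 * (4 * δ) + h ^ 2) :=
        mul_le_mul_of_nonneg_left (by linarith) hCS.le
    _ = ε / 2 * (H : ℝ) ^ 2 + CS * h ^ 2 := by rw [mul_add, h3]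
    _ ≤ ε * (H : ℝ) ^ 2 := by linarith

end MRD
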