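import Mathlib
import Pool.Agent.Helper72.MRD.Defs
import Pool.Agent.Helper72.MRD.H02

set_option autoImplicit false

/-!
MRD-H03 (single scale). Summation over the blocks, and `MRCHI1x`.

`block_sum` (general `f`, `‖f n‖ ≤ 2`): let `v_i = log x - i`, `i = 1, ..., I`. The blocks
`v_i < log n ≤ v_i + 1` (i.e. `x e^{-i} < n ≤ x e^{-i+1}`) cover `x e^{-I} < n ≤ x`. Cauchy-Schwarz in
each block: `∑_{block} ‖s_n‖ ≤ (∑_{block} n)^{1/2} (∑_{block} (1/n) ‖s_n‖²)^{1/2}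
≤ e^{v_i + 1} (δ H²)^{1/2}` (`∑_{n ≤ y} n ≤ y²` for `n ≤ y`, `y ≥ 1`), and
`∑_i e^{v_i+1} ≤ 2 x`. The `n ≤ x e^{-I}` contribute `≤ 2 H x e^{-I}`.
`mrchi1x`: given `ε`, take `I` with `2 e^{-I} ≤ ε/2` and `δ` with `2 √δ ≤ ε/2`; `core1` with `δ`
applies at `v = v_i ≥ log x - I ≥ V0` for `x ≥ x0`.
-/

namespace MRD

open Finset MRP MeasureTheory

private lemma block_cs (f : ℕ → ℂ) (H : ℕ) (v : ℝ) :
    ∑ n ∈ (Finset.Icc 1 ⌊Real.exp (v + 1)⌋₊).filter (fun n : ℕ => v < Real.log n),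
      ‖∑ j ∈ Finset.Icc 1 H, f (n + j)‖ ≤ Real.exp (v + 1) * Real.sqrt (SS f H v) := by
  set S := (Finset.Icc 1 ⌊Real.exp (v + 1)⌋₊).filter (fun n : ℕ => v < Real.log n) with hS
  have hE : 0 < Real.exp (v + 1) := Real.exp_pos _
  have h1 : (∑ n ∈ S, ‖∑ j ∈ Finset.Icc 1 H, f (n + j)‖) ^ 2 ≤
      (∑ n ∈ S, (n : ℝ)) * SS f H v := by
    have hcs := Finset.sum_mul_sq_le_sq_mul_sq S (fun n : ℕ => Real.sqrt n)
      (fun n : ℕ => ‖∑ j ∈ Finset.Icc 1 H, f (n + j)‖ / Real.sqrt n)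
    have e1 : ∑ n ∈ S, Real.sqrt n * (‖∑ j ∈ Finset.Icc 1 H, f (n + j)‖ / Real.sqrt n) =
        ∑ n ∈ S, ‖∑ j ∈ Finset.Icc 1 H, f (n + j)‖ := by
      refine Finset.sum_congr rfl fun n hn => ?_
      have hn1 : 1 ≤ n := (Finset.mem_Icc.1 (Finset.mem_filter.1 hn).1).1
      have : (0 : ℝ) < Real.sqrt n := Real.sqrt_pos.2 (by exact_mod_cast hn1)
      field_simp
    have e2 : ∑ n ∈ S, Real.sqrt n ^ 2 = ∑ n ∈ S, (n : ℝ) := by
      refine Finset.sum_congr rfl fun n _ => ?_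
      exact Real.sq_sqrt (Nat.cast_nonneg n)
    have e3 : ∑ n ∈ S, (‖∑ j ∈ Finset.Icc 1 H, f (n + j)‖ / Real.sqrt n) ^ 2 = SS f H v := by
      unfold SS
      refine Finset.sum_congr rfl fun n _ => ?_
      rw [div_pow, Real.sq_sqrt (Nat.cast_nonneg n)]
      ring
    rw [e1, e2, e3] at hcs
    exact hcs
  have h2 : ∑ n ∈ S, (n : ℝ) ≤ Real.exp (v + 1) ^ 2 := by
    have h3 : ∀ n ∈ S, (n : ℝ) ≤ Real.exp (v + 1) := fun n hn =>
      (Nat.le_floor_iff hE.le).1 (Finset.mem_Icc.1 (Finset.mem_filter.1 hn).1).2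
    have h4 : (S.card : ℝ) ≤ Real.exp (v + 1) := by
      have : S.card ≤ ⌊Real.exp (v + 1)⌋₊ := by
        refine (Finset.card_filter_le _ _).trans ?_
        simp
      exact (Nat.cast_le.2 this).trans (Nat.floor_le hE.le)
    calc ∑ n ∈ S, (n : ℝ) ≤ ∑ _n ∈ S, Real.exp (v + 1) := Finset.sum_le_sum h3
      _ = (S.card : ℝ) * Real.exp (v + 1) := by rw [Finset.sum_const, nsmul_eq_mul]
      _ ≤ Real.exp (v + 1) * Real.exp (v + 1) := mul_le_mul_of_nonneg_right h4 hE.le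
      _ = _ := by ring
  have hSS : 0 ≤ SS f H v := by
    unfold SS
    exact Finset.sum_nonneg fun n _ => by positivity
  have h5 : (∑ n ∈ S, ‖∑ j ∈ Finset.Icc 1 H, f (n + j)‖) ^ 2 ≤
      (Real.exp (v + 1) * Real.sqrt (SS f H v)) ^ 2 := by
    rw [mul_pow, Real.sq_sqrt hSS]
    exact h1.trans (mul_le_mul_of_nonneg_right h2 hSS)
  exact (sq_le_sq₀ (Finset.sum_nonneg fun n _ => norm_nonneg _) (by positivity)).1 h5

private lemma T_sum (f : ℕ → ℂ) (H x I : ℕ) (hx : 1 ≤ x) (δ : ℝ)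
    (h : ∀ i : ℕ, 1 ≤ i → i ≤ I → SS f H (Real.log x - i) ≤ δ * (H : ℝ) ^ 2) (k : ℕ)
    (hk : k ≤ I) :
    ∑ n ∈ (Finset.Icc 1 x).filter (fun n : ℕ => Real.log x - k < Real.log n),
      ‖∑ j ∈ Finset.Icc 1 H, f (n + j)‖ ≤
      Real.sqrt δ * H * x * (2 - 2 * Real.exp (-(k : ℝ))) := by
  have hxR : (0 : ℝ) < x := by exact_mod_cast hx
  induction k with
  | zero =>
    have e1 : (Finset.Icc 1 x).filter (fun n : ℕ => Real.log x - ((0 : ℕ) : ℝ) < Real.log n) = ∅ := by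
      rw [Finset.filter_eq_empty_iff]
      intro n hn
      rw [Finset.mem_Icc] at hn
      have hnR : (0 : ℝ) < n := by exact_mod_cast hn.1
      have : Real.log n ≤ Real.log x := Real.log_le_log hnR (by exact_mod_cast hn.2)
      push_cast
      linarith
    rw [e1]
    simp
  | succ k ih =>
    have ih' := ih (by omega)
    have hb := block_cs f H (Real.log x - ((k + 1 : ℕ) : ℝ))
    have hev : Real.exp (Real.log x - ((k + 1 : ℕ) : ℝ) + 1) = x * Real.exp (-(k : ℝ)) := by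
      have : Real.log x - ((k + 1 : ℕ) : ℝ) + 1 = Real.log x + -(k : ℝ) := by
        push_cast
        ring
      rw [this, Real.exp_add, Real.exp_log hxR]
    have hS := h (k + 1) (by omega) hk
    have hsq : Real.sqrt (SS f H (Real.log x - ((k + 1 : ℕ) : ℝ))) ≤ Real.sqrt δ * H := by
      calc Real.sqrt (SS f H (Real.log x - ((k + 1 : ℕ) : ℝ)))
          ≤ Real.sqrt (δ * (H : ℝ) ^ 2) := Real.sqrt_le_sqrt hS
        _ = _ := by
          rw [mul_comm, Real.sqrt_mul (by positivity), Real.sqrt_sq (by positivity)]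
          ring
    have hsub : (Finset.Icc 1 x).filter
        (fun n : ℕ => Real.log x - ((k + 1 : ℕ) : ℝ) < Real.log n) ⊆
        (Finset.Icc 1 x).filter (fun n : ℕ => Real.log x - k < Real.log n) ∪
        (Finset.Icc 1 ⌊Real.exp (Real.log x - ((k + 1 : ℕ) : ℝ) + 1)⌋₊).filter
          (fun n : ℕ => Real.log x - ((k + 1 : ℕ) : ℝ) < Real.log n) := by
      intro n hn
      rw [Finset.mem_filter, Finset.mem_Icc] at hn
      rw [Finset.mem_union, Finset.mem_filter, Finset.mem_filter, Finset.mem_Icc,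
        Finset.mem_Icc]
      by_cases hc : Real.log x - k < Real.log n
      · exact Or.inl ⟨hn.1, hc⟩
      · refine Or.inr ⟨⟨hn.1.1, ?_⟩, hn.2⟩
        rw [Nat.le_floor_iff (Real.exp_pos _).le]
        have hnR : (0 : ℝ) < n := by exact_mod_cast hn.1.1
        rw [← Real.exp_log hnR]
        apply Real.exp_le_exp.2
        push_cast at hc ⊢
        linarith
    have h1 := Finset.sum_le_sum_of_subset_of_nonneg
      (f := fun n : ℕ => ‖∑ j ∈ Finset.Icc 1 H, f (n + j)‖) hsub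
      (fun n _ _ => norm_nonneg _)
    have h2 : ∑ n ∈ (Finset.Icc 1 x).filter (fun n : ℕ => Real.log x - k < Real.log n) ∪
        (Finset.Icc 1 ⌊Real.exp (Real.log x - ((k + 1 : ℕ) : ℝ) + 1)⌋₊).filter
          (fun n : ℕ => Real.log x - ((k + 1 : ℕ) : ℝ) < Real.log n),
          ‖∑ j ∈ Finset.Icc 1 H, f (n + j)‖ ≤
        ∑ n ∈ (Finset.Icc 1 x).filter (fun n : ℕ => Real.log x - k < Real.log n),
          ‖∑ j ∈ Finset.Icc 1 H, f (n + j)‖ +
        ∑ n ∈ (Finset.Icc 1 ⌊Real.exp (Real.log x - ((k + 1 : ℕ) : ℝ) + 1)⌋₊).filter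
          (fun n : ℕ => Real.log x - ((k + 1 : ℕ) : ℝ) < Real.log n),
          ‖∑ j ∈ Finset.Icc 1 H, f (n + j)‖ := by
      rw [← Finset.sum_union_inter]
      exact le_add_of_nonneg_right (Finset.sum_nonneg fun n _ => norm_nonneg _)
    rw [hev] at hb h1 h2
    have hEk : 0 < Real.exp (-(k : ℝ)) := Real.exp_pos _
    have h3 : x * Real.exp (-(k : ℝ)) * Real.sqrt (SS f H (Real.log x - ((k + 1 : ℕ) : ℝ))) ≤
        x * Real.exp (-(k : ℝ)) * (Real.sqrt δ * H) :=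
      mul_le_mul_of_nonneg_left hsq (by positivity)
    have h4 : 2 * Real.exp (-(((k + 1 : ℕ)) : ℝ)) ≤ Real.exp (-(k : ℝ)) := by
      have e1 : Real.exp (-(((k + 1 : ℕ)) : ℝ)) = Real.exp (-(k : ℝ)) / Real.exp 1 := by
        rw [← Real.exp_sub]
        congr 1
        push_cast
        ring
      have he := Real.add_one_le_exp (1 : ℝ)
      rw [e1, ← mul_div_assoc, div_le_iff₀ (Real.exp_pos 1)]
      nlinarith
    have h5 : 0 ≤ Real.sqrt δ * H * x := by positivity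
    have h6 := mul_le_mul_of_nonneg_left h4 h5
    have h7 : x * Real.exp (-(k : ℝ)) * (Real.sqrt δ * H) =
      Real.sqrt δ * H * x * Real.exp (-(k : ℝ)) := by ring
    have e8 : Real.sqrt δ * H * x * (2 - 2 * Real.exp (-(k : ℝ))) =
      Real.sqrt δ * H * x * 2 - 2 * (Real.sqrt δ * H * x * Real.exp (-(k : ℝ))) := by ring
    have e9 : Real.sqrt δ * H * x * (2 - 2 * Real.exp (-(((k + 1 : ℕ)) : ℝ))) =
      Real.sqrt δ * H * x * 2 - Real.sqrt δ * H * x * (2 * Real.exp (-(((k + 1 : ℕ)) : ℝ))) := by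
      ring
    linarith

theorem block_sum (f : ℕ → ℂ) (hf : ∀ n, ‖f n‖ ≤ 2) (H x I : ℕ) (hx : 1 ≤ x) (δ : ℝ)
    (hδ : 0 ≤ δ)
    (h : ∀ i : ℕ, 1 ≤ i → i ≤ I → SS f H (Real.log x - i) ≤ δ * (H : ℝ) ^ 2) :
    ∑ n ∈ Finset.Icc 1 x, ‖∑ j ∈ Finset.Icc 1 H, f (n + j)‖ ≤
      (2 * Real.sqrt δ + 2 * Real.exp (-(I : ℝ))) * H * x := by
  have hxR : (0 : ℝ) < x := by exact_mod_cast hx
  have h1 := T_sum f H x I hx δ h I le_rfl
  have h2 : ∀ n, ‖∑ j ∈ Finset.Icc 1 H, f (n + j)‖ ≤ 2 * H := by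
    intro n
    refine (norm_sum_le _ _).trans ?_
    calc ∑ j ∈ Finset.Icc 1 H, ‖f (n + j)‖ ≤ ∑ _j ∈ Finset.Icc 1 H, (2 : ℝ) :=
          Finset.sum_le_sum fun j _ => hf _
      _ = 2 * H := by
        rw [Finset.sum_const, nsmul_eq_mul]
        simp [mul_comm]
  have hEI : 0 < Real.exp (-(I : ℝ)) := Real.exp_pos _
  have h3 : ∑ n ∈ (Finset.Icc 1 x).filter (fun n : ℕ => ¬ Real.log x - I < Real.log n),
      ‖∑ j ∈ Finset.Icc 1 H, f (n + j)‖ ≤ 2 * H * (x * Real.exp (-(I : ℝ))) := by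
    have hcard : ((((Finset.Icc 1 x).filter
        (fun n : ℕ => ¬ Real.log x - I < Real.log n)).card : ℕ) : ℝ) ≤
        x * Real.exp (-(I : ℝ)) := by
      have hsub : (Finset.Icc 1 x).filter (fun n : ℕ => ¬ Real.log x - I < Real.log n) ⊆
          Finset.Icc 1 ⌊x * Real.exp (-(I : ℝ))⌋₊ := by
        intro n hn
        rw [Finset.mem_filter, Finset.mem_Icc] at hn
        rw [Finset.mem_Icc]
        refine ⟨hn.1.1, ?_⟩
        rw [Nat.le_floor_iff (by positivity)]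
        have hnR : (0 : ℝ) < n := by exact_mod_cast hn.1.1
        have h5 := not_lt.1 hn.2
        rw [← Real.exp_log hnR]
        have : (x : ℝ) * Real.exp (-(I : ℝ)) = Real.exp (Real.log x - I) := by
          rw [sub_eq_add_neg, Real.exp_add, Real.exp_log hxR]
        rw [this]
        exact Real.exp_le_exp.2 h5
      have h6 := Finset.card_le_card hsub
      rw [Nat.card_Icc, Nat.add_sub_cancel] at h6
      exact (Nat.cast_le.2 h6).trans (Nat.floor_le (by positivity))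
    calc _ ≤ ∑ _n ∈ (Finset.Icc 1 x).filter (fun n : ℕ => ¬ Real.log x - I < Real.log n),
          (2 * (H : ℝ)) := Finset.sum_le_sum fun n _ => h2 n
      _ = (((Finset.Icc 1 x).filter
        (fun n : ℕ => ¬ Real.log x - I < Real.log n)).card : ℝ) * (2 * H) := by
          rw [Finset.sum_const, nsmul_eq_mul]
      _ ≤ (x * Real.exp (-(I : ℝ))) * (2 * H) := mul_le_mul_of_nonneg_right hcard (by positivity)
      _ = _ := by ring
  rw [← Finset.sum_filter_add_sum_filter_not (Finset.Icc 1 x)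
    (fun n : ℕ => Real.log x - I < Real.log n)]
  have h7 : Real.sqrt δ * H * x * (2 - 2 * Real.exp (-(I : ℝ))) ≤ Real.sqrt δ * H * x * 2 := by
    refine mul_le_mul_of_nonneg_left ?_ (by positivity)
    linarith
  have e8 : (2 * Real.sqrt δ + 2 * Real.exp (-(I : ℝ))) * H * x =
    Real.sqrt δ * H * x * 2 + 2 * H * (x * Real.exp (-(I : ℝ))) := by ring
  linarith

theorem mrchi1x (hU : UMAIN) : MRCHI1x := by
  intro q hq χ hχ ε hε
  obtain ⟨I, hI⟩ : ∃ I : ℕ, 2 * Real.exp (-(I : ℝ)) ≤ ε / 2 := by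
    obtain ⟨I, hI⟩ := exists_nat_ge (4 / ε)
    refine ⟨I, ?_⟩
    have hpos : 0 < 4 / ε := by positivity
    have hI0 : (0 : ℝ) < I := lt_of_lt_of_le hpos hI
    have h1 : (I : ℝ) ≤ Real.exp I := by
      have := Real.add_one_le_exp (I : ℝ)
      linarith
    have h2 : Real.exp (-(I : ℝ)) ≤ 1 / I := by
      rw [Real.exp_neg, ← one_div]
      exact one_div_le_one_div_of_le hI0 h1
    have h3 : 1 / (I : ℝ) ≤ ε / 4 := by
      rw [div_le_div_iff₀ hI0 (by norm_num)]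
      rw [div_le_iff₀ hε] at hI
      linarith
    linarith
  set δ : ℝ := (ε / 4) ^ 2 with hδ
  have hδ0 : 0 < δ := by positivity
  have hsδ : Real.sqrt δ = ε / 4 := Real.sqrt_sq (by positivity)
  obtain ⟨T0, ε', H0, hT0, hε', hcore⟩ := core1 hU q hq χ δ hδ0
  refine ⟨H0, fun H hH => ?_⟩
  obtain ⟨V0, hV0, hV⟩ := hcore H hH
  refine ⟨⌈Real.exp (V0 + I)⌉₊, fun x hx b hb => ?_⟩
  have hx1 : Real.exp (V0 + I) ≤ x := Nat.ceil_le.1 hx
  have hxR : (0 : ℝ) < x := lt_of_lt_of_le (Real.exp_pos _) hx1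
  have hx0 : 1 ≤ x := by exact_mod_cast hxR
  have hlog : V0 + I ≤ Real.log x := by
    rw [← Real.log_exp (V0 + I)]
    exact Real.log_le_log (Real.exp_pos _) hx1
  have hf : ∀ n, ‖fb b χ n‖ ≤ 2 := fun n => (norm_fb χ hb n).trans (by norm_num)
  have key := block_sum (fb b χ) hf H x I hx0 δ hδ0.le (fun i _ hi => by
    refine hV _ ?_ b (fun k => (hb k).trans (by norm_num)) (Or.inl hχ)
    have : (i : ℝ) ≤ I := by exact_mod_cast hi
    linarith)
  have h9 : (2 * Real.sqrt δ + 2 * Real.exp (-(I : ℝ))) * H * x ≤ ε * H * x := by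
    refine mul_le_mul_of_nonneg_right (mul_le_mul_of_nonneg_right ?_ (Nat.cast_nonneg H)) hxR.le
    rw [hsδ]
    linarith
  exact key.trans h9

end MRD
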