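import Mathlib
import Pool.Agent.Helper72.MRD.Defs
import Pool.Agent.Helper72.MRD.UM
import Pool.Agent.Helper72.MRD.B01

set_option autoImplicit false

/-!
MRD-H04 (single scale). Small `t` for the principal character, from `LAW1x` and `LAW2x`.

Write `β = mx x b` (`|β| ≤ 1`), `f n = (b(Om n) - β) 1_{(n,q)=1}` (`fb` for the trivial character:
`χ₀(n) = 1` if `n` is a unit mod `q`, else `0`). Let `κ' ∈ (0, 1]` be small; natural numbers
`x_0 = ⌊e^{v-1}⌋₊`, `x_{i+1} = ⌊(1+κ') x_i⌋₊`; `r` = the first index with `x_r ≥ e^{v+3}`; since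
`x_{i+1} ≥ (1+κ'/2) x_i` for `x_i ≥ 2/κ'`, `r ≤ 20/κ'`. All `x_i` lie between `x e^{-I-2}` and `e⁴ x`,
so `|mx x_i b - β| ≤ 2ε''` by `LAW1x` (at `max`: apply it with `x := x'` where `x' = max x x_i`,
`y` = the other one), and `LAW2x` (with its `κ := κ'`, `ε := ε''`) at `x_i`, applied to `b` and to the
constant `1` (`mx _ 1 = 1`): `‖∑_{n ∈ (x_i, x_{i+1}]} f n‖ ≤ C ε'' κ' x_i`.
On this interval `G n = phi(log n - v) cp n t` satisfies `‖G n - G x_i‖ ≤ C (1 + T0) κ'/x_i` and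
`‖G‖ ≤ 1/x_i`, where `G y = phi(log y - v) y^{-1-it}`; the number of `n` is `≤ κ' x_i`.
So the contribution of the interval to `FF` is `≤ C ε'' κ' + C (1+T0) κ'²`; sum over `i < r ≤ 20/κ'`:
`≤ C' ε'' + C' (1+T0) κ'`. Choose `κ'`, then `ε''`.
The `n` outside `(e^{v-1}, e^{v+3}]` have `phi(log n - v) = 0`.
-/

namespace MRD

open Finset MRP MeasureTheory

/-- the windows -/
private noncomputable def XX (κ w : ℝ) : ℕ → ℕ
  | 0 => ⌊w⌋₊
  | i + 1 => ⌊(1 + κ) * (XX κ w i : ℝ)⌋₊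

private lemma XX_zero (κ w : ℝ) : XX κ w 0 = ⌊w⌋₊ := rfl

private lemma XX_succ (κ w : ℝ) (i : ℕ) : XX κ w (i + 1) = ⌊(1 + κ) * (XX κ w i : ℝ)⌋₊ := rfl

private lemma XX_le_succ {κ w : ℝ} (hκ : 0 < κ) (i : ℕ) : XX κ w i ≤ XX κ w (i + 1) := by
  rw [XX_succ]
  apply Nat.le_floor
  have : (0 : ℝ) ≤ XX κ w i := Nat.cast_nonneg _
  nlinarith

private lemma XX_mono {κ w : ℝ} (hκ : 0 < κ) : Monotone (XX κ w) :=
  monotone_nat_of_le_succ (XX_le_succ hκ)

private lemma XX_succ_le {κ w : ℝ} (hκ : 0 < κ) (i : ℕ) :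
    (XX κ w (i + 1) : ℝ) ≤ (1 + κ) * (XX κ w i : ℝ) := by
  rw [XX_succ]
  exact Nat.floor_le (by positivity)

private lemma XX_upper {κ w : ℝ} (hκ : 0 < κ) (hw : 0 ≤ w) (i : ℕ) :
    (XX κ w i : ℝ) ≤ (1 + κ) ^ i * w := by
  induction i with
  | zero => rw [XX_zero, pow_zero, one_mul]; exact Nat.floor_le hw
  | succ i ih =>
    refine (XX_succ_le hκ i).trans ?_
    rw [pow_succ]
    nlinarith

private lemma XX_lower {κ w : ℝ} (hκ : 0 < κ) (hw : 2 / κ ≤ (XX κ w 0 : ℝ)) (i : ℕ) :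
    (1 + κ / 2) ^ i * (XX κ w 0 : ℝ) ≤ XX κ w i := by
  induction i with
  | zero => simp
  | succ i ih =>
    have h1 : (XX κ w 0 : ℝ) ≤ XX κ w i := by exact_mod_cast XX_mono hκ (Nat.zero_le i)
    have h2 : 2 / κ ≤ (XX κ w i : ℝ) := hw.trans h1
    have h3 : 1 ≤ κ / 2 * (XX κ w i : ℝ) := by
      rw [div_le_iff₀ hκ] at h2
      linarith
    have h4 : (1 + κ) * (XX κ w i : ℝ) - 1 < XX κ w (i + 1) := by
      rw [XX_succ]
      have := Nat.lt_floor_add_one ((1 + κ) * (XX κ w i : ℝ))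
      linarith
    rw [pow_succ]
    nlinarith

private lemma sum_windows {κ w : ℝ} (hκ : 0 < κ) (F : ℕ → ℂ) (R : ℕ) :
    ∑ n ∈ Finset.Ioc (XX κ w 0) (XX κ w R), F n =
      ∑ i ∈ Finset.range R, ∑ n ∈ Finset.Ioc (XX κ w i) (XX κ w (i + 1)), F n := by
  induction R with
  | zero => simp
  | succ R ih =>
    rw [Finset.sum_range_succ, ← ih,
      Finset.sum_Ioc_consecutive F (XX_mono hκ (Nat.zero_le R)) (XX_le_succ hκ R)]

private lemma cp_sub {m n : ℕ} (hm : 1 ≤ m) (hmn : m ≤ n) (κ T0 t : ℝ) (hκ : 0 < κ)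
    (ht : |t| ≤ T0) (hn : (n : ℝ) ≤ (1 + κ) * m) : ‖cp n t - cp m t‖ ≤ (1 + T0) * κ / m := by
  have hm0 : (0 : ℝ) < m := by exact_mod_cast hm
  have hn1 : 1 ≤ n := hm.trans hmn
  have hn0 : (0 : ℝ) < n := by exact_mod_cast hn1
  have hmnR : (m : ℝ) ≤ n := by exact_mod_cast hmn
  have hlog0 : 0 ≤ Real.log n - Real.log m := sub_nonneg.2 (Real.log_le_log hm0 hmnR)
  have hlog : Real.log n - Real.log m ≤ κ := by
    rw [← Real.log_div hn0.ne' hm0.ne']
    have h1 : (n : ℝ) / m ≤ 1 + κ := by rw [div_le_iff₀ hm0]; exact hn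
    have h2 := Real.log_le_sub_one_of_pos (show 0 < (n : ℝ) / m by positivity)
    linarith
  rw [cp_eq hn1, cp_eq hm]
  set en : ℂ := Complex.exp (-(t * Real.log n : ℝ) * Complex.I) with hen
  set em : ℂ := Complex.exp (-(t * Real.log m : ℝ) * Complex.I) with hem
  have h1 : ((1 / (n : ℝ) : ℝ) : ℂ) * en - ((1 / (m : ℝ) : ℝ) : ℂ) * em =
      ((1 / (n : ℝ) - 1 / (m : ℝ) : ℝ) : ℂ) * en + ((1 / (m : ℝ) : ℝ) : ℂ) * (en - em) := by
    push_cast; ring
  rw [h1]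
  have hnen : ‖en‖ = 1 := by
    rw [hen, ← Complex.ofReal_neg, Complex.norm_exp_ofReal_mul_I]
  have h2 : ‖en - em‖ ≤ T0 * κ := by
    have h3 : en - em = em * (Complex.exp (Complex.I * ((-(t * (Real.log n - Real.log m)) : ℝ) : ℂ)) - 1) := by
      rw [mul_sub, mul_one, hem, hen, ← Complex.exp_add]
      congr 2
      push_cast
      ring
    have hnem : ‖em‖ = 1 := by
      rw [hem, ← Complex.ofReal_neg, Complex.norm_exp_ofReal_mul_I]
    rw [h3, norm_mul, hnem, one_mul]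
    refine (Real.norm_exp_I_mul_ofReal_sub_one_le).trans ?_
    rw [Real.norm_eq_abs, abs_neg, abs_mul, abs_of_nonneg hlog0]
    exact mul_le_mul ht hlog hlog0 ((abs_nonneg _).trans ht)
  refine (norm_add_le _ _).trans ?_
  rw [norm_mul, norm_mul, hnen, mul_one, Complex.norm_real, Complex.norm_real, Real.norm_eq_abs,
    Real.norm_eq_abs, abs_of_pos (by positivity : (0 : ℝ) < 1 / (m : ℝ))]
  have h4 : |1 / (n : ℝ) - 1 / (m : ℝ)| ≤ κ / m := by
    have h5 : 1 / (n : ℝ) ≤ 1 / m := one_div_le_one_div_of_le hm0 hmnR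
    rw [abs_of_nonpos (by linarith)]
    have h6 : -(1 / (n : ℝ) - 1 / m) = (n - m) / (n * m) := by field_simp; ring
    rw [h6, div_le_div_iff₀ (by positivity) hm0]
    have h7 : (n : ℝ) - m ≤ κ * m := by linarith
    have h8 : κ * m ≤ κ * n := mul_le_mul_of_nonneg_left hmnR hκ.le
    have h9 : ((n : ℝ) - m) * m ≤ (κ * n) * m := mul_le_mul_of_nonneg_right (h7.trans h8) hm0.le
    linarith
  have h5 : 1 / (m : ℝ) * ‖en - em‖ ≤ 1 / (m : ℝ) * (T0 * κ) :=
    mul_le_mul_of_nonneg_left h2 (by positivity)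
  calc |1 / (n : ℝ) - 1 / (m : ℝ)| + 1 / (m : ℝ) * ‖en - em‖
      ≤ κ / m + 1 / (m : ℝ) * (T0 * κ) := add_le_add h4 h5
    _ = (1 + T0) * κ / m := by ring

private lemma G_sub {Cφ : ℝ} (hφ : ∀ x y, |phi x - phi y| ≤ Cφ * |x - y|) (hC : 0 ≤ Cφ)
    {m n : ℕ} (hm : 1 ≤ m) (hmn : m ≤ n) (κ T0 t v : ℝ) (hκ : 0 < κ)
    (ht : |t| ≤ T0) (hn : (n : ℝ) ≤ (1 + κ) * m) :
    ‖((phi (Real.log n - v) : ℝ) : ℂ) * cp n t - ((phi (Real.log m - v) : ℝ) : ℂ) * cp m t‖ ≤
      (Cφ + 1 + T0) * κ / m := by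
  have hm0 : (0 : ℝ) < m := by exact_mod_cast hm
  have hn1 : 1 ≤ n := hm.trans hmn
  have hn0 : (0 : ℝ) < n := by exact_mod_cast hn1
  have hmnR : (m : ℝ) ≤ n := by exact_mod_cast hmn
  have hlog0 : 0 ≤ Real.log n - Real.log m := sub_nonneg.2 (Real.log_le_log hm0 hmnR)
  have hlog : Real.log n - Real.log m ≤ κ := by
    rw [← Real.log_div hn0.ne' hm0.ne']
    have h1 : (n : ℝ) / m ≤ 1 + κ := by rw [div_le_iff₀ hm0]; exact hn
    have h2 := Real.log_le_sub_one_of_pos (show 0 < (n : ℝ) / m by positivity)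
    linarith
  have h1 : ((phi (Real.log n - v) : ℝ) : ℂ) * cp n t - ((phi (Real.log m - v) : ℝ) : ℂ) * cp m t =
      ((phi (Real.log n - v) - phi (Real.log m - v) : ℝ) : ℂ) * cp n t +
      ((phi (Real.log m - v) : ℝ) : ℂ) * (cp n t - cp m t) := by push_cast; ring
  rw [h1]
  refine (norm_add_le _ _).trans ?_
  rw [norm_mul, norm_mul, Complex.norm_real, Complex.norm_real, norm_cp hn1, Real.norm_eq_abs,
    Real.norm_of_nonneg (phi_nonneg _)]
  have h2 : |phi (Real.log n - v) - phi (Real.log m - v)| ≤ Cφ * κ := by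
    refine (hφ _ _).trans (mul_le_mul_of_nonneg_left ?_ hC)
    rw [show Real.log n - v - (Real.log m - v) = Real.log n - Real.log m by ring,
      abs_of_nonneg hlog0]
    exact hlog
  have h3 : 1 / (n : ℝ) ≤ 1 / m := one_div_le_one_div_of_le hm0 hmnR
  have h4 : |phi (Real.log n - v) - phi (Real.log m - v)| * (1 / (n : ℝ)) ≤ Cφ * κ * (1 / m) :=
    mul_le_mul h2 h3 (by positivity) (by positivity)
  have h5 : phi (Real.log m - v) * ‖cp n t - cp m t‖ ≤ 1 * ((1 + T0) * κ / m) :=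
    mul_le_mul (phi_le_one _) (cp_sub hm hmn κ T0 t hκ ht hn) (norm_nonneg _) zero_le_one
  refine (add_le_add h4 h5).trans (le_of_eq ?_)
  ring


private lemma fb_one {q : ℕ} (b : ℕ → ℝ) (n : ℕ) :
    fb b (1 : DirichletCharacter ℂ q) n = if Nat.Coprime n q then ((b (Om n) : ℝ) : ℂ) else 0 := by
  unfold fb
  split_ifs with h
  · rw [MulChar.one_apply ((ZMod.isUnit_iff_coprime n q).2 h), mul_one]
  · rw [MulChar.map_nonunit _ (fun h' => h ((ZMod.isUnit_iff_coprime n q).1 h')), mul_zero]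

private lemma window_bound {q : ℕ} (hq : 1 ≤ q) {κ ε2 β T0 t v Cφ : ℝ} (hκ : 0 < κ) (hε2 : 0 < ε2)
    {m : ℕ} (hm : 1 ≤ m) (hφ : ∀ x y, |phi x - phi y| ≤ Cφ * |x - y|) (hC : 0 ≤ Cφ)
    (ht : |t| ≤ T0) (b : ℕ → ℝ) (hb : ∀ k, |b k| ≤ 1) (hβ : |β| ≤ 1)
    (hL : |(∑ n ∈ (Finset.Ioc m ⌊(1 + κ) * (m : ℝ)⌋₊).filter (fun n => Nat.Coprime n q), b (Om n)) -
        κ * m * ((Nat.totient q : ℝ) / (q : ℝ)) * mx m b| ≤ ε2 * κ * m)
    (hL1 : |(∑ n ∈ (Finset.Ioc m ⌊(1 + κ) * (m : ℝ)⌋₊).filter (fun n => Nat.Coprime n q), (1 : ℝ)) -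
        κ * m * ((Nat.totient q : ℝ) / (q : ℝ)) * 1| ≤ ε2 * κ * m)
    (hmx : |mx m b - β| ≤ ε2) :
    ‖∑ n ∈ Finset.Ioc m ⌊(1 + κ) * (m : ℝ)⌋₊,
      fb (fun k => b k - β) (1 : DirichletCharacter ℂ q) n *
        (((phi (Real.log n - v) : ℝ) : ℂ) * cp n t)‖ ≤ 3 * ε2 * κ + 2 * (Cφ + 1 + T0) * κ ^ 2 := by
  have hm0 : (0 : ℝ) < m := by exact_mod_cast hm
  have hq0 : (0 : ℝ) < q := by exact_mod_cast hq
  set S := Finset.Ioc m ⌊(1 + κ) * (m : ℝ)⌋₊ with hS
  set f : ℕ → ℂ := fb (fun k => b k - β) (1 : DirichletCharacter ℂ q) with hf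
  set G : ℕ → ℂ := fun n => ((phi (Real.log n - v) : ℝ) : ℂ) * cp n t with hG
  have hf2 : ∀ k, ‖f k‖ ≤ 2 := norm_fb _ (fun k => by
    have h1 := abs_sub (b k) β
    have h2 := hb k
    show |b k - β| ≤ 2
    linarith)
  have hsum : ‖∑ n ∈ S, f n‖ ≤ 3 * ε2 * κ * m := by
    have h1 : ∑ n ∈ S, f n = (((∑ n ∈ S.filter (fun n => Nat.Coprime n q), b (Om n)) -
        β * (∑ n ∈ S.filter (fun n => Nat.Coprime n q), (1 : ℝ)) : ℝ) : ℂ) := by
      rw [Finset.mul_sum, ← Finset.sum_sub_distrib, Complex.ofReal_sum, Finset.sum_filter]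
      refine Finset.sum_congr rfl fun n _ => ?_
      rw [hf, fb_one, mul_one]
    rw [h1, Complex.norm_real, Real.norm_eq_abs]
    set s1 := ∑ n ∈ S.filter (fun n => Nat.Coprime n q), b (Om n) with hs1
    set s2 := ∑ n ∈ S.filter (fun n => Nat.Coprime n q), (1 : ℝ) with hs2
    set w := κ * m * ((Nat.totient q : ℝ) / (q : ℝ)) with hw
    have h2 : s1 - β * s2 = (s1 - w * mx m b) - β * (s2 - w * 1) + w * (mx m b - β) := by ring
    rw [h2]
    have hw0 : 0 ≤ w := by positivity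
    have hw1 : w ≤ κ * m := by
      have h3 : (Nat.totient q : ℝ) / (q : ℝ) ≤ 1 := by
        rw [div_le_one hq0]; exact_mod_cast Nat.totient_le q
      have h4 : 0 ≤ κ * m := by positivity
      nlinarith
    have h3 : |β * (s2 - w * 1)| ≤ ε2 * κ * m := by
      rw [abs_mul]
      have := mul_le_mul hβ hL1 (abs_nonneg _) zero_le_one
      linarith
    have h4 : |w * (mx m b - β)| ≤ κ * m * ε2 := by
      rw [abs_mul, abs_of_nonneg hw0]
      exact mul_le_mul hw1 hmx (abs_nonneg _) (by positivity)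
    have h5 := abs_add_le (s1 - w * mx m b - β * (s2 - w * 1)) (w * (mx m b - β))
    have h6 := abs_sub (s1 - w * mx m b) (β * (s2 - w * 1))
    linarith
  have hcard : (S.card : ℝ) ≤ κ * m := by
    rw [hS, Nat.card_Ioc]
    have h1 : m ≤ ⌊(1 + κ) * (m : ℝ)⌋₊ := by
      apply Nat.le_floor; nlinarith
    have h2 : (⌊(1 + κ) * (m : ℝ)⌋₊ : ℝ) ≤ (1 + κ) * m := Nat.floor_le (by positivity)
    rw [Nat.cast_sub h1]
    linarith
  have hdec : ∑ n ∈ S, f n * G n = (∑ n ∈ S, f n) * G m + ∑ n ∈ S, f n * (G n - G m) := by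
    rw [Finset.sum_mul, ← Finset.sum_add_distrib]
    refine Finset.sum_congr rfl fun n _ => by ring
  have hGm : ‖G m‖ ≤ 1 / m := by
    show ‖((phi (Real.log m - v) : ℝ) : ℂ) * cp m t‖ ≤ 1 / m
    rw [norm_mul, Complex.norm_real, norm_cp hm, Real.norm_of_nonneg (phi_nonneg _)]
    have := phi_le_one (Real.log m - v)
    have h1 : 0 < 1 / (m : ℝ) := by positivity
    nlinarith
  have hT0 : 0 ≤ T0 := (abs_nonneg _).trans ht
  show ‖∑ n ∈ S, f n * G n‖ ≤ _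
  rw [hdec]
  refine (norm_add_le _ _).trans ?_
  have h1 : ‖(∑ n ∈ S, f n) * G m‖ ≤ 3 * ε2 * κ := by
    rw [norm_mul]
    refine (mul_le_mul hsum hGm (norm_nonneg _) (by positivity)).trans (le_of_eq ?_)
    field_simp
  have h2 : ‖∑ n ∈ S, f n * (G n - G m)‖ ≤ 2 * (Cφ + 1 + T0) * κ ^ 2 := by
    refine (norm_sum_le _ _).trans ?_
    have h3 : ∀ n ∈ S, ‖f n * (G n - G m)‖ ≤ 2 * ((Cφ + 1 + T0) * κ / m) := by
      intro n hn
      obtain ⟨hn1, hn2⟩ := Finset.mem_Ioc.1 hn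
      rw [norm_mul]
      refine mul_le_mul (hf2 n) ?_ (norm_nonneg _) zero_le_two
      refine G_sub hφ hC hm hn1.le κ T0 t v hκ ht ?_
      have h4 : (⌊(1 + κ) * (m : ℝ)⌋₊ : ℝ) ≤ (1 + κ) * m := Nat.floor_le (by positivity)
      have h5 : (n : ℝ) ≤ (⌊(1 + κ) * (m : ℝ)⌋₊ : ℝ) := by exact_mod_cast hn2
      linarith
    refine (Finset.sum_le_sum h3).trans ?_
    rw [Finset.sum_const, nsmul_eq_mul]
    refine (mul_le_mul_of_nonneg_right hcard (by positivity)).trans (le_of_eq ?_)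
    field_simp
  linarith

private lemma mx_one {m : ℕ} (hm : 1 ≤ m) : mx m (fun _ => (1 : ℝ)) = 1 := by
  unfold mx
  have hm0 : (m : ℝ) ≠ 0 := by positivity
  rw [Finset.sum_const, Nat.card_Icc, nsmul_eq_mul]
  simp [hm0]

private lemma mx_abs (x : ℕ) (b : ℕ → ℝ) (hb : ∀ m, |b m| ≤ 1) : |mx x b| ≤ 1 := by
  unfold mx
  rcases Nat.eq_zero_or_pos x with rfl | hx
  · simp
  rw [abs_div, abs_of_nonneg (Nat.cast_nonneg x : (0 : ℝ) ≤ (x : ℝ)),
    div_le_one (by exact_mod_cast hx)]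
  refine (Finset.abs_sum_le_sum_abs _ _).trans ?_
  refine (Finset.sum_le_sum fun n _ => hb _).trans ?_
  simp

theorem small_t1 (h1 : LAW1x) (h2 : LAW2x) (q : ℕ) (hq : 1 ≤ q) (T0 ε I : ℝ) (hT : 0 < T0)
    (hε : 0 < ε) (hI : 0 < I) : ∃ x0 : ℕ, ∀ x : ℕ, x0 ≤ x → ∀ b : ℕ → ℝ, (∀ m, |b m| ≤ 1) →
    ∀ v : ℝ, Real.log x - I ≤ v → v ≤ Real.log x → ∀ N : ℕ, Real.exp (v + 4) ≤ N → ∀ t : ℝ,
    |t| ≤ T0 →
    ‖FF N phi (fb (fun m => b m - mx x b) (1 : DirichletCharacter ℂ q)) v t‖ ≤ ε := by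
  obtain ⟨Cφ, hCφ1, _, hφ, _⟩ := phi_deriv
  have hCφ0 : 0 ≤ Cφ := by linarith
  -- the parameters
  set A : ℝ := Cφ + 1 + T0 with hA
  have hA1 : 1 ≤ A := by rw [hA]; linarith
  obtain ⟨κ, hκ0, hκ1, hκε⟩ : ∃ κ : ℝ, 0 < κ ∧ κ ≤ 1 ∧ 250 * A * κ ≤ ε / 2 := by
    refine ⟨min 1 (ε / (500 * A)), by positivity, min_le_left _ _, ?_⟩
    have : min 1 (ε / (500 * A)) ≤ ε / (500 * A) := min_le_right _ _
    calc 250 * A * min 1 (ε / (500 * A)) ≤ 250 * A * (ε / (500 * A)) :=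
          mul_le_mul_of_nonneg_left this (by positivity)
      _ = ε / 2 := by field_simp; norm_num
  obtain ⟨ε2, hε20, hε21, hε2ε⟩ : ∃ ε2 : ℝ, 0 < ε2 ∧ ε2 ≤ 1 / 2 ∧ 375 * ε2 ≤ ε / 2 := by
    refine ⟨min (1 / 2) (ε / 750), by positivity, min_le_left _ _, ?_⟩
    have : min (1 / 2) (ε / 750) ≤ ε / 750 := min_le_right _ _
    linarith
  set R : ℕ := ⌈124 / κ⌉₊ with hR
  have hR1 : 124 ≤ (R : ℝ) * κ := by
    have := Nat.le_ceil (124 / κ)
    rw [div_le_iff₀ hκ0] at this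
    exact this
  have hR2 : (R : ℝ) * κ ≤ 125 := by
    have h3 : (R : ℝ) < 124 / κ + 1 := Nat.ceil_lt_add_one (by positivity)
    have h4 : (124 / κ + 1) * κ = 124 + κ := by field_simp
    nlinarith
  obtain ⟨x1, hx1⟩ := h1 ε2 hε20
  obtain ⟨x2, hx2⟩ := h2 q hq κ ε2 hκ0 hκ1 hε20
  set Z : ℝ := (x1 : ℝ) + x2 + 2 / κ + Real.exp 125 + Real.exp (I + 2) + 10 with hZ
  have hZ10 : 10 ≤ Z := by
    rw [hZ]; have : 0 < 2 / κ := by positivity
    have h3 := Real.exp_pos 125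
    have h4 := Real.exp_pos (I + 2)
    have h5 : (0 : ℝ) ≤ x1 := Nat.cast_nonneg _
    have h6 : (0 : ℝ) ≤ x2 := Nat.cast_nonneg _
    linarith
  refine ⟨⌈Real.exp (I + 2) * Z⌉₊, fun x hx b hb v hv1 hv2 N hN t ht => ?_⟩
  have hxZ : Real.exp (I + 2) * Z ≤ x := (Nat.le_ceil _).trans (by exact_mod_cast hx)
  have hxpos : (0 : ℝ) < x := lt_of_lt_of_le (by positivity) hxZ
  set w : ℝ := Real.exp (v - 1) with hw
  have hw0 : 0 < w := Real.exp_pos _
  set y : ℝ := x * Real.exp (-(I + 2)) with hy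
  have hyZ : Z ≤ y := by
    have h3 : Real.exp (I + 2) * Real.exp (-(I + 2)) = 1 := by rw [← Real.exp_add]; simp
    have h4 := mul_le_mul_of_nonneg_right hxZ (Real.exp_pos (-(I + 2))).le
    calc Z = Real.exp (I + 2) * Z * Real.exp (-(I + 2)) := by
          rw [mul_right_comm, h3, one_mul]
      _ ≤ y := h4
  have he1 : 2.7 < Real.exp 1 := by have := Real.exp_one_gt_d9; linarith
  have hwy : Real.exp 1 * y ≤ w := by
    rw [hw, hy]
    have h3 : Real.exp 1 * (x * Real.exp (-(I + 2))) = Real.exp (Real.log x - I - 1) := by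
      rw [show Real.log x - I - 1 = Real.log x + (1 + -(I + 2)) by ring, Real.exp_add,
        Real.exp_log hxpos, Real.exp_add]
      ring
    rw [h3]
    exact Real.exp_le_exp.2 (by linarith)
  have hwx : w ≤ x := by
    rw [hw, ← Real.exp_log hxpos]
    exact Real.exp_le_exp.2 (by linarith)
  have hw27 : 2.7 * y ≤ w := by
    refine le_trans ?_ hwy
    have h3 : 0 ≤ y := by linarith
    exact mul_le_mul_of_nonneg_right he1.le h3
  set X : ℕ → ℕ := XX κ w with hX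
  have hX0 : w - 1 < X 0 := by
    have := Nat.lt_floor_add_one w
    have h3 : X 0 = ⌊w⌋₊ := rfl
    rw [h3]; linarith
  have hX0w : (X 0 : ℝ) ≤ w := Nat.floor_le hw0.le
  have hyX : ∀ i, y ≤ X i := by
    intro i
    have h3 : (X 0 : ℝ) ≤ X i := by exact_mod_cast XX_mono hκ0 (Nat.zero_le i)
    linarith
  have h2κ : 2 / κ ≤ Z := by
    rw [hZ]
    have h3 := Real.exp_pos 125
    have h4 := Real.exp_pos (I + 2)
    have h5 : (0 : ℝ) ≤ x1 := Nat.cast_nonneg _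
    have h6 : (0 : ℝ) ≤ x2 := Nat.cast_nonneg _
    linarith
  have hκpos : 0 < 2 / κ := by positivity
  have hx1Z : (x1 : ℝ) ≤ Z := by
    rw [hZ]
    have h3 := Real.exp_pos 125
    have h4 := Real.exp_pos (I + 2)
    have h6 : (0 : ℝ) ≤ x2 := Nat.cast_nonneg _
    linarith
  have hx2Z : (x2 : ℝ) ≤ Z := by
    rw [hZ]
    have h3 := Real.exp_pos 125
    have h4 := Real.exp_pos (I + 2)
    have h5 : (0 : ℝ) ≤ x1 := Nat.cast_nonneg _
    linarith
  have h125Z : Real.exp 125 ≤ Z := by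
    rw [hZ]
    have h4 := Real.exp_pos (I + 2)
    have h5 : (0 : ℝ) ≤ x1 := Nat.cast_nonneg _
    have h6 : (0 : ℝ) ≤ x2 := Nat.cast_nonneg _
    linarith
  have hIZ : Real.exp (I + 2) ≤ Z := by
    rw [hZ]
    have h4 := Real.exp_pos 125
    have h5 : (0 : ℝ) ≤ x1 := Nat.cast_nonneg _
    have h6 : (0 : ℝ) ≤ x2 := Nat.cast_nonneg _
    linarith
  have hyx : y ≤ x := by linarith [hwx, hw27, (by linarith : (0 : ℝ) ≤ y)]
  have hX1 : ∀ i, 1 ≤ X i := by
    intro i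
    have := hyX i
    have h3 : (1 : ℝ) ≤ X i := by linarith
    exact_mod_cast h3
  have hXu : ∀ i, i ≤ R → (X i : ℝ) ≤ Real.exp 125 * x := by
    intro i hi
    refine (XX_upper hκ0 hw0.le i).trans ?_
    have h3 : (1 + κ) ^ i ≤ Real.exp 125 := by
      have h4 : 1 + κ ≤ Real.exp κ := by linarith [Real.add_one_le_exp κ]
      refine (pow_le_pow_left₀ (by linarith) h4 i).trans ?_
      rw [← Real.exp_nat_mul]
      apply Real.exp_le_exp.2
      have h5 : (i : ℝ) ≤ R := by exact_mod_cast hi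
      exact (mul_le_mul_of_nonneg_right h5 hκ0.le).trans hR2
    exact mul_le_mul h3 hwx hw0.le (Real.exp_pos _).le
  have hsq : ∀ z : ℝ, 1 ≤ z → z ^ ε2 ≤ Real.sqrt z := by
    intro z hz
    rw [Real.sqrt_eq_rpow]
    exact Real.rpow_le_rpow_of_exponent_le hz hε21
  have hxx1 : x1 ≤ x := by
    have h3 : (x1 : ℝ) ≤ x := by linarith
    exact_mod_cast h3
  have hmx : ∀ i, i ≤ R → |mx (X i) b - mx x b| ≤ ε2 := by
    intro i hi
    rcases le_total (X i) x with h | h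
    · refine (hx1 x hxx1 b hb).2.2 (X i) ?_ h
      refine (hsq x (by linarith)).trans ?_
      refine le_trans ?_ (hyX i)
      rw [Real.sqrt_le_left (by linarith)]
      have h3 : y ^ 2 = x * (x * (Real.exp (-(I + 2)) * Real.exp (-(I + 2)))) := by rw [hy]; ring
      rw [h3]
      have h4 : 1 ≤ x * (Real.exp (-(I + 2)) * Real.exp (-(I + 2))) := by
        have h5 : Real.exp (I + 2) ≤ y := hIZ.trans hyZ
        have h6 : x * (Real.exp (-(I + 2)) * Real.exp (-(I + 2))) = y * Real.exp (-(I + 2)) := by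
          rw [hy]; ring
        rw [h6]
        have h7 : Real.exp (I + 2) * Real.exp (-(I + 2)) = 1 := by rw [← Real.exp_add]; simp
        have h8 := mul_le_mul_of_nonneg_right h5 (Real.exp_pos (-(I + 2))).le
        linarith
      exact le_mul_of_one_le_right hxpos.le h4
    · have h3 : x1 ≤ X i := hxx1.trans h
      rw [abs_sub_comm]
      refine (hx1 (X i) h3 b hb).2.2 x ?_ h
      have h4 : (1 : ℝ) ≤ X i := by exact_mod_cast hX1 i
      refine (hsq _ h4).trans ?_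
      rw [Real.sqrt_le_left hxpos.le]
      refine (hXu i hi).trans ?_
      have h5 : Real.exp 125 ≤ x := by linarith
      rw [sq]
      exact mul_le_mul_of_nonneg_right h5 hxpos.le
  set F : ℕ → ℂ := fun n => fb (fun k => b k - mx x b) (1 : DirichletCharacter ℂ q) n *
        (((phi (Real.log n - v) : ℝ) : ℂ) * cp n t) with hF
  have hF0 : ∀ n : ℕ, (Real.log n - v ≤ -1 ∨ 3 ≤ Real.log n - v) → F n = 0 := by
    intro n hn
    show fb (fun k => b k - mx x b) (1 : DirichletCharacter ℂ q) n *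
        (((phi (Real.log n - v) : ℝ) : ℂ) * cp n t) = 0
    rw [phi_eq_zero hn]; simp
  have hXR : Real.exp (v + 3) ≤ X R := by
    have h3 := XX_lower hκ0 (w := w) (by linarith [hyX 0] : 2 / κ ≤ (XX κ w 0 : ℝ)) R
    have h4 : 1 + (R : ℝ) * (κ / 2) ≤ (1 + κ / 2) ^ R := one_add_mul_le_pow (by linarith) R
    have h5 : 63 ≤ (1 + κ / 2) ^ R := by linarith
    have h6 : 63 * (X 0 : ℝ) ≤ X R :=
      (mul_le_mul_of_nonneg_right h5 (Nat.cast_nonneg _)).trans h3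
    have h7 : Real.exp (v + 3) = Real.exp 4 * w := by
      rw [hw, ← Real.exp_add]; congr 1; ring
    have h8 : Real.exp 4 ≤ 55 := by
      have h9 : Real.exp 4 = Real.exp 1 ^ 4 := by rw [← Real.exp_nat_mul]; norm_num
      rw [h9]
      have h10 := Real.exp_one_lt_d9
      calc Real.exp 1 ^ 4 ≤ (2.7182818286 : ℝ) ^ 4 :=
            pow_le_pow_left₀ (Real.exp_pos 1).le h10.le 4
        _ ≤ 55 := by norm_num
    rw [h7]
    have h11 : Real.exp 4 * w ≤ 55 * w := mul_le_mul_of_nonneg_right h8 hw0.le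
    linarith
  have hFF : FF N phi (fb (fun m => b m - mx x b) (1 : DirichletCharacter ℂ q)) v t =
      ∑ n ∈ Finset.Ioc (X 0) (X R), F n := by
    have h3 : FF N phi (fb (fun m => b m - mx x b) (1 : DirichletCharacter ℂ q)) v t =
        ∑ n ∈ Finset.Icc 1 N, F n := by
      unfold FF DP cut
      refine Finset.sum_congr rfl fun n _ => ?_
      rw [hF, mul_assoc]
    rw [h3]
    have h4 : ∑ n ∈ Finset.Icc 1 N, F n = ∑ n ∈ Finset.Icc 1 N ∪ Finset.Ioc (X 0) (X R), F n := by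
      refine Finset.sum_subset Finset.subset_union_left fun n hn hn' => ?_
      rcases Finset.mem_union.1 hn with h | h
      · exact absurd h hn'
      have h5 : 1 ≤ n := by have := (Finset.mem_Ioc.1 h).1; omega
      have h6 : N < n := by
        by_contra hcon
        exact hn' (Finset.mem_Icc.2 ⟨h5, not_lt.1 hcon⟩)
      apply hF0
      right
      have h7 : Real.exp (v + 4) ≤ n := hN.trans (by exact_mod_cast h6.le)
      have h8 : v + 4 ≤ Real.log n := by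
        rw [Real.le_log_iff_exp_le (by exact_mod_cast h5)]; exact h7
      linarith
    have h5 : ∑ n ∈ Finset.Ioc (X 0) (X R), F n =
        ∑ n ∈ Finset.Icc 1 N ∪ Finset.Ioc (X 0) (X R), F n := by
      refine Finset.sum_subset Finset.subset_union_right fun n hn hn' => ?_
      rcases Finset.mem_union.1 hn with h | h
      · have h6 := (Finset.mem_Icc.1 h).1
        have h60 : (0 : ℝ) < n := by exact_mod_cast h6
        rw [Finset.mem_Ioc, not_and_or, not_lt, not_le] at hn'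
        apply hF0
        rcases hn' with h7 | h7
        · left
          have h8 : (n : ℝ) ≤ w := le_trans (by exact_mod_cast h7) hX0w
          have h9 : Real.log n ≤ v - 1 := by
            rw [Real.log_le_iff_le_exp h60]; exact h8
          linarith
        · right
          have h8 : Real.exp (v + 3) ≤ n := hXR.trans (by exact_mod_cast h7.le)
          have h9 : v + 3 ≤ Real.log n := by
            rw [Real.le_log_iff_exp_le h60]; exact h8
          linarith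
      · exact absurd h hn'
    rw [h4, h5]
  rw [hFF, hX, sum_windows hκ0 F R]
  refine (norm_sum_le _ _).trans ?_
  have hwin : ∀ i ∈ Finset.range R, ‖∑ n ∈ Finset.Ioc (XX κ w i) (XX κ w (i + 1)), F n‖ ≤
      3 * ε2 * κ + 2 * A * κ ^ 2 := by
    intro i hi
    have hi' : i ≤ R := (Finset.mem_range.1 hi).le
    rw [XX_succ]
    have h3 : x2 ≤ XX κ w i := by
      have h4 : (x2 : ℝ) ≤ X i := hx2Z.trans (hyZ.trans (hyX i))
      exact_mod_cast h4
    have h4 := hx2 (XX κ w i) h3 b hb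
    have h5 := hx2 (XX κ w i) h3 (fun _ => 1) (fun _ => by simp)
    rw [mx_one (hX1 i)] at h5
    exact window_bound hq hκ0 hε20 (hX1 i) hφ hCφ0 ht b hb (mx_abs x b hb) h4 h5 (hmx i hi')
  refine (Finset.sum_le_sum hwin).trans ?_
  rw [Finset.sum_const, Finset.card_range, nsmul_eq_mul]
  have h3 : (R : ℝ) * (3 * ε2 * κ + 2 * A * κ ^ 2) =
      3 * ε2 * ((R : ℝ) * κ) + 2 * A * κ * ((R : ℝ) * κ) := by ring
  rw [h3]
  have h4 : 3 * ε2 * ((R : ℝ) * κ) ≤ 3 * ε2 * 125 := mul_le_mul_of_nonneg_left hR2 (by positivity)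
  have h5 : 2 * A * κ * ((R : ℝ) * κ) ≤ 2 * A * κ * 125 :=
    mul_le_mul_of_nonneg_left hR2 (by positivity)
  linarith

end MRD
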