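import Mathlib
import Pool.Agent.Helper72.MRD.Defs
import Pool.Agent.Helper72.MRD.H03
import Pool.Agent.Helper72.MRD.H04

set_option autoImplicit false

/-!
MRD-H05 (single scale). The principal character: `MRCHI0x`.

`β = mx x b`, `b' m = b m - β`, `|b'| ≤ 2`, `χ = 1`. Given `ε`: `I` with `2 e^{-I} ≤ ε/8`, `δ` with
`2√δ ≤ ε/8`; `core1` with `δ` and `χ = 1` gives `T0, ε', H0`; enlarge `H0` so that `q ≤ (ε/4) H`.
For `x ≥ x0`, `v = log x - i`, `1 ≤ i ≤ I`, the hypothesis of `core1` holds by `small_t1`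
(`N = ⌈exp (v+4)⌉₊`). `block_sum` (for `f = fb b' 1`) gives
`∑_{n ≤ x} ‖∑_j fb b' 1 (n+j)‖ ≤ (ε/4) H x`. Finally
`∑_{j, (n+j,q)=1} b(Om(n+j)) - H (φ(q)/q) β = ∑_j fb b' 1 (n+j) + β (#{j ≤ H : (n+j,q)=1} - H φ(q)/q)`
and the last bracket is at most `q` in absolute value (split `j` into full periods of length `q`).
(`Nat.Coprime (n+j) q` iff `(n+j : ZMod q)` is a unit: `ZMod.isUnit_iff_coprime`; the trivial
character is `1` on units and `0` elsewhere.)
-/

namespace MRD

open Finset MRP MeasureTheory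

/-- the number of integers coprime to `q` in full periods -/
private lemma cop_period (q n : ℕ) : ∀ s : ℕ,
    ((Finset.Ico n (n + q * s)).filter (fun m => Nat.Coprime m q)).card = s * Nat.totient q := by
  intro s
  induction s with
  | zero => simp
  | succ s ih =>
    have hsplit : Finset.Ico n (n + q * (s + 1)) =
        Finset.Ico n (n + q * s) ∪ Finset.Ico (n + q * s) (n + q * s + q) := by
      rw [Finset.Ico_union_Ico_eq_Ico (by omega) (by omega)]
      congr 1
      ring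
    rw [hsplit, Finset.filter_union, Finset.card_union_of_disjoint]
    · rw [ih]
      have h := Nat.filter_coprime_Ico_eq_totient q (n + q * s)
      have h2 : ((Finset.Ico (n + q * s) (n + q * s + q)).filter
          (fun m => Nat.Coprime m q)).card = Nat.totient q := by
        rw [← h]
        congr 1
        refine Finset.filter_congr fun m _ => ?_
        exact Nat.coprime_comm
      rw [h2]
      ring
    · rw [Finset.disjoint_left]
      intro m h1 h2
      rw [Finset.mem_filter, Finset.mem_Ico] at h1 h2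
      omega

/-- the number of integers coprime to `q` in an interval of length `H` -/
private lemma cop_count (q : ℕ) (hq : 1 ≤ q) (n H : ℕ) :
    |(((Finset.Icc 1 H).filter (fun j => Nat.Coprime (n + j) q)).card : ℝ) -
      (H : ℝ) * ((Nat.totient q : ℝ) / (q : ℝ))| ≤ q := by
  have hqR : (0 : ℝ) < q := by exact_mod_cast hq
  -- transfer to an interval
  have h1 : ((Finset.Icc 1 H).filter (fun j => Nat.Coprime (n + j) q)).card =
      ((Finset.Ico (n + 1) (n + 1 + H)).filter (fun m => Nat.Coprime m q)).card := by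
    refine Finset.card_bij (fun j _ => n + j) ?_ ?_ ?_
    · intro j hj
      rw [Finset.mem_filter, Finset.mem_Icc] at hj
      rw [Finset.mem_filter, Finset.mem_Ico]
      exact ⟨⟨by omega, by omega⟩, hj.2⟩
    · intro j _ j' _ h
      omega
    · intro m hm
      rw [Finset.mem_filter, Finset.mem_Ico] at hm
      refine ⟨m - n, ?_, by omega⟩
      rw [Finset.mem_filter, Finset.mem_Icc]
      refine ⟨⟨by omega, by omega⟩, ?_⟩
      have : n + (m - n) = m := by omega
      rw [this]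
      exact hm.2
  rw [h1]
  obtain ⟨s, hs⟩ : ∃ s, s = H / q := ⟨_, rfl⟩
  obtain ⟨r, hr⟩ : ∃ r, r = H % q := ⟨_, rfl⟩
  have hHqr : H = q * s + r := by rw [hs, hr]; exact (Nat.div_add_mod H q).symm
  have hrq : r < q := by rw [hr]; exact Nat.mod_lt _ (by omega)
  have h2 : ((Finset.Ico (n + 1) (n + 1 + H)).filter (fun m => Nat.Coprime m q)).card =
      s * Nat.totient q +
        ((Finset.Ico (n + 1 + q * s) (n + 1 + H)).filter (fun m => Nat.Coprime m q)).card := by
    rw [← cop_period q (n + 1) s, ← Finset.card_union_of_disjoint]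
    · rw [← Finset.filter_union, Finset.Ico_union_Ico_eq_Ico (by omega) (by omega)]
    · rw [Finset.disjoint_left]
      intro m h3 h4
      rw [Finset.mem_filter, Finset.mem_Ico] at h3 h4
      omega
  have h3 : ((Finset.Ico (n + 1 + q * s) (n + 1 + H)).filter
      (fun m => Nat.Coprime m q)).card ≤ r := by
    refine (Finset.card_filter_le _ _).trans ?_
    rw [Nat.card_Ico]
    omega
  obtain ⟨c, hc⟩ : ∃ c, c = ((Finset.Ico (n + 1 + q * s) (n + 1 + H)).filter
      (fun m => Nat.Coprime m q)).card := ⟨_, rfl⟩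
  rw [h2, ← hc]
  rw [← hc] at h3
  have hcR : (c : ℝ) ≤ r := by exact_mod_cast h3
  have hc0 : (0 : ℝ) ≤ c := Nat.cast_nonneg c
  have hrR : (r : ℝ) ≤ q := by exact_mod_cast hrq.le
  have hr0 : (0 : ℝ) ≤ r := Nat.cast_nonneg r
  set τ : ℝ := (Nat.totient q : ℝ) / (q : ℝ) with hτ
  have hτ0 : 0 ≤ τ := by positivity
  have hτ1 : τ ≤ 1 := by
    rw [hτ, div_le_one hqR]
    exact_mod_cast Nat.totient_le q
  have h4 : (((s * Nat.totient q + c : ℕ)) : ℝ) - (H : ℝ) * τ = c - r * τ := by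
    rw [hHqr]
    push_cast
    have : (Nat.totient q : ℝ) = q * τ := by
      rw [hτ]
      field_simp
    rw [this]
    ring
  rw [h4, abs_le]
  constructor
  · nlinarith
  · nlinarith

/-- the principal character picks the coprime integers -/
private lemma sum_fb_one (q : ℕ) (b : ℕ → ℝ) (n H : ℕ) :
    ∑ j ∈ Finset.Icc 1 H, fb b (1 : DirichletCharacter ℂ q) (n + j) =
      ((∑ j ∈ (Finset.Icc 1 H).filter (fun j => Nat.Coprime (n + j) q), b (Om (n + j)) : ℝ) :
        ℂ) := by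
  rw [Finset.sum_filter]
  push_cast
  refine Finset.sum_congr rfl fun j _ => ?_
  unfold fb
  by_cases h : Nat.Coprime (n + j) q
  · rw [if_pos h]
    have hu : IsUnit (((n + j : ℕ)) : ZMod q) := (ZMod.isUnit_iff_coprime _ _).2 h
    rw [MulChar.one_apply hu, mul_one]
  · rw [if_neg h]
    have hu : ¬ IsUnit (((n + j : ℕ)) : ZMod q) := fun h' => h ((ZMod.isUnit_iff_coprime _ _).1 h')
    rw [MulChar.map_nonunit _ hu, mul_zero]
    simp

theorem mrchi0x (hU : UMAIN) (h1 : LAW1x) (h2 : LAW2x) : MRCHI0x := by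
  intro q hq ε hε
  obtain ⟨I, hI⟩ : ∃ I : ℕ, 2 * Real.exp (-(I : ℝ)) ≤ ε / 8 ∧ 1 ≤ I := by
    obtain ⟨n, hn⟩ := exists_nat_ge (Real.log (16 / ε))
    refine ⟨max n 1, ?_, le_max_right _ _⟩
    have h3 : Real.log (16 / ε) ≤ (max n 1 : ℕ) := hn.trans (by exact_mod_cast le_max_left _ _)
    have h4 : Real.exp (-((max n 1 : ℕ) : ℝ)) ≤ Real.exp (-Real.log (16 / ε)) :=
      Real.exp_le_exp.2 (by linarith)
    have h5 : Real.exp (-Real.log (16 / ε)) = ε / 16 := by
      rw [Real.exp_neg, Real.exp_log (by positivity), inv_div]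
    linarith
  obtain ⟨hI1, hI2⟩ := hI
  have hIR : (1 : ℝ) ≤ I := by exact_mod_cast hI2
  set δ : ℝ := (ε / 16) ^ 2 with hδ
  have hδ0 : 0 < δ := by positivity
  have hsq : Real.sqrt δ = ε / 16 := Real.sqrt_sq (by positivity)
  obtain ⟨T0, ε', H0, hT0, hε', hcore⟩ := core1 hU q hq (1 : DirichletCharacter ℂ q) δ hδ0
  obtain ⟨H1, hH1⟩ := exists_nat_ge (4 * (q : ℝ) / ε)
  refine ⟨max H0 (max H1 1), fun H hH => ?_⟩
  have hHH0 : H0 ≤ H := (le_max_left _ _).trans hH
  have hHH1 : H1 ≤ H := (le_max_left _ _).trans ((le_max_right _ _).trans hH)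
  have hHpos : 1 ≤ H := (le_max_right _ _).trans ((le_max_right _ _).trans hH)
  obtain ⟨V0, hV0, hSS⟩ := hcore H hHH0
  obtain ⟨x1, hx1⟩ := small_t1 h1 h2 q hq T0 ε' I hT0 hε' (by linarith)
  obtain ⟨x2, hx2⟩ := exists_nat_ge (Real.exp (V0 + I))
  refine ⟨max (max x1 x2) 1, fun x hx b hb => ?_⟩
  have hxx1 : x1 ≤ x := (le_max_left _ _).trans ((le_max_left _ _).trans hx)
  have hxx2 : x2 ≤ x := (le_max_right _ _).trans ((le_max_left _ _).trans hx)
  have hxpos : 1 ≤ x := (le_max_right _ _).trans hx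
  have hxR : (0 : ℝ) < x := by exact_mod_cast hxpos
  have hlogx : V0 + I ≤ Real.log x := by
    rw [Real.le_log_iff_exp_le hxR]
    exact hx2.trans (by exact_mod_cast hxx2)
  set β : ℝ := mx x b with hβ
  have hβ1 : |β| ≤ 1 := by
    rw [hβ]
    unfold mx
    rw [abs_div, Nat.abs_cast, div_le_one hxR]
    refine (Finset.abs_sum_le_sum_abs _ _).trans ?_
    refine (Finset.sum_le_card_nsmul _ _ 1 fun n _ => hb _).trans ?_
    simp
  set b' : ℕ → ℝ := fun m => b m - β with hb'
  have hb'2 : ∀ m, |b' m| ≤ 2 := by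
    intro m
    have := hb m
    rw [hb']
    simp only
    calc |b m - β| ≤ |b m| + |β| := abs_sub _ _
      _ ≤ 2 := by linarith
  have hf2 : ∀ n, ‖fb b' (1 : DirichletCharacter ℂ q) n‖ ≤ 2 := norm_fb _ hb'2
  have hblock := block_sum (fb b' (1 : DirichletCharacter ℂ q)) hf2 H x I hxpos δ hδ0.le (by
    intro i hi1 hiI
    have hiR : (i : ℝ) ≤ I := by exact_mod_cast hiI
    have hi0 : (0 : ℝ) ≤ i := Nat.cast_nonneg i
    refine hSS (Real.log x - i) (by linarith) b' hb'2 (Or.inr ?_)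
    refine ⟨⌈Real.exp (Real.log x - i + 4)⌉₊, Nat.le_ceil _, fun t ht => ?_⟩
    exact hx1 x hxx1 b hb (Real.log x - i) (by linarith) (by linarith) _ (Nat.le_ceil _) t ht)
  rw [hsq] at hblock
  -- pointwise comparison
  have hpt : ∀ n ∈ Finset.Icc 1 x,
      |(∑ j ∈ (Finset.Icc 1 H).filter (fun j => Nat.Coprime (n + j) q), b (Om (n + j))) -
          (H : ℝ) * ((Nat.totient q : ℝ) / (q : ℝ)) * mx x b| ≤
        ‖∑ j ∈ Finset.Icc 1 H, fb b' (1 : DirichletCharacter ℂ q) (n + j)‖ + q := by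
    intro n _
    rw [sum_fb_one, Complex.norm_real, Real.norm_eq_abs]
    have h3 : ∑ j ∈ (Finset.Icc 1 H).filter (fun j => Nat.Coprime (n + j) q), b' (Om (n + j)) =
        (∑ j ∈ (Finset.Icc 1 H).filter (fun j => Nat.Coprime (n + j) q), b (Om (n + j))) -
          (((Finset.Icc 1 H).filter (fun j => Nat.Coprime (n + j) q)).card : ℝ) * β := by
      rw [hb']
      simp only
      rw [Finset.sum_sub_distrib, Finset.sum_const, nsmul_eq_mul]
    rw [h3]
    set S : ℝ := ∑ j ∈ (Finset.Icc 1 H).filter (fun j => Nat.Coprime (n + j) q), b (Om (n + j))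
    set c : ℝ := (((Finset.Icc 1 H).filter (fun j => Nat.Coprime (n + j) q)).card : ℝ) with hc
    have h4 := cop_count q hq n H
    rw [← hc] at h4
    have h5 : S - (H : ℝ) * ((Nat.totient q : ℝ) / (q : ℝ)) * β =
        (S - c * β) + (c - (H : ℝ) * ((Nat.totient q : ℝ) / (q : ℝ))) * β := by ring
    rw [← hβ, h5]
    refine (abs_add_le _ _).trans ?_
    have h6 : |(c - (H : ℝ) * ((Nat.totient q : ℝ) / (q : ℝ))) * β| ≤ q := by
      rw [abs_mul]
      calc |c - (H : ℝ) * ((Nat.totient q : ℝ) / (q : ℝ))| * |β| ≤ q * 1 :=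
            mul_le_mul h4 hβ1 (abs_nonneg _) (Nat.cast_nonneg _)
        _ = q := mul_one _
    linarith
  refine (Finset.sum_le_sum hpt).trans ?_
  rw [Finset.sum_add_distrib, Finset.sum_const, Nat.card_Icc, Nat.add_sub_cancel, nsmul_eq_mul]
  have hHR : (H1 : ℝ) ≤ H := by exact_mod_cast hHH1
  have hqH : (q : ℝ) ≤ ε / 4 * H := by
    have h7 : 4 * (q : ℝ) / ε ≤ H := hH1.trans hHR
    rw [div_le_iff₀ hε] at h7
    linarith
  have hHx : (0 : ℝ) ≤ H * x := by positivity
  have h8 : (x : ℝ) * q ≤ ε / 4 * H * x := by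
    calc (x : ℝ) * q ≤ x * (ε / 4 * H) := mul_le_mul_of_nonneg_left hqH hxR.le
      _ = ε / 4 * H * x := by ring
  have h9 : (2 * (ε / 16) + 2 * Real.exp (-(I : ℝ))) * H * x ≤ (ε / 8 + ε / 8) * H * x := by
    have : 2 * (ε / 16) + 2 * Real.exp (-(I : ℝ)) ≤ ε / 8 + ε / 8 := by linarith
    calc (2 * (ε / 16) + 2 * Real.exp (-(I : ℝ))) * H * x
        = (2 * (ε / 16) + 2 * Real.exp (-(I : ℝ))) * (H * x) := by ring
      _ ≤ (ε / 8 + ε / 8) * (H * x) := mul_le_mul_of_nonneg_right this hHx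
      _ = (ε / 8 + ε / 8) * H * x := by ring
  nlinarith

end MRD
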