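import Mathlib
import Pool.Agent.Helper72.MRD.Defs
import Pool.Agent.Helper72.MRD.B01
import Pool.Agent.Helper72.MRD.B02
import Pool.Agent.Helper72.MRD.B03

set_option autoImplicit false

/-!
MRD-B06. Decomposition by the primes of a finite set `P` (no slices) and its error.

* `decomp1`: `∑_{p ∈ P} xc χ p cp p t ∑_{m ≤ N} g(m) phi(log m - v + log p) cp m t`; a nonzero term
  has `log (p m) < v + 3`, so `p m ≤ N`; with `n = p m`: `xc χ p g(m) = f(n)` (`fb_mul`),
  `log (n/p) = log n - log p`. So the double sum is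
  `∑_{n ≤ N} om P n * f(n) phi(log n - v) cp n t`.
* `mean_er1`: `‖er1 n‖ ≤ 2 |1 - om/W|` on the block `-1 < log n - v < 3`; `tk_block` divided by `W²`;
  then `mvt` with `B = e^{v+4}`.
-/

namespace MRD

open Finset MRP MeasureTheory

theorem decomp1 (P : Finset ℕ) (hP : ∀ p ∈ P, p.Prime) (v : ℝ) (N : ℕ)
    (hN : Real.exp (v + 4) ≤ N) (b : ℕ → ℝ) {q : ℕ} (χ : DirichletCharacter ℂ q) (t : ℝ) :
    FF N phi (fb b χ) v t = Mn N P phi (fb (up 1 b) χ) χ v t + DP N (er1 P b χ v) t := by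
  have h1 : ∀ p ∈ P, xc χ p * cp p t * FF N phi (fb (up 1 b) χ) (v - Real.log p) t =
      ∑ n ∈ Finset.Icc 1 N, if p ∣ n then cut phi v (fb b χ) n * cp n t else 0 := by
    intro p hp
    have hpp := hP p hp
    have hp0 : (0 : ℝ) < p := by exact_mod_cast hpp.pos
    have h2 : xc χ p * cp p t = QP (xc χ) {p} t := by
      unfold QP; rw [Finset.sum_singleton]
    have h3 := QP_mul_DP (xc χ) {p} (by
        intro r hr; rw [Finset.mem_singleton.1 hr]; exact hpp.one_lt.le) N
      (cut phi (v - Real.log p) (fb (up 1 b) χ)) (by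
        intro r hr n hn hn0
        rw [Finset.mem_singleton.1 hr]
        have hn0' : (0 : ℝ) < n := by exact_mod_cast hn
        have h4 : Real.log n - (v - Real.log p) < 3 := by
          by_contra hcon
          apply hn0
          show fb (up 1 b) χ n * ((phi (Real.log n - (v - Real.log p)) : ℝ) : ℂ) = 0
          rw [phi_eq_zero (Or.inr (not_lt.1 hcon))]
          simp
        have h5 : ((p * n : ℕ) : ℝ) ≤ N := by
          refine le_trans ?_ hN
          push_cast
          rw [← Real.exp_log (mul_pos hp0 hn0'), Real.log_mul hp0.ne' hn0'.ne']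
          exact Real.exp_le_exp.2 (by linarith)
        exact_mod_cast h5) t
    rw [h2]
    show QP (xc χ) {p} t * DP N (cut phi (v - Real.log p) (fb (up 1 b) χ)) t = _
    rw [h3]
    unfold DP
    refine Finset.sum_congr rfl fun n hn => ?_
    have hn1 := (Finset.mem_Icc.1 hn).1
    unfold mulP
    by_cases hpn : p ∣ n
    · rw [if_pos hpn, Finset.filter_singleton, if_pos hpn, Finset.sum_singleton]
      congr 1
      obtain ⟨m, rfl⟩ := hpn
      have hm : 1 ≤ m := by
        rcases Nat.eq_zero_or_pos m with h | h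
        · subst h; simp at hn1
        · exact h
      have hm0 : (0 : ℝ) < m := by exact_mod_cast hm
      rw [Nat.mul_div_cancel_left m hpp.pos]
      show xc χ p * (fb (up 1 b) χ m * ((phi (Real.log m - (v - Real.log p)) : ℝ) : ℂ)) =
        fb b χ (p * m) * ((phi (Real.log ((p * m : ℕ) : ℝ) - v) : ℝ) : ℂ)
      rw [fb_mul χ hpp hm]
      push_cast
      rw [Real.log_mul hp0.ne' hm0.ne']
      have h6 : Real.log m - (v - Real.log p) = Real.log p + Real.log m - v := by ring
      rw [h6]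
      unfold xc
      ring
    · rw [if_neg hpn, Finset.filter_singleton, if_neg hpn, Finset.sum_empty, zero_mul]
  have h2 : Mn N P phi (fb (up 1 b) χ) χ v t =
      ∑ n ∈ Finset.Icc 1 N, (cut phi v (fb b χ) n * (((om P n : ℕ) : ℂ) / ((WS P : ℝ) : ℂ))) * cp n t := by
    unfold Mn
    rw [Finset.sum_congr rfl h1, Finset.sum_comm, Finset.mul_sum]
    refine Finset.sum_congr rfl fun n _ => ?_
    rw [← Finset.sum_filter, Finset.sum_const, nsmul_eq_mul]
    unfold om
    ring
  rw [h2]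
  unfold FF DP er1
  rw [← Finset.sum_add_distrib]
  refine Finset.sum_congr rfl fun n _ => ?_
  ring

theorem mean_er1 : ∃ C : ℝ, 0 < C ∧ ∀ P : Finset ℕ, (∀ p ∈ P, p.Prime) → 0 < WS P →
    ∀ v : ℝ, 0 ≤ v → (∀ p ∈ P, Real.log p ≤ v) → ∀ b : ℕ → ℝ, (∀ k, |b k| ≤ 2) →
    ∀ (q : ℕ) (χ : DirichletCharacter ℂ q), ∀ N : ℕ, ∀ η : ℝ, 0 < η → 1 / η ≤ Real.exp v →
    ∫ t : ℝ, ‖DP N (er1 P b χ v) t‖ ^ 2 * wt η t ≤ C / WS P := by
  obtain ⟨C, hC, htk⟩ := tk_block
  refine ⟨40 * C * (1 + Real.exp 4), by positivity, ?_⟩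
  intro P hP hW v hv hPv b hb q χ N η hη hηv
  have hsupp : ∀ n : ℕ, er1 P b χ v n ≠ 0 → v - 1 < Real.log n ∧ Real.log n < v + 3 := by
    intro n hn
    by_contra hcon
    apply hn
    have h1 : phi (Real.log n - v) = 0 := by
      apply phi_eq_zero
      rw [not_and_or, not_lt, not_lt] at hcon
      rcases hcon with h | h
      · left; linarith
      · right; linarith
    unfold er1 cut
    rw [h1]; simp
  have hmvt := mvt η (Real.exp (v + 4)) hη (Real.exp_pos _).le N (er1 P b χ v) (fun n hn hn0 => by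
    have hn1 : (0 : ℝ) < n := by exact_mod_cast (Finset.mem_Icc.1 hn).1
    rw [← Real.exp_log hn1]
    exact Real.exp_le_exp.2 (by linarith [(hsupp n hn0).2]))
  refine hmvt.trans ?_
  have hNN : NN N (er1 P b χ v) ≤ 4 / WS P ^ 2 * (C * WS P * Real.exp (-v)) := by
    have h2 := htk v hv P hP hPv N
    refine le_trans ?_ (mul_le_mul_of_nonneg_left h2 (by positivity))
    rw [Finset.mul_sum]
    unfold NN
    have h3 : ∑ n ∈ Finset.Icc 1 N, ‖er1 P b χ v n‖ ^ 2 / (n : ℝ) ^ 2 =
        ∑ n ∈ (Finset.Icc 1 N).filter (fun n : ℕ => v - 2 ≤ Real.log n ∧ Real.log n ≤ v + 5),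
          ‖er1 P b χ v n‖ ^ 2 / (n : ℝ) ^ 2 := by
      rw [Finset.sum_filter]
      refine Finset.sum_congr rfl fun n _ => ?_
      split_ifs with h
      · rfl
      · have : er1 P b χ v n = 0 := by
          by_contra h0
          apply h
          obtain ⟨h4, h5⟩ := hsupp n h0
          constructor <;> linarith
        rw [this]; simp
    rw [h3]
    refine Finset.sum_le_sum fun n _ => ?_
    have h4 : ‖er1 P b χ v n‖ ≤ 2 * |1 - (om P n : ℝ) / WS P| := by
      unfold er1
      rw [norm_mul]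
      have h5 : ‖cut phi v (fb b χ) n‖ ≤ 2 := by
        unfold cut
        rw [norm_mul, Complex.norm_real, Real.norm_of_nonneg (phi_nonneg _)]
        have h6 := phi_le_one (Real.log n - v)
        have h7 := phi_nonneg (Real.log n - v)
        have h8 := norm_fb χ hb n
        nlinarith [norm_nonneg (fb b χ n)]
      have h9 : ‖(1 : ℂ) - ((om P n : ℕ) : ℂ) / ((WS P : ℝ) : ℂ)‖ = |1 - (om P n : ℝ) / WS P| := by
        rw [← Real.norm_eq_abs, ← Complex.norm_real]
        push_cast
        rfl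
      rw [h9]
      exact mul_le_mul_of_nonneg_right h5 (abs_nonneg _)
    have h5 : ‖er1 P b χ v n‖ ^ 2 ≤ 4 / WS P ^ 2 * ((om P n : ℝ) - WS P) ^ 2 := by
      refine (pow_le_pow_left₀ (norm_nonneg _) h4 2).trans (le_of_eq ?_)
      rw [mul_pow, sq_abs]
      field_simp
      ring
    calc ‖er1 P b χ v n‖ ^ 2 / (n : ℝ) ^ 2
        ≤ (4 / WS P ^ 2 * ((om P n : ℝ) - WS P) ^ 2) / (n : ℝ) ^ 2 := by gcongr
      _ = 4 / WS P ^ 2 * (((om P n : ℝ) - WS P) ^ 2 / (n : ℝ) ^ 2) := by ring
  have h10 : 10 * (1 / η + Real.exp (v + 4)) ≤ 10 * ((1 + Real.exp 4) * Real.exp v) := by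
    rw [Real.exp_add v 4]
    nlinarith
  have hNN0 : 0 ≤ NN N (er1 P b χ v) := Finset.sum_nonneg fun n _ => by positivity
  refine (mul_le_mul h10 hNN hNN0 (by positivity)).trans (le_of_eq ?_)
  have h11 : Real.exp v * Real.exp (-v) = 1 := by rw [← Real.exp_add]; simp
  calc 10 * ((1 + Real.exp 4) * Real.exp v) * (4 / WS P ^ 2 * (C * WS P * Real.exp (-v)))
      = 40 * C * (1 + Real.exp 4) * (WS P / WS P ^ 2) * (Real.exp v * Real.exp (-v)) := by ring
    _ = 40 * C * (1 + Real.exp 4) / WS P := by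
        rw [h11]
        field_simp

end MRD
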