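import Mathlib
import Pool.Agent.Helper72.MRD.Defs

set_option autoImplicit false

/-!
MRD-E01. Continuous Halasz-Montgomery inequality (duality, Schur test).

Let `A t = DP N a t = ∑ (a n / n) n^{-it}`, `J = ∫_U ‖A‖²` (`A` is continuous and bounded, `U` is
bounded and measurable). `J = ∑_n (a n/n) c_n`, `c_n = ∫_U n^{-it} conj(A t) dt`. Cauchy-Schwarz over
the `n` with `a n ≠ 0` (there `w n ≥ 1`): `J² ≤ NN N a * ∑_n w n ‖c_n‖²`, and
`∑_n w n ‖c_n‖² = ∫_U ∫_U conj(A t) A(t') ZZ N w (t - t') dt dt'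
 ≤ ∫_U ∫_U (‖A t‖² + ‖A t'‖²)/2 ‖ZZ N w (t - t')‖ ≤ B J`, because `‖ZZ(-u)‖ = ‖ZZ(u)‖` (`w` real).
So `J² ≤ NN B J`, hence `J ≤ B NN`.
-/

namespace MRD

open Finset MRP MeasureTheory

private noncomputable def ee (n : ℕ) (t : ℝ) : ℂ := Complex.exp (-(t * Real.log n : ℝ) * Complex.I)

private lemma norm_ee (n : ℕ) (t : ℝ) : ‖ee n t‖ = 1 := by
  unfold ee
  rw [← Complex.ofReal_neg, Complex.norm_exp_ofReal_mul_I]

private lemma continuous_ee (n : ℕ) : Continuous (ee n) := by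
  unfold ee
  fun_prop

private lemma ee_mul_conj {n : ℕ} (hn : 1 ≤ n) (t t' : ℝ) :
    ee n t * starRingEnd ℂ (ee n t') = (n : ℂ) ^ (-((t - t' : ℝ) : ℂ) * Complex.I) := by
  have hn0 : (n : ℂ) ≠ 0 := by exact_mod_cast (by omega : n ≠ 0)
  have hnR : (0 : ℝ) < n := by exact_mod_cast hn
  unfold ee
  rw [← Complex.exp_conj, ← Complex.exp_add, Complex.cpow_def_of_ne_zero hn0,
    ← Complex.ofReal_natCast, ← Complex.ofReal_log hnR.le]
  congr 1
  simp only [map_mul, map_neg, Complex.conj_ofReal, Complex.conj_I]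
  push_cast
  ring

private lemma norm_DP_le (N : ℕ) (a : ℕ → ℂ) (t : ℝ) :
    ‖DP N a t‖ ≤ ∑ n ∈ Finset.Icc 1 N, ‖a n‖ := by
  unfold DP
  refine (norm_sum_le _ _).trans (Finset.sum_le_sum fun n hn => ?_)
  have h1 := (Finset.mem_Icc.1 hn).1
  rw [norm_mul, norm_cp h1]
  have h2 : 1 / (n : ℝ) ≤ 1 := by
    rw [div_le_one (by exact_mod_cast h1)]; exact_mod_cast h1
  nlinarith [norm_nonneg (a n)]

private lemma continuous_ZZ (N : ℕ) (w : ℕ → ℝ) : Continuous (ZZ N w) := by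
  have : ZZ N w = fun u => ∑ n ∈ Finset.Icc 1 N, ((w n : ℝ) : ℂ) * ee n u := by
    funext u
    unfold ZZ
    refine Finset.sum_congr rfl fun n hn => ?_
    have h1 := ee_mul_conj (Finset.mem_Icc.1 hn).1 u 0
    have h2 : ee n 0 = 1 := by simp [ee]
    rw [h2, map_one, mul_one, sub_zero] at h1
    rw [h1]
  rw [this]
  exact continuous_finsetSum _ fun n _ => continuous_const.mul (continuous_ee n)

private lemma norm_ZZ_le (N : ℕ) (w : ℕ → ℝ) (u : ℝ) :
    ‖ZZ N w u‖ ≤ ∑ n ∈ Finset.Icc 1 N, |w n| := by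
  unfold ZZ
  refine (norm_sum_le _ _).trans (Finset.sum_le_sum fun n hn => ?_)
  have h1 := ee_mul_conj (Finset.mem_Icc.1 hn).1 u 0
  have h2 : ee n 0 = 1 := by simp [ee]
  rw [h2, map_one, mul_one, sub_zero] at h1
  rw [norm_mul, ← h1, norm_ee, mul_one, Complex.norm_real, Real.norm_eq_abs]

private lemma norm_ZZ_neg (N : ℕ) (w : ℕ → ℝ) (u : ℝ) : ‖ZZ N w (-u)‖ = ‖ZZ N w u‖ := by
  have : ZZ N w (-u) = starRingEnd ℂ (ZZ N w u) := by
    unfold ZZ
    rw [map_sum]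
    refine Finset.sum_congr rfl fun n hn => ?_
    have hn1 := (Finset.mem_Icc.1 hn).1
    have h1 := ee_mul_conj hn1 u 0
    have h2 : ee n 0 = 1 := by simp [ee]
    rw [h2, map_one, mul_one, sub_zero] at h1
    have h3 := ee_mul_conj hn1 0 u
    rw [h2, one_mul, zero_sub] at h3
    rw [map_mul, Complex.conj_ofReal, ← h1, ← h3]
  rw [this, RCLike.norm_conj]

theorem halasz_abs (N : ℕ) (a : ℕ → ℂ) (w : ℕ → ℝ) (hw : ∀ n, 0 ≤ w n)
    (hwa : ∀ n ∈ Finset.Icc 1 N, a n ≠ 0 → 1 ≤ w n) (U : Set ℝ) (hU : MeasurableSet U)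
    (T : ℝ) (hUT : U ⊆ Set.Icc (-T) T) (B : ℝ) (hB : 0 ≤ B)
    (hZ : ∀ t ∈ U, ∫ t' in U, ‖ZZ N w (t - t')‖ ≤ B) :
    ∫ t in U, ‖DP N a t‖ ^ 2 ≤ B * NN N a := by
  have hfin : volume U < ⊤ := lt_of_le_of_lt (measure_mono hUT) (by rw [Real.volume_Icc]; exact ENNReal.ofReal_lt_top)
  set μ : Measure ℝ := volume.restrict U with hμ
  have : IsFiniteMeasure μ := ⟨by rw [hμ, Measure.restrict_apply_univ]; exact hfin⟩
  set A : ℝ → ℂ := DP N a with hA
  have hAc : Continuous A := continuous_DP N a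
  set CA : ℝ := ∑ n ∈ Finset.Icc 1 N, ‖a n‖ with hCA
  have hAb : ∀ t, ‖A t‖ ≤ CA := norm_DP_le N a
  have hCA0 : 0 ≤ CA := (norm_nonneg _).trans (hAb 0)
  set CZ : ℝ := ∑ n ∈ Finset.Icc 1 N, |w n| with hCZ
  have hZb : ∀ u, ‖ZZ N w u‖ ≤ CZ := norm_ZZ_le N w
  have hCZ0 : 0 ≤ CZ := (norm_nonneg _).trans (hZb 0)
  have hZc : Continuous (ZZ N w) := continuous_ZZ N w
  set J : ℝ := ∫ t, ‖A t‖ ^ 2 ∂μ with hJ
  have hJ0 : 0 ≤ J := integral_nonneg fun t => by positivity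
  set c : ℕ → ℂ := fun n => ∫ t, ee n t * starRingEnd ℂ (A t) ∂μ with hc
  -- integrability of bounded continuous functions
  have hint : ∀ (f : ℝ → ℂ) (C : ℝ), Continuous f → (∀ t, ‖f t‖ ≤ C) → Integrable f μ :=
    fun f C hf hC => Integrable.of_bound hf.aestronglyMeasurable C (Filter.Eventually.of_forall hC)
  have hintR : ∀ (f : ℝ → ℝ) (C : ℝ), Continuous f → (∀ t, ‖f t‖ ≤ C) → Integrable f μ :=
    fun f C hf hC => Integrable.of_bound hf.aestronglyMeasurable C (Filter.Eventually.of_forall hC)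
  have hGi : ∀ n, Integrable (fun t => ee n t * starRingEnd ℂ (A t)) μ := by
    intro n
    refine hint _ CA ((continuous_ee n).mul (Complex.continuous_conj.comp hAc)) fun t => ?_
    show ‖ee n t * starRingEnd ℂ (A t)‖ ≤ CA
    rw [norm_mul, norm_ee, one_mul, RCLike.norm_conj]
    exact hAb t
  -- step 1
  have h1 : (J : ℂ) = ∑ n ∈ Finset.Icc 1 N, (a n / (n : ℂ)) * c n := by
    have h2 : (J : ℂ) = ∫ t, A t * starRingEnd ℂ (A t) ∂μ := by
      rw [hJ, ← integral_complex_ofReal]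
      congr 1
      funext t
      rw [Complex.mul_conj, Complex.normSq_eq_norm_sq]
    rw [h2]
    have h3 : ∀ t, A t * starRingEnd ℂ (A t) =
        ∑ n ∈ Finset.Icc 1 N, (a n / (n : ℂ)) * (ee n t * starRingEnd ℂ (A t)) := by
      intro t
      conv_lhs => rw [hA]; unfold DP
      rw [Finset.sum_mul]
      refine Finset.sum_congr rfl fun n hn => ?_
      rw [cp_eq (Finset.mem_Icc.1 hn).1]
      show _ = (a n / (n : ℂ)) * (ee n t * starRingEnd ℂ (A t))
      unfold ee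
      push_cast
      rw [hA]
      unfold DP
      ring
    simp_rw [h3]
    rw [integral_finsetSum]
    · refine Finset.sum_congr rfl fun n _ => ?_
      rw [integral_const_mul]
    · intro n _
      exact (hGi n).const_mul _
  -- step 2
  have hV0 : J ^ 2 ≤ NN N a * ∑ n ∈ Finset.Icc 1 N, w n * ‖c n‖ ^ 2 := by
    have h2 : J ≤ ∑ n ∈ Finset.Icc 1 N, ‖a n / (n : ℂ)‖ * (Real.sqrt (w n) * ‖c n‖) := by
      have h3 : J = ‖(J : ℂ)‖ := by rw [Complex.norm_real, Real.norm_of_nonneg hJ0]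
      rw [h3, h1]
      refine (norm_sum_le _ _).trans (Finset.sum_le_sum fun n hn => ?_)
      rw [norm_mul]
      by_cases ha : a n = 0
      · rw [ha]; simp
      · have h4 : 1 ≤ Real.sqrt (w n) := by
          rw [Real.one_le_sqrt]; exact hwa n hn ha
        have h5 : ‖c n‖ ≤ Real.sqrt (w n) * ‖c n‖ := by
          nlinarith [norm_nonneg (c n)]
        exact mul_le_mul_of_nonneg_left h5 (norm_nonneg _)
    have h3 := Finset.sum_mul_sq_le_sq_mul_sq (Finset.Icc 1 N) (fun n => ‖a n / (n : ℂ)‖)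
      (fun n => Real.sqrt (w n) * ‖c n‖)
    have h4 : J ^ 2 ≤ (∑ n ∈ Finset.Icc 1 N, ‖a n / (n : ℂ)‖ * (Real.sqrt (w n) * ‖c n‖)) ^ 2 :=
      pow_le_pow_left₀ hJ0 h2 2
    refine h4.trans (h3.trans (le_of_eq ?_))
    congr 1
    · unfold NN
      refine Finset.sum_congr rfl fun n _ => ?_
      rw [norm_div, div_pow, Complex.norm_natCast]
    · refine Finset.sum_congr rfl fun n _ => ?_
      rw [mul_pow, Real.sq_sqrt (hw n)]
  -- step 3
  set V : ℝ := ∑ n ∈ Finset.Icc 1 N, w n * ‖c n‖ ^ 2 with hV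
  have hVB : V ≤ B * J := by
    have hintP : ∀ (f : ℝ × ℝ → ℂ) (C : ℝ), Continuous f → (∀ t, ‖f t‖ ≤ C) →
        Integrable f (μ.prod μ) :=
      fun f C hf hC => Integrable.of_bound hf.aestronglyMeasurable C (Filter.Eventually.of_forall hC)
    have hintPR : ∀ (f : ℝ × ℝ → ℝ) (C : ℝ), Continuous f → (∀ t, ‖f t‖ ≤ C) →
        Integrable f (μ.prod μ) :=
      fun f C hf hC => Integrable.of_bound hf.aestronglyMeasurable C (Filter.Eventually.of_forall hC)
    have hGc : ∀ n, Continuous fun t => ee n t * starRingEnd ℂ (A t) := fun n =>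
      (continuous_ee n).mul (Complex.continuous_conj.comp hAc)
    have hV1 : (V : ℂ) = ∫ p : ℝ × ℝ, starRingEnd ℂ (A p.1) * A p.2 * ZZ N w (p.1 - p.2)
        ∂(μ.prod μ) := by
      have h2 : ∀ n ∈ Finset.Icc 1 N, ((w n * ‖c n‖ ^ 2 : ℝ) : ℂ) =
          ∫ p : ℝ × ℝ, (w n : ℂ) * ((ee n p.1 * starRingEnd ℂ (A p.1)) *
            starRingEnd ℂ (ee n p.2 * starRingEnd ℂ (A p.2))) ∂(μ.prod μ) := by
        intro n _
        rw [integral_const_mul,
          integral_prod_mul (fun t => ee n t * starRingEnd ℂ (A t))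
            (fun t => starRingEnd ℂ (ee n t * starRingEnd ℂ (A t))), integral_conj]
        show _ = (w n : ℂ) * (c n * starRingEnd ℂ (c n))
        rw [Complex.mul_conj, Complex.normSq_eq_norm_sq]
        push_cast
        rfl
      rw [hV, Complex.ofReal_sum, Finset.sum_congr rfl h2, ← integral_finsetSum]
      · congr 1
        funext p
        unfold ZZ
        rw [Finset.mul_sum]
        refine Finset.sum_congr rfl fun n hn => ?_
        rw [← ee_mul_conj (Finset.mem_Icc.1 hn).1]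
        simp only [map_mul, Complex.conj_conj]
        ring
      · intro n _
        refine (hintP _ (CA * CA) ?_ fun p => ?_).const_mul _
        · exact ((hGc n).comp continuous_fst).mul
            (Complex.continuous_conj.comp ((hGc n).comp continuous_snd))
        · rw [norm_mul, RCLike.norm_conj, norm_mul, norm_mul, norm_ee, norm_ee, one_mul, one_mul,
            RCLike.norm_conj, RCLike.norm_conj]
          exact mul_le_mul (hAb _) (hAb _) (norm_nonneg _) hCA0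
    set F1 : ℝ × ℝ → ℝ := fun p => ‖A p.1‖ ^ 2 * ‖ZZ N w (p.1 - p.2)‖ with hF1
    have hF1c : Continuous F1 := by
      have h3 := hAc.comp (continuous_fst (X := ℝ) (Y := ℝ))
      have h4 := hZc.comp ((continuous_fst (X := ℝ) (Y := ℝ)).sub continuous_snd)
      exact (h3.norm.pow 2).mul h4.norm
    have hF1b : ∀ p, ‖F1 p‖ ≤ CA ^ 2 * CZ := by
      intro p
      rw [Real.norm_of_nonneg (by positivity)]
      exact mul_le_mul (pow_le_pow_left₀ (norm_nonneg _) (hAb _) 2) (hZb _) (norm_nonneg _)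
        (by positivity)
    have hF1i := hintPR F1 _ hF1c hF1b
    have hF1I : ∫ p, F1 p ∂(μ.prod μ) ≤ B * J := by
      rw [integral_prod _ hF1i]
      have h3 : ∀ t, ∫ t', F1 (t, t') ∂μ = ‖A t‖ ^ 2 * ∫ t', ‖ZZ N w (t - t')‖ ∂μ := by
        intro t
        rw [← integral_const_mul]
      rw [hJ, ← integral_const_mul]
      refine integral_mono_ae hF1i.integral_prod_left ?_ ?_
      · refine (hintR _ (CA ^ 2) (hAc.norm.pow 2) fun t => ?_).const_mul _
        show ‖‖A t‖ ^ 2‖ ≤ CA ^ 2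
        rw [Real.norm_of_nonneg (by positivity)]
        exact pow_le_pow_left₀ (norm_nonneg _) (hAb _) 2
      · have h4 : ∀ᵐ t ∂μ, t ∈ U := ae_restrict_mem hU
        filter_upwards [h4] with t ht
        show ∫ t', F1 (t, t') ∂μ ≤ B * ‖A t‖ ^ 2
        rw [h3 t, mul_comm]
        exact mul_le_mul_of_nonneg_right (hZ t ht) (by positivity)
    have hF2I : ∫ p : ℝ × ℝ, F1 p.swap ∂(μ.prod μ) = ∫ p, F1 p ∂(μ.prod μ) :=
      integral_prod_swap F1
    have h5 : V ≤ ∫ p : ℝ × ℝ, (F1 p + F1 p.swap) / 2 ∂(μ.prod μ) := by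
      have h6 : V ≤ ‖(V : ℂ)‖ := by rw [Complex.norm_real]; exact le_abs_self V
      refine h6.trans ?_
      rw [hV1]
      refine norm_integral_le_of_norm_le ((hF1i.add hF1i.swap).div_const 2) ?_
      refine Filter.Eventually.of_forall fun p => ?_
      rw [norm_mul, norm_mul, RCLike.norm_conj]
      show _ ≤ (‖A p.1‖ ^ 2 * ‖ZZ N w (p.1 - p.2)‖ + ‖A p.2‖ ^ 2 * ‖ZZ N w (p.2 - p.1)‖) / 2
      have h7 : ‖ZZ N w (p.2 - p.1)‖ = ‖ZZ N w (p.1 - p.2)‖ := by
        rw [← norm_ZZ_neg, neg_sub]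
      rw [h7]
      have h8 : ‖A p.1‖ * ‖A p.2‖ ≤ (‖A p.1‖ ^ 2 + ‖A p.2‖ ^ 2) / 2 := by
        nlinarith [sq_nonneg (‖A p.1‖ - ‖A p.2‖)]
      have h9 := mul_le_mul_of_nonneg_right h8 (norm_nonneg (ZZ N w (p.1 - p.2)))
      linarith
    have h10 : ∫ p : ℝ × ℝ, (F1 p + F1 p.swap) / 2 ∂(μ.prod μ) = ∫ p, F1 p ∂(μ.prod μ) := by
      have hsw : Integrable (fun p : ℝ × ℝ => F1 p.swap) (μ.prod μ) := hF1i.swap
      rw [integral_div, integral_add hF1i hsw, hF2I]
      ring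
    linarith
  -- conclusion
  have hNN : 0 ≤ NN N a := Finset.sum_nonneg fun n _ => by positivity
  have h11 : J ^ 2 ≤ NN N a * (B * J) := hV0.trans (mul_le_mul_of_nonneg_left hVB hNN)
  show J ≤ B * NN N a
  rcases hJ0.eq_or_lt with h0 | h0
  · rw [← h0]; positivity
  · have h12 : J * J ≤ (B * NN N a) * J := by nlinarith
    exact le_of_mul_le_mul_right h12 h0

end MRD
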