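import Mathlib
import Pool.Agent.Helper72.MRD.Defs
import Pool.Agent.Helper72.MRD.B01
import Pool.Agent.Helper72.MRD.E01

set_option autoImplicit false

/-!
MRD-E02. Log-free Halasz-Montgomery for blocks.

Apply `halasz_abs` with `w n = psi (log n - v)` (`psi = 1` on `[-1, 3]`). For `t, t' ∈ U`,
`|t - t'| ≤ 2T ≤ e^{3v/2}`, so by `SMOOTH psi` (constants `C1, c1`)
`∫_U ‖ZZ (t - t')‖ dt' ≤ C1 (e^v ∫_ℝ du/(1+u²) + e^{(1-c1)v} vol U) ≤ C1 (π e^v + e^v)` if
`vol U ≤ e^{c v}`, `c = c1`. `NN_le` gives `NN N a ≤ C A² e^{-v}`.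
-/

namespace MRD

open Finset MRP MeasureTheory

private lemma int_cauchy (t : ℝ) : Integrable (fun t' : ℝ => (1 + (t - t') ^ 2)⁻¹) ∧
    ∫ t' : ℝ, (1 + (t - t') ^ 2)⁻¹ = Real.pi := by
  refine ⟨?_, ?_⟩
  · exact (integrable_inv_one_add_sq).comp_sub_left t
  · rw [integral_sub_left_eq_self (fun x : ℝ => (1 + x ^ 2)⁻¹) volume t]
    exact integral_univ_inv_one_add_sq

theorem halasz (hS : SMOOTH psi) : ∃ C c : ℝ, 0 < C ∧ 0 < c ∧ c ≤ 1 ∧ ∀ v : ℝ, 0 ≤ v →
    ∀ T : ℝ, 0 ≤ T → 2 * T ≤ Real.exp (3 * v / 2) → ∀ U : Set ℝ, MeasurableSet U →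
    U ⊆ Set.Icc (-T) T → volume.real U ≤ Real.exp (c * v) → ∀ N : ℕ, Real.exp (v + 4) ≤ N →
    ∀ (a : ℕ → ℂ) (A : ℝ), 0 ≤ A → (∀ n ∈ Finset.Icc 1 N, ‖a n‖ ≤ A) →
    (∀ n ∈ Finset.Icc 1 N, a n ≠ 0 → v - 1 ≤ Real.log n ∧ Real.log n ≤ v + 3) →
    ∫ t in U, ‖DP N a t‖ ^ 2 ≤ C * A ^ 2 := by
  obtain ⟨C1, c1, hC1, hc1, hc1', hZ⟩ := hS
  obtain ⟨C2, hC2, hNN⟩ := NN_le
  refine ⟨C1 * (Real.pi + 1) * C2, c1, by positivity, hc1, hc1'.le, ?_⟩
  intro v hv T hT hTv U hU hUT hUv N hN a A hA haA ha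
  have hfin : volume U < ⊤ := lt_of_le_of_lt (measure_mono hUT) (by
    rw [Real.volume_Icc]; exact ENNReal.ofReal_lt_top)
  have h1 := halasz_abs N a (fun n => psi (Real.log n - v)) (fun n => psi_nonneg _)
    (fun n hn han => by
      obtain ⟨h1, h2⟩ := ha n hn han
      exact (psi_eq_one (by linarith) (by linarith)).ge) U hU T hUT
    (C1 * ((Real.pi + 1) * Real.exp v)) (by positivity) (by
      intro t ht
      have hsub : ∀ t' ∈ U, |t - t'| ≤ Real.exp (3 * v / 2) := by
        intro t' ht'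
        have h3 := hUT ht
        have h4 := hUT ht'
        rw [Set.mem_Icc] at h3 h4
        refine le_trans ?_ hTv
        rw [abs_le]
        constructor <;> linarith [h3.1, h3.2, h4.1, h4.2]
      have hcau := int_cauchy t
      have hb : Integrable (fun t' : ℝ => C1 * (Real.exp v * (1 + (t - t') ^ 2)⁻¹ +
          Real.exp ((1 - c1) * v))) (volume.restrict U) := by
        refine ((hcau.1.restrict.const_mul _).add ?_).const_mul _
        exact integrableOn_const hfin.ne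
      have h5 : ∫ t' in U, ‖ZZ N (fun n => psi (Real.log n - v)) (t - t')‖ ≤
          ∫ t' in U, C1 * (Real.exp v * (1 + (t - t') ^ 2)⁻¹ + Real.exp ((1 - c1) * v)) := by
        refine integral_mono_of_nonneg (Filter.Eventually.of_forall fun _ => norm_nonneg _) hb ?_
        filter_upwards [ae_restrict_mem hU] with t' ht'
        have h6 := hZ v hv (t - t') (hsub t' ht') N hN
        rwa [div_eq_mul_inv] at h6
      refine h5.trans ?_
      rw [integral_const_mul]
      refine mul_le_mul_of_nonneg_left ?_ hC1.le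
      rw [integral_add (hcau.1.restrict.const_mul _) (integrableOn_const hfin.ne),
        integral_const_mul, setIntegral_const]
      have h7 : ∫ t' in U, (1 + (t - t') ^ 2)⁻¹ ≤ Real.pi := by
        rw [← hcau.2]
        exact setIntegral_le_integral hcau.1 (Filter.Eventually.of_forall fun _ => by positivity)
      have h8 : volume.real U • Real.exp ((1 - c1) * v) ≤ Real.exp v := by
        rw [smul_eq_mul]
        refine (mul_le_mul_of_nonneg_right hUv (Real.exp_pos _).le).trans ?_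
        rw [← Real.exp_add]
        apply le_of_eq
        congr 1
        ring
      have h9 := mul_le_mul_of_nonneg_left h7 (Real.exp_pos v).le
      linarith)
  refine h1.trans ?_
  have h2 := hNN v hv N a A hA haA (fun n hn han => by
    obtain ⟨h1, h2⟩ := ha n hn han
    linarith)
  have h3 : Real.exp v * Real.exp (-v) = 1 := by rw [← Real.exp_add]; simp
  calc C1 * ((Real.pi + 1) * Real.exp v) * NN N a
      ≤ C1 * ((Real.pi + 1) * Real.exp v) * (C2 * A ^ 2 * Real.exp (-v)) :=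
        mul_le_mul_of_nonneg_left h2 (by positivity)
    _ = C1 * (Real.pi + 1) * C2 * A ^ 2 * (Real.exp v * Real.exp (-v)) := by ring
    _ = C1 * (Real.pi + 1) * C2 * A ^ 2 := by rw [h3, mul_one]

end MRD
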