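import Mathlib
import Pool.Agent.Helper72.MRD.Defs

set_option autoImplicit false

/-!
MRD-F01. A convolution with a measure whose Fourier transform is small at low frequencies.

`S` is a smooth compactly supported function, hence a Schwartz function (`HasCompactSupport.toSchwartzMap`).
With `𝓕 f ξ = ∫ f(v) e^{-2πiξv} dv`: `𝓕 (v ↦ S (v - λ)) = e^{-2πiξλ} 𝓕 S`, so for
`T v = ∑ x_p S (v - λ_p)`, `𝓕 T ξ = M(ξ) 𝓕 S ξ`, `M(ξ) = ∑ x_p e^{-2πiξλ_p}`, `|M| ≤ W` always and
`|M(ξ)| ≤ A` for `|ξ| ≤ Ω`. Plancherel (`SchwartzMap` version: `∫ ‖𝓕 f‖² = ∫ ‖f‖²`):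
`∫ ‖T‖² = ∫ ‖M‖² ‖𝓕 S‖² ≤ A² ∫ ‖𝓕 S‖² + W² ∫_{|ξ|>Ω} ‖𝓕 S‖²`, and `𝓕 (S') ξ = 2πiξ 𝓕 S ξ`, so
the last integral is at most `(2πΩ)^{-2} ∫ ‖𝓕 (S')‖² = (2πΩ)^{-2} ∫ ‖S'‖²`.
-/

namespace MRD

open Finset MRP MeasureTheory

open FourierTransform in
theorem operator_bound (S : ℝ → ℂ) (hS : ∀ n : ℕ, ContDiff ℝ n S) (hc : HasCompactSupport S)
    (s : Finset ℕ) (x : ℕ → ℂ) (lam : ℕ → ℝ) (A Ω W : ℝ) (hA : 0 ≤ A) (hΩ : 0 < Ω)
    (hW : ∑ p ∈ s, ‖x p‖ ≤ W)
    (h : ∀ ξ : ℝ, |ξ| ≤ Ω →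
      ‖∑ p ∈ s, x p * Complex.exp (-(2 * Real.pi * ξ * lam p : ℝ) * Complex.I)‖ ≤ A) :
    ∫ v : ℝ, ‖∑ p ∈ s, x p * S (v - lam p)‖ ^ 2 ≤
      A ^ 2 * (∫ v : ℝ, ‖S v‖ ^ 2) + (W / (2 * Real.pi * Ω)) ^ 2 * ∫ v : ℝ, ‖deriv S v‖ ^ 2 := by
  have hS' : ContDiff ℝ (⊤ : ℕ∞) S := contDiff_infty.2 hS
  set f : SchwartzMap ℝ ℂ := hc.toSchwartzMap hS' with hf
  have hfS : ∀ v, f v = S v := fun v => rfl
  have hfS' : (f : ℝ → ℂ) = S := rfl
  -- the function `T`
  set T : ℝ → ℂ := fun v => ∑ p ∈ s, x p * S (v - lam p) with hT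
  have hTs : ContDiff ℝ (⊤ : ℕ∞) T := by
    refine ContDiff.sum fun p _ => ?_
    exact contDiff_const.mul (hS'.comp (contDiff_id.sub contDiff_const))
  have hsh : ∀ p, HasCompactSupport (fun v => S (v - lam p)) := by
    intro p
    have := hc.comp_homeomorph (Homeomorph.subRight (lam p))
    exact this
  have hTc : HasCompactSupport T := by
    classical
    have : ∀ t : Finset ℕ, HasCompactSupport (fun v => ∑ p ∈ t, x p * S (v - lam p)) := by
      intro t
      induction t using Finset.induction_on with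
      | empty =>
        have h0 : (fun v : ℝ => ∑ p ∈ (∅ : Finset ℕ), x p * S (v - lam p)) = 0 := by
          ext v; simp
        rw [h0]
        exact HasCompactSupport.zero
      | insert a t ha ih =>
        have h1 : HasCompactSupport (fun v => x a * S (v - lam a)) :=
          (hsh a).mul_left
        have h2 := h1.add ih
        have h0 : (fun v : ℝ => ∑ p ∈ insert a t, x p * S (v - lam p)) =
            (fun v => x a * S (v - lam a)) + fun v => ∑ p ∈ t, x p * S (v - lam p) := by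
          ext v; simp [Finset.sum_insert ha]
        rw [h0]
        exact h2
    exact this s
  set g : SchwartzMap ℝ ℂ := hTc.toSchwartzMap hTs with hg
  have hgT : (g : ℝ → ℂ) = T := rfl
  -- integrability
  have hSint : ∀ p, Integrable (fun v => S (v - lam p)) := by
    intro p
    exact ((hS'.continuous.comp (continuous_id.sub continuous_const))).integrable_of_hasCompactSupport
      (hsh p)
  -- the Fourier transform of T
  have hFT : ∀ ξ : ℝ, 𝓕 T ξ =
      (∑ p ∈ s, x p * Complex.exp (-(2 * Real.pi * ξ * lam p : ℝ) * Complex.I)) * 𝓕 S ξ := by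
    intro ξ
    have hone : ∀ p, ∫ v : ℝ, Complex.exp (((-2 * Real.pi * v * ξ : ℝ) : ℂ) * Complex.I) *
        S (v - lam p) =
        Complex.exp (-(2 * Real.pi * ξ * lam p : ℝ) * Complex.I) * 𝓕 S ξ := by
      intro p
      rw [Real.fourier_real_eq_integral_exp_smul]
      rw [← integral_add_right_eq_self (fun v : ℝ =>
        Complex.exp (((-2 * Real.pi * v * ξ : ℝ) : ℂ) * Complex.I) * S (v - lam p)) (lam p)]
      rw [← integral_const_mul]
      refine integral_congr_ae (Filter.Eventually.of_forall fun v => ?_)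
      simp only [add_sub_cancel_right, smul_eq_mul]
      rw [← mul_assoc, ← Complex.exp_add]
      congr 2
      push_cast
      ring
    rw [Real.fourier_real_eq_integral_exp_smul]
    simp only [hT, smul_eq_mul, Finset.mul_sum]
    rw [integral_finsetSum]
    · rw [Finset.sum_mul]
      refine Finset.sum_congr rfl fun p _ => ?_
      have : ∀ v : ℝ, Complex.exp (((-2 * Real.pi * v * ξ : ℝ) : ℂ) * Complex.I) *
          (x p * S (v - lam p)) = x p * (Complex.exp (((-2 * Real.pi * v * ξ : ℝ) : ℂ) * Complex.I) *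
          S (v - lam p)) := by
        intro v; ring
      simp only [this]
      rw [integral_const_mul, hone p]
      ring
    · intro p _
      have hcont : Continuous (fun v : ℝ =>
          Complex.exp (((-2 * Real.pi * v * ξ : ℝ) : ℂ) * Complex.I) * (x p * S (v - lam p))) := by
        have := hS'.continuous
        fun_prop
      refine hcont.integrable_of_hasCompactSupport ?_
      exact ((hsh p).mul_left (f := fun _ => x p)).mul_left
  -- the Fourier transform of the derivative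
  have hdint : Integrable (deriv S) := by
    refine Continuous.integrable_of_hasCompactSupport ?_ hc.deriv
    exact hS'.continuous_deriv (by simp)
  have hSint0 : Integrable S := hS'.continuous.integrable_of_hasCompactSupport hc
  have hFd : 𝓕 (deriv S) = fun ξ : ℝ => (2 * Real.pi * Complex.I * ξ) • (𝓕 S ξ) :=
    Real.fourier_deriv hSint0 (hS'.differentiable (by simp)) hdint
  set fd : SchwartzMap ℝ ℂ := SchwartzMap.derivCLM ℂ ℂ f with hfd
  have hfdS : (fd : ℝ → ℂ) = deriv S := by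
    ext v
    simp only [hfd, SchwartzMap.derivCLM_apply, hfS']
  -- Plancherel
  have P1 : ∫ v : ℝ, ‖T v‖ ^ 2 = ∫ ξ : ℝ, ‖𝓕 T ξ‖ ^ 2 := by
    have := SchwartzMap.integral_norm_sq_fourier g
    rw [SchwartzMap.fourier_coe, hgT] at this
    exact this.symm
  have P2 : ∫ v : ℝ, ‖S v‖ ^ 2 = ∫ ξ : ℝ, ‖𝓕 S ξ‖ ^ 2 := by
    have := SchwartzMap.integral_norm_sq_fourier f
    rw [SchwartzMap.fourier_coe, hfS'] at this
    exact this.symm
  have P3 : ∫ v : ℝ, ‖deriv S v‖ ^ 2 = ∫ ξ : ℝ, ‖𝓕 (deriv S) ξ‖ ^ 2 := by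
    have := SchwartzMap.integral_norm_sq_fourier fd
    rw [SchwartzMap.fourier_coe, hfdS] at this
    exact this.symm
  have I2 : ∀ u : SchwartzMap ℝ ℂ, Integrable (fun ξ : ℝ => ‖u ξ‖ ^ 2) := by
    intro u
    have := (u.memLp 2 (volume : Measure ℝ)).integrable_norm_pow (by norm_num)
    simpa using this
  have J2 : Integrable (fun ξ : ℝ => ‖𝓕 S ξ‖ ^ 2) := by
    have := I2 (𝓕 f)
    rw [SchwartzMap.fourier_coe, hfS'] at this
    exact this
  have J3 : Integrable (fun ξ : ℝ => ‖𝓕 (deriv S) ξ‖ ^ 2) := by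
    have := I2 (𝓕 fd)
    rw [SchwartzMap.fourier_coe, hfdS] at this
    exact this
  rw [P1, P2, P3, ← integral_const_mul, ← integral_const_mul, ← integral_add (J2.const_mul _)
    (J3.const_mul _)]
  have J1 : Integrable (fun ξ : ℝ => ‖𝓕 T ξ‖ ^ 2) := by
    have := I2 (𝓕 g)
    rw [SchwartzMap.fourier_coe, hgT] at this
    exact this
  refine integral_mono J1 ((J2.const_mul _).add (J3.const_mul _)) ?_
  intro ξ
  simp only []
  have hpi := Real.pi_pos
  have hMW : ‖∑ p ∈ s, x p * Complex.exp (-(2 * Real.pi * ξ * lam p : ℝ) * Complex.I)‖ ≤ W := by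
    refine (norm_sum_le _ _).trans (le_trans (le_of_eq ?_) hW)
    refine Finset.sum_congr rfl fun p _ => ?_
    rw [norm_mul]
    have : ‖Complex.exp (-(2 * Real.pi * ξ * lam p : ℝ) * Complex.I)‖ = 1 := by
      rw [← Complex.ofReal_neg, Complex.norm_exp_ofReal_mul_I]
    rw [this, mul_one]
  have hd : ‖𝓕 (deriv S) ξ‖ = 2 * Real.pi * |ξ| * ‖𝓕 S ξ‖ := by
    rw [hFd]
    simp only [smul_eq_mul, norm_mul, Complex.norm_I, Complex.norm_real, Real.norm_eq_abs,
      Complex.norm_ofNat, mul_one, abs_of_pos hpi]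
  rw [hFT ξ, norm_mul, mul_pow, hd]
  set M := ‖∑ p ∈ s, x p * Complex.exp (-(2 * Real.pi * ξ * lam p : ℝ) * Complex.I)‖ with hM
  have hM0 : 0 ≤ M := norm_nonneg _
  have hW0 : 0 ≤ W := hM0.trans hMW
  set Fs := ‖𝓕 S ξ‖ with hFs
  have hF0 : 0 ≤ Fs := norm_nonneg _
  rcases le_or_gt |ξ| Ω with hξ | hξ
  · have h1 : M ≤ A := h ξ hξ
    have h2 : M ^ 2 * Fs ^ 2 ≤ A ^ 2 * Fs ^ 2 := by gcongr
    have h3 : 0 ≤ (W / (2 * Real.pi * Ω)) ^ 2 * (2 * Real.pi * |ξ| * Fs) ^ 2 := by positivity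
    linarith
  · have h1 : M ≤ W / (2 * Real.pi * Ω) * (2 * Real.pi * |ξ|) := by
      rw [div_mul_eq_mul_div, le_div_iff₀ (by positivity)]
      calc M * (2 * Real.pi * Ω) ≤ W * (2 * Real.pi * |ξ|) := by gcongr
        _ = _ := rfl
    have h2 : M ^ 2 * Fs ^ 2 ≤ (W / (2 * Real.pi * Ω) * (2 * Real.pi * |ξ|)) ^ 2 * Fs ^ 2 := by
      gcongr
    have h3 : 0 ≤ A ^ 2 * Fs ^ 2 := by positivity
    calc M ^ 2 * Fs ^ 2 ≤ (W / (2 * Real.pi * Ω) * (2 * Real.pi * |ξ|)) ^ 2 * Fs ^ 2 := h2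
      _ = (W / (2 * Real.pi * Ω)) ^ 2 * (2 * Real.pi * |ξ| * Fs) ^ 2 := by ring
      _ ≤ _ := by linarith

end MRD
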