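import Mathlib
import Pool.Agent.Helper72.MRD.Defs

set_option autoImplicit false

/-!
MRD-F02. The smooth cutoff in `v`.

`rho V v = smoothTransition (v - (0.9V - 1)) * smoothTransition (1.2V + 1 - v)` (Mathlib:
`Real.smoothTransition`, `0` for `x ≤ 0`, `1` for `x ≥ 1`, smooth, values in `[0,1]`; its derivative
is bounded: continuous, zero outside `[0,1]`). So `rho = 1` on `[0.9V, 1.2V]`, `rho = 0` outside
`(0.9V - 1, 1.2V + 1)`, `|rho'| ≤ C` with `C` independent of `V`.
`v ↦ FF N phi g v t` is a finite sum of smooth functions with derivative `- FF N (deriv phi) g v t`.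
So `S v = rho V v * FF N phi g v t` is smooth with compact support and
`‖S v‖ ≤ ‖FF N phi g v t‖`, `‖S' v‖ ≤ C ‖FF N phi g v t‖ + ‖FF N (deriv phi) g v t‖`, both zero
outside `Icc (0.9V - 1) (1.2V + 1)`.
-/

namespace MRD

open Finset MRP MeasureTheory

noncomputable def rho (V v : ℝ) : ℝ :=
  Real.smoothTransition (v - (9 / 10 * V - 1)) * Real.smoothTransition (6 / 5 * V + 1 - v)

noncomputable def Sf (V : ℝ) (N : ℕ) (g : ℕ → ℂ) (t v : ℝ) : ℂ :=
  ((rho V v : ℝ) : ℂ) * FF N phi g v t

theorem rho_one (V v : ℝ) (h1 : 9 / 10 * V ≤ v) (h2 : v ≤ 6 / 5 * V) : rho V v = 1 := by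
  unfold rho
  rw [Real.smoothTransition.one_of_one_le (by linarith),
    Real.smoothTransition.one_of_one_le (by linarith), one_mul]

private theorem f02_rho_zero (V v : ℝ) (h : v ∉ Set.Icc (9 / 10 * V - 1) (6 / 5 * V + 1)) :
    rho V v = 0 := by
  unfold rho
  rw [Set.mem_Icc, not_and_or, not_le, not_le] at h
  rcases h with h | h
  · rw [Real.smoothTransition.zero_of_nonpos (by linarith), zero_mul]
  · rw [Real.smoothTransition.zero_of_nonpos (x := 6 / 5 * V + 1 - v) (by linarith), mul_zero]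

private theorem f02_rho_abs (V v : ℝ) : |rho V v| ≤ 1 := by
  unfold rho
  rw [abs_mul, abs_of_nonneg (Real.smoothTransition.nonneg _),
    abs_of_nonneg (Real.smoothTransition.nonneg _)]
  exact mul_le_one₀ (Real.smoothTransition.le_one _) (Real.smoothTransition.nonneg _)
    (Real.smoothTransition.le_one _)

theorem continuous_FF (N : ℕ) (φ : ℝ → ℝ) (hφ : Continuous φ) (g : ℕ → ℂ) :
    Continuous (fun z : ℝ × ℝ => FF N φ g z.1 z.2) := by
  unfold FF DP cut
  refine continuous_finsetSum _ fun n hn => ?_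
  have h1 : Continuous fun z : ℝ × ℝ => cp n z.2 :=
    (continuous_cp (Finset.mem_Icc.mp hn).1).comp continuous_snd
  have h2 : Continuous fun z : ℝ × ℝ => ((φ (Real.log n - z.1) : ℝ) : ℂ) :=
    Complex.continuous_ofReal.comp (hφ.comp (continuous_const.sub continuous_fst))
  exact (continuous_const.mul h2).mul h1

private theorem f02_rho_contDiff (V : ℝ) (n : ℕ) : ContDiff ℝ n (rho V) := by
  have h1 : ContDiff ℝ n fun v : ℝ => Real.smoothTransition (v - (9 / 10 * V - 1)) :=
    Real.smoothTransition.contDiff.comp (contDiff_id.sub contDiff_const)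
  have h2 : ContDiff ℝ n fun v : ℝ => Real.smoothTransition (6 / 5 * V + 1 - v) :=
    Real.smoothTransition.contDiff.comp (contDiff_const.sub contDiff_id)
  exact h1.mul h2

theorem Sf_contDiff (V : ℝ) (N : ℕ) (g : ℕ → ℂ) (t : ℝ) (n : ℕ) :
    ContDiff ℝ n (Sf V N g t) := by
  have h1 : ContDiff ℝ n fun v : ℝ => ((rho V v : ℝ) : ℂ) :=
    Complex.ofRealCLM.contDiff.comp (f02_rho_contDiff V n)
  have h2 : ContDiff ℝ n fun v : ℝ => FF N phi g v t := by
    unfold FF DP cut
    refine ContDiff.sum fun m _ => ?_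
    have h3 : ContDiff ℝ n fun v : ℝ => ((phi (Real.log m - v) : ℝ) : ℂ) := by
      have h4 : ContDiff ℝ n phi := by
        have := contDiff_phi (n : ℕ∞)
        exact_mod_cast this
      exact Complex.ofRealCLM.contDiff.comp (h4.comp (contDiff_const.sub contDiff_id))
    exact (contDiff_const.mul h3).mul contDiff_const
  exact h1.mul h2

theorem Sf_compact (V : ℝ) (N : ℕ) (g : ℕ → ℂ) (t : ℝ) : HasCompactSupport (Sf V N g t) := by
  refine HasCompactSupport.intro (isCompact_Icc (a := 9 / 10 * V - 1) (b := 6 / 5 * V + 1)) ?_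
  intro v hv
  unfold Sf
  rw [f02_rho_zero V v hv]
  simp

private theorem f02_st : ∃ C : ℝ, 0 ≤ C ∧ ∀ x, |deriv Real.smoothTransition x| ≤ C := by
  have hc : Continuous (deriv Real.smoothTransition) :=
    (Real.smoothTransition.contDiff (n := 1)).continuous_deriv (by simp)
  obtain ⟨C0, hC0⟩ := (isCompact_Icc (a := (0 : ℝ)) (b := 1)).exists_bound_of_continuousOn
    hc.continuousOn
  refine ⟨max C0 0, le_max_right _ _, fun x => ?_⟩
  by_cases hx : x ∈ Set.Icc (0 : ℝ) 1
  · exact (hC0 x hx).trans (le_max_left _ _)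
  · rw [Set.mem_Icc, not_and_or, not_le, not_le] at hx
    have h0 : deriv Real.smoothTransition x = 0 := by
      rcases hx with hx | hx
      · have h1 : Real.smoothTransition =ᶠ[nhds x] fun _ => 0 := by
          filter_upwards [Iio_mem_nhds hx] with y hy
          exact Real.smoothTransition.zero_of_nonpos (le_of_lt hy)
        rw [h1.deriv_eq]
        simp
      · have h1 : Real.smoothTransition =ᶠ[nhds x] fun _ => 1 := by
          filter_upwards [Ioi_mem_nhds hx] with y hy
          exact Real.smoothTransition.one_of_one_le (le_of_lt hy)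
        rw [h1.deriv_eq]
        simp
    rw [h0, abs_zero]
    exact le_max_right _ _

private theorem f02_rho_deriv (V v : ℝ) : HasDerivAt (rho V)
    (deriv Real.smoothTransition (v - (9 / 10 * V - 1)) *
        Real.smoothTransition (6 / 5 * V + 1 - v) -
      Real.smoothTransition (v - (9 / 10 * V - 1)) *
        deriv Real.smoothTransition (6 / 5 * V + 1 - v)) v := by
  have hs : ∀ x, HasDerivAt Real.smoothTransition (deriv Real.smoothTransition x) x := fun x =>
    ((Real.smoothTransition.contDiff (n := 1)).differentiable (by simp) x).hasDerivAt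
  have h1 : HasDerivAt (fun v : ℝ => Real.smoothTransition (v - (9 / 10 * V - 1)))
      (deriv Real.smoothTransition (v - (9 / 10 * V - 1)) * 1) v := by
    have h0 : HasDerivAt (fun v : ℝ => v - (9 / 10 * V - 1)) 1 v :=
      (hasDerivAt_id' v).sub_const _
    exact (hs (v - (9 / 10 * V - 1))).comp v h0
  have h2 : HasDerivAt (fun v : ℝ => Real.smoothTransition (6 / 5 * V + 1 - v))
      (deriv Real.smoothTransition (6 / 5 * V + 1 - v) * (-1)) v :=
    (hs (6 / 5 * V + 1 - v)).comp v ((hasDerivAt_id v).const_sub (6 / 5 * V + 1))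
  have h3 := h1.mul h2
  refine h3.congr_deriv ?_
  ring

private theorem f02_FF_deriv (N : ℕ) (g : ℕ → ℂ) (t v : ℝ) :
    HasDerivAt (fun v => FF N phi g v t) (-(FF N (deriv phi) g v t)) v := by
  have h0 : -(FF N (deriv phi) g v t) = ∑ n ∈ Finset.Icc 1 N,
      g n * (((deriv phi (Real.log n - v)) * (-1) : ℝ) : ℂ) * cp n t := by
    unfold FF DP cut
    rw [← Finset.sum_neg_distrib]
    refine Finset.sum_congr rfl fun n _ => ?_
    push_cast
    ring
  rw [h0]
  unfold FF DP cut
  refine HasDerivAt.fun_sum fun n _ => ?_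
  have hd : HasDerivAt phi (deriv phi (Real.log n - v)) (Real.log n - v) :=
    (((contDiff_phi 1).differentiable (by simp)) (Real.log n - v)).hasDerivAt
  have h1 : HasDerivAt (fun v : ℝ => phi (Real.log n - v))
      (deriv phi (Real.log n - v) * (-1)) v :=
    hd.comp v ((hasDerivAt_id v).const_sub (Real.log n))
  exact (h1.ofReal_comp.const_mul (g n)).mul_const (cp n t)

theorem Sf_bound : ∃ C : ℝ, 1 ≤ C ∧ ∀ (V : ℝ) (N : ℕ) (g : ℕ → ℂ) (t v : ℝ),
    ‖Sf V N g t v‖ ^ 2 + ‖deriv (Sf V N g t) v‖ ^ 2 ≤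
      C * (Set.indicator (Set.Icc (9 / 10 * V - 1) (6 / 5 * V + 1))
        (fun v => ‖FF N phi g v t‖ ^ 2 + ‖FF N (deriv phi) g v t‖ ^ 2) v) := by
  obtain ⟨C0, hC0, hb⟩ := f02_st
  refine ⟨2 + 8 * C0 ^ 2, by nlinarith [sq_nonneg C0], ?_⟩
  intro V N g t v
  by_cases hv : v ∈ Set.Icc (9 / 10 * V - 1) (6 / 5 * V + 1)
  · rw [Set.indicator_of_mem hv]
    have h1 := f02_rho_deriv V v
    set ρ' : ℝ := deriv Real.smoothTransition (v - (9 / 10 * V - 1)) *
        Real.smoothTransition (6 / 5 * V + 1 - v) -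
      Real.smoothTransition (v - (9 / 10 * V - 1)) *
        deriv Real.smoothTransition (6 / 5 * V + 1 - v) with hρ'
    have h2 : |ρ'| ≤ 2 * C0 := by
      have h3 : |deriv Real.smoothTransition (v - (9 / 10 * V - 1)) *
        Real.smoothTransition (6 / 5 * V + 1 - v)| ≤ C0 := by
        rw [abs_mul, abs_of_nonneg (Real.smoothTransition.nonneg _)]
        exact (mul_le_of_le_one_right (abs_nonneg _) (Real.smoothTransition.le_one _)).trans
          (hb _)
      have h4 : |Real.smoothTransition (v - (9 / 10 * V - 1)) *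
        deriv Real.smoothTransition (6 / 5 * V + 1 - v)| ≤ C0 := by
        rw [abs_mul, abs_of_nonneg (Real.smoothTransition.nonneg _)]
        exact (mul_le_of_le_one_left (abs_nonneg _) (Real.smoothTransition.le_one _)).trans
          (hb _)
      have h5 := abs_sub (deriv Real.smoothTransition (v - (9 / 10 * V - 1)) *
        Real.smoothTransition (6 / 5 * V + 1 - v)) (Real.smoothTransition (v - (9 / 10 * V - 1)) *
        deriv Real.smoothTransition (6 / 5 * V + 1 - v))
      linarith
    have h6 : deriv (Sf V N g t) v = ((ρ' : ℝ) : ℂ) * FF N phi g v t +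
        ((rho V v : ℝ) : ℂ) * (-(FF N (deriv phi) g v t)) :=
      (h1.ofReal_comp.mul (f02_FF_deriv N g t v)).deriv
    set a : ℝ := ‖FF N phi g v t‖ with ha
    set b : ℝ := ‖FF N (deriv phi) g v t‖ with hbb
    have ha0 : 0 ≤ a := norm_nonneg _
    have hb0 : 0 ≤ b := norm_nonneg _
    have h7 : ‖Sf V N g t v‖ ≤ a := by
      unfold Sf
      rw [norm_mul, Complex.norm_real, Real.norm_eq_abs]
      exact mul_le_of_le_one_left (norm_nonneg _) (f02_rho_abs V v)
    have h8 : ‖deriv (Sf V N g t) v‖ ≤ 2 * C0 * a + b := by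
      rw [h6]
      refine (norm_add_le _ _).trans ?_
      rw [norm_mul, norm_mul, norm_neg, Complex.norm_real, Complex.norm_real, Real.norm_eq_abs,
        Real.norm_eq_abs]
      have h9 : |ρ'| * ‖FF N phi g v t‖ ≤ 2 * C0 * a :=
        mul_le_mul_of_nonneg_right h2 (norm_nonneg _)
      have h10 : |rho V v| * ‖FF N (deriv phi) g v t‖ ≤ b :=
        mul_le_of_le_one_left (norm_nonneg _) (f02_rho_abs V v)
      linarith
    have h11 : ‖Sf V N g t v‖ ^ 2 ≤ a ^ 2 := pow_le_pow_left₀ (norm_nonneg _) h7 2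
    have h12 : ‖deriv (Sf V N g t) v‖ ^ 2 ≤ (2 * C0 * a + b) ^ 2 :=
      pow_le_pow_left₀ (norm_nonneg _) h8 2
    have h13 : (2 * C0 * a + b) ^ 2 ≤ 8 * C0 ^ 2 * a ^ 2 + 2 * b ^ 2 := by
      nlinarith [sq_nonneg (2 * C0 * a - b)]
    nlinarith [sq_nonneg a, sq_nonneg b, mul_nonneg (sq_nonneg C0) (sq_nonneg b)]
  · rw [Set.indicator_of_notMem hv, mul_zero]
    have h1 : Sf V N g t =ᶠ[nhds v] fun _ => 0 := by
      have h2 : (Set.Icc (9 / 10 * V - 1) (6 / 5 * V + 1))ᶜ ∈ nhds v :=
        isClosed_Icc.isOpen_compl.mem_nhds hv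
      filter_upwards [h2] with y hy
      unfold Sf
      rw [f02_rho_zero V y hy]
      simp
    rw [h1.deriv_eq, h1.eq_of_nhds]
    simp

end MRD
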