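import Mathlib
import Pool.Agent.Helper72.MRD.H03
import Pool.Agent.Helper72.MRD.H05
import Pool.Agent.Helper6.MR.UFinal

set_option autoImplicit false

/-!
Project MR, block D, final theorems. The Matomaki-Radziwill theorem at a single scale for the
functions `b (Ω n) χ n`, `b` arbitrary with `|b| ≤ 1` (and allowed to depend on the scale).
-/

namespace MRD

/-- Block D, nonprincipal characters, unconditional. -/
theorem mrchi1x_holds : MRP.MRCHI1x := mrchi1x MRP.U.umain_D

/-- Block D, principal character; the two laws of `Ω` are proved in block F. -/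
theorem mrchi0x_of (h1 : MRP.LAW1x) (h2 : MRP.LAW2x) : MRP.MRCHI0x :=
  mrchi0x MRP.U.umain_D h1 h2

end MRD
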