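import Mathlib
import Pool.Agent.Helper72.MRD.Defs
import Pool.Agent.Helper72.MRD.A06
import Pool.Agent.Helper72.MRD.D06
import Pool.Agent.Helper72.MRD.D07
import Pool.Agent.Helper72.MRD.F04
import Pool.Agent.Helper72.MRD.F05
import Pool.Agent.Helper72.MRD.G02

set_option autoImplicit false

/-!
MRD-G03. The core estimate on a window `1.1V < log n ≤ 1.2V`.

Choice of the parameters, in this order. `c` from `main_set`; `α = min(c/8, 1/2)` (so `8α ≤ c`);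
constants `C` of all lemmas; `δ` a small multiple of `ε`; `m1` with `C/log m1 ≤ δ` (and `m1 ≥` all
the `m0`); `h = exp(m1²)` also with `C e^{-h²/4} ≤ δ` (enlarge `m1`); `A` from `PV_QP`; `T0 ≥ 4` with
`(4π/T0)² ≤ δ`; `d` with `1/W ≤ δ` and `A²/W² ≤ δ` for `W = WS (PV d V) ≥ log(1/(20d)) - C`;
`ε' > 0` with `2 T0 ε'² ≤ δ`; `H0` with `h² ≤ δ H²` for `H ≥ H0`. Given `H`: `V ≥ V0` large (all the
`V0`, `4H² ≤ e^V`, `h ≤ e^V`, `e^{1.2V+5} ≤ N = ⌊e^{2V}⌋₊`, `2√V ≤ V`).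
`exists_level`: `j` with `m = lev m1 j`, `(log V)²/8 ≤ m`, `m² ≤ √V`, so `2m² ≤ V ≤ v`.
`T = e^{1.2V}`, `U = Icc (-T) T \ Sm α (xc χ) m` if `χ ≠ 1` (with `T1 = -1`, `K = 0`), and
`U = (Icc (-T) T \ Sm) ∩ {T0 ≤ |t|}` if `χ = 1` (with `T1 = T0`, `K = ε'`; the hypothesis gives the
bound). `large_measure`: `vol U ≤ e^{8αV} ≤ e^{cV}`. `main_set` with `Ω = T0/(4π)`:
`∫_V^{1.2V} ∫_U ‖Mn‖² ≤ C (A²/W² + (4π/T0)²) V ≤ 2CδV`.
`SS_le` and `II_le` for every `v ∈ [V, 1.2V]`: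
`SS v ≤ C (H² (C δ' + 2 J(v)) + h²)`, `J v = ∫_U ‖Mn v t‖² dt`; integrate over `[V, 1.2V]` (`J` is
interval integrable: continuous, or from the Fubini argument of F04; `SS` is a finite sum of
`const * indicator`): `∫_V^{1.2V} SS ≤ C'' δ H² V`.
Finally each `n` with `1.1V < log n ≤ 1.2V` (then `V ≤ log n - 1`, `V ≥ 10`) contributes
`∫_V^{1.2V} 1_{v < log n ≤ v+1} dv = 1`, so the sum on the left is `≤ ∫_V^{1.2V} SS`.
-/

namespace MRD

open Finset MRP MeasureTheory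

private lemma g03_window (c : ℕ → ℝ) (hc : ∀ n, 0 ≤ c n) (V : ℝ) (hV : 10 ≤ V) (G : ℝ → ℝ)
    (hG : IntervalIntegrable G volume V (6 / 5 * V))
    (h : ∀ v ∈ Set.Icc V (6 / 5 * V), ∑ n ∈ (Finset.Icc 1 ⌊Real.exp (v + 1)⌋₊).filter
      (fun n : ℕ => v < Real.log n), c n ≤ G v) :
    ∑ n ∈ (Finset.Icc 1 ⌊Real.exp (6 / 5 * V)⌋₊).filter
      (fun n : ℕ => 11 / 10 * V < Real.log n), c n ≤ ∫ v in V..(6 / 5 * V), G v := by
  classical
  obtain ⟨R, hR⟩ : ∃ R : Finset ℕ, R = (Finset.Icc 1 ⌊Real.exp (6 / 5 * V)⌋₊).filter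
      (fun n : ℕ => 11 / 10 * V < Real.log n) := ⟨_, rfl⟩
  rw [← hR]
  have hlog : ∀ n ∈ R, 11 / 10 * V < Real.log n ∧ Real.log n ≤ 6 / 5 * V := by
    intro n hn
    rw [hR, Finset.mem_filter, Finset.mem_Icc] at hn
    refine ⟨hn.2, ?_⟩
    have h1 : (0 : ℝ) < n := by exact_mod_cast hn.1.1
    rw [Real.log_le_iff_le_exp h1]
    exact (Nat.le_floor_iff (Real.exp_pos _).le).1 hn.1.2
  have hle : V ≤ 6 / 5 * V := by linarith
  have hint : ∀ n ∈ R, ∫ v in V..(6 / 5 * V),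
      (Set.Ico (Real.log n - 1) (Real.log n)).indicator (fun _ => c n) v = c n := by
    intro n hn
    obtain ⟨h1, h2⟩ := hlog n hn
    rw [intervalIntegral.integral_of_le hle,
      MeasureTheory.setIntegral_indicator measurableSet_Ico, Set.inter_eq_right.2,
      MeasureTheory.setIntegral_const]
    · simp
    · intro v hv
      exact ⟨by linarith [hv.1], by linarith [hv.2]⟩
  have hii : ∀ n ∈ R, IntervalIntegrable (fun v =>
      (Set.Ico (Real.log n - 1) (Real.log n)).indicator (fun _ => c n) v) volume V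
        (6 / 5 * V) := by
    intro n _
    rw [intervalIntegrable_iff_integrableOn_Ioc_of_le hle]
    have h1 : IntegrableOn (fun _ : ℝ => c n) (Set.Ioc V (6 / 5 * V)) volume :=
      integrableOn_const (by simp)
    exact Integrable.indicator h1 measurableSet_Ico
  rw [← Finset.sum_congr rfl hint, ← intervalIntegral.integral_finsetSum hii]
  refine intervalIntegral.integral_mono_on hle ?_ hG ?_
  · have h1 := IntervalIntegrable.sum R hii
    have h2 : (∑ n ∈ R, fun v => (Set.Ico (Real.log n - 1) (Real.log n)).indicator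
        (fun _ => c n) v) = fun v => ∑ n ∈ R, (Set.Ico (Real.log n - 1) (Real.log n)).indicator
        (fun _ => c n) v := by
      funext x
      rw [Finset.sum_apply]
    rw [h2] at h1
    exact h1
  · intro v hv
    refine le_trans ?_ (h v hv)
    have h1 : ∑ n ∈ R, (Set.Ico (Real.log n - 1) (Real.log n)).indicator (fun _ => c n) v =
        ∑ n ∈ R.filter (fun n : ℕ => v ∈ Set.Ico (Real.log n - 1) (Real.log n)), c n := by
      rw [Finset.sum_filter]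
      refine Finset.sum_congr rfl fun n _ => ?_
      rw [Set.indicator_apply]
    rw [h1]
    refine Finset.sum_le_sum_of_subset_of_nonneg ?_ (fun n _ _ => hc n)
    intro n hn
    rw [Finset.mem_filter] at hn
    obtain ⟨hn1, hn2⟩ := hn
    rw [hR, Finset.mem_filter, Finset.mem_Icc] at hn1
    have h0 : (0 : ℝ) < n := by exact_mod_cast hn1.1.1
    rw [Finset.mem_filter, Finset.mem_Icc]
    refine ⟨⟨hn1.1.1, Nat.le_floor ?_⟩, hn2.2⟩
    rw [← Real.log_le_iff_le_exp h0]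
    linarith [hn2.1]

private lemma g03_cont (N : ℕ) (P : Finset ℕ) (hP : ∀ p ∈ P, p.Prime) (g : ℕ → ℂ) {q : ℕ}
    (χ : DirichletCharacter ℂ q) :
    Continuous (fun z : ℝ × ℝ => ‖Mn N P phi g χ z.1 z.2‖ ^ 2) := by
  unfold Mn FF DP cut
  refine (Continuous.norm ?_).pow 2
  refine continuous_const.mul ?_
  refine continuous_finsetSum _ fun p hp => ?_
  refine (continuous_const.mul ((continuous_cp (hP p hp).one_le).comp continuous_snd)).mul ?_
  refine continuous_finsetSum _ fun n hn => ?_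
  refine (continuous_const.mul ?_).mul
    ((continuous_cp (Finset.mem_Icc.mp hn).1).comp continuous_snd)
  exact Complex.continuous_ofReal.comp (continuous_phi.comp (by fun_prop))

private lemma g03_int (F : ℝ × ℝ → ℝ) (hF : Continuous F) (a b T : ℝ) (hab : a ≤ b)
    (U : Set ℝ) (hUT : U ⊆ Set.Icc (-T) T) :
    IntervalIntegrable (fun v => ∫ t in U, F (v, t)) volume a b := by
  rw [intervalIntegrable_iff_integrableOn_Ioc_of_le hab]
  have h1 : IntegrableOn F (Set.Icc a b ×ˢ Set.Icc (-T) T) (volume.prod volume) :=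
    hF.continuousOn.integrableOn_compact (isCompact_Icc.prod isCompact_Icc)
  have h2 : IntegrableOn F (Set.Ioc a b ×ˢ U) (volume.prod volume) :=
    h1.mono_set (Set.prod_mono Set.Ioc_subset_Icc_self hUT)
  rw [IntegrableOn, ← Measure.prod_restrict] at h2
  exact h2.integral_prod_left

private lemma g03_Sm (α : ℝ) (x : ℕ → ℂ) (m : ℕ) : MeasurableSet (Sm α x m) := by
  have hc : ∀ k, Continuous (QP x (slice m k)) := by
    intro k
    unfold QP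
    refine continuous_finsetSum _ fun p hp => ?_
    refine continuous_const.mul (continuous_cp ?_)
    unfold slice at hp
    rw [Finset.mem_filter] at hp
    exact hp.2.1.one_le
  have h : Sm α x m = ⋂ k ∈ Finset.Ico (m ^ 2) (m ^ 3),
      {t | ‖QP x (slice m k) t‖ ≤ Real.exp (-(al α m * ((k : ℝ) / m)))} := by
    ext t
    simp [Sm]
  rw [h]
  refine Finset.measurableSet_biInter _ fun k _ => ?_
  exact (isClosed_le (hc k).norm continuous_const).measurableSet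

private lemma g03_N (V : ℝ) (hV : 10 ≤ V) :
    Real.exp (6 / 5 * V + 5) ≤ (⌊Real.exp (2 * V)⌋₊ : ℝ) := by
  have h1 := Nat.lt_floor_add_one (Real.exp (2 * V))
  have h2 : Real.exp (6 / 5 * V + 5) + 1 ≤ Real.exp (2 * V) := by
    have h3 : Real.exp (6 / 5 * V + 6) ≤ Real.exp (2 * V) := Real.exp_le_exp.2 (by linarith)
    have h4 : Real.exp (6 / 5 * V + 6) = Real.exp 1 * Real.exp (6 / 5 * V + 5) := by
      rw [← Real.exp_add]
      congr 1
      ring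
    have h5 : (2 : ℝ) ≤ Real.exp 1 := by
      have := Real.add_one_le_exp (1 : ℝ)
      linarith
    have h6 : (1 : ℝ) ≤ Real.exp (6 / 5 * V + 5) := by
      rw [← Real.exp_zero]
      exact Real.exp_le_exp.2 (by linarith)
    nlinarith
  linarith

theorem core (hS : SMOOTH psi) (hP : PRIME1) (q : ℕ) (hq : 1 ≤ q) (χ : DirichletCharacter ℂ q)
    (ε : ℝ) (hε : 0 < ε) : ∃ (T0 ε' : ℝ) (H0 : ℕ), 0 < T0 ∧ 0 < ε' ∧ ∀ H : ℕ, H0 ≤ H →
    ∃ V0 : ℝ, 10 ≤ V0 ∧ ∀ V : ℝ, V0 ≤ V → ∀ b : ℕ → ℝ, (∀ k, |b k| ≤ 2) →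
    (χ ≠ 1 ∨ ∀ v : ℝ, V ≤ v → v ≤ 6 / 5 * V → ∀ t : ℝ, |t| ≤ T0 →
      ‖FF ⌊Real.exp (2 * V)⌋₊ phi (fb b χ) v t‖ ≤ ε') →
    ∑ n ∈ (Finset.Icc 1 ⌊Real.exp (6 / 5 * V)⌋₊).filter (fun n : ℕ => 11 / 10 * V < Real.log n),
      (1 / (n : ℝ)) * ‖∑ j ∈ Finset.Icc 1 H, fb b χ (n + j)‖ ^ 2 ≤ ε * (H : ℝ) ^ 2 * V := by
  obtain ⟨CA, hCA, hSS⟩ := SS_le
  obtain ⟨CF, c, VF, hCF, hc, hc1, hVF, hmain⟩ := main_set hS
  obtain ⟨CW, hCW, hWS⟩ := PV_WS
  obtain ⟨A, hA, hQP⟩ := PV_QP hP q hq χ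
  obtain ⟨α, hα0, hα1, hα2⟩ : ∃ α : ℝ, 0 < α ∧ α ≤ 1 / 2 ∧ 8 * α ≤ c := by
    refine ⟨min (c / 8) (1 / 2), by positivity, min_le_right _ _, ?_⟩
    have := min_le_left (c / 8) (1 / 2)
    linarith
  obtain ⟨CG, mG, hCG, hII⟩ := II_le α hα0 hα1
  obtain ⟨VL, hVL, hlarge⟩ := large_measure α hα0 hα1
  obtain ⟨mE, hmE, hlev⟩ := exists_level
  -- the small quantity
  obtain ⟨δ, hδ, hδε⟩ : ∃ δ : ℝ, 0 < δ ∧ CA * (CG + 1 + 4 * CF) * δ ≤ ε := by
    refine ⟨ε / (CA * (CG + 1 + 4 * CF)), by positivity, ?_⟩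
    rw [mul_div_cancel₀]
    positivity
  -- the first level
  obtain ⟨m1, hm1G, hm1E, hm1δ⟩ : ∃ m1 : ℕ, mG ≤ m1 ∧ mE ≤ m1 ∧ Real.exp (1 / δ) ≤ m1 := by
    obtain ⟨n, hn⟩ := exists_nat_ge (Real.exp (1 / δ))
    refine ⟨max n (max mG mE), ?_, ?_, ?_⟩
    · exact (le_max_left _ _).trans (le_max_right _ _)
    · exact (le_max_right _ _).trans (le_max_right _ _)
    · refine hn.trans ?_
      exact_mod_cast le_max_left _ _
  have hm1pos : (0 : ℝ) < m1 := lt_of_lt_of_le (Real.exp_pos _) hm1δ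
  have hm1log : 1 / Real.log m1 ≤ δ := by
    have h1 : 1 / δ ≤ Real.log m1 := (Real.le_log_iff_exp_le hm1pos).2 hm1δ
    have h2 : 0 < 1 / δ := by positivity
    rw [div_le_iff₀ (lt_of_lt_of_le h2 h1)]
    rw [div_le_iff₀ hδ] at h1
    linarith
  obtain ⟨h, hh⟩ : ∃ h : ℝ, h = Real.exp ((m1 : ℝ) ^ 2) := ⟨_, rfl⟩
  have hh1 : 1 ≤ h := by
    rw [hh, ← Real.exp_zero]
    exact Real.exp_le_exp.2 (sq_nonneg _)
  have hhδ : Real.exp (-(h ^ 2 / 4)) ≤ δ := by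
    have h1 : 1 / δ ≤ m1 := by
      have := Real.add_one_le_exp (1 / δ)
      linarith
    have h2 : 2 * (m1 : ℝ) ≤ h := by
      have h3 := Real.add_one_le_exp ((m1 : ℝ) ^ 2)
      rw [hh]
      nlinarith [sq_nonneg ((m1 : ℝ) - 1)]
    have h1' : (1 : ℝ) ≤ m1 := by
      have h3 : m1 ≠ 0 := by
        rintro rfl
        simp at hm1pos
      exact_mod_cast Nat.one_le_iff_ne_zero.2 h3
    have h4 : (m1 : ℝ) ≤ h ^ 2 / 4 := by nlinarith
    have h5 : h ^ 2 / 4 ≤ Real.exp (h ^ 2 / 4) := by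
      have := Real.add_one_le_exp (h ^ 2 / 4)
      linarith
    rw [Real.exp_neg]
    have h6 : 1 / δ ≤ Real.exp (h ^ 2 / 4) := h1.trans (h4.trans h5)
    have h7 := inv_anti₀ (by positivity) h6
    rwa [one_div, inv_inv] at h7
  obtain ⟨VE, hVE, hlev'⟩ := hlev m1 hm1E
  -- the cut of the small frequencies
  obtain ⟨T0, hT0, hT0δ⟩ : ∃ T0 : ℝ, 4 ≤ T0 ∧ 1 / (T0 / (4 * Real.pi)) ^ 2 ≤ δ := by
    refine ⟨max 4 (4 * Real.pi / Real.sqrt δ), le_max_left _ _, ?_⟩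
    have h1 : 1 / Real.sqrt δ ≤ max 4 (4 * Real.pi / Real.sqrt δ) / (4 * Real.pi) := by
      rw [le_div_iff₀ (by positivity)]
      refine le_trans (le_of_eq ?_) (le_max_right _ _)
      ring
    have h2 : (1 / Real.sqrt δ) ^ 2 ≤ (max 4 (4 * Real.pi / Real.sqrt δ) / (4 * Real.pi)) ^ 2 :=
      pow_le_pow_left₀ (by positivity) h1 2
    have h3 : (1 / Real.sqrt δ) ^ 2 = 1 / δ := by
      rw [div_pow, one_pow, Real.sq_sqrt hδ.le]
    rw [h3] at h2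
    have h4 := one_div_le_one_div_of_le (by positivity) h2
    rwa [one_div_one_div] at h4
  -- the range of the primes
  obtain ⟨d, W0, hd0, hd1, hW0, hW1, hW2, hW3⟩ : ∃ d W0 : ℝ, 0 < d ∧ d < 1 / 20 ∧ 0 < W0 ∧
      1 / W0 ≤ δ ∧ A ^ 2 / W0 ^ 2 ≤ δ ∧ W0 ≤ Real.log (1 / (20 * d)) - CW := by
    obtain ⟨W0, hW0⟩ : ∃ W0 : ℝ, W0 = 1 / δ + A / Real.sqrt δ := ⟨_, rfl⟩
    have h1 : 0 < 1 / δ := by positivity
    have h2 : 0 < A / Real.sqrt δ := by positivity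
    have hW0p : 0 < W0 := by rw [hW0]; positivity
    refine ⟨Real.exp (-(W0 + CW)) / 20, W0, by positivity, ?_, hW0p, ?_, ?_, ?_⟩
    · have h3 : Real.exp (-(W0 + CW)) < 1 := by
        rw [Real.exp_lt_one_iff]
        linarith
      linarith
    · have h3 : 1 / δ ≤ W0 := by rw [hW0]; linarith
      have h4 := one_div_le_one_div_of_le h1 h3
      rwa [one_div_one_div] at h4
    · have h3 : A / Real.sqrt δ ≤ W0 := by rw [hW0]; linarith
      rw [div_le_iff₀ (Real.sqrt_pos.2 hδ)] at h3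
      have h4 : A ^ 2 ≤ (W0 * Real.sqrt δ) ^ 2 := pow_le_pow_left₀ hA.le h3 2
      rw [mul_pow, Real.sq_sqrt hδ.le] at h4
      rw [div_le_iff₀ (by positivity)]
      linarith
    · have h3 : 1 / (20 * (Real.exp (-(W0 + CW)) / 20)) = Real.exp (W0 + CW) := by
        rw [Real.exp_neg]
        field_simp
      rw [h3, Real.log_exp]
      linarith
  obtain ⟨VW, hVW, hWS'⟩ := hWS d hd0 hd1
  obtain ⟨VQ, hVQ, hQP'⟩ := hQP d hd0 hd1 T0 hT0
  have hT0pos : 0 < T0 := by linarith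
  obtain ⟨ε', hε', hε'δ⟩ : ∃ ε' : ℝ, 0 < ε' ∧ 2 * T0 * ε' ^ 2 ≤ δ := by
    refine ⟨Real.sqrt (δ / (2 * T0)), by positivity, ?_⟩
    rw [Real.sq_sqrt (by positivity), mul_div_cancel₀ _ (by positivity)]
  obtain ⟨H0, hH0⟩ : ∃ H0 : ℕ, ∀ H : ℕ, H0 ≤ H → 1 ≤ H ∧ h ^ 2 ≤ δ * (H : ℝ) ^ 2 := by
    obtain ⟨n, hn⟩ := exists_nat_ge (h / Real.sqrt δ)
    refine ⟨n + 1, fun H hH => ⟨by omega, ?_⟩⟩
    have h1 : (n : ℝ) ≤ H := by exact_mod_cast (by omega : n ≤ H)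
    have h2 : h / Real.sqrt δ ≤ H := hn.trans h1
    rw [div_le_iff₀ (Real.sqrt_pos.2 hδ)] at h2
    have h3 : h ^ 2 ≤ ((H : ℝ) * Real.sqrt δ) ^ 2 := pow_le_pow_left₀ (by linarith) h2 2
    rw [mul_pow, Real.sq_sqrt hδ.le] at h3
    linarith
  refine ⟨T0, ε', H0, hT0pos, hε', ?_⟩
  intro H hH
  obtain ⟨hH1, hHh⟩ := hH0 H hH
  have hexpv : ∀ v : ℝ, v ≤ Real.exp v := fun v => by
    have := Real.add_one_le_exp v
    linarith
  refine ⟨max 10 (max VF (max VL (max VE (max VW (max VQ (max (4 * (H : ℝ) ^ 2) h)))))),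
    le_max_left _ _, ?_⟩
  intro V hV b hb hyp
  simp only [max_le_iff] at hV
  obtain ⟨hV10, hV1, hV2, hV3, hV4, hV5, hV6, hV7⟩ := hV
  have hle : V ≤ 6 / 5 * V := by linarith
  obtain ⟨j, hj1, hj2, hj3⟩ := hlev' V hV3
  -- frequencies
  obtain ⟨T1, K, hK0, hKb, hK1, hsep⟩ : ∃ T1 K : ℝ, 0 ≤ K ∧
      (∀ v : ℝ, V ≤ v → v ≤ 6 / 5 * V → ∀ t : ℝ, |t| ≤ T1 →
        ‖FF ⌊Real.exp (2 * V)⌋₊ phi (fb b χ) v t‖ ≤ K) ∧
      2 * max T1 0 * K ^ 2 ≤ δ ∧ (∀ t : ℝ, T1 < |t| → (T0 ≤ |t| ∨ χ ≠ 1)) := by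
    by_cases hχ : χ ≠ 1
    · refine ⟨-1, 0, le_refl _, ?_, ?_, fun t _ => Or.inr hχ⟩
      · intro v _ _ t ht
        have := abs_nonneg t
        linarith
      · simp [hδ.le]
    · have hyp' := hyp.resolve_left hχ
      refine ⟨T0, ε', hε'.le, hyp', ?_, fun t ht => Or.inl ht.le⟩
      rw [max_eq_left hT0pos.le]
      exact hε'δ
  obtain ⟨N, hN⟩ : ∃ N : ℕ, N = ⌊Real.exp (2 * V)⌋₊ := ⟨_, rfl⟩
  rw [← hN] at hKb
  have hN5 : Real.exp (6 / 5 * V + 5) ≤ N := by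
    rw [hN]
    exact g03_N V hV10
  obtain ⟨P, hPdef⟩ : ∃ P : Finset ℕ, P = PV d V := ⟨_, rfl⟩
  have hPm : ∀ p ∈ P, p.Prime ∧ Real.log p ≤ V / 10 := by
    rw [hPdef]
    exact PV_mem d V (by linarith)
  have hW : W0 ≤ WS P := by
    rw [hPdef]
    exact hW3.trans (hWS' V hV4)
  have hWpos : 0 < WS P := lt_of_lt_of_le hW0 hW
  obtain ⟨U, hU⟩ : ∃ U : Set ℝ, U = (Set.Icc (-Real.exp (6 / 5 * V)) (Real.exp (6 / 5 * V)) \
      Sm α (xc χ) (lev m1 j)) ∩ {t : ℝ | T1 < |t|} := ⟨_, rfl⟩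
  have hUm : MeasurableSet U := by
    rw [hU]
    refine (measurableSet_Icc.diff (g03_Sm _ _ _)).inter ?_
    exact (isOpen_lt continuous_const continuous_abs).measurableSet
  have hUT : U ⊆ Set.Icc (-Real.exp (6 / 5 * V)) (Real.exp (6 / 5 * V)) := by
    rw [hU]
    exact fun t ht => ht.1.1
  have hUvol : volume.real U ≤ Real.exp (c * V) := by
    have h1 : volume.real U ≤ volume.real (Set.Icc (-Real.exp (6 / 5 * V))
        (Real.exp (6 / 5 * V)) \ Sm α (xc χ) (lev m1 j)) := by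
      refine measureReal_mono ?_ ?_
      · rw [hU]
        exact Set.inter_subset_left
      · refine ne_of_lt (lt_of_le_of_lt (measure_mono Set.sdiff_subset) ?_)
        exact measure_Icc_lt_top
    have h2 : (2 : ℕ) ≤ lev m1 j := (hmE.trans hm1E).trans hj3
    have h3 := hlarge V hV2 (lev m1 j) hj1 hj2 h2 (xc χ)
      (fun p => DirichletCharacter.norm_le_one χ _)
    refine h1.trans (h3.trans (Real.exp_le_exp.2 ?_))
    exact mul_le_mul_of_nonneg_right hα2 (by linarith)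
  have hgb : ∀ n, ‖fb (up 1 b) χ n‖ ≤ 2 := fun n => norm_fb χ (fun m => hb (m + 1)) n
  have hfb : ∀ n, ‖fb b χ n‖ ≤ 2 := fun n => norm_fb χ hb n
  -- the main term
  have hM := hmain V hV1 P hPm hWpos q χ N hN5 (fb (up 1 b) χ) hgb U hUm hUT hUvol A
    (T0 / (4 * Real.pi)) hA.le (by positivity) (by
      intro t ht ξ hξ
      rw [hPdef]
      have ht1 := hUT ht
      rw [hU] at ht
      refine hQP' V hV5 t ?_ (hsep t ht.2) ξ hξ
      rw [abs_le]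
      exact ht1)
  -- integrability
  have hJ : IntervalIntegrable (fun v => ∫ t in U,
      ‖Mn N P phi (fb (up 1 b) χ) χ v t‖ ^ 2) volume V (6 / 5 * V) :=
    g03_int (fun z : ℝ × ℝ => ‖Mn N P phi (fb (up 1 b) χ) χ z.1 z.2‖ ^ 2)
      (g03_cont N P (fun p hp => (hPm p hp).1) _ χ) V (6 / 5 * V) _ hle U hUT
  -- the pointwise bound
  have hsqV : 2 * Real.sqrt V ≤ V := by
    have h1 : Real.sqrt V * Real.sqrt V = V := Real.mul_self_sqrt (by linarith)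
    have h2 : (2 : ℝ) ≤ Real.sqrt V := by
      rw [show (2 : ℝ) = Real.sqrt 4 by
        rw [show (4 : ℝ) = 2 ^ 2 by norm_num, Real.sqrt_sq (by norm_num)]]
      exact Real.sqrt_le_sqrt (by linarith)
    nlinarith [Real.sqrt_nonneg V]
  have hpt : ∀ v ∈ Set.Icc V (6 / 5 * V), ∑ n ∈ (Finset.Icc 1 ⌊Real.exp (v + 1)⌋₊).filter
      (fun n : ℕ => v < Real.log n), (1 / (n : ℝ)) *
        ‖∑ j ∈ Finset.Icc 1 H, fb b χ (n + j)‖ ^ 2 ≤
      CA * (H : ℝ) ^ 2 * (3 * CG + 2) * δ + CA * (H : ℝ) ^ 2 * 2 *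
        (∫ t in U, ‖Mn N P phi (fb (up 1 b) χ) χ v t‖ ^ 2) := by
    intro v hv
    have hvV : V ≤ v := hv.1
    have hv65 : v ≤ 6 / 5 * V := hv.2
    have hNv : Real.exp (v + 4) ≤ N :=
      (Real.exp_le_exp.2 (by linarith)).trans hN5
    have h1 := hSS (fb b χ) hfb H hH1 h hh1 v (hV6.trans (hvV.trans (hexpv v)))
      (hV7.trans (hvV.trans (hexpv v))) N hNv
    have h2 := hII m1 hm1G h (le_of_eq hh.symm) j v (by linarith)
      (hV7.trans (hvV.trans (hexpv v))) b hb q χ N hNv P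
      (fun p hp => ⟨(hPm p hp).1, by linarith [(hPm p hp).2]⟩) hWpos
      (Real.exp (6 / 5 * V)) T1 K (Real.exp_le_exp.2 hv65) hK0 (hKb v hvV hv65) U hUm hUT (by
        intro t ht htS htT
        rw [hU]
        exact ⟨⟨abs_le.1 ht, htS⟩, htT⟩)
    have h3 : 1 / WS P ≤ δ := (one_div_le_one_div_of_le hW0 hW).trans hW1
    have h4 : CG * (1 / Real.log m1 + Real.exp (-(h ^ 2 / 4)) + 1 / WS P) ≤ CG * (3 * δ) :=
      mul_le_mul_of_nonneg_left (by linarith) hCG.le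
    have h5 : II N phi (fb b χ) (h * Real.exp (-v)) v ≤ CG * (3 * δ) + δ +
        2 * ∫ t in U, ‖Mn N P phi (fb (up 1 b) χ) χ v t‖ ^ 2 := by linarith
    have h6 : SS (fb b χ) H v ≤ CA * ((H : ℝ) ^ 2 * (CG * (3 * δ) + δ +
        2 * ∫ t in U, ‖Mn N P phi (fb (up 1 b) χ) χ v t‖ ^ 2) + δ * (H : ℝ) ^ 2) := by
      refine h1.trans (mul_le_mul_of_nonneg_left ?_ hCA.le)
      exact add_le_add (mul_le_mul_of_nonneg_left h5 (by positivity)) hHh
    refine le_trans (le_of_eq rfl) (h6.trans (le_of_eq ?_))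
    ring
  have hfin := g03_window (fun n => (1 / (n : ℝ)) * ‖∑ j ∈ Finset.Icc 1 H, fb b χ (n + j)‖ ^ 2)
    (fun n => by positivity) V hV10 _ (intervalIntegrable_const.add (hJ.const_mul _)) hpt
  refine hfin.trans ?_
  rw [intervalIntegral.integral_add intervalIntegrable_const (hJ.const_mul _),
    intervalIntegral.integral_const, intervalIntegral.integral_const_mul, smul_eq_mul]
  have hWδ : A ^ 2 / (WS P) ^ 2 ≤ δ := by
    refine le_trans ?_ hW2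
    exact div_le_div_of_nonneg_left (by positivity) (by positivity)
      (pow_le_pow_left₀ hW0.le hW 2)
  have h7 : CF * (A ^ 2 / (WS P) ^ 2 + 1 / (T0 / (4 * Real.pi)) ^ 2) * V ≤ CF * (2 * δ) * V := by
    refine mul_le_mul_of_nonneg_right (mul_le_mul_of_nonneg_left (by linarith) hCF.le) ?_
    linarith
  have h8 := hM.trans h7
  have h9 : CA * (H : ℝ) ^ 2 * 2 * (∫ v in V..(6 / 5 * V), (∫ t in U,
      ‖Mn N P phi (fb (up 1 b) χ) χ v t‖ ^ 2)) ≤ CA * (H : ℝ) ^ 2 * 2 * (CF * (2 * δ) * V) :=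
    mul_le_mul_of_nonneg_left h8 (by positivity)
  have h10 : CA * (CG + 1 + 4 * CF) * δ * ((H : ℝ) ^ 2 * V) ≤ ε * ((H : ℝ) ^ 2 * V) :=
    mul_le_mul_of_nonneg_right hδε (by positivity)
  have h11 : (6 / 5 * V - V) * (CA * (H : ℝ) ^ 2 * (3 * CG + 2) * δ) ≤
      CA * (CG + 1) * δ * ((H : ℝ) ^ 2 * V) := by
    have h12 : CA * (CG + 1) * δ * ((H : ℝ) ^ 2 * V) -
        (6 / 5 * V - V) * (CA * (H : ℝ) ^ 2 * (3 * CG + 2) * δ) =
        CA * δ * (H : ℝ) ^ 2 * V * (2 / 5 * CG + 3 / 5) := by ring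
    have h13 : 0 ≤ CA * δ * (H : ℝ) ^ 2 * V * (2 / 5 * CG + 3 / 5) := by positivity
    linarith
  have h14 : CA * (CG + 1 + 4 * CF) * δ * ((H : ℝ) ^ 2 * V) =
      CA * (CG + 1) * δ * ((H : ℝ) ^ 2 * V) + CA * (H : ℝ) ^ 2 * 2 * (CF * (2 * δ) * V) := by
    ring
  linarith

end MRD
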